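import Pool.Agent.Helper95.TS.RowRound

/-!
# Rounding a row, in the variables `v j = 20 (u j - d)` (scale `96000`)
-/

set_option autoImplicit false

namespace Pool.Agent.Helper95.TS

/-- The own cells with the cube. -/
noncomputable def ownv (v : ℝ) : ℝ :=
  4 * (max (-v) 0) ^ 3 + 1200 * min (max (-v) 0) 13 + 120 * (min (max (-v) 0) 13) ^ 2
    - (min (max (-v) 0) 13) ^ 3

/-- The row value (scale `96000`). -/
noncomputable def Rw (v1 v2 v3 : ℝ) : ℝ :=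
  112000 - 6000 * (20 - (v1 + v2 + v3)) + 120 * (20 - (v1 + v2 + v3)) ^ 2
    - (20 - (v1 + v2 + v3)) ^ 3
    - 3 * (40 - (20 - (v1 + v2 + v3))) * (v1 ^ 2 + v2 ^ 2 + v3 ^ 2)
    + (ownv v1 + ownv v2 + ownv v3)

theorem sq_near_eq {x : ℝ} {m : ℤ} (h : Near x m) :
    ((m : ℝ) - x) ^ 2 = (x - ⌊x⌋) * (1 - (x - ⌊x⌋)) + (1 - 2 * (x - ⌊x⌋)) * (m - x) := by
  rcases h.two with rfl | rfl
  · ring
  · push_cast
    ring

theorem ownv_nonneg_zero {v : ℝ} (h : 0 ≤ v) : ownv v = 0 := by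
  unfold ownv
  rw [max_eq_right (by linarith), min_eq_left (by norm_num)]
  norm_num

/-- The own cells: rounding gains. -/
theorem ownv_round (v : ℝ) :
    ∃ s : ℝ, ∀ m : ℤ, Near v m →
      ownv v + (if v < 0 then 120 + 3 * (-v) else 0) * ((m : ℝ) - v) ^ 2
        + s * ((m : ℝ) - v) ≤ ownv m := by
  have hf0 : (⌊v⌋ : ℝ) ≤ v := Int.floor_le v
  have hf1 : v < ⌊v⌋ + 1 := Int.lt_floor_add_one v
  have hn : ∀ m : ℤ, Near v m → m = ⌊v⌋ ∨ m = ⌊v⌋ + 1 := fun m h => h.two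
  suffices H : ∃ s : ℝ, ∀ m : ℤ, (m = ⌊v⌋ ∨ m = ⌊v⌋ + 1) →
      ownv v + (if v < 0 then 120 + 3 * (-v) else 0) * ((m : ℝ) - v) ^ 2
        + s * ((m : ℝ) - v) ≤ ownv m by
    obtain ⟨s, hs⟩ := H
    exact ⟨s, fun m h => hs m (hn m h)⟩
  clear hn
  generalize ⌊v⌋ = n at hf0 hf1 ⊢
  by_cases hn0 : 0 ≤ n
  · have hn : (0 : ℝ) ≤ n := by exact_mod_cast hn0
    refine ⟨0, fun m htwo => ?_⟩
    have hm : (0 : ℝ) ≤ (m : ℝ) := by
      rcases htwo with rfl | rfl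
      · exact hn
      · push_cast; linarith
    rw [if_neg (by linarith), ownv_nonneg_zero (by linarith), ownv_nonneg_zero hm]
    norm_num
  · have hn1 : n ≤ -1 := by omega
    have hn : (n : ℝ) ≤ -1 := by exact_mod_cast hn1
    have hv : v < 0 := by linarith
    rw [if_pos hv]
    by_cases hc : n ≤ -14
    · have hn14 : (n : ℝ) ≤ -14 := by exact_mod_cast hc
      have k0 : ownv v = 4 * (-v) ^ 3 + 1200 * 13 + 120 * 13 ^ 2 - 13 ^ 3 := by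
        unfold ownv
        rw [max_eq_left (by linarith), min_eq_right (by linarith)]
      have kn : ownv n = 4 * (-n : ℝ) ^ 3 + 1200 * 13 + 120 * 13 ^ 2 - 13 ^ 3 := by
        unfold ownv
        rw [max_eq_left (by linarith), min_eq_right (by linarith)]
      have kn1 : ownv ((n + 1 : ℤ) : ℝ) =
          4 * (-(n + 1) : ℝ) ^ 3 + 1200 * 13 + 120 * 13 ^ 2 - 13 ^ 3 := by
        unfold ownv
        push_cast
        rw [max_eq_left (by linarith), min_eq_right (by linarith)]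
      have g : 0 ≤ (v - n) * (1 - (v - n)) *
          (4 * (3 * (-n) - 1 - (v - n)) - (120 + 3 * (-v))) := by
        apply mul_nonneg (mul_nonneg _ _) <;> linarith
      refine ⟨ownv ((n + 1 : ℤ) : ℝ) - ownv n - (120 + 3 * (-v)) * (1 - 2 * (v - n)),
        fun m htwo => ?_⟩
      rcases htwo with rfl | rfl
      · rw [k0, kn1, kn]
        nlinarith [g]
      · rw [k0, kn1, kn]
        push_cast
        nlinarith [g]
    · have hn14 : (-13 : ℝ) ≤ n := by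
        have : -13 ≤ n := by omega
        exact_mod_cast this
      have k0 : ownv v = 4 * (-v) ^ 3 + 1200 * (-v) + 120 * (-v) ^ 2 - (-v) ^ 3 := by
        unfold ownv
        rw [max_eq_left (by linarith), min_eq_left (by linarith)]
      have kn : ownv n = 4 * (-n : ℝ) ^ 3 + 1200 * (-n) + 120 * (-n) ^ 2 - (-n : ℝ) ^ 3 := by
        unfold ownv
        rw [max_eq_left (by linarith), min_eq_left (by linarith)]
      have kn1 : ownv ((n + 1 : ℤ) : ℝ) = 4 * (-(n + 1) : ℝ) ^ 3 + 1200 * (-(n + 1))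
          + 120 * (-(n + 1)) ^ 2 - (-(n + 1) : ℝ) ^ 3 := by
        unfold ownv
        push_cast
        rw [max_eq_left (by linarith), min_eq_left (by linarith)]
      have g : 0 ≤ (v - n) * (1 - (v - n)) *
          (120 + 3 * (3 * (-n) - 1 - (v - n)) - (120 + 3 * (-v))) := by
        apply mul_nonneg (mul_nonneg _ _) <;> linarith
      refine ⟨ownv ((n + 1 : ℤ) : ℝ) - ownv n - (120 + 3 * (-v)) * (1 - 2 * (v - n)),
        fun m htwo => ?_⟩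
      rcases htwo with rfl | rfl
      · rw [k0, kn1, kn]
        nlinarith [g]
      · rw [k0, kn1, kn]
        push_cast
        nlinarith [g]

theorem cross_abs (v x y : ℝ) : -(3 * |v| * (x ^ 2 + y ^ 2)) ≤ 6 * y * (v * x) := by
  have h1 : |v * (x * y)| = |v| * |x * y| := abs_mul _ _
  have h2 : |x * y| ≤ (x ^ 2 + y ^ 2) / 2 := by
    rw [abs_le]
    constructor
    · nlinarith [sq_nonneg (x + y)]
    · nlinarith [sq_nonneg (x - y)]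
  have h3 := neg_abs_le (v * (x * y))
  have h4 := mul_le_mul_of_nonneg_left h2 (abs_nonneg v)
  nlinarith

/-- The coefficient of the square of the displacement. -/
noncomputable def Acol (v : ℝ) : ℝ := if v < 0 then 0 else 120 + 3 * v

theorem Acol_nonneg (v : ℝ) : 0 ≤ Acol v := by
  unfold Acol
  split_ifs with h
  · exact le_rfl
  · linarith

/-- One column. -/
theorem col_round {v x y G : ℝ} (hG : G = if v < 0 then 120 + 3 * (-v) else 0) :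
    -(Acol v * x ^ 2) - 3 * |v| * y ^ 2 ≤ -120 * x ^ 2 + 6 * y * (v * x) + G * x ^ 2 := by
  have h := cross_abs v x y
  unfold Acol
  by_cases hv : v < 0
  · rw [if_pos hv] at hG ⊢
    rw [abs_of_neg hv] at h ⊢
    subst hG
    nlinarith
  · rw [if_neg hv] at hG ⊢
    rw [abs_of_nonneg (by linarith)] at h ⊢
    subst hG
    nlinarith

theorem K_le {v1 v2 v3 : ℝ} (a1 : -20 ≤ v1) (b1 : v1 ≤ 20) (a2 : -20 ≤ v2) (b2 : v2 ≤ 20)
    (a3 : -20 ≤ v3) (b3 : v3 ≤ 20) (hS : v1 + v2 + v3 ≤ 20) :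
    Acol v1 + Acol v2 + Acol v3 + max (3 * (|v1| + |v2| + |v3|) - 89) 0 ≤ 452 := by
  unfold Acol
  rcases lt_or_ge v1 0 with h1 | h1 <;> rcases lt_or_ge v2 0 with h2 | h2 <;>
    rcases lt_or_ge v3 0 with h3 | h3
  all_goals
    first | rw [abs_of_neg h1, if_pos h1] | rw [abs_of_nonneg h1, if_neg (not_lt.2 h1)]
    first | rw [abs_of_neg h2, if_pos h2] | rw [abs_of_nonneg h2, if_neg (not_lt.2 h2)]
    first | rw [abs_of_neg h3, if_pos h3] | rw [abs_of_nonneg h3, if_neg (not_lt.2 h3)]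
    rcases le_total (3 * (_ : ℝ) - 89) 0 with hm | hm
    · rw [max_eq_right hm]
      linarith
    · rw [max_eq_left hm]
      linarith

/-- **Rounding a row** (scale `96000`, loss `113`). -/
theorem Rw_round {v1 v2 v3 : ℝ} (a1 : -20 ≤ v1) (b1 : v1 ≤ 20) (a2 : -20 ≤ v2) (b2 : v2 ≤ 20)
    (a3 : -20 ≤ v3) (b3 : v3 ≤ 20) (hS1 : 10 ≤ v1 + v2 + v3) (hS : v1 + v2 + v3 ≤ 20) :
    ∃ c : Fin 3 → ℝ, ∀ t : ℝ, 0 ≤ t → t < 1 →
      Rw v1 v2 v3 ≤ Rw ⌊v1 + t⌋ ((⌊v1 + v2 + t⌋ : ℝ) - ⌊v1 + t⌋)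
          ((⌊v1 + v2 + v3 + t⌋ : ℝ) - ⌊v1 + v2 + t⌋) + 113
        + c 0 * ((⌊v1 + t⌋ : ℝ) - v1) + c 1 * ((⌊v1 + v2 + t⌋ : ℝ) - (v1 + v2))
        + c 2 * ((⌊v1 + v2 + v3 + t⌋ : ℝ) - (v1 + v2 + v3)) := by
  obtain ⟨s1, hs1⟩ := ownv_round v1
  obtain ⟨s2, hs2⟩ := ownv_round v2
  obtain ⟨s3, hs3⟩ := ownv_round v3
  obtain ⟨e, he⟩ : ∃ e, e = 20 - (v1 + v2 + v3) := ⟨_, rfl⟩
  obtain ⟨B, hB⟩ : ∃ B, B = max (3 * (|v1| + |v2| + |v3|) - 89) 0 := ⟨_, rfl⟩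
  have hK := K_le a1 b1 a2 b2 a3 b3 hS
  rw [← hB] at hK
  obtain ⟨L1, hL1⟩ : ∃ L, L = -6 * (40 - e) * v1 + s1 - Acol v1 * (1 - 2 * (v1 - ⌊v1⌋)) := ⟨_, rfl⟩
  obtain ⟨L2, hL2⟩ : ∃ L, L = -6 * (40 - e) * v2 + s2 - Acol v2 * (1 - 2 * (v2 - ⌊v2⌋)) := ⟨_, rfl⟩
  obtain ⟨L3, hL3⟩ : ∃ L, L = -6 * (40 - e) * v3 + s3 - Acol v3 * (1 - 2 * (v3 - ⌊v3⌋)) := ⟨_, rfl⟩
  obtain ⟨L0, hL0⟩ : ∃ L, L = (-6000 + 240 * e - 3 * e ^ 2 + 3 * (v1 ^ 2 + v2 ^ 2 + v3 ^ 2))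
    - B * (1 - 2 * (e - ⌊e⌋)) := ⟨_, rfl⟩
  refine ⟨![L2 - L1, L3 - L2, L0 - L3], fun t t0 t1 => ?_⟩
  simp only [Matrix.cons_val_zero, Matrix.cons_val_one, Matrix.cons_val]
  have n1 : Near v1 ⌊v1 + t⌋ := near_floor_t t0 t1 v1
  have n2 : Near v2 (⌊v1 + v2 + t⌋ - ⌊v1 + t⌋) := by
    have := near_floor_sub (v1 + t) v2
    rwa [show v1 + t + v2 = v1 + v2 + t by ring] at this
  have n3 : Near v3 (⌊v1 + v2 + v3 + t⌋ - ⌊v1 + v2 + t⌋) := by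
    have := near_floor_sub (v1 + v2 + t) v3
    rwa [show v1 + v2 + t + v3 = v1 + v2 + v3 + t by ring] at this
  have n0 : Near e (20 - ⌊v1 + v2 + v3 + t⌋) := by
    have h := near_neg_floor t0 t1 e
    have e20 : ⌊v1 + v2 + v3 + t⌋ = 20 + ⌊-e + t⌋ := by
      rw [show v1 + v2 + v3 + t = ((20 : ℤ) : ℝ) + (-e + t) by rw [he]; push_cast; ring,
        Int.floor_intCast_add]
    rw [e20]
    convert h using 1
    ring
  generalize ⌊v1 + t⌋ = p at *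
  generalize ⌊v1 + v2 + t⌋ = q at *
  generalize ⌊v1 + v2 + v3 + t⌋ = r at *
  have o1 := hs1 p n1
  have o2 := hs2 (q - p) n2
  have o3 := hs3 (r - q) n3
  have q1 := sq_near n1
  have q2 := sq_near n2
  have q3 := sq_near n3
  have q0 := sq_near n0
  have hr20 : (0 : ℝ) ≤ 20 - (r : ℝ) := by
    have : (0 : ℤ) ≤ 20 - r := n0.ge_of_ge (by push_cast; linarith)
    have h2 : (0 : ℝ) ≤ ((20 - r : ℤ) : ℝ) := by exact_mod_cast this
    push_cast at h2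
    exact h2
  have hη := n0.abs_lt
  push_cast at o1 o2 o3 q1 q2 q3 q0 hη
  obtain ⟨x, hx⟩ : ∃ x, x = (p : ℝ) - v1 := ⟨_, rfl⟩
  obtain ⟨y, hy⟩ : ∃ y, y = ((q : ℝ) - p) - v2 := ⟨_, rfl⟩
  obtain ⟨z, hz⟩ : ∃ z, z = ((r : ℝ) - q) - v3 := ⟨_, rfl⟩
  obtain ⟨η, hη0⟩ : ∃ η, η = (20 - (r : ℝ)) - e := ⟨_, rfl⟩
  rw [← hx] at o1 q1
  rw [← hy] at o2 q2
  rw [← hz] at o3 q3
  rw [← hη0] at q0 hη
  have c1 := col_round (v := v1) (x := x) (y := η) rfl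
  have c2 := col_round (v := v2) (x := y) (y := η) rfl
  have c3 := col_round (v := v3) (x := z) (y := η) rfl
  have m1 := mul_le_mul_of_nonneg_left q1 (Acol_nonneg v1)
  have m2 := mul_le_mul_of_nonneg_left q2 (Acol_nonneg v2)
  have m3 := mul_le_mul_of_nonneg_left q3 (Acol_nonneg v3)
  have hB0 : 0 ≤ B := by rw [hB]; exact le_max_right _ _
  have m0 := mul_le_mul_of_nonneg_left q0 hB0
  have hBη : (3 * (|v1| + |v2| + |v3|) - 89) * η ^ 2 ≤ B * η ^ 2 := by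
    apply mul_le_mul_of_nonneg_right _ (sq_nonneg _)
    rw [hB]
    exact le_max_left _ _
  have hη2 := (abs_le.1 hη).2
  have w1 : 89 * η ^ 2 ≤ (120 - 3 * e - η) * η ^ 2 := by
    apply mul_le_mul_of_nonneg_right _ (sq_nonneg _)
    linarith
  have w2 : 0 ≤ 3 * (20 - (r : ℝ)) * (x ^ 2 + y ^ 2 + z ^ 2) := by positivity
  have e0 : (20 : ℝ) - r = e + η := by rw [hη0]; ring
  have ep : (p : ℝ) = v1 + x := by rw [hx]; ring
  have eq2 : (q : ℝ) - p = v2 + y := by rw [hy]; ring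
  have er : (r : ℝ) - q = v3 + z := by rw [hz]; ring
  have hsum : x + y + z = -η := by rw [hx, hy, hz, hη0, he]; ring
  have t1' : (q : ℝ) - (v1 + v2) = x + y := by rw [hx, hy]; ring
  have t2' : (r : ℝ) - (v1 + v2 + v3) = -η := by rw [hη0, he]; ring
  have hRv : Rw v1 v2 v3 = 112000 - 6000 * e + 120 * e ^ 2 - e ^ 3
      - 3 * (40 - e) * (v1 ^ 2 + v2 ^ 2 + v3 ^ 2) + (ownv v1 + ownv v2 + ownv v3) := by
    unfold Rw
    rw [← he]
  have hRg : Rw p ((q : ℝ) - p) ((r : ℝ) - q) = 112000 - 6000 * (e + η) + 120 * (e + η) ^ 2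
      - (e + η) ^ 3
      - 3 * (40 - (e + η)) * ((v1 + x) ^ 2 + (v2 + y) ^ 2 + (v3 + z) ^ 2)
      + (ownv p + ownv ((q : ℝ) - p) + ownv ((r : ℝ) - q)) := by
    unfold Rw
    have hq : (p : ℝ) ^ 2 + ((q : ℝ) - p) ^ 2 + ((r : ℝ) - q) ^ 2 =
        (v1 + x) ^ 2 + (v2 + y) ^ 2 + (v3 + z) ^ 2 := by rw [← ep, ← eq2, ← er]
    rw [show (20 : ℝ) - (p + (q - p) + (r - q)) = e + η by rw [← e0]; ring, hq]
  rw [hRv, hRg, t1', t2']
  rw [e0] at w2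
  have expand : 112000 - 6000 * (e + η) + 120 * (e + η) ^ 2 - (e + η) ^ 3
      - 3 * (40 - (e + η)) * ((v1 + x) ^ 2 + (v2 + y) ^ 2 + (v3 + z) ^ 2)
      = (112000 - 6000 * e + 120 * e ^ 2 - e ^ 3
        - 3 * (40 - e) * (v1 ^ 2 + v2 ^ 2 + v3 ^ 2))
      + (-6000 + 240 * e - 3 * e ^ 2 + 3 * (v1 ^ 2 + v2 ^ 2 + v3 ^ 2)) * η
      - 6 * (40 - e) * (v1 * x + v2 * y + v3 * z)
      + (120 - 3 * e - η) * η ^ 2
      + (6 * η * (v1 * x) + 6 * η * (v2 * y) + 6 * η * (v3 * z))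
      - 120 * (x ^ 2 + y ^ 2 + z ^ 2) + 3 * (e + η) * (x ^ 2 + y ^ 2 + z ^ 2) := by ring
  rw [expand]
  have lin : (L2 - L1) * x + (L3 - L2) * (x + y) + (L0 - L3) * (-η)
      = -(L1 * x + L2 * y + L3 * z + L0 * η) := by
    have : z = -η - x - y := by linarith
    rw [this]
    ring
  have hx1 : (p : ℝ) - v1 = x := hx.symm
  rw [hx1]
  have lin2 : 112000 - 6000 * e + 120 * e ^ 2 - e ^ 3
        - 3 * (40 - e) * (v1 ^ 2 + v2 ^ 2 + v3 ^ 2) + (ownv v1 + ownv v2 + ownv v3) ≤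
      (112000 - 6000 * e + 120 * e ^ 2 - e ^ 3
        - 3 * (40 - e) * (v1 ^ 2 + v2 ^ 2 + v3 ^ 2))
      + (-6000 + 240 * e - 3 * e ^ 2 + 3 * (v1 ^ 2 + v2 ^ 2 + v3 ^ 2)) * η
      - 6 * (40 - e) * (v1 * x + v2 * y + v3 * z)
      + (120 - 3 * e - η) * η ^ 2
      + (6 * η * (v1 * x) + 6 * η * (v2 * y) + 6 * η * (v3 * z))
      - 120 * (x ^ 2 + y ^ 2 + z ^ 2) + 3 * (e + η) * (x ^ 2 + y ^ 2 + z ^ 2)
      + (ownv p + ownv ((q : ℝ) - p) + ownv ((r : ℝ) - q)) + 113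
      - (L1 * x + L2 * y + L3 * z + L0 * η) := by
    rw [hL1, hL2, hL3, hL0]
    linarith
  linarith

end Pool.Agent.Helper95.TS
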