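import Pool.Agent.Helper44.TS.MixCu
import Pool.Agent.Helper95.TS.RowRw

/-!
# Rounding the main cell of the tall class
-/

set_option autoImplicit false

namespace Pool.Agent.Helper95.TS

open Pool.Agent.Helper44.TS Pool.Agent.Helper62.NE

/-- the second order bound, pointwise -/
theorem RM_core {v1 v2 v3 x y w e η : ℝ} (he : e = 20 - (v1 + v2 + v3))
    (hz : v1 + e / 2 ≤ 0) (hη : η = -(x + y + w)) (x1 : |x| ≤ 1) (η1 : |η| ≤ 1) :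
    RM v1 v2 v3 + (-6000 + 240 * e - 3 * e ^ 2 + 3 * (v1 ^ 2 + v2 ^ 2 + v3 ^ 2)) * η
        - 6 * (40 - e) * (v1 * x + v2 * y + v3 * w)
        - 3 / 2 * (e + 2 * v1) ^ 2 * (2 * x + η)
        - ((123 - 3 * e) * (x ^ 2 + y ^ 2 + w ^ 2) - (119 - 3 * e) * η ^ 2
          - 6 * η * (v1 * x + v2 * y + v3 * w)
          - 3 / 2 * (-e - 2 * v1 - 1) * (2 * x + η) ^ 2) ≤
      RM (v1 + x) (v2 + y) (v3 + w) := by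
  have x2 := abs_le.1 x1
  have η2 := abs_le.1 η1
  unfold RM pR
  have r1 : v1 + v2 + v3 - 20 - 2 * v1 = -e - 2 * v1 := by rw [he]; ring
  have r2 : v1 + x + (v2 + y) + (v3 + w) - 20 - 2 * (v1 + x) = -e - 2 * v1 - (2 * x + η) := by
    rw [he, hη]; ring
  have r3 : 20 - (v1 + v2 + v3) = e := he.symm
  have r4 : 20 - (v1 + x + (v2 + y) + (v3 + w)) = e + η := by rw [he, hη]; ring
  rw [r1, r2, r3, r4, max_eq_left (show 0 ≤ -e - 2 * v1 by linarith)]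
  obtain ⟨δ, hδ⟩ : ∃ δ, δ = 2 * x + η := ⟨_, rfl⟩
  obtain ⟨z, hzz⟩ : ∃ z, z = -e - 2 * v1 := ⟨_, rfl⟩
  rw [← hδ, ← hzz, show e + 2 * v1 = -z by rw [hzz]; ring]
  have c1 : (z - δ) ^ 3 ≤ (max (z - δ) 0) ^ 3 := by
    rcases le_total (z - δ) 0 with h | h
    · rw [max_eq_right h]
      have : 0 ≤ (-(z - δ)) ^ 3 := pow_nonneg (by linarith) 3
      nlinarith
    · rw [max_eq_left h]
  have c2 : 0 ≤ (3 - δ) * δ ^ 2 := mul_nonneg (by rw [hδ]; linarith) (sq_nonneg _)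
  have c3 : 0 ≤ (1 - η) * η ^ 2 := mul_nonneg (by linarith) (sq_nonneg _)
  have c4 : 0 ≤ 3 * (1 + η) * (x ^ 2 + y ^ 2 + w ^ 2) := mul_nonneg (by linarith) (by positivity)
  nlinarith [c1, c2, c3, c4]

/-- a coefficient times a square -/
theorem coef_sq {x C : ℝ} {m : ℤ} (h : Near x m) :
    C * ((m : ℝ) - x) ^ 2 ≤ max C 0 / 4 + C * (1 - 2 * (x - ⌊x⌋)) * (m - x) := by
  rw [sq_near_eq h]
  have v0 : 0 ≤ (x - ⌊x⌋) * (1 - (x - ⌊x⌋)) := by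
    have h1 := Int.floor_le x
    have h2 := Int.lt_floor_add_one x
    exact mul_nonneg (by linarith) (by linarith)
  have v1 : (x - ⌊x⌋) * (1 - (x - ⌊x⌋)) ≤ 1 / 4 := by nlinarith [sq_nonneg (x - ⌊x⌋ - 1 / 2)]
  have k : C * ((x - ⌊x⌋) * (1 - (x - ⌊x⌋))) ≤ max C 0 / 4 := by
    have a1 : C * ((x - ⌊x⌋) * (1 - (x - ⌊x⌋))) ≤ max C 0 * ((x - ⌊x⌋) * (1 - (x - ⌊x⌋))) :=
      mul_le_mul_of_nonneg_right (le_max_left _ _) v0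
    have a2 := mul_le_mul_of_nonneg_left v1 (le_max_right C 0)
    linarith
  nlinarith

theorem coef_sum {v1 v2 v3 e : ℝ} (e0 : 0 ≤ e) (h1 : v1 ≤ -13)
    (h2 : 0 ≤ v2) (h3 : 0 ≤ v3) (t2 : v2 + e / 2 ≤ 20) (t3 : v3 + e / 2 ≤ 20) :
    max (126 + 9 * v1 - 3 * v2) 0 + max (3 * v2 - 3 * v3) 0 + max (-(241 / 2) + 3 / 2 * e + 3 * v3) 0
      + max (123 - 3 * e) 0 + max (123 - 3 * e - 3 * v2 + 3 * v3) 0 + max (63 - 3 * v3) 0 ≤ 320 := by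
  rw [max_eq_right (show -(241 / 2) + 3 / 2 * e + 3 * v3 ≤ 0 by linarith)]
  have a1 : max (126 + 9 * v1 - 3 * v2) 0 ≤ 9 := max_le (by linarith) (by norm_num)
  have a2 : max (123 - 3 * e) 0 ≤ 123 := max_le (by linarith) (by norm_num)
  rcases le_total v3 v2 with h | h
  · rw [max_eq_left (show (0 : ℝ) ≤ 3 * v2 - 3 * v3 by linarith)]
    have a3 : max (63 - 3 * v3) 0 ≤ 63 := max_le (by linarith) (by norm_num)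
    have a4 : max (123 - 3 * e - 3 * v2 + 3 * v3) 0 ≤ 123 - (3 * v2 - 3 * v3) :=
      max_le (by linarith) (by linarith)
    linarith
  · rw [max_eq_right (show 3 * v2 - 3 * v3 ≤ 0 by linarith),
      max_eq_left (show (0 : ℝ) ≤ 63 - 3 * v3 by linarith)]
    have a4 : max (123 - 3 * e - 3 * v2 + 3 * v3) 0 ≤ 123 - 3 * v2 + 3 * v3 :=
      max_le (by linarith) (by linarith)
    linarith

/-- **Rounding the tall main cell** (scale `96000`, loss `80`), order `v1, v2, v3`. -/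
theorem RM_round {v1 v2 v3 : ℝ} (h1 : v1 ≤ -13) (e0 : v1 + v2 + v3 ≤ 20)
    (hz : v1 + (20 - (v1 + v2 + v3)) / 2 ≤ 0) (t2 : v2 + (20 - (v1 + v2 + v3)) / 2 ≤ 20)
    (t3 : v3 + (20 - (v1 + v2 + v3)) / 2 ≤ 20) :
    ∃ c : Fin 3 → ℝ, ∀ t : ℝ, 0 ≤ t → t < 1 →
      RM v1 v2 v3 ≤ RM ⌊v1 + t⌋ ((⌊v1 + v2 + t⌋ : ℝ) - ⌊v1 + t⌋)
          ((⌊v1 + v2 + v3 + t⌋ : ℝ) - ⌊v1 + v2 + t⌋) + 80
        + c 0 * ((⌊v1 + t⌋ : ℝ) - v1) + c 1 * ((⌊v1 + v2 + t⌋ : ℝ) - (v1 + v2))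
        + c 2 * ((⌊v1 + v2 + v3 + t⌋ : ℝ) - (v1 + v2 + v3)) := by
  obtain ⟨e, he⟩ : ∃ e, e = 20 - (v1 + v2 + v3) := ⟨_, rfl⟩
  rw [← he] at hz t2 t3
  have hC := coef_sum (v1 := v1) (v2 := v2) (v3 := v3) (e := e) (by linarith) h1 (by linarith) (by linarith) t2 t3
  obtain ⟨C1, hC1⟩ : ∃ C, C = 126 + 9 * v1 - 3 * v2 := ⟨_, rfl⟩
  obtain ⟨C2, hC2⟩ : ∃ C, C = 3 * v2 - 3 * v3 := ⟨_, rfl⟩
  obtain ⟨C3, hC3⟩ : ∃ C, C = -(241 / 2) + 3 / 2 * e + 3 * v3 := ⟨_, rfl⟩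
  obtain ⟨C4, hC4⟩ : ∃ C, C = 123 - 3 * e := ⟨_, rfl⟩
  obtain ⟨C5, hC5⟩ : ∃ C, C = 123 - 3 * e - 3 * v2 + 3 * v3 := ⟨_, rfl⟩
  obtain ⟨C6, hC6⟩ : ∃ C, C = 63 - 3 * v3 := ⟨_, rfl⟩
  rw [← hC1, ← hC2, ← hC3, ← hC5, ← hC4, ← hC6] at hC
  -- the slopes
  obtain ⟨g1, hg1⟩ : ∃ g, g = C1 * (1 - 2 * (v1 - ⌊v1⌋)) := ⟨_, rfl⟩
  obtain ⟨g2, hg2⟩ : ∃ g, g = C2 * (1 - 2 * ((v1 + v2) - ⌊v1 + v2⌋)) := ⟨_, rfl⟩
  obtain ⟨g3, hg3⟩ : ∃ g, g = C3 * (1 - 2 * ((v1 + v2 + v3) - ⌊v1 + v2 + v3⌋)) := ⟨_, rfl⟩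
  obtain ⟨g4, hg4⟩ : ∃ g, g = C4 * (1 - 2 * (v2 - ⌊v2⌋)) := ⟨_, rfl⟩
  obtain ⟨g5, hg5⟩ : ∃ g, g = C5 * (1 - 2 * (v3 - ⌊v3⌋)) := ⟨_, rfl⟩
  obtain ⟨g6, hg6⟩ : ∃ g, g = C6 * (1 - 2 * ((v2 + v3) - ⌊v2 + v3⌋)) := ⟨_, rfl⟩
  obtain ⟨Le, hLe⟩ : ∃ L, L = -6000 + 240 * e - 3 * e ^ 2 + 3 * (v1 ^ 2 + v2 ^ 2 + v3 ^ 2)
    - 3 / 2 * (e + 2 * v1) ^ 2 := ⟨_, rfl⟩
  obtain ⟨L1, hL1⟩ : ∃ L, L = -6 * (40 - e) * v1 - 3 * (e + 2 * v1) ^ 2 := ⟨_, rfl⟩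
  obtain ⟨L2, hL2⟩ : ∃ L, L = -6 * (40 - e) * v2 := ⟨_, rfl⟩
  obtain ⟨L3, hL3⟩ : ∃ L, L = -6 * (40 - e) * v3 := ⟨_, rfl⟩
  -- RM' ≥ RM + Le η + L1 x + L2 y + L3 w - Q, Q ≤ 80 + slopes
  refine ⟨![-(L1 - L2) + g1 - g4 - g6, -(L2 - L3) + g2 + g4 - g5, -(L3 - Le) + g3 + g5 + g6],
    fun t t0 t1 => ?_⟩
  simp only [Matrix.cons_val_zero, Matrix.cons_val_one, Matrix.cons_val]
  have n1 : Near v1 ⌊v1 + t⌋ := near_floor_t t0 t1 v1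
  have n2 : Near (v1 + v2) ⌊v1 + v2 + t⌋ := near_floor_t t0 t1 _
  have n3 : Near (v1 + v2 + v3) ⌊v1 + v2 + v3 + t⌋ := near_floor_t t0 t1 _
  have n4 : Near v2 (⌊v1 + v2 + t⌋ - ⌊v1 + t⌋) := by
    have := near_floor_sub (v1 + t) v2
    rwa [show v1 + t + v2 = v1 + v2 + t by ring] at this
  have n5 : Near v3 (⌊v1 + v2 + v3 + t⌋ - ⌊v1 + v2 + t⌋) := by
    have := near_floor_sub (v1 + v2 + t) v3
    rwa [show v1 + v2 + t + v3 = v1 + v2 + v3 + t by ring] at this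
  have n6 : Near (v2 + v3) (⌊v1 + v2 + v3 + t⌋ - ⌊v1 + t⌋) := by
    have := near_floor_sub (v1 + t) (v2 + v3)
    rwa [show v1 + t + (v2 + v3) = v1 + v2 + v3 + t by ring] at this
  generalize ⌊v1 + t⌋ = p at *
  generalize ⌊v1 + v2 + t⌋ = q at *
  generalize ⌊v1 + v2 + v3 + t⌋ = r at *
  have s1 := coef_sq (C := C1) n1
  have s2 := coef_sq (C := C2) n2
  have s3 := coef_sq (C := C3) n3
  have s4 := coef_sq (C := C4) n4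
  have s5 := coef_sq (C := C5) n5
  have s6 := coef_sq (C := C6) n6
  rw [← hg1] at s1
  rw [← hg2] at s2
  rw [← hg3] at s3
  rw [← hg4] at s4
  rw [← hg5] at s5
  rw [← hg6] at s6
  have b1 := n1.abs_lt
  have b3 := n3.abs_lt
  push_cast at s4 s5 s6
  obtain ⟨x, hx⟩ : ∃ x, x = (p : ℝ) - v1 := ⟨_, rfl⟩
  obtain ⟨y, hy⟩ : ∃ y, y = ((q : ℝ) - p) - v2 := ⟨_, rfl⟩
  obtain ⟨w, hw⟩ : ∃ w, w = ((r : ℝ) - q) - v3 := ⟨_, rfl⟩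
  obtain ⟨η, hη⟩ : ∃ η, η = -(x + y + w) := ⟨_, rfl⟩
  have ep : (p : ℝ) = v1 + x := by rw [hx]; ring
  have eqp : (q : ℝ) - p = v2 + y := by rw [hy]; ring
  have erq : (r : ℝ) - q = v3 + w := by rw [hw]; ring
  have d2 : (q : ℝ) - (v1 + v2) = x + y := by rw [hx, hy]; ring
  have d3 : (r : ℝ) - (v1 + v2 + v3) = -η := by rw [hη, hx, hy, hw]; ring
  have d6 : (r : ℝ) - p - (v2 + v3) = y + w := by rw [hy, hw]; ring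
  rw [← hx] at s1 b1
  rw [d2] at s2
  rw [d3] at s3 b3
  rw [← hy] at s4
  rw [← hw] at s5
  rw [d6] at s6
  have core := RM_core he hz hη b1 (by rwa [abs_neg] at b3)
  rw [← ep, ← eqp, ← erq] at core
  have hx' : (p : ℝ) - v1 = x := hx.symm
  rw [hx', d2, d3]
  have lin : (-(L1 - L2) + g1 - g4 - g6) * x + (-(L2 - L3) + g2 + g4 - g5) * (x + y)
      + (-(L3 - Le) + g3 + g5 + g6) * (-η) =
      -(L1 * x + L2 * y + L3 * w + Le * η) + (g1 * x + g2 * (x + y) + g3 * (-η) + g4 * y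
        + g5 * w + g6 * (y + w)) := by
    rw [hη]
    ring
  have ident : (123 - 3 * e) * (x ^ 2 + y ^ 2 + w ^ 2) - (119 - 3 * e) * η ^ 2
          - 6 * η * (v1 * x + v2 * y + v3 * w)
          - 3 / 2 * (-e - 2 * v1 - 1) * (2 * x + η) ^ 2 =
      C1 * x ^ 2 + C2 * (x + y) ^ 2 + C3 * (-η) ^ 2 + C4 * y ^ 2 + C5 * w ^ 2
        + C6 * (y + w) ^ 2 := by
    rw [hC1, hC2, hC3, hC4, hC5, hC6, hη, he]
    ring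
  rw [ident] at core
  have linc : (-6000 + 240 * e - 3 * e ^ 2 + 3 * (v1 ^ 2 + v2 ^ 2 + v3 ^ 2)) * η
        - 6 * (40 - e) * (v1 * x + v2 * y + v3 * w)
        - 3 / 2 * (e + 2 * v1) ^ 2 * (2 * x + η) = L1 * x + L2 * y + L3 * w + Le * η := by
    rw [hL1, hL2, hL3, hLe]
    ring
  linarith

/-- **Rounding the tall main cell** (scale `96000`, loss `80`), order `v2, v3, v1`. -/
theorem RM_round_231 {v1 v2 v3 : ℝ} (h1 : v1 ≤ -13) (e0 : v1 + v2 + v3 ≤ 20)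
    (hz : v1 + (20 - (v1 + v2 + v3)) / 2 ≤ 0) (t2 : v2 + (20 - (v1 + v2 + v3)) / 2 ≤ 20)
    (t3 : v3 + (20 - (v1 + v2 + v3)) / 2 ≤ 20) :
    ∃ c : Fin 3 → ℝ, ∀ t : ℝ, 0 ≤ t → t < 1 →
      RM v1 v2 v3 ≤ RM ((⌊v2 + v3 + v1 + t⌋ : ℝ) - ⌊v2 + v3 + t⌋) ⌊v2 + t⌋
          ((⌊v2 + v3 + t⌋ : ℝ) - ⌊v2 + t⌋) + 80
        + c 0 * ((⌊v2 + t⌋ : ℝ) - v2) + c 1 * ((⌊v2 + v3 + t⌋ : ℝ) - (v2 + v3))
        + c 2 * ((⌊v2 + v3 + v1 + t⌋ : ℝ) - (v2 + v3 + v1)) := by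
  obtain ⟨e, he⟩ : ∃ e, e = 20 - (v1 + v2 + v3) := ⟨_, rfl⟩
  rw [← he] at hz t2 t3
  have hC := coef_sum (v1 := v1) (v2 := v3) (v3 := v2) (e := e) (by linarith) h1 (by linarith)
    (by linarith) t3 t2
  obtain ⟨C5, hC5⟩ : ∃ C, C = 126 + 9 * v1 - 3 * v3 := ⟨_, rfl⟩
  obtain ⟨C6, hC6⟩ : ∃ C, C = 3 * v3 - 3 * v2 := ⟨_, rfl⟩
  obtain ⟨C3, hC3⟩ : ∃ C, C = -(241 / 2) + 3 / 2 * e + 3 * v2 := ⟨_, rfl⟩
  obtain ⟨C4, hC4⟩ : ∃ C, C = 123 - 3 * e := ⟨_, rfl⟩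
  obtain ⟨C1, hC1⟩ : ∃ C, C = 123 - 3 * e - 3 * v3 + 3 * v2 := ⟨_, rfl⟩
  obtain ⟨C2, hC2⟩ : ∃ C, C = 63 - 3 * v2 := ⟨_, rfl⟩
  rw [← hC5, ← hC6, ← hC3, ← hC1, ← hC4, ← hC2] at hC
  -- the slopes
  obtain ⟨g1, hg1⟩ : ∃ g, g = C1 * (1 - 2 * (v2 - ⌊v2⌋)) := ⟨_, rfl⟩
  obtain ⟨g2, hg2⟩ : ∃ g, g = C2 * (1 - 2 * ((v2 + v3) - ⌊v2 + v3⌋)) := ⟨_, rfl⟩
  obtain ⟨g3, hg3⟩ : ∃ g, g = C3 * (1 - 2 * ((v2 + v3 + v1) - ⌊v2 + v3 + v1⌋)) := ⟨_, rfl⟩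
  obtain ⟨g4, hg4⟩ : ∃ g, g = C4 * (1 - 2 * (v3 - ⌊v3⌋)) := ⟨_, rfl⟩
  obtain ⟨g5, hg5⟩ : ∃ g, g = C5 * (1 - 2 * (v1 - ⌊v1⌋)) := ⟨_, rfl⟩
  obtain ⟨g6, hg6⟩ : ∃ g, g = C6 * (1 - 2 * ((v3 + v1) - ⌊v3 + v1⌋)) := ⟨_, rfl⟩
  obtain ⟨Le, hLe⟩ : ∃ L, L = -6000 + 240 * e - 3 * e ^ 2 + 3 * (v1 ^ 2 + v2 ^ 2 + v3 ^ 2)
    - 3 / 2 * (e + 2 * v1) ^ 2 := ⟨_, rfl⟩
  obtain ⟨L1, hL1⟩ : ∃ L, L = -6 * (40 - e) * v1 - 3 * (e + 2 * v1) ^ 2 := ⟨_, rfl⟩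
  obtain ⟨L2, hL2⟩ : ∃ L, L = -6 * (40 - e) * v2 := ⟨_, rfl⟩
  obtain ⟨L3, hL3⟩ : ∃ L, L = -6 * (40 - e) * v3 := ⟨_, rfl⟩
  refine ⟨![-(L2 - L3) + g1 - g4 - g6, -(L3 - L1) + g2 + g4 - g5, -(L1 - Le) + g3 + g5 + g6],
    fun t t0 t1 => ?_⟩
  simp only [Matrix.cons_val_zero, Matrix.cons_val_one, Matrix.cons_val]
  have n1 : Near v2 ⌊v2 + t⌋ := near_floor_t t0 t1 v2
  have n2 : Near (v2 + v3) ⌊v2 + v3 + t⌋ := near_floor_t t0 t1 _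
  have n3 : Near (v2 + v3 + v1) ⌊v2 + v3 + v1 + t⌋ := near_floor_t t0 t1 _
  have n4 : Near v3 (⌊v2 + v3 + t⌋ - ⌊v2 + t⌋) := by
    have := near_floor_sub (v2 + t) v3
    rwa [show v2 + t + v3 = v2 + v3 + t by ring] at this
  have n5 : Near v1 (⌊v2 + v3 + v1 + t⌋ - ⌊v2 + v3 + t⌋) := by
    have := near_floor_sub (v2 + v3 + t) v1
    rwa [show v2 + v3 + t + v1 = v2 + v3 + v1 + t by ring] at this
  have n6 : Near (v3 + v1) (⌊v2 + v3 + v1 + t⌋ - ⌊v2 + t⌋) := by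
    have := near_floor_sub (v2 + t) (v3 + v1)
    rwa [show v2 + t + (v3 + v1) = v2 + v3 + v1 + t by ring] at this
  generalize ⌊v2 + t⌋ = p at *
  generalize ⌊v2 + v3 + t⌋ = q at *
  generalize ⌊v2 + v3 + v1 + t⌋ = r at *
  have s1 := coef_sq (C := C1) n1
  have s2 := coef_sq (C := C2) n2
  have s3 := coef_sq (C := C3) n3
  have s4 := coef_sq (C := C4) n4
  have s5 := coef_sq (C := C5) n5
  have s6 := coef_sq (C := C6) n6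
  rw [← hg1] at s1
  rw [← hg2] at s2
  rw [← hg3] at s3
  rw [← hg4] at s4
  rw [← hg5] at s5
  rw [← hg6] at s6
  have b5 := n5.abs_lt
  have b3 := n3.abs_lt
  push_cast at s4 s5 s6 b5
  obtain ⟨y, hy⟩ : ∃ y, y = (p : ℝ) - v2 := ⟨_, rfl⟩
  obtain ⟨w, hw⟩ : ∃ w, w = ((q : ℝ) - p) - v3 := ⟨_, rfl⟩
  obtain ⟨x, hx⟩ : ∃ x, x = ((r : ℝ) - q) - v1 := ⟨_, rfl⟩
  obtain ⟨η, hη⟩ : ∃ η, η = -(x + y + w) := ⟨_, rfl⟩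
  have ep : (p : ℝ) = v2 + y := by rw [hy]; ring
  have eqp : (q : ℝ) - p = v3 + w := by rw [hw]; ring
  have erq : (r : ℝ) - q = v1 + x := by rw [hx]; ring
  have d2 : (q : ℝ) - (v2 + v3) = y + w := by rw [hy, hw]; ring
  have d3 : (r : ℝ) - (v2 + v3 + v1) = -η := by rw [hη, hx, hy, hw]; ring
  have d6 : (r : ℝ) - p - (v3 + v1) = w + x := by rw [hw, hx]; ring
  rw [← hy] at s1
  rw [d2] at s2
  rw [d3] at s3 b3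
  rw [← hw] at s4
  rw [← hx] at s5 b5
  rw [d6] at s6
  have core := RM_core he hz hη b5 (by rwa [abs_neg] at b3)
  rw [← ep, ← eqp, ← erq] at core
  have hy' : (p : ℝ) - v2 = y := hy.symm
  rw [hy', d2, d3]
  have lin : (-(L2 - L3) + g1 - g4 - g6) * y + (-(L3 - L1) + g2 + g4 - g5) * (y + w)
      + (-(L1 - Le) + g3 + g5 + g6) * (-η) =
      -(L1 * x + L2 * y + L3 * w + Le * η) + (g1 * y + g2 * (y + w) + g3 * (-η) + g4 * w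
        + g5 * x + g6 * (w + x)) := by
    rw [hη]
    ring
  have ident : (123 - 3 * e) * (x ^ 2 + y ^ 2 + w ^ 2) - (119 - 3 * e) * η ^ 2
          - 6 * η * (v1 * x + v2 * y + v3 * w)
          - 3 / 2 * (-e - 2 * v1 - 1) * (2 * x + η) ^ 2 =
      C1 * y ^ 2 + C2 * (y + w) ^ 2 + C3 * (-η) ^ 2 + C4 * w ^ 2 + C5 * x ^ 2
        + C6 * (w + x) ^ 2 := by
    rw [hC1, hC2, hC3, hC4, hC5, hC6, hη, he]
    ring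
  rw [ident] at core
  have linc : (-6000 + 240 * e - 3 * e ^ 2 + 3 * (v1 ^ 2 + v2 ^ 2 + v3 ^ 2)) * η
        - 6 * (40 - e) * (v1 * x + v2 * y + v3 * w)
        - 3 / 2 * (e + 2 * v1) ^ 2 * (2 * x + η) = L1 * x + L2 * y + L3 * w + Le * η := by
    rw [hL1, hL2, hL3, hLe]
    ring
  linarith

theorem coef_sum' {v1 v2 v3 e : ℝ} (he : e = 20 - (v1 + v2 + v3)) (e0 : 0 ≤ e) (h1 : v1 ≤ -13)
    (hz : v1 + e / 2 ≤ 0) (h2 : 0 ≤ v2) (h3 : 0 ≤ v3) (t2 : v2 + e / 2 ≤ 20)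
    (t3 : v3 + e / 2 ≤ 20) :
    max (126 + 3 * v1 + 3 * v2) 0 + max (-63 + 3 * v2) 0 + max (-(115 / 2) + 3 / 2 * e) 0
      + max (129 + 3 * e + 12 * v1) 0 + max (126 + 3 * v1 + 3 * v3) 0 + max (-63 + 3 * v3) 0 ≤
      276 := by
  have hv1 : -20 ≤ v1 := by linarith
  rw [max_eq_left (show (0 : ℝ) ≤ 126 + 3 * v1 + 3 * v2 by linarith),
    max_eq_left (show (0 : ℝ) ≤ 126 + 3 * v1 + 3 * v3 by linarith),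
    max_eq_right (show -63 + 3 * v2 ≤ 0 by linarith),
    max_eq_right (show -63 + 3 * v3 ≤ 0 by linarith)]
  have a1 : max (-(115 / 2) + 3 / 2 * e) 0 ≤ 5 / 2 := max_le (by linarith) (by norm_num)
  rcases le_total (129 + 3 * e + 12 * v1) 0 with h | h
  · rw [max_eq_right h]
    rcases le_total (-(115 / 2) + 3 / 2 * e) 0 with k | k
    · rw [max_eq_right k]
      linarith
    · linarith
  · rw [max_eq_left h]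
    linarith

/-- **Rounding the tall main cell** (scale `96000`, loss `69`), order `v2, v1, v3`. -/
theorem RM_round_213 {v1 v2 v3 : ℝ} (h1 : v1 ≤ -13) (e0 : v1 + v2 + v3 ≤ 20)
    (hz : v1 + (20 - (v1 + v2 + v3)) / 2 ≤ 0) (t2 : v2 + (20 - (v1 + v2 + v3)) / 2 ≤ 20)
    (t3 : v3 + (20 - (v1 + v2 + v3)) / 2 ≤ 20) :
    ∃ c : Fin 3 → ℝ, ∀ t : ℝ, 0 ≤ t → t < 1 →
      RM v1 v2 v3 ≤ RM ((⌊v2 + v1 + t⌋ : ℝ) - ⌊v2 + t⌋) ⌊v2 + t⌋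
          ((⌊v2 + v1 + v3 + t⌋ : ℝ) - ⌊v2 + v1 + t⌋) + 69
        + c 0 * ((⌊v2 + t⌋ : ℝ) - v2) + c 1 * ((⌊v2 + v1 + t⌋ : ℝ) - (v2 + v1))
        + c 2 * ((⌊v2 + v1 + v3 + t⌋ : ℝ) - (v2 + v1 + v3)) := by
  obtain ⟨e, he⟩ : ∃ e, e = 20 - (v1 + v2 + v3) := ⟨_, rfl⟩
  rw [← he] at hz t2 t3
  have hC := coef_sum' he (by linarith) h1 hz (by linarith) (by linarith) t2 t3
  obtain ⟨C1, hC1⟩ : ∃ C, C = 126 + 3 * v1 + 3 * v2 := ⟨_, rfl⟩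
  obtain ⟨C2, hC2⟩ : ∃ C, C = -63 + 3 * v2 := ⟨_, rfl⟩
  obtain ⟨C3, hC3⟩ : ∃ C, C = -(115 / 2) + 3 / 2 * e := ⟨_, rfl⟩
  obtain ⟨C4, hC4⟩ : ∃ C, C = 129 + 3 * e + 12 * v1 := ⟨_, rfl⟩
  obtain ⟨C5, hC5⟩ : ∃ C, C = 126 + 3 * v1 + 3 * v3 := ⟨_, rfl⟩
  obtain ⟨C6, hC6⟩ : ∃ C, C = -63 + 3 * v3 := ⟨_, rfl⟩
  rw [← hC1, ← hC2, ← hC3, ← hC4, ← hC5, ← hC6] at hC
  -- the slopes
  obtain ⟨g1, hg1⟩ : ∃ g, g = C1 * (1 - 2 * (v2 - ⌊v2⌋)) := ⟨_, rfl⟩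
  obtain ⟨g2, hg2⟩ : ∃ g, g = C2 * (1 - 2 * ((v2 + v1) - ⌊v2 + v1⌋)) := ⟨_, rfl⟩
  obtain ⟨g3, hg3⟩ : ∃ g, g = C3 * (1 - 2 * ((v2 + v1 + v3) - ⌊v2 + v1 + v3⌋)) := ⟨_, rfl⟩
  obtain ⟨g4, hg4⟩ : ∃ g, g = C4 * (1 - 2 * (v1 - ⌊v1⌋)) := ⟨_, rfl⟩
  obtain ⟨g5, hg5⟩ : ∃ g, g = C5 * (1 - 2 * (v3 - ⌊v3⌋)) := ⟨_, rfl⟩
  obtain ⟨g6, hg6⟩ : ∃ g, g = C6 * (1 - 2 * ((v1 + v3) - ⌊v1 + v3⌋)) := ⟨_, rfl⟩
  obtain ⟨Le, hLe⟩ : ∃ L, L = -6000 + 240 * e - 3 * e ^ 2 + 3 * (v1 ^ 2 + v2 ^ 2 + v3 ^ 2)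
    - 3 / 2 * (e + 2 * v1) ^ 2 := ⟨_, rfl⟩
  obtain ⟨L1, hL1⟩ : ∃ L, L = -6 * (40 - e) * v1 - 3 * (e + 2 * v1) ^ 2 := ⟨_, rfl⟩
  obtain ⟨L2, hL2⟩ : ∃ L, L = -6 * (40 - e) * v2 := ⟨_, rfl⟩
  obtain ⟨L3, hL3⟩ : ∃ L, L = -6 * (40 - e) * v3 := ⟨_, rfl⟩
  refine ⟨![-(L2 - L1) + g1 - g4 - g6, -(L1 - L3) + g2 + g4 - g5, -(L3 - Le) + g3 + g5 + g6],
    fun t t0 t1 => ?_⟩
  simp only [Matrix.cons_val_zero, Matrix.cons_val_one, Matrix.cons_val]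
  have n1 : Near v2 ⌊v2 + t⌋ := near_floor_t t0 t1 v2
  have n2 : Near (v2 + v1) ⌊v2 + v1 + t⌋ := near_floor_t t0 t1 _
  have n3 : Near (v2 + v1 + v3) ⌊v2 + v1 + v3 + t⌋ := near_floor_t t0 t1 _
  have n4 : Near v1 (⌊v2 + v1 + t⌋ - ⌊v2 + t⌋) := by
    have := near_floor_sub (v2 + t) v1
    rwa [show v2 + t + v1 = v2 + v1 + t by ring] at this
  have n5 : Near v3 (⌊v2 + v1 + v3 + t⌋ - ⌊v2 + v1 + t⌋) := by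
    have := near_floor_sub (v2 + v1 + t) v3
    rwa [show v2 + v1 + t + v3 = v2 + v1 + v3 + t by ring] at this
  have n6 : Near (v1 + v3) (⌊v2 + v1 + v3 + t⌋ - ⌊v2 + t⌋) := by
    have := near_floor_sub (v2 + t) (v1 + v3)
    rwa [show v2 + t + (v1 + v3) = v2 + v1 + v3 + t by ring] at this
  generalize ⌊v2 + t⌋ = p at *
  generalize ⌊v2 + v1 + t⌋ = q at *
  generalize ⌊v2 + v1 + v3 + t⌋ = r at *
  have s1 := coef_sq (C := C1) n1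
  have s2 := coef_sq (C := C2) n2
  have s3 := coef_sq (C := C3) n3
  have s4 := coef_sq (C := C4) n4
  have s5 := coef_sq (C := C5) n5
  have s6 := coef_sq (C := C6) n6
  rw [← hg1] at s1
  rw [← hg2] at s2
  rw [← hg3] at s3
  rw [← hg4] at s4
  rw [← hg5] at s5
  rw [← hg6] at s6
  have b4 := n4.abs_lt
  have b3 := n3.abs_lt
  push_cast at s4 s5 s6 b4
  obtain ⟨y, hy⟩ : ∃ y, y = (p : ℝ) - v2 := ⟨_, rfl⟩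
  obtain ⟨x, hx⟩ : ∃ x, x = ((q : ℝ) - p) - v1 := ⟨_, rfl⟩
  obtain ⟨w, hw⟩ : ∃ w, w = ((r : ℝ) - q) - v3 := ⟨_, rfl⟩
  obtain ⟨η, hη⟩ : ∃ η, η = -(x + y + w) := ⟨_, rfl⟩
  have ep : (p : ℝ) = v2 + y := by rw [hy]; ring
  have eqp : (q : ℝ) - p = v1 + x := by rw [hx]; ring
  have erq : (r : ℝ) - q = v3 + w := by rw [hw]; ring
  have d2 : (q : ℝ) - (v2 + v1) = y + x := by rw [hy, hx]; ring
  have d3 : (r : ℝ) - (v2 + v1 + v3) = -η := by rw [hη, hx, hy, hw]; ring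
  have d6 : (r : ℝ) - p - (v1 + v3) = x + w := by rw [hw, hx]; ring
  rw [← hy] at s1
  rw [d2] at s2
  rw [d3] at s3 b3
  rw [← hx] at s4 b4
  rw [← hw] at s5
  rw [d6] at s6
  have core := RM_core he hz hη b4 (by rwa [abs_neg] at b3)
  rw [← ep, ← eqp, ← erq] at core
  have hy' : (p : ℝ) - v2 = y := hy.symm
  rw [hy', d2, d3]
  have lin : (-(L2 - L1) + g1 - g4 - g6) * y + (-(L1 - L3) + g2 + g4 - g5) * (y + x)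
      + (-(L3 - Le) + g3 + g5 + g6) * (-η) =
      -(L1 * x + L2 * y + L3 * w + Le * η) + (g1 * y + g2 * (y + x) + g3 * (-η) + g4 * x
        + g5 * w + g6 * (x + w)) := by
    rw [hη]
    ring
  have ident : (123 - 3 * e) * (x ^ 2 + y ^ 2 + w ^ 2) - (119 - 3 * e) * η ^ 2
          - 6 * η * (v1 * x + v2 * y + v3 * w)
          - 3 / 2 * (-e - 2 * v1 - 1) * (2 * x + η) ^ 2 =
      C1 * y ^ 2 + C2 * (y + x) ^ 2 + C3 * (-η) ^ 2 + C4 * x ^ 2 + C5 * w ^ 2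
        + C6 * (x + w) ^ 2 := by
    rw [hC1, hC2, hC3, hC4, hC5, hC6, hη, he]
    ring
  rw [ident] at core
  have linc : (-6000 + 240 * e - 3 * e ^ 2 + 3 * (v1 ^ 2 + v2 ^ 2 + v3 ^ 2)) * η
        - 6 * (40 - e) * (v1 * x + v2 * y + v3 * w)
        - 3 / 2 * (e + 2 * v1) ^ 2 * (2 * x + η) = L1 * x + L2 * y + L3 * w + Le * η := by
    rw [hL1, hL2, hL3, hLe]
    ring
  linarith

end Pool.Agent.Helper95.TS
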