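import Mathlib

/-!
# Rounding the three parameters of a cell (grid units)
-/

set_option autoImplicit false

namespace Pool.Agent.Helper95.TS

/-- The gain of a cell (grid units, height 20). -/
noncomputable def cellG (w A s : ℝ) : ℝ :=
  3 * w * A * (20 + w - s) - w ^ 3 + (max (w - A) 0) ^ 3 + (max (s - 20) 0) ^ 3

/-- The part which is not convex. -/
def cellT (w A s : ℝ) : ℝ := 3 * w * A * (20 + w - s) - w ^ 3

theorem pos_cube_tangent (x y : ℝ) :
    (max x 0) ^ 3 ≤ (max y 0) ^ 3 - 3 * (max x 0) ^ 2 * (y - x) := by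
  have hx0 : 0 ≤ max x 0 := le_max_right _ _
  have hy0 : 0 ≤ max y 0 := le_max_right _ _
  have hyy : y ≤ max y 0 := le_max_left _ _
  have e : 3 * (max x 0) ^ 2 * (y - x) ≤ 3 * (max x 0) ^ 2 * (max y 0 - max x 0) := by
    rcases le_total x 0 with h | h
    · rw [max_eq_right h]; simp
    · rw [max_eq_left h]
      have : 0 ≤ 3 * x ^ 2 := by positivity
      nlinarith
  have k : 0 ≤ (max y 0 - max x 0) ^ 2 * (max y 0 + 2 * max x 0) := by positivity
  nlinarith [k, e]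

theorem v_le (f : ℝ) : f * (1 - f) ≤ 1 / 4 := by nlinarith [sq_nonneg (f - 1 / 2)]

theorem kap_le {f g : ℝ} (h0 : 0 ≤ f) (hfg : f ≤ g) (_h1 : g ≤ 1) : f * (1 - g) ≤ 1 / 4 := by
  nlinarith [sq_nonneg (f - 1 / 2)]

/-- The common end of the six orders. -/
theorem comb_ge {w A B f kwA dws kAs tau : ℝ} (hf0 : 0 ≤ f) (hf1 : f ≤ 1) (hw : 0 ≤ w - f)
    (hw20 : w ≤ 20) (hA : 0 ≤ A) (hB : 0 ≤ B) (h1 : 0 ≤ kwA) (h2 : 0 ≤ dws)
    (h3 : kAs ≤ 1 / 4) (h4 : tau ≤ 1 / 4) :
    -31 ≤ 3 * (B + (w - f) + 1 - f) * kwA + 3 * A * dws - (3 * w + 1 - 2 * f) * (f * (1 - f))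
      - 3 * w * kAs - 3 * tau := by
  have a1 : 0 ≤ 3 * (B + (w - f) + 1 - f) * kwA := by
    apply mul_nonneg _ h1
    linarith
  have a2 : 0 ≤ 3 * A * dws := by positivity
  have a3 : (3 * w + 1 - 2 * f) * (f * (1 - f)) ≤ 61 * (1 / 4) := by
    apply mul_le_mul _ (v_le f) _ (by norm_num)
    · linarith
    · exact mul_nonneg hf0 (by linarith)
  have a4 : 3 * w * kAs ≤ 60 * (1 / 4) := by
    rcases le_total 0 kAs with hk | hk
    · apply mul_le_mul _ h3 hk (by norm_num)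
      linarith
    · have : 3 * w * kAs ≤ 0 := by
        apply mul_nonpos_of_nonneg_of_nonpos _ hk
        linarith
      linarith
  linarith

/-- Sorted fractions: the triple term. -/
theorem tau_le {a b c : ℝ} (h0 : 0 ≤ a) (hab : a ≤ b) (hbc : b ≤ c) (h1 : c ≤ 1) :
    a * (1 - c) * (1 - 2 * b) ≤ 1 / 4 := by
  have h2 : a * (1 - c) ≤ 1 / 4 := kap_le h0 (hab.trans hbc) h1
  have h3 : 0 ≤ a * (1 - c) := mul_nonneg h0 (by linarith)
  have h4 : 1 - 2 * b ≤ 1 := by linarith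
  nlinarith

variable {w A s f g h : ℝ}

theorem ord_fgh (h0 : 0 ≤ f) (h12 : f ≤ g) (h23 : g ≤ h) (h3 : h ≤ 1) (hw : 0 ≤ w - f)
    (hw20 : w ≤ 20) (hA : 0 ≤ A) (hs : s ≤ 20 + w) :
    ∃ a b c : ℝ, cellT w A s ≤ cellT (w - f) (A - g) (s - h) + a * f + b * g + c * h + 31 ∧
      ∀ i j k : ℝ, (i = 0 ∨ i = 1) → (j = 0 ∨ j = 1) → (k = 0 ∨ k = 1) → i ≤ j → j ≤ k →
        cellT (w - f + i) (A - g + j) (s - h + k) =
          cellT (w - f) (A - g) (s - h) + a * i + b * j + c * k := by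
  refine ⟨(cellT (w - f + 1) (A - g + 1) (s - h + 1) - cellT (w - f) (A - g + 1) (s - h + 1)),
    (cellT (w - f) (A - g + 1) (s - h + 1) - cellT (w - f) (A - g) (s - h + 1)),
    (cellT (w - f) (A - g) (s - h + 1) - cellT (w - f) (A - g) (s - h)), ?_, ?_⟩
  · have q := comb_ge (w := w) (A := A) (B := 20 + w - s) (f := f) (kwA := f * (1 - g))
      (dws := f * (1 - f) - f * (1 - h)) (kAs := g * (1 - h))
      (tau := f * (1 - h) * (1 - 2 * g)) (by linarith) (by linarith) hw hw20 hA (by linarith)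
      (mul_nonneg (by linarith) (by linarith)) (by nlinarith) (kap_le (by linarith) (by linarith) (by linarith))
      (tau_le h0 h12 h23 h3)
    have e : cellT (w - f) (A - g) (s - h)
        + (cellT (w - f + 1) (A - g + 1) (s - h + 1) - cellT (w - f) (A - g + 1) (s - h + 1)) * f
        + (cellT (w - f) (A - g + 1) (s - h + 1) - cellT (w - f) (A - g) (s - h + 1)) * g
        + (cellT (w - f) (A - g) (s - h + 1) - cellT (w - f) (A - g) (s - h)) * h
        - cellT w A s = 3 * ((20 + w - s) + (w - f) + 1 - f) * (f * (1 - g))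
          + 3 * A * (f * (1 - f) - f * (1 - h)) - (3 * w + 1 - 2 * f) * (f * (1 - f))
          - 3 * w * (g * (1 - h)) - 3 * (f * (1 - h) * (1 - 2 * g)) := by
      unfold cellT
      ring
    linarith
  · intro i j k hi hj hk h1 h2
    rcases hi with rfl | rfl <;> rcases hj with rfl | rfl <;> rcases hk with rfl | rfl <;>
      first
        | (exfalso; linarith)
        | ((try simp only [add_zero]); ring)

theorem ord_fhg (h0 : 0 ≤ f) (h12 : f ≤ h) (h23 : h ≤ g) (h3 : g ≤ 1) (hw : 0 ≤ w - f)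
    (hw20 : w ≤ 20) (hA : 0 ≤ A) (hs : s ≤ 20 + w) :
    ∃ a b c : ℝ, cellT w A s ≤ cellT (w - f) (A - g) (s - h) + a * f + b * g + c * h + 31 ∧
      ∀ i j k : ℝ, (i = 0 ∨ i = 1) → (j = 0 ∨ j = 1) → (k = 0 ∨ k = 1) → i ≤ k → k ≤ j →
        cellT (w - f + i) (A - g + j) (s - h + k) =
          cellT (w - f) (A - g) (s - h) + a * i + b * j + c * k := by
  refine ⟨(cellT (w - f + 1) (A - g + 1) (s - h + 1) - cellT (w - f) (A - g + 1) (s - h + 1)),
    (cellT (w - f) (A - g + 1) (s - h) - cellT (w - f) (A - g) (s - h)),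
    (cellT (w - f) (A - g + 1) (s - h + 1) - cellT (w - f) (A - g + 1) (s - h)), ?_, ?_⟩
  · have q := comb_ge (w := w) (A := A) (B := 20 + w - s) (f := f) (kwA := f * (1 - g))
      (dws := f * (1 - f) - f * (1 - h)) (kAs := h * (1 - g))
      (tau := f * (1 - g) * (1 - 2 * h)) (by linarith) (by linarith) hw hw20 hA (by linarith)
      (mul_nonneg (by linarith) (by linarith)) (by nlinarith) (kap_le (by linarith) (by linarith) (by linarith))
      (tau_le h0 h12 h23 h3)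
    have e : cellT (w - f) (A - g) (s - h)
        + (cellT (w - f + 1) (A - g + 1) (s - h + 1) - cellT (w - f) (A - g + 1) (s - h + 1)) * f
        + (cellT (w - f) (A - g + 1) (s - h) - cellT (w - f) (A - g) (s - h)) * g
        + (cellT (w - f) (A - g + 1) (s - h + 1) - cellT (w - f) (A - g + 1) (s - h)) * h
        - cellT w A s = 3 * ((20 + w - s) + (w - f) + 1 - f) * (f * (1 - g))
          + 3 * A * (f * (1 - f) - f * (1 - h)) - (3 * w + 1 - 2 * f) * (f * (1 - f))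
          - 3 * w * (h * (1 - g)) - 3 * (f * (1 - g) * (1 - 2 * h)) := by
      unfold cellT
      ring
    linarith
  · intro i j k hi hj hk h1 h2
    rcases hi with rfl | rfl <;> rcases hj with rfl | rfl <;> rcases hk with rfl | rfl <;>
      first
        | (exfalso; linarith)
        | ((try simp only [add_zero]); ring)

theorem ord_gfh (h0 : 0 ≤ g) (h12 : g ≤ f) (h23 : f ≤ h) (h3 : h ≤ 1) (hw : 0 ≤ w - f)
    (hw20 : w ≤ 20) (hA : 0 ≤ A) (hs : s ≤ 20 + w) :
    ∃ a b c : ℝ, cellT w A s ≤ cellT (w - f) (A - g) (s - h) + a * f + b * g + c * h + 31 ∧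
      ∀ i j k : ℝ, (i = 0 ∨ i = 1) → (j = 0 ∨ j = 1) → (k = 0 ∨ k = 1) → j ≤ i → i ≤ k →
        cellT (w - f + i) (A - g + j) (s - h + k) =
          cellT (w - f) (A - g) (s - h) + a * i + b * j + c * k := by
  refine ⟨(cellT (w - f + 1) (A - g) (s - h + 1) - cellT (w - f) (A - g) (s - h + 1)),
    (cellT (w - f + 1) (A - g + 1) (s - h + 1) - cellT (w - f + 1) (A - g) (s - h + 1)),
    (cellT (w - f) (A - g) (s - h + 1) - cellT (w - f) (A - g) (s - h)), ?_, ?_⟩
  · have q := comb_ge (w := w) (A := A) (B := 20 + w - s) (f := f) (kwA := g * (1 - f))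
      (dws := f * (1 - f) - f * (1 - h)) (kAs := g * (1 - h))
      (tau := g * (1 - h) * (1 - 2 * f)) (by linarith) (by linarith) hw hw20 hA (by linarith)
      (mul_nonneg (by linarith) (by linarith)) (by nlinarith) (kap_le (by linarith) (by linarith) (by linarith))
      (tau_le h0 h12 h23 h3)
    have e : cellT (w - f) (A - g) (s - h)
        + (cellT (w - f + 1) (A - g) (s - h + 1) - cellT (w - f) (A - g) (s - h + 1)) * f
        + (cellT (w - f + 1) (A - g + 1) (s - h + 1) - cellT (w - f + 1) (A - g) (s - h + 1)) * g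
        + (cellT (w - f) (A - g) (s - h + 1) - cellT (w - f) (A - g) (s - h)) * h
        - cellT w A s = 3 * ((20 + w - s) + (w - f) + 1 - f) * (g * (1 - f))
          + 3 * A * (f * (1 - f) - f * (1 - h)) - (3 * w + 1 - 2 * f) * (f * (1 - f))
          - 3 * w * (g * (1 - h)) - 3 * (g * (1 - h) * (1 - 2 * f)) := by
      unfold cellT
      ring
    linarith
  · intro i j k hi hj hk h1 h2
    rcases hi with rfl | rfl <;> rcases hj with rfl | rfl <;> rcases hk with rfl | rfl <;>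
      first
        | (exfalso; linarith)
        | ((try simp only [add_zero]); ring)

theorem ord_ghf (h0 : 0 ≤ g) (h12 : g ≤ h) (h23 : h ≤ f) (h3 : f ≤ 1) (hw : 0 ≤ w - f)
    (hw20 : w ≤ 20) (hA : 0 ≤ A) (hs : s ≤ 20 + w) :
    ∃ a b c : ℝ, cellT w A s ≤ cellT (w - f) (A - g) (s - h) + a * f + b * g + c * h + 31 ∧
      ∀ i j k : ℝ, (i = 0 ∨ i = 1) → (j = 0 ∨ j = 1) → (k = 0 ∨ k = 1) → j ≤ k → k ≤ i →
        cellT (w - f + i) (A - g + j) (s - h + k) =
          cellT (w - f) (A - g) (s - h) + a * i + b * j + c * k := by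
  refine ⟨(cellT (w - f + 1) (A - g) (s - h) - cellT (w - f) (A - g) (s - h)),
    (cellT (w - f + 1) (A - g + 1) (s - h + 1) - cellT (w - f + 1) (A - g) (s - h + 1)),
    (cellT (w - f + 1) (A - g) (s - h + 1) - cellT (w - f + 1) (A - g) (s - h)), ?_, ?_⟩
  · have q := comb_ge (w := w) (A := A) (B := 20 + w - s) (f := f) (kwA := g * (1 - f))
      (dws := f * (1 - f) - h * (1 - f)) (kAs := g * (1 - h))
      (tau := g * (1 - f) * (1 - 2 * h)) (by linarith) (by linarith) hw hw20 hA (by linarith)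
      (mul_nonneg (by linarith) (by linarith)) (by nlinarith) (kap_le (by linarith) (by linarith) (by linarith))
      (tau_le h0 h12 h23 h3)
    have e : cellT (w - f) (A - g) (s - h)
        + (cellT (w - f + 1) (A - g) (s - h) - cellT (w - f) (A - g) (s - h)) * f
        + (cellT (w - f + 1) (A - g + 1) (s - h + 1) - cellT (w - f + 1) (A - g) (s - h + 1)) * g
        + (cellT (w - f + 1) (A - g) (s - h + 1) - cellT (w - f + 1) (A - g) (s - h)) * h
        - cellT w A s = 3 * ((20 + w - s) + (w - f) + 1 - f) * (g * (1 - f))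
          + 3 * A * (f * (1 - f) - h * (1 - f)) - (3 * w + 1 - 2 * f) * (f * (1 - f))
          - 3 * w * (g * (1 - h)) - 3 * (g * (1 - f) * (1 - 2 * h)) := by
      unfold cellT
      ring
    linarith
  · intro i j k hi hj hk h1 h2
    rcases hi with rfl | rfl <;> rcases hj with rfl | rfl <;> rcases hk with rfl | rfl <;>
      first
        | (exfalso; linarith)
        | ((try simp only [add_zero]); ring)

theorem ord_hfg (h0 : 0 ≤ h) (h12 : h ≤ f) (h23 : f ≤ g) (h3 : g ≤ 1) (hw : 0 ≤ w - f)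
    (hw20 : w ≤ 20) (hA : 0 ≤ A) (hs : s ≤ 20 + w) :
    ∃ a b c : ℝ, cellT w A s ≤ cellT (w - f) (A - g) (s - h) + a * f + b * g + c * h + 31 ∧
      ∀ i j k : ℝ, (i = 0 ∨ i = 1) → (j = 0 ∨ j = 1) → (k = 0 ∨ k = 1) → k ≤ i → i ≤ j →
        cellT (w - f + i) (A - g + j) (s - h + k) =
          cellT (w - f) (A - g) (s - h) + a * i + b * j + c * k := by
  refine ⟨(cellT (w - f + 1) (A - g + 1) (s - h) - cellT (w - f) (A - g + 1) (s - h)),
    (cellT (w - f) (A - g + 1) (s - h) - cellT (w - f) (A - g) (s - h)),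
    (cellT (w - f + 1) (A - g + 1) (s - h + 1) - cellT (w - f + 1) (A - g + 1) (s - h)), ?_, ?_⟩
  · have q := comb_ge (w := w) (A := A) (B := 20 + w - s) (f := f) (kwA := f * (1 - g))
      (dws := f * (1 - f) - h * (1 - f)) (kAs := h * (1 - g))
      (tau := h * (1 - g) * (1 - 2 * f)) (by linarith) (by linarith) hw hw20 hA (by linarith)
      (mul_nonneg (by linarith) (by linarith)) (by nlinarith) (kap_le (by linarith) (by linarith) (by linarith))
      (tau_le h0 h12 h23 h3)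
    have e : cellT (w - f) (A - g) (s - h)
        + (cellT (w - f + 1) (A - g + 1) (s - h) - cellT (w - f) (A - g + 1) (s - h)) * f
        + (cellT (w - f) (A - g + 1) (s - h) - cellT (w - f) (A - g) (s - h)) * g
        + (cellT (w - f + 1) (A - g + 1) (s - h + 1) - cellT (w - f + 1) (A - g + 1) (s - h)) * h
        - cellT w A s = 3 * ((20 + w - s) + (w - f) + 1 - f) * (f * (1 - g))
          + 3 * A * (f * (1 - f) - h * (1 - f)) - (3 * w + 1 - 2 * f) * (f * (1 - f))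
          - 3 * w * (h * (1 - g)) - 3 * (h * (1 - g) * (1 - 2 * f)) := by
      unfold cellT
      ring
    linarith
  · intro i j k hi hj hk h1 h2
    rcases hi with rfl | rfl <;> rcases hj with rfl | rfl <;> rcases hk with rfl | rfl <;>
      first
        | (exfalso; linarith)
        | ((try simp only [add_zero]); ring)

theorem ord_hgf (h0 : 0 ≤ h) (h12 : h ≤ g) (h23 : g ≤ f) (h3 : f ≤ 1) (hw : 0 ≤ w - f)
    (hw20 : w ≤ 20) (hA : 0 ≤ A) (hs : s ≤ 20 + w) :
    ∃ a b c : ℝ, cellT w A s ≤ cellT (w - f) (A - g) (s - h) + a * f + b * g + c * h + 31 ∧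
      ∀ i j k : ℝ, (i = 0 ∨ i = 1) → (j = 0 ∨ j = 1) → (k = 0 ∨ k = 1) → k ≤ j → j ≤ i →
        cellT (w - f + i) (A - g + j) (s - h + k) =
          cellT (w - f) (A - g) (s - h) + a * i + b * j + c * k := by
  refine ⟨(cellT (w - f + 1) (A - g) (s - h) - cellT (w - f) (A - g) (s - h)),
    (cellT (w - f + 1) (A - g + 1) (s - h) - cellT (w - f + 1) (A - g) (s - h)),
    (cellT (w - f + 1) (A - g + 1) (s - h + 1) - cellT (w - f + 1) (A - g + 1) (s - h)), ?_, ?_⟩
  · have q := comb_ge (w := w) (A := A) (B := 20 + w - s) (f := f) (kwA := g * (1 - f))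
      (dws := f * (1 - f) - h * (1 - f)) (kAs := h * (1 - g))
      (tau := h * (1 - f) * (1 - 2 * g)) (by linarith) (by linarith) hw hw20 hA (by linarith)
      (mul_nonneg (by linarith) (by linarith)) (by nlinarith) (kap_le (by linarith) (by linarith) (by linarith))
      (tau_le h0 h12 h23 h3)
    have e : cellT (w - f) (A - g) (s - h)
        + (cellT (w - f + 1) (A - g) (s - h) - cellT (w - f) (A - g) (s - h)) * f
        + (cellT (w - f + 1) (A - g + 1) (s - h) - cellT (w - f + 1) (A - g) (s - h)) * g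
        + (cellT (w - f + 1) (A - g + 1) (s - h + 1) - cellT (w - f + 1) (A - g + 1) (s - h)) * h
        - cellT w A s = 3 * ((20 + w - s) + (w - f) + 1 - f) * (g * (1 - f))
          + 3 * A * (f * (1 - f) - h * (1 - f)) - (3 * w + 1 - 2 * f) * (f * (1 - f))
          - 3 * w * (h * (1 - g)) - 3 * (h * (1 - f) * (1 - 2 * g)) := by
      unfold cellT
      ring
    linarith
  · intro i j k hi hj hk h1 h2
    rcases hi with rfl | rfl <;> rcases hj with rfl | rfl <;> rcases hk with rfl | rfl <;>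
      first
        | (exfalso; linarith)
        | ((try simp only [add_zero]); ring)


/-- All orders at once. -/
theorem cellT_round (hf0 : 0 ≤ f) (hf1 : f ≤ 1) (hg0 : 0 ≤ g) (hg1 : g ≤ 1) (hh0 : 0 ≤ h)
    (hh1 : h ≤ 1) (hw : 0 ≤ w - f) (hw20 : w ≤ 20) (hA : 0 ≤ A) (hs : s ≤ 20 + w) :
    ∃ a b c : ℝ, cellT w A s ≤ cellT (w - f) (A - g) (s - h) + a * f + b * g + c * h + 31 ∧
      ∀ i j k : ℝ, (i = 0 ∨ i = 1) → (j = 0 ∨ j = 1) → (k = 0 ∨ k = 1) →
        (f ≤ g → i ≤ j) → (g ≤ f → j ≤ i) → (f ≤ h → i ≤ k) → (h ≤ f → k ≤ i) →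
        (g ≤ h → j ≤ k) → (h ≤ g → k ≤ j) →
        cellT (w - f + i) (A - g + j) (s - h + k) =
          cellT (w - f) (A - g) (s - h) + a * i + b * j + c * k := by
  rcases le_total f g with fg | gf
  · rcases le_total g h with gh | hg
    · obtain ⟨a, b, c, p, q⟩ := ord_fgh hf0 fg gh hh1 hw hw20 hA hs
      exact ⟨a, b, c, p, fun i j k hi hj hk u1 _ _ _ u5 _ => q i j k hi hj hk (u1 fg) (u5 gh)⟩
    · rcases le_total f h with fh | hf
      · obtain ⟨a, b, c, p, q⟩ := ord_fhg hf0 fh hg hg1 hw hw20 hA hs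
        exact ⟨a, b, c, p, fun i j k hi hj hk _ _ u3 _ _ u6 => q i j k hi hj hk (u3 fh) (u6 hg)⟩
      · obtain ⟨a, b, c, p, q⟩ := ord_hfg hh0 hf fg hg1 hw hw20 hA hs
        exact ⟨a, b, c, p, fun i j k hi hj hk u1 _ _ u4 _ _ => q i j k hi hj hk (u4 hf) (u1 fg)⟩
  · rcases le_total f h with fh | hf
    · obtain ⟨a, b, c, p, q⟩ := ord_gfh hg0 gf fh hh1 hw hw20 hA hs
      exact ⟨a, b, c, p, fun i j k hi hj hk _ u2 u3 _ _ _ => q i j k hi hj hk (u2 gf) (u3 fh)⟩
    · rcases le_total g h with gh | hg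
      · obtain ⟨a, b, c, p, q⟩ := ord_ghf hg0 gh hf hf1 hw hw20 hA hs
        exact ⟨a, b, c, p, fun i j k hi hj hk _ _ _ u4 u5 _ => q i j k hi hj hk (u5 gh) (u4 hf)⟩
      · obtain ⟨a, b, c, p, q⟩ := ord_hgf hh0 hg gf hf1 hw hw20 hA hs
        exact ⟨a, b, c, p, fun i j k hi hj hk _ u2 _ _ _ u6 => q i j k hi hj hk (u6 hg) (u2 gf)⟩

/-- The rounded value, up. -/
theorem up_pat (z t : ℝ) (ht0 : 0 ≤ t) (ht1 : t < 1) :
    ∃ i : ℝ, (i = 0 ∨ i = 1) ∧ (⌊z + t⌋ : ℝ) = z - Int.fract z + i ∧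
      (i = 1 ↔ 1 ≤ Int.fract z + t) := by
  have h0 := Int.fract_nonneg z
  have h1 := Int.fract_lt_one z
  have e : z = ⌊z⌋ + Int.fract z := (Int.floor_add_fract z).symm
  by_cases c : 1 ≤ Int.fract z + t
  · refine ⟨1, Or.inr rfl, ?_, by simp [c]⟩
    have : ⌊z + t⌋ = ⌊z⌋ + 1 := by
      rw [Int.floor_eq_iff]
      push_cast
      constructor <;> linarith
    rw [this]
    push_cast
    linarith
  · refine ⟨0, Or.inl rfl, ?_, by simp [c]⟩
    push Not at c
    have : ⌊z + t⌋ = ⌊z⌋ := by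
      rw [Int.floor_eq_iff]
      constructor <;> linarith
    rw [this]
    linarith

/-- The rounded value, down. -/
theorem dn_pat (z t : ℝ) (ht0 : 0 ≤ t) (ht1 : t < 1) :
    ∃ i : ℝ, (i = 0 ∨ i = 1) ∧ (-⌊-z + t⌋ : ℝ) = z - Int.fract z + i ∧
      (i = 1 ↔ t < Int.fract z) := by
  have h0 := Int.fract_nonneg z
  have h1 := Int.fract_lt_one z
  have e : z = ⌊z⌋ + Int.fract z := (Int.floor_add_fract z).symm
  by_cases c : t < Int.fract z
  · refine ⟨1, Or.inr rfl, ?_, by simp [c]⟩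
    have : ⌊-z + t⌋ = -⌊z⌋ - 1 := by
      rw [Int.floor_eq_iff]
      push_cast
      constructor <;> linarith
    rw [this]
    push_cast
    linarith
  · refine ⟨0, Or.inl rfl, ?_, by simp [c]⟩
    push Not at c
    have : ⌊-z + t⌋ = -⌊z⌋ := by
      rw [Int.floor_eq_iff]
      push_cast
      constructor <;> linarith
    rw [this]
    push_cast
    linarith

theorem nest_of {i j : ℝ} {p q : Prop} (hi : i = 0 ∨ i = 1) (hj : j = 0 ∨ j = 1)
    (hp : i = 1 ↔ p) (hq : j = 1 ↔ q) (h : p → q) : i ≤ j := by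
  rcases hi with rfl | rfl
  · rcases hj with rfl | rfl <;> norm_num
  · have : j = 1 := hq.2 (h (hp.1 rfl))
    rw [this]

/-- **The cell lemma, abstract form.** -/
theorem cell_lin (hw0 : 0 ≤ w) (hw20 : w ≤ 20) (hA : 0 ≤ A) (hs : s ≤ 20 + w) :
    ∃ c : Fin 3 → ℝ, ∀ i j k : ℝ, (i = 0 ∨ i = 1) → (j = 0 ∨ j = 1) → (k = 0 ∨ k = 1) →
      (Int.fract w ≤ Int.fract A → i ≤ j) → (Int.fract A ≤ Int.fract w → j ≤ i) →
      (Int.fract w ≤ Int.fract s → i ≤ k) → (Int.fract s ≤ Int.fract w → k ≤ i) →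
      (Int.fract A ≤ Int.fract s → j ≤ k) → (Int.fract s ≤ Int.fract A → k ≤ j) →
      cellG w A s ≤ cellG (w - Int.fract w + i) (A - Int.fract A + j) (s - Int.fract s + k) + 31
        + c 0 * ((w - Int.fract w + i) - w) + c 1 * ((A - Int.fract A + j) - A)
        + c 2 * ((s - Int.fract s + k) - s) := by
  have hwn : 0 ≤ w - Int.fract w := by
    have : (0 : ℤ) ≤ ⌊w⌋ := Int.floor_nonneg.2 hw0
    have h2 : (0 : ℝ) ≤ (⌊w⌋ : ℝ) := by exact_mod_cast this
    have e := Int.floor_add_fract w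
    linarith
  obtain ⟨a, b, c, p, q⟩ := cellT_round (w := w) (A := A) (s := s) (Int.fract_nonneg w)
    (Int.fract_lt_one w).le (Int.fract_nonneg A) (Int.fract_lt_one A).le (Int.fract_nonneg s)
    (Int.fract_lt_one s).le hwn hw20 hA hs
  refine ⟨![-a - 3 * (max (w - A) 0) ^ 2, -b + 3 * (max (w - A) 0) ^ 2,
    -c - 3 * (max (s - 20) 0) ^ 2], fun i j k hi hj hk u1 u2 u3 u4 u5 u6 => ?_⟩
  have e := q i j k hi hj hk u1 u2 u3 u4 u5 u6
  have t1 := pos_cube_tangent (w - A) ((w - Int.fract w + i) - (A - Int.fract A + j))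
  have t2 := pos_cube_tangent (s - 20) ((s - Int.fract s + k) - 20)
  have e1 : ∀ w A s : ℝ, cellG w A s = cellT w A s + (max (w - A) 0) ^ 3 + (max (s - 20) 0) ^ 3 :=
    fun w A s => rfl
  rw [e1, e1, e]
  simp only [Matrix.cons_val_zero, Matrix.cons_val_one, Matrix.cons_val]
  linarith

/-- **The cell lemma, rounding up.** -/
theorem cell_round_up (hw0 : 0 ≤ w) (hw20 : w ≤ 20) (hA : 0 ≤ A) (hs : s ≤ 20 + w) :
    ∃ c : Fin 3 → ℝ, ∀ t : ℝ, 0 ≤ t → t < 1 →
      cellG w A s ≤ cellG ⌊w + t⌋ ⌊A + t⌋ ⌊s + t⌋ + 31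
        + c 0 * ((⌊w + t⌋ : ℝ) - w) + c 1 * ((⌊A + t⌋ : ℝ) - A) + c 2 * ((⌊s + t⌋ : ℝ) - s) := by
  obtain ⟨c, hc⟩ := cell_lin (w := w) (A := A) (s := s) hw0 hw20 hA hs
  refine ⟨c, fun t ht0 ht1 => ?_⟩
  obtain ⟨i, hi, ei, pi⟩ := up_pat w t ht0 ht1
  obtain ⟨j, hj, ej, pj⟩ := up_pat A t ht0 ht1
  obtain ⟨k, hk, ek, pk⟩ := up_pat s t ht0 ht1
  rw [ei, ej, ek]
  exact hc i j k hi hj hk
    (fun u => nest_of hi hj pi pj (by intro; linarith))
    (fun u => nest_of hj hi pj pi (by intro; linarith))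
    (fun u => nest_of hi hk pi pk (by intro; linarith))
    (fun u => nest_of hk hi pk pi (by intro; linarith))
    (fun u => nest_of hj hk pj pk (by intro; linarith))
    (fun u => nest_of hk hj pk pj (by intro; linarith))

/-- **The cell lemma, rounding down.** -/
theorem cell_round_dn (hw0 : 0 ≤ w) (hw20 : w ≤ 20) (hA : 0 ≤ A) (hs : s ≤ 20 + w) :
    ∃ c : Fin 3 → ℝ, ∀ t : ℝ, 0 ≤ t → t < 1 →
      cellG w A s ≤ cellG (-⌊-w + t⌋) (-⌊-A + t⌋) (-⌊-s + t⌋) + 31
        + c 0 * ((-⌊-w + t⌋ : ℝ) - w) + c 1 * ((-⌊-A + t⌋ : ℝ) - A)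
        + c 2 * ((-⌊-s + t⌋ : ℝ) - s) := by
  obtain ⟨c, hc⟩ := cell_lin (w := w) (A := A) (s := s) hw0 hw20 hA hs
  refine ⟨c, fun t ht0 ht1 => ?_⟩
  obtain ⟨i, hi, ei, pi⟩ := dn_pat w t ht0 ht1
  obtain ⟨j, hj, ej, pj⟩ := dn_pat A t ht0 ht1
  obtain ⟨k, hk, ek, pk⟩ := dn_pat s t ht0 ht1
  rw [ei, ej, ek]
  exact hc i j k hi hj hk
    (fun u => nest_of hi hj pi pj (by intro; linarith))
    (fun u => nest_of hj hi pj pi (by intro; linarith))
    (fun u => nest_of hi hk pi pk (by intro; linarith))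
    (fun u => nest_of hk hi pk pi (by intro; linarith))
    (fun u => nest_of hj hk pj pk (by intro; linarith))
    (fun u => nest_of hk hj pk pj (by intro; linarith))

end Pool.Agent.Helper95.TS
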