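import Pool.Agent.Helper84.TS.Fd

/-!
# The high main cell of a weak class: separable majorants
-/

set_option autoImplicit false

namespace Pool.Agent.Helper95.TS

open Pool.Agent.Helper84.TS

/-- Admissible pairs `(α, β)`. -/
structure MajPair (α β : ℝ) : Prop where
  b0 : 0 ≤ β
  c1 : 6 / 25 + β / 5 ≤ α
  c2 : β ≤ 7 / 25 → 88 / 375 + 5 / 6 * (2 / 25 + β) ^ 2 ≤ α
  c3 : 131 / 750 + 3 / 5 * β ≤ α
  c4 : β ≤ α

theorem MajPair.line {α β W : ℝ} (h : MajPair α β) (h1 : 3 / 5 ≤ W) (h2 : W ≤ 1) :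
    131 / 300 * (1 - W) ≤ α - β * W := by
  have k1 := mul_nonneg (sub_nonneg.2 h.c3) (sub_nonneg.2 h2)
  have k2 := mul_nonneg (sub_nonneg.2 h.c4) (sub_nonneg.2 h1)
  nlinarith

theorem MajPair.quad {α β W : ℝ} (h : MajPair α β) (hW : W ≤ 3 / 5) :
    88 / 375 + 2 / 25 * W - 3 / 10 * W ^ 2 ≤ α - β * W := by
  rcases le_total β (7 / 25) with hb | hb
  · have := h.c2 hb
    nlinarith [sq_nonneg (W * (3 / 5) - (2 / 25 + β))]
  · have := h.c3
    nlinarith [mul_nonneg (sub_nonneg.2 hb) (sub_nonneg.2 hW), sq_nonneg (W - 3 / 5)]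

theorem MajPair.low {α β W : ℝ} (h : MajPair α β) (h1 : W ≤ 1 / 5) : 6 / 25 ≤ α - β * W := by
  have := h.c1
  nlinarith [mul_nonneg h.b0 (sub_nonneg.2 h1)]

/-- no entry above `d` -/
theorem case0 {x a b c α β : ℝ} (h : MajPair α β) (x0 : 0 ≤ x) (x1 : x ≤ 2 / 5)
    (ha : a ≤ 1 - x) (hb : b ≤ 1 - x) (hc : c ≤ 1 - x) (hs : a + b + c = 2 - x) :
    ff (1 - x) a b c ≤ α - β * (1 - 2 * x) := by
  have a0 : 0 ≤ a := by linarith
  have b0 : 0 ≤ b := by linarith
  have c0 : 0 ≤ c := by linarith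
  unfold ff
  rw [max_eq_right (by linarith), max_eq_right (by linarith), max_eq_right (by linarith),
    max_eq_right (by linarith), max_eq_right (by linarith), max_eq_right (by linarith)]
  have hq : (2 - x) ^ 2 / 3 ≤ a ^ 2 + b ^ 2 + c ^ 2 := by
    rw [← hs]
    nlinarith [sq_nonneg (a - b), sq_nonneg (b - c), sq_nonneg (a - c)]
  have hq2 := mul_le_mul_of_nonneg_left hq x0
  have k1 : x * (1 + 2 * x) / 3 ≤ 3 / 5 * x := by nlinarith
  have k2 : 3 / 5 * x ≤ α - β * (1 - 2 * x) := by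
    have e1 := mul_nonneg (sub_nonneg.2 h.c1) x0
    have e2 := mul_nonneg (sub_nonneg.2 h.c4) (sub_nonneg.2 x1)
    nlinarith
  nlinarith

/-- one entry above `d` -/
theorem case1 {x a b c α β : ℝ} (h : MajPair α β) (x0 : 0 ≤ x) (x1 : x ≤ 2 / 5)
    (ha : a ≤ 1 - x) (hb : b ≤ 1 - x) (hc : 1 - x < c) (hc1 : c ≤ 1) (hs : a + b + c = 2 - x) :
    ff (1 - x) a b c ≤ α - β * (c - x) := by
  have a0 : 0 ≤ a := by linarith
  have b0 : 0 ≤ b := by linarith
  have c0 : 0 ≤ c := by linarith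
  unfold ff
  rw [max_eq_right (by linarith), max_eq_right (by linarith), max_eq_right (by linarith),
    max_eq_right (by linarith), max_eq_right (by linarith), max_eq_right (by linarith)]
  obtain ⟨W, hW⟩ : ∃ W, W = c - x := ⟨_, rfl⟩
  have hcW : c = W + x := by linarith
  have hq : (2 - 2 * x - W) ^ 2 / 2 ≤ a ^ 2 + b ^ 2 := by
    have : a + b = 2 - 2 * x - W := by linarith
    rw [← this]
    nlinarith [sq_nonneg (a - b)]
  have hq2 := mul_le_mul_of_nonneg_left hq x0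
  rw [← hW]
  have W0 : 1 - 2 * x < W := by linarith
  have W1 : W ≤ 1 - x := by linarith
  have W0' : 0 ≤ W := by linarith
  have f1 : 7 / 6 - 3 / 2 * (1 - x) + (1 - x) ^ 2 / 2 - (1 - x) ^ 3 / 6
      - (1 - (1 - x)) * (a ^ 2 + b ^ 2 + c ^ 2) / 2 + (0 ^ 3 + 0 ^ 3 + 0 ^ 3) / 3
      + (1 - (1 - x)) * (0 ^ 2 + 0 ^ 2 + 0 ^ 2) ≤
      x * (W - 3 / 4 * W ^ 2) + 2 * (1 - W) * x ^ 2 - 4 / 3 * x ^ 3 := by
    rw [hcW]
    nlinarith
  refine f1.trans ?_
  have A0 : 0 ≤ W - 3 / 4 * W ^ 2 := by nlinarith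
  rcases le_total W (3 / 5) with hw | hw
  · refine le_trans ?_ (h.quad (by assumption))
    have k : 0 ≤ (2 / 5 - x) * ((W - 3 / 4 * W ^ 2) + 2 * (1 - W) * (2 / 5 + x)
        - 4 / 3 * (4 / 25 + 2 / 5 * x + x ^ 2)) := by
      apply mul_nonneg (by linarith)
      nlinarith [mul_nonneg (sub_nonneg.2 hw) (show 0 ≤ 2 / 5 + x by linarith)]
    nlinarith
  · refine le_trans ?_ (h.line hw (by linarith))
    have k : 0 ≤ ((1 - W) - x) * ((W - 3 / 4 * W ^ 2) + 2 * (1 - W) * ((1 - W) + x)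
        - 4 / 3 * ((1 - W) ^ 2 + (1 - W) * x + x ^ 2)) := by
      apply mul_nonneg (by linarith)
      nlinarith [mul_nonneg x0 (show 0 ≤ 1 - W - x by linarith)]
    have k2 : 0 ≤ (1 - W) * ((W - 3 / 5) * (5 / 6 * (W - 3 / 5) / 10 + 129 / 300)) := by
      apply mul_nonneg (by linarith)
      apply mul_nonneg (by linarith)
      linarith
    nlinarith [k, k2, mul_nonneg (mul_nonneg (sub_nonneg.2 hw) (sub_nonneg.2 hw)) (show 0 ≤ 1 - W by linarith)]

/-- two entries above `d` -/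
theorem case2 {x a b c α β : ℝ} (h : MajPair α β) (x0 : 0 ≤ x) (x1 : x ≤ 2 / 5)
    (ha0 : -x ≤ a) (ha : a ≤ 1 - x) (hb : 1 - x < b) (hb1 : b ≤ 1) (hc : 1 - x < c) (hc1 : c ≤ 1)
    (hs : a + b + c = 2 - x) :
    ff (1 - x) a b c ≤ α - β * (1 - x - a) := by
  have b0 : 0 ≤ b := by linarith
  have c0 : 0 ≤ c := by linarith
  unfold ff
  rw [max_eq_right (show -b ≤ 0 by linarith), max_eq_right (show -c ≤ 0 by linarith),
    max_eq_right (show a - 1 ≤ 0 by linarith), max_eq_right (show b - 1 ≤ 0 by linarith),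
    max_eq_right (show c - 1 ≤ 0 by linarith)]
  obtain ⟨W, hW⟩ : ∃ W, W = 1 - x - a := ⟨_, rfl⟩
  have haW : a = 1 - x - W := by linarith
  rw [← hW]
  have hq : (1 + W) ^ 2 / 2 ≤ b ^ 2 + c ^ 2 := by
    have : b + c = 1 + W := by linarith
    rw [← this]
    nlinarith [sq_nonneg (b - c)]
  have hq2 := mul_le_mul_of_nonneg_left hq x0
  have W0 : 0 ≤ W := by linarith
  have W1 : W ≤ 1 := by linarith
  -- the bound by `h W`
  have hh : 7 / 6 - 3 / 2 * (1 - x) + (1 - x) ^ 2 / 2 - (1 - x) ^ 3 / 6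
      - (1 - (1 - x)) * (a ^ 2 + b ^ 2 + c ^ 2) / 2 + ((max (-a) 0) ^ 3 + 0 ^ 3 + 0 ^ 3) / 3
      + (1 - (1 - x)) * (0 ^ 2 + 0 ^ 2 + 0 ^ 2) ≤
      179 / 750 + 1 / 25 * W - 3 / 10 * W ^ 2 + (max (W - 3 / 5) 0) ^ 3 / 3 := by
    rcases le_total 0 a with a0 | a0
    · rw [max_eq_right (show -a ≤ 0 by linarith)]
      have m0 : 0 ≤ (max (W - 3 / 5) 0) ^ 3 := pow_nonneg (le_max_right _ _) 3
      have hx : x ≤ 1 - W := by linarith
      have k : 0 ≤ (2 / 5 - x) * ((1 - W) * (1 / 4 + 3 / 4 * W) + (1 - W) * (2 / 5 + x)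
          - 1 / 3 * (4 / 25 + 2 / 5 * x + x ^ 2)) + (max (W - 3 / 5) 0) ^ 3 / 3 := by
        rcases le_total W (3 / 5) with hw | hw
        · rw [max_eq_right (by linarith)]
          have : 0 ≤ (2 / 5 - x) * ((1 - W) * (1 / 4 + 3 / 4 * W) + (1 - W) * (2 / 5 + x)
              - 1 / 3 * (4 / 25 + 2 / 5 * x + x ^ 2)) := by
            apply mul_nonneg (by linarith)
            nlinarith [mul_nonneg (sub_nonneg.2 hw) (show 0 ≤ 2 / 5 + x by linarith),
              mul_nonneg W0 (sub_nonneg.2 W1)]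
          linarith
        · rw [max_eq_left (by linarith)]
          -- go through `x = 1 - W`
          have k1 : 0 ≤ ((1 - W) - x) * ((1 - W) * (1 / 4 + 3 / 4 * W) + (1 - W) * ((1 - W) + x)
              - 1 / 3 * ((1 - W) ^ 2 + (1 - W) * x + x ^ 2)) := by
            apply mul_nonneg (by linarith)
            nlinarith [mul_nonneg x0 (show 0 ≤ 1 - W - x by linarith),
              mul_nonneg W0 (sub_nonneg.2 W1), sq_nonneg (1 - W - x)]
          have k2 : 0 ≤ (W - 3 / 5) * ((1 - W) * (1 / 4 + 3 / 4 * W) + (1 - W) ^ 2) :=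
            mul_nonneg (by linarith) (by positivity)
          nlinarith [k1, k2]
      rw [haW]
      nlinarith [k]
    · rw [max_eq_left (show 0 ≤ -a by linarith)]
      have hx : 1 - W ≤ x := by linarith
      have hw : 3 / 5 ≤ W := by linarith
      rw [max_eq_left (by linarith)]
      have k1 : 0 ≤ (2 / 5 - x) * ((1 - W) * (1 / 4 + 3 / 4 * W) + (1 - W) ^ 2) :=
        mul_nonneg (by linarith) (by nlinarith)
      rw [haW]
      nlinarith [k1]
  refine hh.trans ?_
  rcases le_total W (1 / 5) with w1 | w1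
  · refine le_trans ?_ (h.low w1)
    rw [max_eq_right (by linarith)]
    nlinarith [sq_nonneg (W - 1 / 15)]
  · rcases le_total W (3 / 5) with w2 | w2
    · refine le_trans ?_ (h.quad (by assumption))
      rw [max_eq_right (by linarith)]
      nlinarith
    · refine le_trans ?_ (h.line w2 W1)
      rw [max_eq_left (by linarith)]
      have : 0 ≤ (1 - W) * (17 / 20 - W) ^ 2 := mul_nonneg (by linarith) (sq_nonneg _)
      nlinarith [this]

theorem ff_swap12 (d a b c : ℝ) : ff d a b c = ff d b a c := by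
  unfold ff
  ring

theorem ff_swap23 (d a b c : ℝ) : ff d a b c = ff d a c b := by
  unfold ff
  ring

/-- **The high main cell of a weak class**, separable form. -/
theorem main_low {d a b c t₁ t₂ t₃ α β : ℝ} (h : MajPair α β) (hd : 3 / 5 ≤ d) (hd1 : d ≤ 1)
    (ha : -(1 - d) ≤ a) (ha1 : a ≤ 1) (hb : -(1 - d) ≤ b) (hb1 : b ≤ 1) (hc : -(1 - d) ≤ c)
    (hc1 : c ≤ 1) (hs : a + b + c = 1 + d) (h1 : t₁ ≤ max (d - a) 0) (h2 : t₂ ≤ max (d - b) 0)
    (h3 : t₃ ≤ max (d - c) 0) :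
    ff d a b c ≤ α - β * (t₁ + t₂ + t₃) ∧ t₁ + t₂ + t₃ ≤ 1 := by
  obtain ⟨x, hx⟩ : ∃ x, x = 1 - d := ⟨_, rfl⟩
  have hdx : d = 1 - x := by linarith
  subst hdx
  have x0 : 0 ≤ x := by linarith
  have x1 : x ≤ 2 / 5 := by linarith
  have mono : ∀ {W : ℝ}, t₁ + t₂ + t₃ ≤ W → W ≤ 1 → ff (1 - x) a b c ≤ α - β * W →
      ff (1 - x) a b c ≤ α - β * (t₁ + t₂ + t₃) ∧ t₁ + t₂ + t₃ ≤ 1 := by
    intro W hW hW1 hf
    refine ⟨hf.trans ?_, hW.trans hW1⟩
    have := mul_le_mul_of_nonneg_left hW h.b0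
    linarith
  rcases le_or_gt a (1 - x) with ca | ca <;> rcases le_or_gt b (1 - x) with cb | cb <;>
    rcases le_or_gt c (1 - x) with cc | cc
  · rw [max_eq_left (by linarith)] at h1 h2 h3
    exact mono (W := 1 - 2 * x) (by linarith) (by linarith) (case0 h x0 x1 ca cb cc (by linarith))
  · rw [max_eq_left (by linarith)] at h1 h2
    rw [max_eq_right (by linarith)] at h3
    exact mono (W := c - x) (by linarith) (by linarith)
      (case1 h x0 x1 ca cb cc hc1 (by linarith))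
  · rw [max_eq_left (by linarith)] at h1 h3
    rw [max_eq_right (by linarith)] at h2
    refine mono (W := b - x) (by linarith) (by linarith) ?_
    rw [ff_swap23]
    exact case1 h x0 x1 ca cc cb hb1 (by linarith)
  · rw [max_eq_left (by linarith)] at h1
    rw [max_eq_right (by linarith)] at h2 h3
    exact mono (W := 1 - x - a) (by linarith) (by linarith)
      (case2 h x0 x1 (by linarith) ca cb hb1 cc hc1 (by linarith))
  · rw [max_eq_left (by linarith)] at h2 h3
    rw [max_eq_right (by linarith)] at h1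
    refine mono (W := a - x) (by linarith) (by linarith) ?_
    rw [ff_swap12, ff_swap23]
    exact case1 h x0 x1 cb cc ca ha1 (by linarith)
  · rw [max_eq_left (by linarith)] at h2
    rw [max_eq_right (by linarith)] at h1 h3
    refine mono (W := 1 - x - b) (by linarith) (by linarith) ?_
    rw [ff_swap12]
    exact case2 h x0 x1 (by linarith) cb ca ha1 cc hc1 (by linarith)
  · rw [max_eq_left (by linarith)] at h3
    rw [max_eq_right (by linarith)] at h1 h2
    refine mono (W := 1 - x - c) (by linarith) (by linarith) ?_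
    rw [ff_swap23, ff_swap12]
    exact case2 h x0 x1 (by linarith) cc ca ha1 cb hb1 (by linarith)
  · exfalso
    linarith

/-- The exact linear pieces: `f ≤ 6/25`, and the pair `(6/25, 0)` is admissible. -/
theorem majPair_zero : MajPair (6 / 25) 0 := ⟨by norm_num, by norm_num, by norm_num, by norm_num,
  by norm_num⟩

theorem majPair_08 : MajPair (32 / 125) (2 / 25) := ⟨by norm_num, by norm_num, by norm_num,
  by norm_num, by norm_num⟩

theorem majPair_28 : MajPair (257 / 750) (7 / 25) := ⟨by norm_num, by norm_num, by norm_num,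
  by norm_num, by norm_num⟩

theorem majPair_one : MajPair (131 / 300) (131 / 300) := ⟨by norm_num, by norm_num, by norm_num,
  by norm_num, by norm_num⟩

end Pool.Agent.Helper95.TS
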