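import Pool.Agent.Helper95.TS.Theta

/-!
# Rounding a row

Units: `e j = 20 (u j - d)`, `δ = 40 d`; values in units of `1 / 384000`.
-/

set_option autoImplicit false

namespace Pool.Agent.Helper95.TS

/-- Linear interpolation of a table. -/
noncomputable def interp (φ : ℤ → ℝ) (x : ℝ) : ℝ :=
  φ ⌊x⌋ + (x - ⌊x⌋) * (φ (⌊x⌋ + 1) - φ ⌊x⌋)

/-- `m` is the floor or the ceiling of `x`. -/
def Near (x : ℝ) (m : ℤ) : Prop := ⌊x⌋ ≤ m ∧ m ≤ ⌈x⌉

theorem Near.two {x : ℝ} {m : ℤ} (h : Near x m) : m = ⌊x⌋ ∨ m = ⌊x⌋ + 1 := by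
  have h1 := Int.ceil_le_floor_add_one x
  have h2 := h.1
  have h3 := h.2
  omega

theorem near_floor_sub (x y : ℝ) : Near y (⌊x + y⌋ - ⌊x⌋) := by
  constructor
  · have : (⌊x⌋ : ℝ) + ⌊y⌋ ≤ x + y := add_le_add (Int.floor_le x) (Int.floor_le y)
    have h2 : ⌊x⌋ + ⌊y⌋ ≤ ⌊x + y⌋ := by
      rw [Int.le_floor]
      push_cast
      exact this
    omega
  · have : x + y ≤ x + (⌈y⌉ : ℝ) := by
      have := Int.le_ceil y
      linarith
    have h2 : ⌊x + y⌋ ≤ ⌊x + (⌈y⌉ : ℝ)⌋ := Int.floor_le_floor this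
    rw [Int.floor_add_intCast] at h2
    omega

theorem near_floor_t {t : ℝ} (h0 : 0 ≤ t) (h1 : t < 1) (y : ℝ) : Near y ⌊y + t⌋ := by
  have h := near_floor_sub t y
  have e : ⌊t⌋ = 0 := Int.floor_eq_zero_iff.2 ⟨h0, h1⟩
  rw [e, sub_zero, add_comm t y] at h
  exact h

theorem near_neg_floor {t : ℝ} (h0 : 0 ≤ t) (h1 : t < 1) (y : ℝ) : Near y (-⌊-y + t⌋) := by
  have h := near_floor_t h0 h1 (-y)
  constructor
  · have h2 := h.2
    rw [Int.ceil_neg] at h2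
    omega
  · have h2 := h.1
    rw [Int.floor_neg] at h2
    omega

theorem Near.le_of_le {x : ℝ} {m c : ℤ} (h : Near x m) (hx : x ≤ c) : m ≤ c :=
  h.2.trans (Int.ceil_le.2 hx)

theorem Near.ge_of_ge {x : ℝ} {m c : ℤ} (h : Near x m) (hx : (c : ℝ) ≤ x) : c ≤ m :=
  (Int.le_floor.2 hx).trans h.1

theorem interp_near (φ : ℤ → ℝ) {x : ℝ} {m : ℤ} (h : Near x m) :
    φ m = interp φ x + (φ (⌊x⌋ + 1) - φ ⌊x⌋) * (m - x) := by
  unfold interp
  rcases h.two with rfl | rfl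
  · ring
  · push_cast
    ring

theorem sq_near {x : ℝ} {m : ℤ} (h : Near x m) :
    ((m : ℝ) - x) ^ 2 ≤ 1 / 4 + (1 - 2 * (x - ⌊x⌋)) * (m - x) := by
  have k : (x - ⌊x⌋) * (1 - (x - ⌊x⌋)) ≤ 1 / 4 := by
    nlinarith [sq_nonneg (x - ⌊x⌋ - 1 / 2)]
  rcases h.two with rfl | rfl
  · nlinarith
  · push_cast
    nlinarith

theorem Near.abs_lt {x : ℝ} {m : ℤ} (h : Near x m) : |(m : ℝ) - x| ≤ 1 := by
  have h1 := Int.floor_le x
  have h2 := Int.lt_floor_add_one x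
  rw [abs_le]
  rcases h.two with rfl | rfl
  · constructor <;> linarith
  · push_cast
    constructor <;> linarith

/-- The own cells (units `1 / 96000`). -/
noncomputable def ownK (e : ℝ) : ℝ :=
  3 * (min 13 (max 0 (-e))) * (20 + min 13 (max 0 (-e))) ^ 2 - 4 * (min 13 (max 0 (-e))) ^ 3

theorem ownK_le_interp (e : ℝ) : ownK e ≤ interp (fun n => ownK n) e := by
  unfold interp
  have hf0 : (⌊e⌋ : ℝ) ≤ e := Int.floor_le e
  have hf1 : e < ⌊e⌋ + 1 := Int.lt_floor_add_one e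
  generalize ⌊e⌋ = n at hf0 hf1 ⊢
  have c : 0 ≤ n ∨ n ≤ -14 ∨ (-13 ≤ n ∧ n ≤ -1) := by omega
  rcases c with c | c | ⟨c1, c2⟩
  · have hn : (0 : ℝ) ≤ n := by exact_mod_cast c
    have k1 : ownK e = 0 := by
      unfold ownK
      rw [max_eq_left (by linarith), min_eq_right (by norm_num)]
      norm_num
    have k2 : ownK n = 0 := by
      unfold ownK
      rw [max_eq_left (by linarith), min_eq_right (by norm_num)]
      norm_num
    have k3 : ownK ((n + 1 : ℤ) : ℝ) = 0 := by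
      unfold ownK
      push_cast
      rw [max_eq_left (by linarith), min_eq_right (by norm_num)]
      norm_num
    simp only [k1, k2, k3]
    norm_num
  · have hn : (n : ℝ) ≤ -14 := by exact_mod_cast c
    have k1 : ownK e = 3 * 13 * (20 + 13) ^ 2 - 4 * 13 ^ 3 := by
      unfold ownK
      rw [max_eq_right (by linarith), min_eq_left (by linarith)]
    have k2 : ownK n = 3 * 13 * (20 + 13) ^ 2 - 4 * 13 ^ 3 := by
      unfold ownK
      rw [max_eq_right (by linarith), min_eq_left (by linarith)]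
    have k3 : ownK ((n + 1 : ℤ) : ℝ) = 3 * 13 * (20 + 13) ^ 2 - 4 * 13 ^ 3 := by
      unfold ownK
      push_cast
      rw [max_eq_right (by linarith), min_eq_left (by linarith)]
    simp only [k1, k2, k3]
    norm_num
  · have hn1 : (-13 : ℝ) ≤ n := by exact_mod_cast c1
    have hn2 : (n : ℝ) ≤ -1 := by exact_mod_cast c2
    have k1 : ownK e = 3 * (-e) * (20 + (-e)) ^ 2 - 4 * (-e) ^ 3 := by
      unfold ownK
      rw [max_eq_right (by linarith), min_eq_right (by linarith)]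
    have k2 : ownK n = 3 * (-n) * (20 + (-n)) ^ 2 - 4 * (-n : ℝ) ^ 3 := by
      unfold ownK
      rw [max_eq_right (by linarith), min_eq_right (by linarith)]
    have k3 : ownK ((n + 1 : ℤ) : ℝ) =
        3 * (-(n + 1)) * (20 + (-(n + 1))) ^ 2 - 4 * (-(n + 1) : ℝ) ^ 3 := by
      unfold ownK
      push_cast
      rw [max_eq_right (by linarith), min_eq_right (by linarith)]
    simp only [k1, k2, k3]
    have p : 0 ≤ (e - n) * (1 - (e - n)) * (120 - 3 * (-(n : ℝ)) + 1 + (e - n)) := by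
      apply mul_nonneg (mul_nonneg _ _) <;> linarith
    nlinarith [p]

/-- The polynomial part of the row (units `1 / 384000`). -/
def rowP (δ a b c : ℝ) : ℝ :=
  448000 - 14400 * δ + 120 * δ ^ 2 - δ ^ 3
    - 3 * (40 - δ) * ((2 * a + δ) ^ 2 + (2 * b + δ) ^ 2 + (2 * c + δ) ^ 2)

theorem rowP_eq {δ a b c : ℝ} (h : a + b + c = 20 - δ) :
    rowP δ a b c = 448000 - 24000 * δ + 480 * δ ^ 2 - 4 * δ ^ 3
      - 12 * (40 - δ) * (a ^ 2 + b ^ 2 + c ^ 2) := by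
  have hc : c = 20 - δ - a - b := by linarith
  subst hc
  unfold rowP
  ring

theorem cross_ge {e x y : ℝ} (h : |e| ≤ 20) : -240 * (x ^ 2 + y ^ 2) ≤ 24 * y * (e * x) := by
  have h1 : |e * (x * y)| ≤ 20 * |x * y| := by
    rw [abs_mul]
    exact mul_le_mul_of_nonneg_right h (abs_nonneg _)
  have h2 : |x * y| ≤ (x ^ 2 + y ^ 2) / 2 := by
    rw [abs_le]
    constructor
    · nlinarith [sq_nonneg (x + y)]
    · nlinarith [sq_nonneg (x - y)]
  have h3 := neg_abs_le (e * (x * y))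
  nlinarith

/-- The second order bound. -/
theorem rowP_round {δ a b c η x y z : ℝ} (hδ : δ ≤ 10) (hδ' : 0 ≤ δ + η)
    (hη : |η| ≤ 1) (ha : |a| ≤ 20) (hb : |b| ≤ 20) (hc : |c| ≤ 20) (h : a + b + c = 20 - δ)
    (h' : x + y + z = -η) :
    rowP δ a b c + (-24000 + 960 * δ - 12 * δ ^ 2 + 12 * (a ^ 2 + b ^ 2 + c ^ 2)) * η
      - 24 * (40 - δ) * (a * x + b * y + c * z)
      - 720 * (x ^ 2 + y ^ 2 + z ^ 2) - 364 * η ^ 2 ≤
      rowP (δ + η) (a + x) (b + y) (c + z) := by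
  rw [rowP_eq h, rowP_eq (δ := δ + η) (a := a + x) (b := b + y) (c := c + z) (by linarith)]
  have c1 := cross_ge (x := x) (y := η) ha
  have c2 := cross_ge (x := y) (y := η) hb
  have c3 := cross_ge (x := z) (y := η) hc
  have hη2 := (abs_le.1 hη).2
  have q1 : 356 * η ^ 2 ≤ (480 - 12 * δ - 4 * η) * η ^ 2 := by
    apply mul_le_mul_of_nonneg_right _ (sq_nonneg _)
    linarith
  have q2 : 0 ≤ 12 * (δ + η) * (x ^ 2 + y ^ 2 + z ^ 2) := by positivity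
  nlinarith [c1, c2, c3, q1, q2]

/-- The cube part. -/
noncomputable def rowC (δ a : ℝ) : ℝ := 2 * (max (-(2 * a + δ)) 0) ^ 3

theorem cube_tangent (x y : ℝ) :
    (max x 0) ^ 3 ≤ (max y 0) ^ 3 - 3 * (max x 0) ^ 2 * (y - x) := by
  have hx0 : 0 ≤ max x 0 := le_max_right _ _
  have hy0 : 0 ≤ max y 0 := le_max_right _ _
  have hyy : y ≤ max y 0 := le_max_left _ _
  have e : 3 * (max x 0) ^ 2 * (y - x) ≤ 3 * (max x 0) ^ 2 * (max y 0 - max x 0) := by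
    rcases le_total x 0 with h | h
    · rw [max_eq_right h]; simp
    · rw [max_eq_left h]
      have : 0 ≤ 3 * x ^ 2 := by positivity
      nlinarith
  have k : 0 ≤ (max y 0 - max x 0) ^ 2 * (max y 0 + 2 * max x 0) := by positivity
  nlinarith [k, e]

theorem rowC_round (δ a η x : ℝ) :
    rowC δ a - 6 * (max (-(2 * a + δ)) 0) ^ 2 * (2 * x + η) ≤ rowC (δ + η) (a + x) := by
  unfold rowC
  have h := cube_tangent (-(2 * a + δ)) (-(2 * (a + x) + (δ + η)))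
  nlinarith [h]

/-- The value of a row (units `1 / 384000`). -/
noncomputable def rowR (δ a b c : ℝ) : ℝ :=
  rowP δ a b c + (rowC δ a + rowC δ b + rowC δ c) + 4 * (ownK a + ownK b + ownK c)

/-- **The row block, real form.** -/
theorem row_real (φ₁ φ₂ φ₃ ψ : ℤ → ℝ) (M : ℝ) (l₁ l₂ l₃ h₁ h₂ h₃ dl dh : ℤ) (hdl : 0 ≤ dl)
    (hdh : dh ≤ 10)
    (hl₁ : -20 ≤ l₁) (hl₂ : -20 ≤ l₂) (hl₃ : -20 ≤ l₃) (hh₁ : h₁ ≤ 20) (hh₂ : h₂ ≤ 20)
    (hh₃ : h₃ ≤ 20)
    (H : ∀ δ a b c : ℤ, dl ≤ δ → δ ≤ dh → l₁ ≤ a → a ≤ h₁ → l₂ ≤ b → b ≤ h₂ → l₃ ≤ c →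
      c ≤ h₃ → 2 * a + δ ≤ 41 → 2 * b + δ ≤ 42 → 2 * c + δ ≤ 41 → a + b + c = 20 - δ →
      rowR δ a b c + (φ₁ a + φ₂ b + φ₃ c) + ψ δ ≤ M)
    {δ a b c : ℝ} (d1 : (dl : ℝ) ≤ δ) (d2 : δ ≤ dh) (a1 : (l₁ : ℝ) ≤ a) (a2 : a ≤ h₁)
    (b1 : (l₂ : ℝ) ≤ b) (b2 : b ≤ h₂) (c1 : (l₃ : ℝ) ≤ c) (c2 : c ≤ h₃)
    (a3 : 2 * a + δ ≤ 40) (b3 : 2 * b + δ ≤ 40) (c3 : 2 * c + δ ≤ 40)
    (hs : a + b + c = 20 - δ) :
    rowR δ a b c + (interp φ₁ a + interp φ₂ b + interp φ₃ c) + interp ψ δ ≤ M + 631 := by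
  have r1 : (-20 : ℝ) ≤ l₁ := by exact_mod_cast hl₁
  have r2 : (-20 : ℝ) ≤ l₂ := by exact_mod_cast hl₂
  have r3 : (-20 : ℝ) ≤ l₃ := by exact_mod_cast hl₃
  have r4 : (h₁ : ℝ) ≤ 20 := by exact_mod_cast hh₁
  have r5 : (h₂ : ℝ) ≤ 20 := by exact_mod_cast hh₂
  have r6 : (h₃ : ℝ) ≤ 20 := by exact_mod_cast hh₃
  have r7 : (0 : ℝ) ≤ dl := by exact_mod_cast hdl
  have r8 : (dh : ℝ) ≤ 10 := by exact_mod_cast hdh
  have ha : |a| ≤ 20 := abs_le.2 ⟨by linarith, by linarith⟩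
  have hb : |b| ≤ 20 := abs_le.2 ⟨by linarith, by linarith⟩
  have hc : |c| ≤ 20 := abs_le.2 ⟨by linarith, by linarith⟩
  -- slopes
  set s₁ := φ₁ (⌊a⌋ + 1) - φ₁ ⌊a⌋ with hs₁
  set s₂ := φ₂ (⌊b⌋ + 1) - φ₂ ⌊b⌋ with hs₂
  set s₃ := φ₃ (⌊c⌋ + 1) - φ₃ ⌊c⌋ with hs₃
  set s₀ := ψ (⌊δ⌋ + 1) - ψ ⌊δ⌋ with hs₀
  set k₁ := (fun n : ℤ => ownK n) (⌊a⌋ + 1) - (fun n : ℤ => ownK n) ⌊a⌋ with hk₁
  set k₂ := (fun n : ℤ => ownK n) (⌊b⌋ + 1) - (fun n : ℤ => ownK n) ⌊b⌋ with hk₂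
  set k₃ := (fun n : ℤ => ownK n) (⌊c⌋ + 1) - (fun n : ℤ => ownK n) ⌊c⌋ with hk₃
  -- the linear functional: coefficient of the displacement of a, b, c, δ
  set A := -24 * (40 - δ) * a - 720 * (1 - 2 * (a - ⌊a⌋)) - 12 * (max (-(2 * a + δ)) 0) ^ 2
    + 4 * k₁ + s₁ with hA
  set B := -24 * (40 - δ) * b - 720 * (1 - 2 * (b - ⌊b⌋)) - 12 * (max (-(2 * b + δ)) 0) ^ 2
    + 4 * k₂ + s₂ with hB
  set C := -24 * (40 - δ) * c - 720 * (1 - 2 * (c - ⌊c⌋)) - 12 * (max (-(2 * c + δ)) 0) ^ 2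
    + 4 * k₃ + s₃ with hC
  set D := (-24000 + 960 * δ - 12 * δ ^ 2 + 12 * (a ^ 2 + b ^ 2 + c ^ 2))
    - 364 * (1 - 2 * (δ - ⌊δ⌋)) - 6 * (max (-(2 * a + δ)) 0) ^ 2
    - 6 * (max (-(2 * b + δ)) 0) ^ 2 - 6 * (max (-(2 * c + δ)) 0) ^ 2 + s₀ with hD
  obtain ⟨t, t0, t1, ht⟩ := exists_theta (Finset.univ : Finset (Fin 3))
    ![A - B, B - C, C - D] ![a, a + b, 20 - δ]
  simp only [Fin.sum_univ_three, Matrix.cons_val_zero, Matrix.cons_val_one, Matrix.cons_val] at ht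
  -- the rounded point
  have n1 : Near a ⌊a + t⌋ := near_floor_t t0 t1 a
  have n2 : Near b (⌊a + b + t⌋ - ⌊a + t⌋) := by
    have := near_floor_sub (a + t) b
    rwa [show a + t + b = a + b + t by ring] at this
  have n3 : Near c (⌊20 - δ + t⌋ - ⌊a + b + t⌋) := by
    have := near_floor_sub (a + b + t) c
    rwa [show a + b + t + c = 20 - δ + t by linarith] at this
  have e20 : ⌊20 - δ + t⌋ = 20 + ⌊-δ + t⌋ := by
    rw [show 20 - δ + t = ((20 : ℤ) : ℝ) + (-δ + t) by push_cast; ring, Int.floor_intCast_add]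
  have n0 : Near δ (20 - ⌊20 - δ + t⌋) := by
    have := near_neg_floor t0 t1 δ
    rw [e20]
    convert this using 1
    ring
  generalize hp : ⌊a + t⌋ = p at *
  generalize hq : ⌊a + b + t⌋ = q at *
  generalize hr : ⌊20 - δ + t⌋ = r at *
  have hg := H (20 - r) p (q - p) (r - q) (n0.ge_of_ge d1) (n0.le_of_le d2)
    (n1.ge_of_ge a1) (n1.le_of_le a2) (n2.ge_of_ge b1) (n2.le_of_le b2)
    (n3.ge_of_ge c1) (n3.le_of_le c2)
    (by
      have f1 : (p : ℝ) ≤ a + t := by rw [← hp]; exact Int.floor_le _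
      have f2 : 20 - δ + t < (r : ℝ) + 1 := by rw [← hr]; exact Int.lt_floor_add_one _
      have : ((2 * p : ℤ) : ℝ) < ((r + 22 : ℤ) : ℝ) := by
        push_cast
        linarith
      have h2 : 2 * p < r + 22 := by exact_mod_cast this
      omega)
    (by
      have f1 : (q : ℝ) ≤ a + b + t := by rw [← hq]; exact Int.floor_le _
      have f2 : 20 - δ + t < (r : ℝ) + 1 := by rw [← hr]; exact Int.lt_floor_add_one _
      have f3 : a + t < (p : ℝ) + 1 := by rw [← hp]; exact Int.lt_floor_add_one _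
      have : ((2 * (q - p) + (20 - r) : ℤ) : ℝ) < ((43 : ℤ) : ℝ) := by
        push_cast
        linarith
      have h2 : 2 * (q - p) + (20 - r) < 43 := by exact_mod_cast this
      omega)
    (by
      have f1 : (r : ℝ) ≤ 20 - δ + t := by rw [← hr]; exact Int.floor_le _
      have f3 : a + b + t < (q : ℝ) + 1 := by rw [← hq]; exact Int.lt_floor_add_one _
      have : ((2 * (r - q) + (20 - r) : ℤ) : ℝ) < ((42 : ℤ) : ℝ) := by
        push_cast
        linarith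
      have h2 : 2 * (r - q) + (20 - r) < 42 := by exact_mod_cast this
      omega)
    (by ring)
  -- the expansions
  have i1 := interp_near φ₁ n1
  have i2 := interp_near φ₂ n2
  have i3 := interp_near φ₃ n3
  have i0 := interp_near ψ n0
  have j1 := interp_near (fun n : ℤ => ownK n) n1
  have j2 := interp_near (fun n : ℤ => ownK n) n2
  have j3 := interp_near (fun n : ℤ => ownK n) n3
  have g1 := ownK_le_interp a
  have g2 := ownK_le_interp b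
  have g3 := ownK_le_interp c
  have q1 := sq_near n1
  have q2 := sq_near n2
  have q3 := sq_near n3
  have q0 := sq_near n0
  simp only [← hs₁, ← hs₂, ← hs₃, ← hs₀, ← hk₁, ← hk₂, ← hk₃] at i1 i2 i3 i0 j1 j2 j3
  push_cast at hg i1 i2 i3 i0 j1 j2 j3 q1 q2 q3 q0 ht
  have P := rowP_round (δ := δ) (a := a) (b := b) (c := c) (η := (20 - r : ℝ) - δ)
    (x := (p : ℝ) - a) (y := ((q : ℝ) - p) - b) (z := ((r : ℝ) - q) - c) (by linarith)
    (by
      have : (0 : ℤ) ≤ 20 - r := hdl.trans (n0.ge_of_ge d1)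
      have h2 : (0 : ℝ) ≤ ((20 - r : ℤ) : ℝ) := by exact_mod_cast this
      push_cast at h2
      linarith)
    (by
      have := n0.abs_lt
      push_cast at this
      exact this) ha hb hc hs (by linarith)
  have C1 := rowC_round δ a ((20 - r : ℝ) - δ) ((p : ℝ) - a)
  have C2 := rowC_round δ b ((20 - r : ℝ) - δ) (((q : ℝ) - p) - b)
  have C3 := rowC_round δ c ((20 - r : ℝ) - δ) (((r : ℝ) - q) - c)
  have z0 : δ + ((20 - r : ℝ) - δ) = 20 - r := by ring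
  have z1 : a + ((p : ℝ) - a) = p := by ring
  have z2 : b + (((q : ℝ) - p) - b) = (q : ℝ) - p := by ring
  have z3 : c + (((r : ℝ) - q) - c) = (r : ℝ) - q := by ring
  rw [z0, z1, z2, z3] at P
  rw [z0, z1] at C1
  rw [z0, z2] at C2
  rw [z0, z3] at C3
  unfold rowR at hg ⊢
  rw [i1, i2, i3, i0] at hg
  rw [j1, j2, j3] at hg
  have key : (A - B) * ((p : ℝ) - a) + (B - C) * ((q : ℝ) - (a + b)) + (C - D) * ((r : ℝ) - (20 - δ))
      = A * ((p : ℝ) - a) + B * (((q : ℝ) - p) - b) + C * (((r : ℝ) - q) - c)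
        + D * ((20 - r : ℝ) - δ) := by
    have : (20 : ℝ) - δ = a + b + c := by linarith
    rw [this]
    have e2 : (20 - r : ℝ) - δ = (a + b + c) - r := by linarith
    rw [e2]
    ring
  rw [key] at ht
  simp only [hA, hB, hC, hD] at ht
  linarith
end Pool.Agent.Helper95.TS
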