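import Pool.Agent.Helper95.TS.Slots

/-!
# The loss of a slot of a low row (`d ≤ 113/500`) under the cap `1 - A + d`

`LO`, `L1`: upper slot (multiplier `43/50`) with slopes `3/5`, `11/20` in `d`; `L2`: lower slot
(multiplier `8/25`) with slope `11/20`.
-/

set_option autoImplicit false

namespace Pool.Agent.Helper95.TS

open Pool.Agent.Helper36.TS Pool.Agent.Helper19.TS

/-- the loss of the single slot -/
noncomputable def LO (A : ℝ) : ℝ :=
  if A ≤ 7 / 50 then 0 else if A ≤ 69 / 100 then (A - 7 / 50) ^ 2 / 2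
  else if A ≤ 3 / 2 then 17 / 50 * A ^ 2 + 3 / 400 * A - 21 / 1250
  else 19 / 25 + 24 / 25 * (A - 3 / 2)

/-- the loss of the upper slot of a pair -/
noncomputable def L1 (A : ℝ) : ℝ :=
  if A ≤ 7 / 50 then 0 else if A ≤ 3 / 5 then (A - 7 / 50) ^ 2 / 2
  else if A ≤ 3 / 2 then 7 / 20 * A ^ 2 - 1 / 80 * A - 181 / 10000
  else 3 / 4 + 24 / 25 * (A - 3 / 2)

/-- the loss of the lower slot of a pair -/
noncomputable def L2 (B : ℝ) : ℝ :=
  if B ≤ 17 / 25 then 0 else if B ≤ 1 then (B - 17 / 25) ^ 2 / 2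
  else if B ≤ 5 / 4 then 32 / 625 + 8 / 25 * (B - 1) + 41 / 100 * (B - 1) ^ 2
  else if B ≤ 9 / 5 then 9 / 250 + 12 / 25 * (B - 1) else 21 / 50

/-! ### The polynomial inequalities -/

section poly

variable {c d y : ℝ}

theorem p_LO1 (y0 : 0 ≤ y) (y1 : y ≤ 1 / 2 - d) (d0 : 0 ≤ d) (d1 : d ≤ 113 / 500) :
    0 ≤ 391 / 10000 - 875 / 10000 * d + 1725 / 10000 * y + 16 / 100 * y ^ 2 - 68 / 100 * y * d
      - 34 / 100 * d ^ 2 - d * y ^ 2 / 2 - y ^ 3 / 3 := by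
  have k1 : y ^ 3 ≤ (1 / 2 - d) * y ^ 2 := by
    have := mul_le_mul_of_nonneg_right y1 (sq_nonneg y)
    nlinarith
  have k2 : y ^ 2 ≤ 1 / 2 * y := by nlinarith
  have k3 : d * y ^ 2 ≤ d * (1 / 2 * y) := mul_le_mul_of_nonneg_left k2 d0
  have k4 : d * y ≤ 113 / 500 * y := mul_le_mul_of_nonneg_right d1 y0
  nlinarith [mul_nonneg d0 (by linarith : 0 ≤ 113 / 500 - d), mul_nonneg y0 d0]

theorem p_LO2 (d0 : 0 ≤ d) (d1 : d ≤ 113 / 500) (c0 : -d ≤ c) (c1 : c ≤ 31 / 100) :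
    0 ≤ 391 / 10000 - 26 / 100 * d - 1725 / 10000 * c + 16 / 100 * c ^ 2 + c * d + d ^ 2 / 2
      - d * (c + d) ^ 2 / 2 := by
  rcases le_total c (24 / 100) with h | h
  · have e0 : 0 ≤ 113 / 500 - d := by linarith
    have bk : 0 ≤ 26 / 100 - 113 / 1000 + 12769 / 500000 - 774 / 1000 * c
        - 387 / 1000 * d + c ^ 2 / 2 + c * d + d ^ 2 / 2 := by
      nlinarith [sq_nonneg (c + d - 3 / 4), mul_nonneg d0 e0]
    have h3 := mul_nonneg e0 bk
    nlinarith [sq_nonneg (c + 2424 / 94000)]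
  · have e0 : 0 ≤ 113 / 500 - d := by linarith
    have k1 : 0 ≤ (c - 24 / 100) * (31 / 100 - c) := mul_nonneg (by linarith) (by linarith)
    have k2 := mul_nonneg d0 k1
    nlinarith [mul_nonneg d0 e0, mul_nonneg (mul_nonneg d0 d0) e0, sq_nonneg (d - 1 / 10),
      mul_nonneg d0 (by linarith : 0 ≤ c - 24 / 100),
      mul_nonneg e0 (by linarith : 0 ≤ c - 24 / 100),
      mul_nonneg e0 (by linarith : 0 ≤ 31 / 100 - c),
      mul_nonneg d0 (by linarith : 0 ≤ 31 / 100 - c)]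

theorem p_LO3 (d0 : 0 ≤ d) (d1 : d ≤ 113 / 500) (y0 : 1 / 2 - d ≤ y) (y1 : y ≤ 1 - d) :
    0 ≤ 898 / 10000 - 36 / 100 * d - y / 10 + y ^ 2 / 2 - d * y ^ 2 / 2 - y ^ 3 / 3 := by
  have e0 : 0 ≤ 113 / 500 - d := by linarith
  nlinarith [mul_nonneg d0 e0, mul_nonneg (sub_nonneg.2 y0) (sub_nonneg.2 y1),
    mul_nonneg (mul_nonneg (sub_nonneg.2 y0) (sub_nonneg.2 y1)) (by linarith : 0 ≤ y),
    mul_nonneg (sub_nonneg.2 y0) e0, mul_nonneg (sub_nonneg.2 y1) e0,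
    mul_nonneg (mul_nonneg (sub_nonneg.2 y0) (sub_nonneg.2 y1)) d0, sq_nonneg (y - 1 / 2)]

theorem p_L11 (y0 : 0 ≤ y) (y1 : y ≤ 1 / 2 - d) (d0 : 0 ≤ d) (d1 : d ≤ 113 / 500) :
    0 ≤ 504 / 10000 - 1375 / 10000 * d + 1725 / 10000 * y + 15 / 100 * y ^ 2 - 7 / 10 * y * d
      - 35 / 100 * d ^ 2 - d * y ^ 2 / 2 - y ^ 3 / 3 := by
  have k1 : y ^ 3 ≤ (1 / 2 - d) * y ^ 2 := by
    have := mul_le_mul_of_nonneg_right y1 (sq_nonneg y)
    nlinarith
  have k2 : y ^ 2 ≤ (1 / 2 - d) * y := by nlinarith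
  have k3 : d * y ^ 2 ≤ d * ((1 / 2 - d) * y) := mul_le_mul_of_nonneg_left k2 d0
  have k4 : d * y ≤ 113 / 500 * y := mul_le_mul_of_nonneg_right d1 y0
  nlinarith [mul_nonneg d0 (by linarith : 0 ≤ 113 / 500 - d), mul_nonneg y0 d0,
    mul_nonneg (mul_nonneg y0 d0) (by linarith : 0 ≤ 113 / 500 - d)]

theorem p_L12 (d0 : 0 ≤ d) (d1 : d ≤ 113 / 500) (c0 : -d ≤ c) (c1 : c ≤ 4 / 10) :
    0 ≤ 504 / 10000 - 31 / 100 * d - 1725 / 10000 * c + 15 / 100 * c ^ 2 + c * d + d ^ 2 / 2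
      - d * (c + d) ^ 2 / 2 := by
  rcases le_total c (35 / 100) with h | h
  · have e0 : 0 ≤ 113 / 500 - d := by linarith
    have bk : 0 ≤ 31 / 100 - 113 / 1000 + 12769 / 500000 - 774 / 1000 * c
        - 387 / 1000 * d + c ^ 2 / 2 + c * d + d ^ 2 / 2 := by
      nlinarith [sq_nonneg (c + d - 3 / 4), mul_nonneg d0 e0]
    have h3 := mul_nonneg e0 bk
    nlinarith [sq_nonneg (c + 2424 / 74000)]
  · have e0 : 0 ≤ 113 / 500 - d := by linarith
    have k1 : 0 ≤ (c - 35 / 100) * (4 / 10 - c) := mul_nonneg (by linarith) (by linarith)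
    have k2 := mul_nonneg d0 k1
    nlinarith [mul_nonneg d0 e0, mul_nonneg (mul_nonneg d0 d0) e0, sq_nonneg (d - 1 / 10),
      mul_nonneg d0 (by linarith : 0 ≤ c - 35 / 100),
      mul_nonneg e0 (by linarith : 0 ≤ c - 35 / 100),
      mul_nonneg e0 (by linarith : 0 ≤ 4 / 10 - c),
      mul_nonneg d0 (by linarith : 0 ≤ 4 / 10 - c)]

theorem p_L13 (d0 : 0 ≤ d) (d1 : d ≤ 113 / 500) (y0 : 1 / 2 - d ≤ y) (y1 : y ≤ 1 - d) :
    0 ≤ 998 / 10000 - 41 / 100 * d - y / 10 + y ^ 2 / 2 - d * y ^ 2 / 2 - y ^ 3 / 3 := by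
  have e0 : 0 ≤ 113 / 500 - d := by linarith
  nlinarith [mul_nonneg d0 e0, mul_nonneg (sub_nonneg.2 y0) (sub_nonneg.2 y1),
    mul_nonneg (mul_nonneg (sub_nonneg.2 y0) (sub_nonneg.2 y1)) (by linarith : 0 ≤ y),
    mul_nonneg (sub_nonneg.2 y0) e0, mul_nonneg (sub_nonneg.2 y1) e0,
    mul_nonneg (mul_nonneg (sub_nonneg.2 y0) (sub_nonneg.2 y1)) d0, sq_nonneg (y - 1 / 2)]

theorem p_L21 (d0 : 0 ≤ d) (d1 : d ≤ 113 / 500) (c0 : -d ≤ c) (c1 : c ≤ 0) :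
    0 ≤ 23 / 100 * d - 41 / 100 * c ^ 2 + (1 - d) * (c + d) ^ 2 / 2 := by
  have h1 : c ^ 2 ≤ d ^ 2 := by nlinarith
  have h2 : d ^ 2 ≤ 113 / 500 * d := by nlinarith
  have h3 : 0 ≤ (1 - d) * (c + d) ^ 2 := mul_nonneg (by linarith) (sq_nonneg _)
  nlinarith

theorem p_L22 (d0 : 0 ≤ d) (y0 : 0 ≤ y) (y1 : y + d ≤ 1 / 4) :
    0 ≤ 23 / 100 * d - 41 / 100 * (y + d) ^ 2 + (1 - d) * y ^ 2 / 2 - y ^ 3 / 3 := by
  have k1 : 0 ≤ y * (1 / 4 - y - d) := mul_nonneg y0 (by linarith)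
  have k2 := mul_nonneg y0 k1
  have k3 := mul_nonneg d0 k1
  have k4 : 0 ≤ d * (1 / 4 - y - d) := mul_nonneg d0 (by linarith)
  nlinarith [mul_nonneg d0 k4, mul_nonneg y0 d0, mul_nonneg d0 (sq_nonneg (y - 1 / 4)),
    mul_nonneg d0 d0]

theorem p_L23 (d0 : 0 ≤ d) (d1 : d ≤ 113 / 500) (y0 : 1 / 4 - d ≤ y) (y1 : y ≤ 4 / 5 - d) :
    0 ≤ 152 / 10000 + 7 / 100 * d - 16 / 100 * y + (1 - d) * y ^ 2 / 2 - y ^ 3 / 3 := by
  have e0 : 0 ≤ 113 / 500 - d := by linarith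
  have k0 : 0 ≤ (y - (1 / 4 - d)) * (4 / 5 - d - y) := mul_nonneg (by linarith) (by linarith)
  nlinarith [mul_nonneg d0 e0, mul_nonneg k0 (by linarith : 0 ≤ y),
    mul_nonneg (by linarith : 0 ≤ y - (1 / 4 - d)) e0,
    mul_nonneg (by linarith : 0 ≤ 4 / 5 - d - y) e0, mul_nonneg k0 d0, sq_nonneg (y - 1 / 4),
    mul_nonneg (by linarith : 0 ≤ y) (sq_nonneg (y - 1 / 4)), mul_nonneg d0 (sq_nonneg (y - 1 / 4)),
    mul_nonneg d0 (by linarith : 0 ≤ y - (1 / 4 - d)),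
    mul_nonneg d0 (by linarith : 0 ≤ 4 / 5 - d - y)]

theorem p_L24 (d0 : 0 ≤ d) (d1 : d ≤ 113 / 500) (y0 : 4 / 5 - d ≤ y) (y1 : y ≤ 1 - d) :
    0 ≤ -3688 / 10000 + 55 / 100 * d + 32 / 100 * y + (1 - d) * y ^ 2 / 2 - y ^ 3 / 3 := by
  have e0 : 0 ≤ 113 / 500 - d := by linarith
  have k0 : 0 ≤ (y - (4 / 5 - d)) * (1 - d - y) := mul_nonneg (by linarith) (by linarith)
  nlinarith [mul_nonneg d0 e0, mul_nonneg k0 (by linarith : 0 ≤ y),
    mul_nonneg (by linarith : 0 ≤ y - (4 / 5 - d)) e0,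
    mul_nonneg (by linarith : 0 ≤ 1 - d - y) e0, mul_nonneg k0 d0,
    mul_nonneg d0 (by linarith : 0 ≤ y - (4 / 5 - d)),
    mul_nonneg d0 (by linarith : 0 ≤ 1 - d - y)]

end poly

/-! ### Slots under caps -/

section

variable {c ν β d u : ℝ}

/-- the slot under a positive cap: quadratic loss -/
theorem slot_quad (c0 : ℝ) (h0 : 0 ≤ c0) (hν : c0 + 113 / 500 ≤ ν) (hν1 : ν ≤ 1) (hc : c0 ≤ c)
    (hcν : c ≤ ν) (d0 : 0 ≤ d) (d1 : d ≤ 113 / 500) (lo : -(1 - d) ≤ u) (hi : u ≤ 1)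
    (hcap : u ≤ c + d)
    (hk : ∀ x y : ℝ, c0 ≤ x → x ≤ ν → x + y ≤ 1 → 0 ≤ y → y ≤ 113 / 500 →
      0 ≤ β - ν + x + y / 2 - (x + y) ^ 2 / 2) :
    sx ν d u ≤ ν * c - c ^ 2 / 2 + β * d := by
  have mono : ∀ x : ℝ, x ≤ c → ν * x - x ^ 2 / 2 ≤ ν * c - c ^ 2 / 2 := by
    intro x hx
    have : 0 ≤ (c - x) * (ν - (c + x) / 2) := mul_nonneg (by linarith) (by linarith)
    nlinarith
  rcases le_total u (c0 + d) with h | h
  · have h1 := sx_mono_pos (c := ν) (by linarith : d ≤ 1) lo h (by linarith) (by linarith) (by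
      nlinarith [mul_nonneg d0 (by linarith : 0 ≤ c0 + d)])
    have h2 := hk c0 d le_rfl (by linarith) (by linarith) d0 d1
    have h3 := mono c0 hc
    have h4 := mul_nonneg d0 h2
    nlinarith
  · rw [sx_pos (by linarith) hi]
    have h2 := hk (u - d) d (by linarith) (by linarith) (by linarith) d0 d1
    have h3 := mono (u - d) (by linarith)
    have h4 := mul_nonneg d0 h2
    nlinarith

/-- the slot under a cap below the vertex -/
theorem slot_cap {U : ℝ} (d1 : d ≤ 113 / 500) (hc : 0 ≤ c) (lo : -(1 - d) ≤ u)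
    (hU : u ≤ U) (hU1 : U ≤ 1) (hcU : (1 - d) * U ≤ c) :
    sx c d u ≤ c * U - (1 - d) * U ^ 2 / 2 + (max (-U) 0) ^ 3 / 3 := by
  rcases le_total U 0 with h | h
  · have := sx_mono_neg hc lo hU h
    rw [max_eq_left (by linarith : 0 ≤ -U)]
    exact this
  · have := sx_mono_pos (by linarith : d ≤ 1) lo hU h hU1 hcU
    rw [max_eq_right (by linarith : -U ≤ 0)]
    linarith

end

section

variable {A d u : ℝ}

theorem LO_c (d0 : 0 ≤ d) (d1 : d ≤ 113 / 500) (lo : -(1 - d) ≤ u)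
    (hcap : u ≤ 1 - A + d) (h1 : 69 / 100 ≤ A) (h2 : A ≤ 3 / 2) :
    sx (43 / 50) d u ≤ (43 / 50) ^ 2 / 2 + 3 / 5 * d
      - (17 / 50 * A ^ 2 + 3 / 400 * A - 21 / 1250) := by
  obtain ⟨c, hc⟩ : ∃ c, c = 1 - A := ⟨_, rfl⟩
  have eA : A = 1 - c := by linarith
  rw [← hc] at hcap
  have h := slot_cap (c := 43 / 50) d1 (by norm_num) lo hcap (by linarith) (by nlinarith)
  refine h.trans ?_
  rw [eA]
  rcases le_total (c + d) 0 with hU | hU
  · rw [max_eq_left (by linarith)]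
    have := p_LO1 (y := -(c + d)) (d := d) (by linarith) (by linarith) d0 d1
    nlinarith [this]
  · rw [max_eq_right (by linarith)]
    have := p_LO2 (c := c) d0 d1 (by linarith) (by linarith)
    nlinarith [this]

theorem LO_d (d0 : 0 ≤ d) (d1 : d ≤ 113 / 500) (lo : -(1 - d) ≤ u)
    (hcap : u ≤ 1 - A + d) (h1 : 3 / 2 ≤ A) :
    sx (43 / 50) d u ≤ (43 / 50) ^ 2 / 2 + 3 / 5 * d - (19 / 25 + 24 / 25 * (A - 3 / 2)) := by
  have h := slot_cap (c := 43 / 50) d1 (by norm_num) lo hcap (by linarith) (by nlinarith)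
  refine h.trans ?_
  rw [max_eq_left (by linarith)]
  obtain ⟨y, hy⟩ : ∃ y, y = -(1 - A + d) := ⟨_, rfl⟩
  have eA : A = 1 + y + d := by linarith
  have := p_LO3 (y := y) d0 d1 (by linarith) (by linarith)
  rw [← hy, eA]
  nlinarith [this]

/-- **The single slot of a low row under a cap.** -/
theorem LO_le (d0 : 0 ≤ d) (d1 : d ≤ 113 / 500) (lo : -(1 - d) ≤ u) (hi : u ≤ 1)
    (hcap : u ≤ 1 - A + d) : sx (43 / 50) d u ≤ (43 / 50) ^ 2 / 2 + 3 / 5 * d - LO A := by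
  unfold LO
  split_ifs with h1 h2 h3
  · have := slot_high d0 d1 lo hi
    linarith
  · have := slot_quad (c := 1 - A) (ν := 43 / 50) (β := 3 / 5) (31 / 100) (by norm_num)
      (by norm_num) (by norm_num) (by linarith) (by linarith) d0 d1 lo hi (by linarith) (by
        intro x y h4 h5 h6 h7 h8
        nlinarith [mul_nonneg (by linarith : 0 ≤ x - 31 / 100) (by linarith : 0 ≤ 43 / 50 - x),
          mul_nonneg (by linarith : 0 ≤ x - 31 / 100) (by linarith : 0 ≤ 113 / 500 - y),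
          mul_nonneg h7 (by linarith : 0 ≤ 113 / 500 - y)])
    nlinarith
  · exact LO_c d0 d1 lo hcap (by linarith) h3
  · exact LO_d d0 d1 lo hcap (by linarith)

theorem L1_c (d0 : 0 ≤ d) (d1 : d ≤ 113 / 500) (lo : -(1 - d) ≤ u)
    (hcap : u ≤ 1 - A + d) (h1 : 3 / 5 ≤ A) (h2 : A ≤ 3 / 2) :
    sx (43 / 50) d u ≤ (43 / 50) ^ 2 / 2 + 11 / 20 * d
      - (7 / 20 * A ^ 2 - 1 / 80 * A - 181 / 10000) := by
  obtain ⟨c, hc⟩ : ∃ c, c = 1 - A := ⟨_, rfl⟩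
  have eA : A = 1 - c := by linarith
  rw [← hc] at hcap
  have h := slot_cap (c := 43 / 50) d1 (by norm_num) lo hcap (by linarith) (by nlinarith)
  refine h.trans ?_
  rw [eA]
  rcases le_total (c + d) 0 with hU | hU
  · rw [max_eq_left (by linarith)]
    have := p_L11 (y := -(c + d)) (d := d) (by linarith) (by linarith) d0 d1
    nlinarith [this]
  · rw [max_eq_right (by linarith)]
    have := p_L12 (c := c) d0 d1 (by linarith) (by linarith)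
    nlinarith [this]

theorem L1_d (d0 : 0 ≤ d) (d1 : d ≤ 113 / 500) (lo : -(1 - d) ≤ u)
    (hcap : u ≤ 1 - A + d) (h1 : 3 / 2 ≤ A) :
    sx (43 / 50) d u ≤ (43 / 50) ^ 2 / 2 + 11 / 20 * d - (3 / 4 + 24 / 25 * (A - 3 / 2)) := by
  have h := slot_cap (c := 43 / 50) d1 (by norm_num) lo hcap (by linarith) (by nlinarith)
  refine h.trans ?_
  rw [max_eq_left (by linarith)]
  obtain ⟨y, hy⟩ : ∃ y, y = -(1 - A + d) := ⟨_, rfl⟩
  have eA : A = 1 + y + d := by linarith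
  have := p_L13 (y := y) d0 d1 (by linarith) (by linarith)
  rw [← hy, eA]
  nlinarith [this]

/-- **The upper slot of a pair of low rows under a cap.** -/
theorem L1_le (d0 : 0 ≤ d) (d1 : d ≤ 113 / 500) (lo : -(1 - d) ≤ u) (hi : u ≤ 1)
    (hcap : u ≤ 1 - A + d) : sx (43 / 50) d u ≤ (43 / 50) ^ 2 / 2 + 11 / 20 * d - L1 A := by
  unfold L1
  split_ifs with h1 h2 h3
  · have := slot_high d0 d1 lo hi
    linarith
  · have := slot_quad (c := 1 - A) (ν := 43 / 50) (β := 11 / 20) (2 / 5) (by norm_num)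
      (by norm_num) (by norm_num) (by linarith) (by linarith) d0 d1 lo hi (by linarith) (by
        intro x y h4 h5 h6 h7 h8
        nlinarith [mul_nonneg (by linarith : 0 ≤ x - 2 / 5) (by linarith : 0 ≤ 43 / 50 - x),
          mul_nonneg (by linarith : 0 ≤ x - 2 / 5) (by linarith : 0 ≤ 113 / 500 - y),
          mul_nonneg h7 (by linarith : 0 ≤ 113 / 500 - y)])
    nlinarith
  · exact L1_c d0 d1 lo hcap (by linarith) h3
  · exact L1_d d0 d1 lo hcap (by linarith)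

theorem L2_c (d0 : 0 ≤ d) (d1 : d ≤ 113 / 500) (lo : -(1 - d) ≤ u)
    (hcap : u ≤ 1 - A + d) (h1 : 1 ≤ A) (h2 : A ≤ 5 / 4) :
    sx (8 / 25) d u ≤ (8 / 25) ^ 2 / 2 + 11 / 20 * d
      - (32 / 625 + 8 / 25 * (A - 1) + 41 / 100 * (A - 1) ^ 2) := by
  obtain ⟨c, hc⟩ : ∃ c, c = 1 - A := ⟨_, rfl⟩
  have eA : A = 1 - c := by linarith
  rw [← hc] at hcap
  have h := slot_cap (c := 8 / 25) d1 (by norm_num) lo hcap (by linarith) (by nlinarith)
  refine h.trans ?_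
  rw [eA]
  rcases le_total (c + d) 0 with hU | hU
  · rw [max_eq_left (by linarith)]
    have := p_L22 (y := -(c + d)) (d := d) d0 (by linarith) (by linarith)
    nlinarith [this]
  · rw [max_eq_right (by linarith)]
    have := p_L21 (c := c) d0 d1 (by linarith) (by linarith)
    nlinarith [this]

theorem L2_d (d0 : 0 ≤ d) (d1 : d ≤ 113 / 500) (lo : -(1 - d) ≤ u)
    (hcap : u ≤ 1 - A + d) (h1 : 5 / 4 ≤ A) (h2 : A ≤ 9 / 5) :
    sx (8 / 25) d u ≤ (8 / 25) ^ 2 / 2 + 11 / 20 * d - (9 / 250 + 12 / 25 * (A - 1)) := by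
  have h := slot_cap (c := 8 / 25) d1 (by norm_num) lo hcap (by linarith) (by nlinarith)
  refine h.trans ?_
  rw [max_eq_left (by linarith)]
  obtain ⟨y, hy⟩ : ∃ y, y = -(1 - A + d) := ⟨_, rfl⟩
  have eA : A = 1 + y + d := by linarith
  have := p_L23 (y := y) d0 d1 (by linarith) (by linarith)
  rw [← hy, eA]
  nlinarith [this]

theorem L2_e (d0 : 0 ≤ d) (d1 : d ≤ 113 / 500) (lo : -(1 - d) ≤ u)
    (hcap : u ≤ 1 - A + d) (h1 : 9 / 5 ≤ A) :
    sx (8 / 25) d u ≤ (8 / 25) ^ 2 / 2 + 11 / 20 * d - 21 / 50 := by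
  have h := slot_cap (c := 8 / 25) (U := 1 - 9 / 5 + d) d1 (by norm_num) lo (by linarith)
    (by linarith) (by nlinarith)
  refine h.trans ?_
  rw [max_eq_left (by linarith)]
  have := p_L24 (y := 4 / 5 - d) d0 d1 (by linarith) (by linarith)
  nlinarith [this]

/-- **The lower slot of a pair of low rows under a cap.** -/
theorem L2_le (d0 : 0 ≤ d) (d1 : d ≤ 113 / 500) (lo : -(1 - d) ≤ u) (hi : u ≤ 1)
    (hcap : u ≤ 1 - A + d) : sx (8 / 25) d u ≤ (8 / 25) ^ 2 / 2 + 11 / 20 * d - L2 A := by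
  unfold L2
  split_ifs with h1 h2 h3 h4
  · have := slot_low d0 d1 lo hi
    linarith
  · have := slot_quad (c := 1 - A) (ν := 8 / 25) (β := 11 / 20) 0 (by norm_num)
      (by norm_num) (by norm_num) (by linarith) (by linarith) d0 d1 lo hi (by linarith) (by
        intro x y h4 h5 h6 h7 h8
        nlinarith [mul_nonneg (by linarith : 0 ≤ x + y) (by linarith : 0 ≤ 1 - (x + y))])
    nlinarith
  · exact L2_c d0 d1 lo hcap (by linarith) h3
  · exact L2_d d0 d1 lo hcap (by linarith) h4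
  · exact L2_e d0 d1 lo hcap (by linarith)

end

end Pool.Agent.Helper95.TS
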