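import Pool.Agent.Helper53.NE.TreeG

/-!
# The box of a feature from a list of atoms

`hiB s d l`: the smallest index `t` of an atom `up s t` of the list `l`, started with `d`;
`loB s d l`: the largest index of an atom `lw s t`. Only `Nat.sub`, `Nat.add` on literals.
-/

set_option autoImplicit false

namespace Pool.Agent.Helper95.TS

open Pool.Agent.Helper53.NE

/-- the upper index of the feature `s` -/
def hiB (s d : ℕ) : List Atom → ℕ
  | [] => d
  | .up f t :: l => bif Nat.beq f s then t - (t - hiB s d l) else hiB s d l
  | .lw _ _ :: l => hiB s d l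
  | .pr _ _ :: l => hiB s d l

/-- the lower index of the feature `s` -/
def loB (s d : ℕ) : List Atom → ℕ
  | [] => d
  | .lw f t :: l => bif Nat.beq f s then t + (loB s d l - t) else loB s d l
  | .up _ _ :: l => loB s d l
  | .pr _ _ :: l => loB s d l

section

variable {C : Type} {S : Sem C} {c : C}

theorem hiB_ok {s d : ℕ} : ∀ {l : List Atom}, Hs S c l → S.ft c s ≤ (d : ℝ) - 20 →
    S.ft c s ≤ (hiB s d l : ℝ) - 20 := by
  intro l
  induction l with
  | nil => exact fun _ h => h
  | cons a l ihl =>
    intro h hd
    have ih := ihl h.2 hd
    cases a with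
    | lw f t => exact ih
    | pr a b => exact ih
    | up f t =>
      have h1 : S.ft c f ≤ (t : ℝ) - 20 := h.1
      simp only [hiB]
      cases hb : Nat.beq f s with
      | false => simpa [hb] using ih
      | true =>
        have e := Nat.eq_of_beq_eq_true hb
        subst e
        rw [cond_true]
        rcases le_total t (hiB f d l) with hl | hl
        · rw [Nat.sub_eq_zero_of_le hl, Nat.sub_zero]
          exact h1
        · rw [Nat.sub_sub_self hl]
          exact ih

theorem loB_ok {s d : ℕ} : ∀ {l : List Atom}, Hs S c l → (d : ℝ) - 20 ≤ S.ft c s →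
    (loB s d l : ℝ) - 20 ≤ S.ft c s := by
  intro l
  induction l with
  | nil => exact fun _ h => h
  | cons a l ihl =>
    intro h hd
    have ih := ihl h.2 hd
    cases a with
    | up f t => exact ih
    | pr a b => exact ih
    | lw f t =>
      have h1 : (t : ℝ) - 20 ≤ S.ft c f := h.1
      simp only [loB]
      cases hb : Nat.beq f s with
      | false => simpa [hb] using ih
      | true =>
        have e := Nat.eq_of_beq_eq_true hb
        subst e
        rw [cond_true]
        rcases le_total (loB f d l) t with hl | hl
        · rw [Nat.sub_eq_zero_of_le hl, Nat.add_zero]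
          exact h1
        · rw [Nat.add_sub_cancel' hl]
          exact ih

end

/-- test: the kernel evaluates it -/
example : hiB 3 60 [.up 3 30, .lw 3 10, .up 2 5, .up 3 25, .pr 0 1] = 25 := by decide +kernel

example : loB 3 0 [.up 3 30, .lw 3 10, .up 2 5, .lw 3 25, .pr 0 1] = 25 := by decide +kernel

end Pool.Agent.Helper95.TS
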