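import Mathlib

/-!
# The high main cell of a class: the main inequality for the two classes

With `s = 1 - d` and `t = d - a` etc. the volume of the main cell is
`s / 2 + 2 / 3 s ^ 3 - s (t₁² + t₂² + t₃²) / 2 + ∑ (t - 1 + s)₊³ / 3`; each summand is compared with
the chord between `t = -s` and `t = 1`.
-/

set_option autoImplicit false
set_option linter.style.longLine false

namespace Pool.Agent.Helper95.TS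

theorem ch_anyT_0 {t s : ℝ} (t0 : 0 ≤ t) (t1 : t ≤ 1 / 2) (s0 : 0 ≤ s) (s1 : s ≤ 2 / 5) :
    (1 + s) * (-s * t ^ 2 / 2 + s ^ 3 * t ^ 6 / 3 + ((297 / 2000) * t + (-337 / 5000) * t ^ 2 + (199 / 500) * t ^ 3 + (-121 / 10000) * t ^ 4)) ≤
      (1 + s) * (-s ^ 3 / 2 + 13 / 5000) + (4981 / 10000 - s / 2 + 5 / 6 * s ^ 3) * (t + s) := by
  have key : ∀ x u y v : ℝ, 0 ≤ x → 0 ≤ u → 0 ≤ y → 0 ≤ v → 0 ≤
      13 / 2 * (u ^ 6 * v ^ 4) +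
      5267 / 10 * (u ^ 6 * y * v ^ 3) +
      13411 / 10 * (u ^ 6 * y ^ 2 * v ^ 2) +
      10481 / 10 * (u ^ 6 * y ^ 3 * v) +
      3728 / 15 * (u ^ 6 * y ^ 4) +
      476 * (x * u ^ 5 * v ^ 4) +
      91679 / 20 * (x * u ^ 5 * y * v ^ 3) +
      193917 / 20 * (x * u ^ 5 * y ^ 2 * v ^ 2) +
      427831 / 60 * (x * u ^ 5 * y ^ 3 * v) +
      100237 / 60 * (x * u ^ 5 * y ^ 4) +
      18597 / 8 * (x ^ 2 * u ^ 4 * v ^ 4) +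
      76648 / 5 * (x ^ 2 * u ^ 4 * y * v ^ 3) +
      581821 / 20 * (x ^ 2 * u ^ 4 * y ^ 2 * v ^ 2) +
      309377 / 15 * (x ^ 2 * u ^ 4 * y ^ 3 * v) +
      583087 / 120 * (x ^ 2 * u ^ 4 * y ^ 4) +
      36353 / 8 * (x ^ 3 * u ^ 3 * v ^ 4) +
      509313 / 20 * (x ^ 3 * u ^ 3 * y * v ^ 3) +
      226661 / 5 * (x ^ 3 * u ^ 3 * y ^ 2 * v ^ 2) +
      1890637 / 60 * (x ^ 3 * u ^ 3 * y ^ 3 * v) +
      903193 / 120 * (x ^ 3 * u ^ 3 * y ^ 4) +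
      278337 / 64 * (x ^ 4 * u ^ 2 * v ^ 4) +
      3578667 / 160 * (x ^ 4 * u ^ 2 * y * v ^ 3) +
      3064473 / 80 * (x ^ 4 * u ^ 2 * y ^ 2 * v ^ 2) +
      12659783 / 480 * (x ^ 4 * u ^ 2 * y ^ 3 * v) +
      6150037 / 960 * (x ^ 4 * u ^ 2 * y ^ 4) +
      64741 / 32 * (x ^ 5 * u * v ^ 4) +
      791619 / 80 * (x ^ 5 * u * y * v ^ 3) +
      661871 / 40 * (x ^ 5 * u * y ^ 2 * v ^ 2) +
      2724911 / 240 * (x ^ 5 * u * y ^ 3 * v) +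
      1347409 / 480 * (x ^ 5 * u * y ^ 4) +
      23241 / 64 * (x ^ 6 * v ^ 4) +
      275499 / 160 * (x ^ 6 * y * v ^ 3) +
      226941 / 80 * (x ^ 6 * y ^ 2 * v ^ 2) +
      934231 / 480 * (x ^ 6 * y ^ 3 * v) +
      469709 / 960 * (x ^ 6 * y ^ 4) := by
    intro x u y v hx hu hy hv
    positivity
  have h := key (t) (1 / 2 - t) s (2 / 5 - s) (by linarith) (by linarith) s0 (by linarith)
  refine le_of_sub_nonneg (h.trans_eq ?_)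
  ring

theorem ch_anyT_1 {t s : ℝ} (t0 : 1 / 2 ≤ t) (t1 : t ≤ 1) (s0 : 0 ≤ s) (s1 : s ≤ 2 / 5) :
    (1 + s) * (-s * t ^ 2 / 2 + s ^ 3 * t ^ 6 / 3 + ((297 / 2000) * t + (-337 / 5000) * t ^ 2 + (199 / 500) * t ^ 3 + (-121 / 10000) * t ^ 4)) ≤
      (1 + s) * (-s ^ 3 / 2 + 13 / 5000) + (4981 / 10000 - s / 2 + 5 / 6 * s ^ 3) * (t + s) := by
  have key : ∀ x u y v : ℝ, 0 ≤ x → 0 ≤ u → 0 ≤ y → 0 ≤ v → 0 ≤
      23241 / 64 * (u ^ 6 * v ^ 4) +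
      275499 / 160 * (u ^ 6 * y * v ^ 3) +
      226941 / 80 * (u ^ 6 * y ^ 2 * v ^ 2) +
      934231 / 480 * (u ^ 6 * y ^ 3 * v) +
      469709 / 960 * (u ^ 6 * y ^ 4) +
      74705 / 32 * (x * u ^ 5 * v ^ 4) +
      172275 / 16 * (x * u ^ 5 * y * v ^ 3) +
      139955 / 8 * (x * u ^ 5 * y ^ 2 * v ^ 2) +
      576095 / 48 * (x * u ^ 5 * y ^ 3 * v) +
      294169 / 96 * (x * u ^ 5 * y ^ 4) +
      377977 / 64 * (x ^ 2 * u ^ 4 * v ^ 4) +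
      4276227 / 160 * (x ^ 2 * u ^ 4 * y * v ^ 3) +
      3443513 / 80 * (x ^ 2 * u ^ 4 * y ^ 2 * v ^ 2) +
      14215423 / 480 * (x ^ 2 * u ^ 4 * y ^ 3 * v) +
      7384397 / 960 * (x ^ 2 * u ^ 4 * y ^ 4) +
      29697 / 4 * (x ^ 3 * u ^ 3 * v ^ 4) +
      165786 / 5 * (x ^ 3 * u ^ 3 * y * v ^ 3) +
      531261 / 10 * (x ^ 3 * u ^ 3 * y ^ 2 * v ^ 2) +
      551164 / 15 * (x ^ 3 * u ^ 3 * y ^ 3 * v) +
      194489 / 20 * (x ^ 3 * u ^ 3 * y ^ 4) +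
      9475 / 2 * (x ^ 4 * u ^ 2 * v ^ 4) +
      83861 / 4 * (x ^ 4 * u ^ 2 * y * v ^ 3) +
      134083 / 4 * (x ^ 4 * u ^ 2 * y ^ 2 * v ^ 2) +
      280349 / 12 * (x ^ 4 * u ^ 2 * y ^ 3 * v) +
      75713 / 12 * (x ^ 4 * u ^ 2 * y ^ 4) +
      1332 * (x ^ 5 * u * v ^ 4) +
      117197 / 20 * (x ^ 5 * u * y * v ^ 3) +
      187751 / 20 * (x ^ 5 * u * y ^ 2 * v ^ 2) +
      397013 / 60 * (x ^ 5 * u * y ^ 3 * v) +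
      109271 / 60 * (x ^ 5 * u * y ^ 4) +
      337 / 4 * (x ^ 6 * v ^ 4) +
      3707 / 10 * (x ^ 6 * y * v ^ 3) +
      3033 / 5 * (x ^ 6 * y ^ 2 * v ^ 2) +
      4381 / 10 * (x ^ 6 * y ^ 3 * v) +
      2359 / 20 * (x ^ 6 * y ^ 4) := by
    intro x u y v hx hu hy hv
    positivity
  have h := key (t - 1 / 2) (1 - t) s (2 / 5 - s) (by linarith) (by linarith) s0 (by linarith)
  refine le_of_sub_nonneg (h.trans_eq ?_)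
  ring

theorem ch_anyO_0 {t s : ℝ} (t0 : 0 ≤ t) (t1 : t ≤ 1 / 2) (s0 : 0 ≤ s) (s1 : s ≤ 2 / 5) :
    (1 + s) * (-s * t ^ 2 / 2 + s ^ 3 * t ^ 6 / 3 + ((397 / 2500) * t + (1443 / 5000) * t ^ 2 + (319 / 5000) * t ^ 3 + (-131 / 10000) * t ^ 4)) ≤
      (1 + s) * (-s ^ 3 / 2 + 13 / 5000) + (4981 / 10000 - s / 2 + 5 / 6 * s ^ 3) * (t + s) := by
  have key : ∀ x u y v : ℝ, 0 ≤ x → 0 ≤ u → 0 ≤ y → 0 ≤ v → 0 ≤
      13 / 2 * (u ^ 6 * v ^ 4) +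
      5267 / 10 * (u ^ 6 * y * v ^ 3) +
      13411 / 10 * (u ^ 6 * y ^ 2 * v ^ 2) +
      10481 / 10 * (u ^ 6 * y ^ 3 * v) +
      3728 / 15 * (u ^ 6 * y ^ 4) +
      3705 / 8 * (x * u ^ 5 * v ^ 4) +
      45273 / 10 * (x * u ^ 5 * y * v ^ 3) +
      192063 / 20 * (x * u ^ 5 * y ^ 2 * v ^ 2) +
      211907 / 30 * (x * u ^ 5 * y ^ 3 * v) +
      198311 / 120 * (x * u ^ 5 * y ^ 4) +
      8151 / 4 * (x ^ 2 * u ^ 4 * v ^ 4) +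
      281347 / 20 * (x ^ 2 * u ^ 4 * y * v ^ 3) +
      540511 / 20 * (x ^ 2 * u ^ 4 * y ^ 2 * v ^ 2) +
      1148003 / 60 * (x ^ 2 * u ^ 4 * y ^ 3 * v) +
      133723 / 30 * (x ^ 2 * u ^ 4 * y ^ 4) +
      58077 / 16 * (x ^ 3 * u ^ 3 * v ^ 4) +
      857707 / 40 * (x ^ 3 * u ^ 3 * y * v ^ 3) +
      774983 / 20 * (x ^ 3 * u ^ 3 * y ^ 2 * v ^ 2) +
      3210743 / 120 * (x ^ 3 * u ^ 3 * y ^ 3 * v) +
      1499177 / 240 * (x ^ 3 * u ^ 3 * y ^ 4) +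
      204719 / 64 * (x ^ 4 * u ^ 2 * v ^ 4) +
      2768869 / 160 * (x ^ 4 * u ^ 2 * y * v ^ 3) +
      2401911 / 80 * (x ^ 4 * u ^ 2 * y ^ 2 * v ^ 2) +
      9788681 / 480 * (x ^ 4 * u ^ 2 * y ^ 3 * v) +
      4604059 / 960 * (x ^ 4 * u ^ 2 * y ^ 4) +
      44237 / 32 * (x ^ 5 * u * v ^ 4) +
      113215 / 16 * (x ^ 5 * u * y * v ^ 3) +
      95467 / 8 * (x ^ 5 * u * y ^ 2 * v ^ 2) +
      385051 / 48 * (x ^ 5 * u * y ^ 3 * v) +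
      183365 / 96 * (x ^ 5 * u * y ^ 4) +
      14871 / 64 * (x ^ 6 * v ^ 4) +
      183429 / 160 * (x ^ 6 * y * v ^ 3) +
      151611 / 80 * (x ^ 6 * y ^ 2 * v ^ 2) +
      607801 / 480 * (x ^ 6 * y ^ 3 * v) +
      293939 / 960 * (x ^ 6 * y ^ 4) := by
    intro x u y v hx hu hy hv
    positivity
  have h := key (t) (1 / 2 - t) s (2 / 5 - s) (by linarith) (by linarith) s0 (by linarith)
  refine le_of_sub_nonneg (h.trans_eq ?_)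
  ring

theorem ch_anyO_1 {t s : ℝ} (t0 : 1 / 2 ≤ t) (t1 : t ≤ 1) (s0 : 0 ≤ s) (s1 : s ≤ 2 / 5) :
    (1 + s) * (-s * t ^ 2 / 2 + s ^ 3 * t ^ 6 / 3 + ((397 / 2500) * t + (1443 / 5000) * t ^ 2 + (319 / 5000) * t ^ 3 + (-131 / 10000) * t ^ 4)) ≤
      (1 + s) * (-s ^ 3 / 2 + 13 / 5000) + (4981 / 10000 - s / 2 + 5 / 6 * s ^ 3) * (t + s) := by
  have key : ∀ x u y v : ℝ, 0 ≤ x → 0 ≤ u → 0 ≤ y → 0 ≤ v → 0 ≤
      14871 / 64 * (u ^ 6 * v ^ 4) +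
      183429 / 160 * (u ^ 6 * y * v ^ 3) +
      151611 / 80 * (u ^ 6 * y ^ 2 * v ^ 2) +
      607801 / 480 * (u ^ 6 * y ^ 3 * v) +
      293939 / 960 * (u ^ 6 * y ^ 4) +
      44989 / 32 * (x * u ^ 5 * v ^ 4) +
      534499 / 80 * (x * u ^ 5 * y * v ^ 3) +
      432331 / 40 * (x * u ^ 5 * y ^ 2 * v ^ 2) +
      1721551 / 240 * (x * u ^ 5 * y ^ 3 * v) +
      846809 / 480 * (x * u ^ 5 * y ^ 4) +
      212239 / 64 * (x ^ 2 * u ^ 4 * v ^ 4) +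
      2453109 / 160 * (x ^ 2 * u ^ 4 * y * v ^ 3) +
      1951871 / 80 * (x ^ 2 * u ^ 4 * y ^ 2 * v ^ 2) +
      7751641 / 480 * (x ^ 2 * u ^ 4 * y ^ 3 * v) +
      3903899 / 960 * (x ^ 2 * u ^ 4 * y ^ 4) +
      61461 / 16 * (x ^ 3 * u ^ 3 * v ^ 4) +
      695691 / 40 * (x ^ 3 * u ^ 3 * y * v ^ 3) +
      546579 / 20 * (x ^ 3 * u ^ 3 * y ^ 2 * v ^ 2) +
      2173559 / 120 * (x ^ 3 * u ^ 3 * y ^ 3 * v) +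
      376667 / 80 * (x ^ 3 * u ^ 3 * y ^ 4) +
      8809 / 4 * (x ^ 4 * u ^ 2 * v ^ 4) +
      196203 / 20 * (x ^ 4 * u ^ 2 * y * v ^ 3) +
      305339 / 20 * (x ^ 4 * u ^ 2 * y ^ 2 * v ^ 2) +
      610747 / 60 * (x ^ 4 * u ^ 2 * y ^ 3 * v) +
      41401 / 15 * (x ^ 4 * u ^ 2 * y ^ 4) +
      4081 / 8 * (x ^ 5 * u * v ^ 4) +
      11218 / 5 * (x ^ 5 * u * y * v ^ 3) +
      69401 / 20 * (x ^ 5 * u * y ^ 2 * v ^ 2) +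
      35147 / 15 * (x ^ 5 * u * y ^ 3 * v) +
      80467 / 120 * (x ^ 5 * u * y ^ 4) +
      13 / 2 * (x ^ 6 * v ^ 4) +
      143 / 5 * (x ^ 6 * y * v ^ 3) +
      234 / 5 * (x ^ 6 * y ^ 2 * v ^ 2) +
      169 / 5 * (x ^ 6 * y ^ 3 * v) +
      91 / 10 * (x ^ 6 * y ^ 4) := by
    intro x u y v hx hu hy hv
    positivity
  have h := key (t - 1 / 2) (1 - t) s (2 / 5 - s) (by linarith) (by linarith) s0 (by linarith)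
  refine le_of_sub_nonneg (h.trans_eq ?_)
  ring

theorem ch_goodT_0 {t s : ℝ} (t0 : 0 ≤ t) (t1 : t ≤ 1 / 2) (s0 : 0 ≤ s) (s1 : s ≤ 2 / 5) :
    (1 + s) * (-s * t ^ 2 / 2 + s ^ 3 * t ^ 6 / 3 + ((1297 / 10000) * t + (781 / 5000) * t ^ 2 + (297 / 2500) * t ^ 3 + (-111 / 2000) * t ^ 4)) ≤
      (1 + s) * (-s ^ 3 / 2 + 1 / 2500) + (873 / 2500 - s / 2 + 5 / 6 * s ^ 3) * (t + s) := by
  have key : ∀ x u y v : ℝ, 0 ≤ x → 0 ≤ u → 0 ≤ y → 0 ≤ v → 0 ≤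
      1 * (u ^ 6 * v ^ 4) +
      1768 / 5 * (u ^ 6 * y * v ^ 3) +
      4274 / 5 * (u ^ 6 * y ^ 2 * v ^ 2) +
      2864 / 5 * (u ^ 6 * y ^ 3 * v) +
      1379 / 15 * (u ^ 6 * y ^ 4) +
      2243 / 8 * (x * u ^ 5 * v ^ 4) +
      11617 / 4 * (x * u ^ 5 * y * v ^ 3) +
      11661 / 2 * (x * u ^ 5 * y ^ 2 * v ^ 2) +
      43877 / 12 * (x * u ^ 5 * y ^ 3 * v) +
      13867 / 24 * (x * u ^ 5 * y ^ 4) +
      5157 / 4 * (x ^ 2 * u ^ 4 * v ^ 4) +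
      89127 / 10 * (x ^ 2 * u ^ 4 * y * v ^ 3) +
      80263 / 5 * (x ^ 2 * u ^ 4 * y ^ 2 * v ^ 2) +
      289723 / 30 * (x ^ 2 * u ^ 4 * y ^ 3 * v) +
      92897 / 60 * (x ^ 2 * u ^ 4 * y ^ 4) +
      18689 / 8 * (x ^ 3 * u ^ 3 * v ^ 4) +
      270339 / 20 * (x ^ 3 * u ^ 3 * y * v ^ 3) +
      227341 / 10 * (x ^ 3 * u ^ 3 * y ^ 2 * v ^ 2) +
      799711 / 60 * (x ^ 3 * u ^ 3 * y ^ 3 * v) +
      264229 / 120 * (x ^ 3 * u ^ 3 * y ^ 4) +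
      132499 / 64 * (x ^ 4 * u ^ 2 * v ^ 4) +
      1736209 / 160 * (x ^ 4 * u ^ 2 * y * v ^ 3) +
      1394571 / 80 * (x ^ 4 * u ^ 2 * y ^ 2 * v ^ 2) +
      4827941 / 480 * (x ^ 4 * u ^ 2 * y ^ 3 * v) +
      1657999 / 960 * (x ^ 4 * u ^ 2 * y ^ 4) +
      28587 / 32 * (x ^ 5 * u * v ^ 4) +
      352233 / 80 * (x ^ 5 * u * y * v ^ 3) +
      273947 / 40 * (x ^ 5 * u * y ^ 2 * v ^ 2) +
      939677 / 240 * (x ^ 5 * u * y ^ 3 * v) +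
      338023 / 480 * (x ^ 5 * u * y ^ 4) +
      9555 / 64 * (x ^ 6 * v ^ 4) +
      113041 / 160 * (x ^ 6 * y * v ^ 3) +
      85899 / 80 * (x ^ 6 * y ^ 2 * v ^ 2) +
      293269 / 480 * (x ^ 6 * y ^ 3 * v) +
      110831 / 960 * (x ^ 6 * y ^ 4) := by
    intro x u y v hx hu hy hv
    positivity
  have h := key (t) (1 / 2 - t) s (2 / 5 - s) (by linarith) (by linarith) s0 (by linarith)
  refine le_of_sub_nonneg (h.trans_eq ?_)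
  ring

theorem ch_goodT_1 {t s : ℝ} (t0 : 1 / 2 ≤ t) (t1 : t ≤ 1) (s0 : 0 ≤ s) (s1 : s ≤ 2 / 5) :
    (1 + s) * (-s * t ^ 2 / 2 + s ^ 3 * t ^ 6 / 3 + ((1297 / 10000) * t + (781 / 5000) * t ^ 2 + (297 / 2500) * t ^ 3 + (-111 / 2000) * t ^ 4)) ≤
      (1 + s) * (-s ^ 3 / 2 + 1 / 2500) + (873 / 2500 - s / 2 + 5 / 6 * s ^ 3) * (t + s) := by
  have key : ∀ x u y v : ℝ, 0 ≤ x → 0 ≤ u → 0 ≤ y → 0 ≤ v → 0 ≤
      9555 / 64 * (u ^ 6 * v ^ 4) +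
      113041 / 160 * (u ^ 6 * y * v ^ 3) +
      85899 / 80 * (u ^ 6 * y ^ 2 * v ^ 2) +
      293269 / 480 * (u ^ 6 * y ^ 3 * v) +
      110831 / 960 * (u ^ 6 * y ^ 4) +
      28743 / 32 * (x * u ^ 5 * v ^ 4) +
      326013 / 80 * (x * u ^ 5 * y * v ^ 3) +
      241447 / 40 * (x * u ^ 5 * y ^ 2 * v ^ 2) +
      819937 / 240 * (x * u ^ 5 * y ^ 3 * v) +
      326963 / 480 * (x * u ^ 5 * y ^ 4) +
      134059 / 64 * (x ^ 2 * u ^ 4 * v ^ 4) +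
      1474009 / 160 * (x ^ 2 * u ^ 4 * y * v ^ 3) +
      1069571 / 80 * (x ^ 2 * u ^ 4 * y ^ 2 * v ^ 2) +
      3630541 / 480 * (x ^ 2 * u ^ 4 * y ^ 3 * v) +
      1547399 / 960 * (x ^ 2 * u ^ 4 * y ^ 4) +
      2380 * (x ^ 3 * u ^ 3 * v ^ 4) +
      10218 * (x ^ 3 * u ^ 3 * y * v ^ 3) +
      14574 * (x ^ 3 * u ^ 3 * y ^ 2 * v ^ 2) +
      24842 / 3 * (x ^ 3 * u ^ 3 * y ^ 3 * v) +
      1918 * (x ^ 3 * u ^ 3 * y ^ 4) +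
      10587 / 8 * (x ^ 4 * u ^ 2 * v ^ 4) +
      111417 / 20 * (x ^ 4 * u ^ 2 * y * v ^ 3) +
      78223 / 10 * (x ^ 4 * u ^ 2 * y ^ 2 * v ^ 2) +
      269533 / 60 * (x ^ 4 * u ^ 2 * y ^ 3 * v) +
      138887 / 120 * (x ^ 4 * u ^ 2 * y ^ 4) +
      2321 / 8 * (x ^ 5 * u * v ^ 4) +
      24023 / 20 * (x ^ 5 * u * y * v ^ 3) +
      16627 / 10 * (x ^ 5 * u * y ^ 2 * v ^ 2) +
      58547 / 60 * (x ^ 5 * u * y ^ 3 * v) +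
      34573 / 120 * (x ^ 5 * u * y ^ 4) +
      1 * (x ^ 6 * v ^ 4) +
      22 / 5 * (x ^ 6 * y * v ^ 3) +
      36 / 5 * (x ^ 6 * y ^ 2 * v ^ 2) +
      26 / 5 * (x ^ 6 * y ^ 3 * v) +
      7 / 5 * (x ^ 6 * y ^ 4) := by
    intro x u y v hx hu hy hv
    positivity
  have h := key (t - 1 / 2) (1 - t) s (2 / 5 - s) (by linarith) (by linarith) s0 (by linarith)
  refine le_of_sub_nonneg (h.trans_eq ?_)
  ring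

theorem ch_goodO_0 {t s : ℝ} (t0 : 0 ≤ t) (t1 : t ≤ 1 / 2) (s0 : 0 ≤ s) (s1 : s ≤ 2 / 5) :
    (1 + s) * (-s * t ^ 2 / 2 + s ^ 3 * t ^ 6 / 3 + ((1833 / 10000) * t + (2867 / 10000) * t ^ 2 + (-1131 / 10000) * t ^ 3 + (-97 / 10000) * t ^ 4)) ≤
      (1 + s) * (-s ^ 3 / 2 + 9 / 1250) + (873 / 2500 - s / 2 + 5 / 6 * s ^ 3) * (t + s) := by
  have key : ∀ x u y v : ℝ, 0 ≤ x → 0 ≤ u → 0 ≤ y → 0 ≤ v → 0 ≤
      18 * (u ^ 6 * v ^ 4) +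
      2142 / 5 * (u ^ 6 * y * v ^ 3) +
      4886 / 5 * (u ^ 6 * y ^ 2 * v ^ 2) +
      3306 / 5 * (u ^ 6 * y ^ 3 * v) +
      1736 / 15 * (u ^ 6 * y ^ 4) +
      2523 / 8 * (x * u ^ 5 * v ^ 4) +
      12233 / 4 * (x * u ^ 5 * y * v ^ 3) +
      12165 / 2 * (x * u ^ 5 * y ^ 2 * v ^ 2) +
      46061 / 12 * (x * u ^ 5 * y ^ 3 * v) +
      15043 / 24 * (x * u ^ 5 * y ^ 4) +
      18043 / 16 * (x ^ 2 * u ^ 4 * v ^ 4) +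
      328073 / 40 * (x ^ 2 * u ^ 4 * y * v ^ 3) +
      297787 / 20 * (x ^ 2 * u ^ 4 * y ^ 2 * v ^ 2) +
      1058077 / 120 * (x ^ 2 * u ^ 4 * y ^ 3 * v) +
      317303 / 240 * (x ^ 2 * u ^ 4 * y ^ 4) +
      56075 / 32 * (x ^ 3 * u ^ 3 * v ^ 4) +
      175173 / 16 * (x ^ 3 * u ^ 3 * y * v ^ 3) +
      148247 / 8 * (x ^ 3 * u ^ 3 * y ^ 2 * v ^ 2) +
      494057 / 48 * (x ^ 3 * u ^ 3 * y ^ 3 * v) +
      132923 / 96 * (x ^ 3 * u ^ 3 * y ^ 4) +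
      88075 / 64 * (x ^ 4 * u ^ 2 * v ^ 4) +
      249509 / 32 * (x ^ 4 * u ^ 2 * y * v ^ 3) +
      198951 / 16 * (x ^ 4 * u ^ 2 * y ^ 2 * v ^ 2) +
      619081 / 96 * (x ^ 4 * u ^ 2 * y ^ 3 * v) +
      145019 / 192 * (x ^ 4 * u ^ 2 * y ^ 4) +
      8595 / 16 * (x ^ 5 * u * v ^ 4) +
      113433 / 40 * (x ^ 5 * u * y * v ^ 3) +
      85687 / 20 * (x ^ 5 * u * y ^ 2 * v ^ 2) +
      247597 / 120 * (x ^ 5 * u * y ^ 3 * v) +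
      49343 / 240 * (x ^ 5 * u * y ^ 4) +
      5315 / 64 * (x ^ 6 * v ^ 4) +
      66401 / 160 * (x ^ 6 * y * v ^ 3) +
      47739 / 80 * (x ^ 6 * y ^ 2 * v ^ 2) +
      127909 / 480 * (x ^ 6 * y ^ 3 * v) +
      21791 / 960 * (x ^ 6 * y ^ 4) := by
    intro x u y v hx hu hy hv
    positivity
  have h := key (t) (1 / 2 - t) s (2 / 5 - s) (by linarith) (by linarith) s0 (by linarith)
  refine le_of_sub_nonneg (h.trans_eq ?_)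
  ring

theorem ch_goodO_1 {t s : ℝ} (t0 : 1 / 2 ≤ t) (t1 : t ≤ 1) (s0 : 0 ≤ s) (s1 : s ≤ 2 / 5) :
    (1 + s) * (-s * t ^ 2 / 2 + s ^ 3 * t ^ 6 / 3 + ((1833 / 10000) * t + (2867 / 10000) * t ^ 2 + (-1131 / 10000) * t ^ 3 + (-97 / 10000) * t ^ 4)) ≤
      (1 + s) * (-s ^ 3 / 2 + 9 / 1250) + (873 / 2500 - s / 2 + 5 / 6 * s ^ 3) * (t + s) := by
  have key : ∀ x u y v : ℝ, 0 ≤ x → 0 ≤ u → 0 ≤ y → 0 ≤ v → 0 ≤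
      5315 / 64 * (u ^ 6 * v ^ 4) +
      66401 / 160 * (u ^ 6 * y * v ^ 3) +
      47739 / 80 * (u ^ 6 * y ^ 2 * v ^ 2) +
      127909 / 480 * (u ^ 6 * y ^ 3 * v) +
      21791 / 960 * (u ^ 6 * y ^ 4) +
      3675 / 8 * (x * u ^ 5 * v ^ 4) +
      8577 / 4 * (x * u ^ 5 * y * v ^ 3) +
      5753 / 2 * (x * u ^ 5 * y ^ 2 * v ^ 2) +
      13613 / 12 * (x * u ^ 5 * y ^ 3 * v) +
      1603 / 24 * (x * u ^ 5 * y ^ 4) +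
      63175 / 64 * (x ^ 2 * u ^ 4 * v ^ 4) +
      138857 / 32 * (x ^ 2 * u ^ 4 * y * v ^ 3) +
      86323 / 16 * (x ^ 2 * u ^ 4 * y ^ 2 * v ^ 2) +
      173213 / 96 * (x ^ 2 * u ^ 4 * y ^ 3 * v) +
      11767 / 192 * (x ^ 2 * u ^ 4 * y ^ 4) +
      33825 / 32 * (x ^ 3 * u ^ 3 * v ^ 4) +
      70351 / 16 * (x ^ 3 * u ^ 3 * y * v ^ 3) +
      40389 / 8 * (x ^ 3 * u ^ 3 * y ^ 2 * v ^ 2) +
      67259 / 48 * (x ^ 3 * u ^ 3 * y ^ 3 * v) +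
      2107 / 32 * (x ^ 3 * u ^ 3 * y ^ 4) +
      598 * (x ^ 4 * u ^ 2 * v ^ 4) +
      11896 / 5 * (x ^ 4 * u ^ 2 * y * v ^ 3) +
      12998 / 5 * (x ^ 4 * u ^ 2 * y ^ 2 * v ^ 2) +
      10804 / 15 * (x ^ 4 * u ^ 2 * y ^ 3 * v) +
      2128 / 15 * (x ^ 4 * u ^ 2 * y ^ 4) +
      699 / 4 * (x ^ 5 * u * v ^ 4) +
      1387 / 2 * (x ^ 5 * u * y * v ^ 3) +
      832 * (x ^ 5 * u * y ^ 2 * v ^ 2) +
      2255 / 6 * (x ^ 5 * u * y ^ 3 * v) +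
      1519 / 12 * (x ^ 5 * u * y ^ 4) +
      23 * (x ^ 6 * v ^ 4) +
      506 / 5 * (x ^ 6 * y * v ^ 3) +
      828 / 5 * (x ^ 6 * y ^ 2 * v ^ 2) +
      598 / 5 * (x ^ 6 * y ^ 3 * v) +
      161 / 5 * (x ^ 6 * y ^ 4) := by
    intro x u y v hx hu hy hv
    positivity
  have h := key (t - 1 / 2) (1 - t) s (2 / 5 - s) (by linarith) (by linarith) s0 (by linarith)
  refine le_of_sub_nonneg (h.trans_eq ?_)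
  ring

end Pool.Agent.Helper95.TS
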