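import Pool.Agent.Helper84.TS.Fd
import Pool.Agent.Helper95.TS.Chord

/-!
# The main inequality of a class from the chords
-/

set_option autoImplicit false

namespace Pool.Agent.Helper95.TS

open Pool.Agent.Helper84.TS

theorem up_le {s t : ℝ} (s0 : 0 ≤ s) (s1 : s ≤ 2 / 5) (t0 : 0 ≤ t) (t1 : t ≤ 1) :
    (max (t - 1 + s) 0) ^ 3 ≤ s ^ 3 * t ^ 6 := by
  have h : max (t - 1 + s) 0 ≤ s * t ^ 2 := by
    refine max_le ?_ (by positivity)
    nlinarith [mul_nonneg (sub_nonneg.2 t1) (sub_nonneg.2 (show s * (1 + t) ≤ 1 by nlinarith))]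
  calc (max (t - 1 + s) 0) ^ 3 ≤ (s * t ^ 2) ^ 3 := pow_le_pow_left₀ (le_max_right _ _) h 3
    _ = s ^ 3 * t ^ 6 := by ring

/-- the chord inequality for `ψ` -/
def Chord (ψ : ℝ → ℝ) (V ε : ℝ) : Prop :=
  ∀ s t : ℝ, 0 ≤ s → s ≤ 2 / 5 → -s ≤ t → t ≤ 1 →
    (1 + s) * (-s * t ^ 2 / 2 + (max (t - 1 + s) 0) ^ 3 / 3 + ψ (max t 0)) ≤
      (1 + s) * (-s ^ 3 / 2 + ε) + (V - s / 2 + 5 / 6 * s ^ 3) * (t + s)

theorem chord_of {ψ : ℝ → ℝ} {V ε : ℝ} (h0 : ψ 0 ≤ 0) (he : 2 / 5000 ≤ ε) (hV : 3492 / 10000 ≤ V)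
    (h : ∀ s t : ℝ, 0 ≤ s → s ≤ 2 / 5 → 0 ≤ t → t ≤ 1 →
      (1 + s) * (-s * t ^ 2 / 2 + s ^ 3 * t ^ 6 / 3 + ψ t) ≤
        (1 + s) * (-s ^ 3 / 2 + ε) + (V - s / 2 + 5 / 6 * s ^ 3) * (t + s)) : Chord ψ V ε := by
  intro s t s0 s1 t0 t1
  rcases le_total 0 t with ht | ht
  · rw [max_eq_left ht]
    have e := up_le s0 s1 ht t1
    have := h s t s0 s1 ht t1
    nlinarith
  · rw [max_eq_right ht, max_eq_right (show t - 1 + s ≤ 0 by linarith)]
    -- `X = t + s`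
    obtain ⟨X, hX⟩ : ∃ X, X = t + s := ⟨_, rfl⟩
    have hX0 : 0 ≤ X := by linarith
    have hXs : X ≤ s := by linarith
    have ht' : t = X - s := by linarith
    subst ht'
    have hVX : 0 ≤ (V - 3492 / 10000) * X := mul_nonneg (by linarith) hX0
    have hex : 0 ≤ (1 + s) * (ε - 2 / 5000) := mul_nonneg (by linarith) (by linarith)
    have hz : (1 + s) * ψ 0 ≤ 0 := mul_nonpos_of_nonneg_of_nonpos (by linarith) h0
    have key : 0 ≤ (3492 / 10000 - s / 2 + 5 / 6 * s ^ 3 - (1 + s) * s ^ 2) * X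
        + (1 + s) * s * X ^ 2 / 2 + (1 + s) * (2 / 5000) := by
      rcases le_total s (3 / 8) with h3 | h3
      · have : 0 ≤ 3492 / 10000 - s / 2 + 5 / 6 * s ^ 3 - (1 + s) * s ^ 2 := by
          nlinarith [mul_nonneg s0 (sub_nonneg.2 h3), mul_nonneg (mul_nonneg s0 s0)
            (sub_nonneg.2 h3)]
        positivity
      · have g : -(215 / 10000) ≤ 3492 / 10000 - s / 2 + 5 / 6 * s ^ 3 - (1 + s) * s ^ 2 := by
          nlinarith [mul_nonneg s0 (sub_nonneg.2 s1), mul_nonneg (mul_nonneg s0 s0)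
            (sub_nonneg.2 s1)]
        have g1 := mul_le_mul_of_nonneg_right g hX0
        have g2 : 33 / 128 * X ^ 2 ≤ (1 + s) * s * X ^ 2 / 2 := by
          have : 33 / 64 ≤ (1 + s) * s := by nlinarith
          nlinarith [sq_nonneg X]
        nlinarith [sq_nonneg (X - 417 / 10000)]
    nlinarith

theorem main_ineq {OO TO : ℝ → ℝ → ℝ} {V εT εO Γ : ℝ} (hT : Chord (fun t => TO t 0) V εT)
    (hO : Chord (fun t => OO 0 t) V εO) (hG : V + εT + 2 * εO ≤ Γ) :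
    ∀ d a b c : ℝ, 3 / 5 ≤ d → d < 1 → a ≤ 1 → b ≤ 1 → c ≤ 1 → -(1 - d) ≤ a → -(1 - d) ≤ b →
      -(1 - d) ≤ c → a + b + c = 1 + d →
      ff d a b c + TO (max (d - a) 0) 0 + OO 0 (max (d - b) 0) + OO 0 (max (d - c) 0) ≤ Γ := by
  intro d a b c d0 d1 ha hb hc ha' hb' hc' hs
  have hT' := hT (1 - d) (d - a) (by linarith) (by linarith) (by linarith) (by linarith)
  have hO1 := hO (1 - d) (d - b) (by linarith) (by linarith) (by linarith) (by linarith)
  have hO2 := hO (1 - d) (d - c) (by linarith) (by linarith) (by linarith) (by linarith)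
  simp only at hT' hO1 hO2
  rw [show d - a - 1 + (1 - d) = -a by ring] at hT'
  rw [show d - b - 1 + (1 - d) = -b by ring] at hO1
  rw [show d - c - 1 + (1 - d) = -c by ring] at hO2
  unfold ff
  rw [max_eq_right (show a - 1 ≤ 0 by linarith), max_eq_right (show b - 1 ≤ 0 by linarith),
    max_eq_right (show c - 1 ≤ 0 by linarith)]
  have hpos : 0 < 1 + (1 - d) := by linarith
  have hc2 : c = 1 + d - a - b := by linarith
  have key : (1 + (1 - d)) * (7 / 6 - 3 / 2 * d + d ^ 2 / 2 - d ^ 3 / 6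
      - (1 - d) * (a ^ 2 + b ^ 2 + c ^ 2) / 2
      + ((max (-a) 0) ^ 3 + (max (-b) 0) ^ 3 + (max (-c) 0) ^ 3) / 3
      + (1 - d) * ((0 : ℝ) ^ 2 + 0 ^ 2 + 0 ^ 2)
      + TO (max (d - a) 0) 0 + OO 0 (max (d - b) 0) + OO 0 (max (d - c) 0)) ≤
      (1 + (1 - d)) * (V + εT + 2 * εO) := by
    have := add_le_add (add_le_add hT' hO1) hO2
    refine le_trans (le_of_eq ?_) (le_trans (add_le_add_left this
      ((1 + (1 - d)) * ((1 - d) / 2 + 2 / 3 * (1 - d) ^ 3))) (le_of_eq ?_))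
    · subst hc2
      ring
    · subst hc2
      ring
  have := le_of_mul_le_mul_left key hpos
  linarith

/-- the chords of the two classes -/
theorem chord_anyT : Chord (fun t => (297 / 2000) * t + (-337 / 5000) * t ^ 2 + (199 / 500) * t ^ 3
    + (-121 / 10000) * t ^ 4) (4981 / 10000) (13 / 5000) := by
  refine chord_of (by norm_num) (by norm_num) (by norm_num) fun s t s0 s1 t0 t1 => ?_
  rcases le_total t (1 / 2) with h | h
  · exact (ch_anyT_0 t0 h s0 s1)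
  · exact (ch_anyT_1 h t1 s0 s1)

theorem chord_anyO : Chord (fun t => (397 / 2500) * t + (1443 / 5000) * t ^ 2
    + (319 / 5000) * t ^ 3 + (-131 / 10000) * t ^ 4) (4981 / 10000) (13 / 5000) := by
  refine chord_of (by norm_num) (by norm_num) (by norm_num) fun s t s0 s1 t0 t1 => ?_
  rcases le_total t (1 / 2) with h | h
  · exact (ch_anyO_0 t0 h s0 s1)
  · exact (ch_anyO_1 h t1 s0 s1)

theorem chord_goodT : Chord (fun t => (1297 / 10000) * t + (781 / 5000) * t ^ 2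
    + (297 / 2500) * t ^ 3 + (-111 / 2000) * t ^ 4) (873 / 2500) (1 / 2500) := by
  refine chord_of (by norm_num) (by norm_num) (by norm_num) fun s t s0 s1 t0 t1 => ?_
  rcases le_total t (1 / 2) with h | h
  · exact (ch_goodT_0 t0 h s0 s1)
  · exact (ch_goodT_1 h t1 s0 s1)

theorem chord_goodO : Chord (fun t => (1833 / 10000) * t + (2867 / 10000) * t ^ 2
    + (-1131 / 10000) * t ^ 3 + (-97 / 10000) * t ^ 4) (873 / 2500) (9 / 1250) := by
  refine chord_of (by norm_num) (by norm_num) (by norm_num) fun s t s0 s1 t0 t1 => ?_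
  rcases le_total t (1 / 2) with h | h
  · exact (ch_goodO_0 t0 h s0 s1)
  · exact (ch_goodO_1 h t1 s0 s1)

end Pool.Agent.Helper95.TS
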