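import Pool.Agent.Helper95.TS.ClsOf
import Pool.Agent.Helper95.TS.MainIneq
import Pool.Agent.Helper51.TS.OwnRow

/-!
# `Pieces` from the cells of the two classes

The potentials `OO`, `TO` and the cycle functions of a class are arbitrary; the fields of `TCell`,
`OCell` are given for cells with `GainT`, `GC` (`GC` contains `GainO`).
-/

set_option autoImplicit false

namespace Pool.Agent.Helper95.TS

open Pool.Agent.Helper84.TS Pool.Agent.Helper23.TS Pool.Agent.Helper36.TS Pool.Agent.Helper44.TS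
  Pool.Agent.Helper74.TS Pool.Agent.Helper90.TS Pool.Agent.Helper51.TS

/-- the domain of the data of a far cell -/
structure FDom (w A B : ℝ) : Prop where
  w0 : 0 < w
  w1 : w ≤ 1
  A0 : 0 ≤ A
  B0 : 0 ≤ B
  lo : w ≤ A + B
  hi : A + B ≤ 1 + w

theorem fdom {A : Fin 4 → Fin 4 → Option (Fin 4 → ℝ)} (h : OF A) {i m k l : Fin 4} {F : Fin 4 → ℝ}
    (hF : A i m = some F) (hn : [i, m, k, l].Nodup) :
    FDom (2 + F m) (Helper90.TS.cmp i k F) (Helper90.TS.cmp i l F) := by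
  have hmi : m ≠ i := by
    clear * - hn; revert hn; revert i m k l; decide
  have hf := h.far i m F hmi hF
  obtain ⟨h1, h2, h3, h4, h5, h6, h7, -, -⟩ := far_bounds (h.cell i m F hF) hn hf.le
  unfold Helper90.TS.cmp
  exact ⟨h1, h2, by linarith, by linarith, by linarith, by linarith⟩

/-- the data of one class -/
structure ClData (GT GC : ℝ → ℝ → ℝ → ℝ → Prop) (OO TO BT Ba Bb : ℝ → ℝ → ℝ) (Γ : ℝ) : Prop where
  phi : Phi OO TO
  G0 : 0 ≤ Γ
  cyc : ∀ x y z, 0 ≤ x → x ≤ 1 → 0 ≤ y → y ≤ 1 → 0 ≤ z → z ≤ 1 → BT x y + Bb y z + Ba z x ≤ Γ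
  main : ∀ d a b c : ℝ, 3 / 5 ≤ d → d < 1 → a ≤ 1 → b ≤ 1 → c ≤ 1 → -(1 - d) ≤ a → -(1 - d) ≤ b →
      -(1 - d) ≤ c → a + b + c = 1 + d →
      ff d a b c + TO (max (d - a) 0) 0 + OO 0 (max (d - b) 0) + OO 0 (max (d - c) 0) ≤ Γ
  tc : ∀ w A B g, FDom w A B → GT w A B g → 0 < g → TCell OO TO BT Γ w (1 - A) (1 - B) g
  oc : ∀ w A B g, FDom w A B → GC w A B g → 0 < g → OCell OO TO Ba Bb Γ w (1 - A) (1 - B) g

section

variable {GT GC GC' : ℝ → ℝ → ℝ → ℝ → Prop} {OO TO BT Ba Bb : ℝ → ℝ → ℝ} {Γ : ℝ}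

/-- the predicate of a `T` cell -/
def TP (OO TO BT : ℝ → ℝ → ℝ) (Γ w A B g : ℝ) : Prop :=
  g ≤ 0 ∨ TCell OO TO BT Γ w (1 - A) (1 - B) g

/-- the predicate of an `O` cell -/
def OP (OO TO Ba Bb : ℝ → ℝ → ℝ) (Γ w A B g : ℝ) : Prop :=
  g ≤ 0 ∨ OCell OO TO Ba Bb Γ w (1 - A) (1 - B) g

theorem ClData.cls (D : ClData GT GC OO TO BT Ba Bb Γ) :
    Cls (TP OO TO BT Γ) (OP OO TO Ba Bb Γ) Γ :=
  cls_of D.phi D.G0 D.cyc D.main (fun _ _ _ _ h => h) fun _ _ _ _ h => h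

theorem ClData.T (D : ClData GT GC OO TO BT Ba Bb Γ) {w A B g : ℝ} (h : FDom w A B)
    (hg : GT w A B g) : TP OO TO BT Γ w A B g := by
  rcases le_or_gt g 0 with h0 | h0
  · exact Or.inl h0
  · exact Or.inr (D.tc w A B g h hg h0)

theorem ClData.O (D : ClData GT GC OO TO BT Ba Bb Γ) {w A B g : ℝ} (h : FDom w A B)
    (hg : GC w A B g) : OP OO TO Ba Bb Γ w A B g := by
  rcases le_or_gt g 0 with h0 | h0
  · exact Or.inl h0
  · exact Or.inr (D.oc w A B g h hg h0)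

end

/-- the conclusion of the column lemma with two cells, with the predicate `GC` of the gains -/
def ColO2 (GC : ℝ → ℝ → ℝ → ℝ → Prop) : Prop :=
  ∀ (A : Fin 4 → Fin 4 → Option (Fin 4 → ℝ)) (P : Fin 4 → Fin 4 → ℝ) (i j x y : Fin 4),
    Rows A P i j x y → ∀ F G, A i x = some F → A j x = some G → KA P i x y j F → KA P j x y i G →
    ∃ gF gG, (gF = 0 ∨ GC (2 + F x) (Helper90.TS.cmp i j F) (Helper90.TS.cmp i y F) gF) ∧
      (gG = 0 ∨ GC (2 + G x) (Helper90.TS.cmp j i G) (Helper90.TS.cmp j y G) gG) ∧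
      col1 A P (43 / 50) x y + fcl i F + fcl j G ≤
        1849 / 5000 + 3 / 5 * (P y y - 1) + gF + gG

/-- **`Pieces` from the data of the two classes.** -/
theorem pieces_of {GC : ℝ → ℝ → ℝ → ℝ → Prop} {OOA TOA BTA BaA BbA OOG TOG BTG BaG BbG : ℝ → ℝ → ℝ}
    {Γa Γg : ℝ} (hs : Γa + Γg ≤ 87 / 100) (hGC : ∀ w A B g, GainO w A B g → GC w A B g)
    (DA : ClData GainT GC OOA TOA BTA BaA BbA Γa)
    (DG : ClData GainT (fun w A B g => B ≤ 1 ∧ GC w A B g) OOG TOG BTG BaG BbG Γg)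
    (hO2 : ColO2 GC) :
    Pieces (TP OOA TOA BTA Γa) (TP OOG TOG BTG Γg) (OP OOA TOA BaA BbA Γa)
      (OP OOG TOG BaG BbG Γg) Γa Γg := by
  have hSt : ∀ (A : Fin 4 → Fin 4 → Option (Fin 4 → ℝ)) (i j x y : Fin 4), OF A →
      [i, x, j, y].Nodup → ∀ (F : Fin 4 → ℝ) (g : ℝ), A i x = some F →
      GC (2 + F x) (Helper90.TS.cmp i j F) (Helper90.TS.cmp i y F) g →
      StO (OP OOA TOA BaA BbA Γa) (OP OOG TOG BaG BbG Γg) A i j x y g := by
    intro A i j x y h hn F g hF hg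
    have hd := fdom h hF hn
    exact Or.inr ⟨F, hF, DA.O hd hg, fun hb => DG.O hd ⟨hb, hg⟩⟩
  refine ⟨hs, DA.cls, DG.cls, fun A P i j x y R => col_T0 R, ?_, fun A P i j x y R => col_O0 R,
    ?_, ?_⟩
  · intro A P i j x y R F hF k1 k2
    obtain ⟨g, h1, h2⟩ := col_T1 R hF k1 k2
    have hd := fdom R.of hF R.hn
    exact ⟨g, DA.T hd h1, DG.T hd h1, h2⟩
  · intro A P i j x y R F hF k
    obtain ⟨g, h1, h2⟩ := col_O1 R hF k
    have hn : [i, x, j, y].Nodup := by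
      have := R.hn
      clear * - this; revert this; revert i j x y; decide
    exact ⟨g, hSt A i j x y R.of hn F g hF (hGC _ _ _ _ h1), h2⟩
  · intro A P i j x y R F G hF hG k1 k2
    obtain ⟨gF, gG, h1, h2, h3⟩ := hO2 A P i j x y R F G hF hG k1 k2
    have hn : [i, x, j, y].Nodup ∧ [j, x, i, y].Nodup := by
      have := R.hn
      clear * - this; revert this; revert i j x y; decide
    refine ⟨gF, gG, ?_, ?_, h3⟩
    · rcases h1 with e | e
      · exact Or.inl e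
      · exact hSt A i j x y R.of hn.1 F gF hF e
    · rcases h2 with e | e
      · exact Or.inl e
      · exact hSt A j i x y R.of hn.2 G gG hG e

end Pool.Agent.Helper95.TS
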