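import Mathlib

/-!
# The class lemma, abstract form

A class has a cell `T` (column with two row entries) and two cells `O`, `O'` (columns with one row
entry); for every pair of cells the width of one is at most the corresponding cap of the other.
-/

set_option autoImplicit false

namespace Pool.Agent.Helper95.TS

/-- the two functions of a class -/
structure Phi (OO TO : ℝ → ℝ → ℝ) : Prop where
  symm : ∀ x y, OO x y = OO y x
  zero : ∀ y, OO 0 y = TO 0 y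
  nonneg : 0 ≤ OO 0 0
  monoO : ∀ x y x' y', 0 ≤ x → x ≤ x' → x' ≤ 1 → 0 ≤ y → y ≤ y' → y' ≤ 1 → OO x y ≤ OO x' y'
  monoT : ∀ x y x' y', 0 ≤ x → x ≤ x' → x' ≤ 1 → 0 ≤ y → y ≤ y' → y' ≤ 1 → TO x y ≤ TO x' y'

/-- the cell `T` with width `w`, caps `p`, `q` of the cells `O`, `O'` and gain `g` -/
structure TCell (OO TO BT : ℝ → ℝ → ℝ) (Γ w p q g : ℝ) : Prop where
  w0 : 0 ≤ w
  w1 : w ≤ 1
  p1 : p ≤ 1
  q1 : q ≤ 1
  pq : 0 ≤ p ∨ 0 ≤ q
  kp : ∀ t, 0 ≤ t → t ≤ p → g + OO 0 t ≤ TO w t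
  kq : ∀ t, 0 ≤ t → t ≤ q → g + OO 0 t ≤ TO w t
  src : g + OO (max p 0) (max q 0) ≤ Γ
  cp : ∀ t, 0 ≤ t → t ≤ p → g ≤ BT w t
  cq : ∀ t, 0 ≤ t → t ≤ q → g ≤ BT w t

/-- a cell `O` with width `w`, caps `a` of the cell `T`, `b` of the other cell `O'` and gain `g` -/
structure OCell (OO TO Ba Bb : ℝ → ℝ → ℝ) (Γ w a b g : ℝ) : Prop where
  w0 : 0 ≤ w
  w1 : w ≤ 1
  a1 : a ≤ 1
  b1 : b ≤ 1
  ab : 0 ≤ a ∨ 0 ≤ b
  kb : ∀ t, 0 ≤ t → t ≤ b → g + OO 0 t ≤ OO w t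
  ka : ∀ t, 0 ≤ t → t ≤ a → g + TO t 0 ≤ TO t w
  src : g + TO (max a 0) (max b 0) ≤ Γ
  ca : ∀ t, 0 ≤ t → t ≤ a → g ≤ Ba w t
  cb : ∀ t, 0 ≤ t → t ≤ b → g ≤ Bb w t

section

variable {OO TO BT Ba Bb : ℝ → ℝ → ℝ} {Γ : ℝ}

theorem max_mem {x : ℝ} (h : x ≤ 1) : 0 ≤ max x 0 ∧ max x 0 ≤ 1 :=
  ⟨le_max_right _ _, max_le h zero_le_one⟩

/-- a satellite `T` -/
theorem TCell.sat (F : Phi OO TO) {w p q g : ℝ} (h : TCell OO TO BT Γ w p q g) : g ≤ TO w 0 := by
  rcases h.pq with h1 | h1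
  · have := h.kp 0 le_rfl h1
    linarith [F.nonneg]
  · have := h.kq 0 le_rfl h1
    linarith [F.nonneg]

/-- a satellite `O` -/
theorem OCell.sat (F : Phi OO TO) {w a b g : ℝ} (h : OCell OO TO Ba Bb Γ w a b g) :
    g ≤ OO 0 w := by
  rcases h.ab with h1 | h1
  · have := h.ka 0 le_rfl h1
    rw [← F.zero, ← F.zero] at this
    linarith [F.nonneg]
  · have := h.kb 0 le_rfl h1
    rw [F.symm w 0] at this
    linarith [F.nonneg]

/-- `T` as the source -/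
theorem TCell.source (F : Phi OO TO) {w p q g x y : ℝ} (h : TCell OO TO BT Γ w p q g)
    (x0 : 0 ≤ x) (hx : x ≤ max p 0) (y0 : 0 ≤ y) (hy : y ≤ max q 0) : g + OO x y ≤ Γ := by
  have := F.monoO x y _ _ x0 hx (max_mem h.p1).2 y0 hy (max_mem h.q1).2
  linarith [h.src]

/-- `O` as the source -/
theorem OCell.source (F : Phi OO TO) {w a b g x y : ℝ} (h : OCell OO TO Ba Bb Γ w a b g)
    (x0 : 0 ≤ x) (hx : x ≤ max a 0) (y0 : 0 ≤ y) (hy : y ≤ max b 0) : g + TO x y ≤ Γ := by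
  have := F.monoT x y _ _ x0 hx (max_mem h.a1).2 y0 hy (max_mem h.b1).2
  linarith [h.src]

theorem TCell.one (F : Phi OO TO) {w p q g : ℝ} (h : TCell OO TO BT Γ w p q g) : g ≤ Γ := by
  have := h.source F le_rfl (le_max_right _ _) le_rfl (le_max_right _ _)
  linarith [F.nonneg]

theorem OCell.one (F : Phi OO TO) {w a b g : ℝ} (h : OCell OO TO Ba Bb Γ w a b g) : g ≤ Γ := by
  have := h.source F le_rfl (le_max_right _ _) le_rfl (le_max_right _ _)
  rw [← F.zero] at this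
  linarith [F.nonneg]

/-- the cells `T` and `O` -/
theorem two_TO (F : Phi OO TO) {w p q g w' a b g' : ℝ} (h : TCell OO TO BT Γ w p q g)
    (h' : OCell OO TO Ba Bb Γ w' a b g') (r : w' ≤ p ∨ w ≤ a) : g + g' ≤ Γ := by
  rcases r with r | r
  · have h1 := h.source F h'.w0 (r.trans (le_max_left _ _)) le_rfl (le_max_right _ _)
    rw [F.symm w' 0] at h1
    linarith [h'.sat F]
  · have h1 := h'.source F h.w0 (r.trans (le_max_left _ _)) le_rfl (le_max_right _ _)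
    linarith [h.sat F]

/-- the cells `T` and `O'` -/
theorem two_TO' (F : Phi OO TO) {w p q g w' a b g' : ℝ} (h : TCell OO TO BT Γ w p q g)
    (h' : OCell OO TO Ba Bb Γ w' a b g') (r : w' ≤ q ∨ w ≤ a) : g + g' ≤ Γ := by
  rcases r with r | r
  · have h1 := h.source F le_rfl (le_max_right _ _) h'.w0 (r.trans (le_max_left _ _))
    linarith [h'.sat F]
  · have h1 := h'.source F h.w0 (r.trans (le_max_left _ _)) le_rfl (le_max_right _ _)
    linarith [h.sat F]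

/-- the cells `O` and `O'` -/
theorem two_OO (F : Phi OO TO) {w a b g w' a' b' g' : ℝ} (h : OCell OO TO Ba Bb Γ w a b g)
    (h' : OCell OO TO Ba Bb Γ w' a' b' g') (r : w' ≤ b ∨ w ≤ b') : g + g' ≤ Γ := by
  rcases r with r | r
  · have h1 := h.source F le_rfl (le_max_right _ _) h'.w0 (r.trans (le_max_left _ _))
    rw [← F.zero] at h1
    linarith [h'.sat F]
  · have h1 := h'.source F le_rfl (le_max_right _ _) h.w0 (r.trans (le_max_left _ _))
    rw [← F.zero] at h1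
    linarith [h.sat F]

/-- three cells -/
theorem three_TOO (F : Phi OO TO)
    (hB : ∀ x y z, 0 ≤ x → x ≤ 1 → 0 ≤ y → y ≤ 1 → 0 ≤ z → z ≤ 1 →
      BT x y + Bb y z + Ba z x ≤ Γ)
    {w p q g w2 a2 b2 g2 w3 a3 b3 g3 : ℝ} (h : TCell OO TO BT Γ w p q g)
    (h2 : OCell OO TO Ba Bb Γ w2 a2 b2 g2) (h3 : OCell OO TO Ba Bb Γ w3 a3 b3 g3)
    (r12 : w2 ≤ p ∨ w ≤ a2) (r13 : w3 ≤ q ∨ w ≤ a3) (r23 : w3 ≤ b2 ∨ w2 ≤ b3) :
    g + g2 + g3 ≤ Γ := by
  rcases r12 with r12 | r12 <;> rcases r13 with r13 | r13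
  · -- `T` is the source
    have h1 := h.source F h2.w0 (r12.trans (le_max_left _ _)) h3.w0 (r13.trans (le_max_left _ _))
    rcases r23 with r | r
    · have h4 := h2.kb w3 h3.w0 r
      linarith [h3.sat F]
    · have h4 := h3.kb w2 h2.w0 r
      rw [F.symm w3 w2] at h4
      linarith [h2.sat F]
  · -- `T` over `O`, `O'` over `T`
    rcases r23 with r | r
    · -- cycle
      have e1 := h.cp w2 h2.w0 r12
      have e2 := h2.cb w3 h3.w0 r
      have e3 := h3.ca w h.w0 r13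
      linarith [hB w w2 w3 h.w0 h.w1 h2.w0 h2.w1 h3.w0 h3.w1]
    · -- `O'` is the source
      have h1 := h3.source F h.w0 (r13.trans (le_max_left _ _)) h2.w0 (r.trans (le_max_left _ _))
      have h4 := h.kp w2 h2.w0 r12
      linarith [h2.sat F]
  · -- `O` over `T`, `T` over `O'`
    rcases r23 with r | r
    · -- `O` is the source
      have h1 := h2.source F h.w0 (r12.trans (le_max_left _ _)) h3.w0 (r.trans (le_max_left _ _))
      have h4 := h.kq w3 h3.w0 r13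
      linarith [h3.sat F]
    · -- cycle
      have e1 := h.cq w3 h3.w0 r13
      have e2 := h3.cb w2 h2.w0 r
      have e3 := h2.ca w h.w0 r12
      linarith [hB w w3 w2 h.w0 h.w1 h3.w0 h3.w1 h2.w0 h2.w1]
  · -- both over `T`
    rcases r23 with r | r
    · have h1 := h2.source F h.w0 (r12.trans (le_max_left _ _)) h3.w0 (r.trans (le_max_left _ _))
      have h4 := h3.ka w h.w0 r13
      linarith [h.sat F]
    · have h1 := h3.source F h.w0 (r13.trans (le_max_left _ _)) h2.w0 (r.trans (le_max_left _ _))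
      have h4 := h2.ka w h.w0 r12
      linarith [h.sat F]

/-- **The class lemma.** A cell of gain at most `0` counts as absent. -/
theorem class_lemma (F : Phi OO TO) (h0 : 0 ≤ Γ)
    (hB : ∀ x y z, 0 ≤ x → x ≤ 1 → 0 ≤ y → y ≤ 1 → 0 ≤ z → z ≤ 1 →
      BT x y + Bb y z + Ba z x ≤ Γ)
    {w p q g w2 a2 b2 g2 w3 a3 b3 g3 : ℝ} (h : g ≤ 0 ∨ TCell OO TO BT Γ w p q g)
    (h2 : g2 ≤ 0 ∨ OCell OO TO Ba Bb Γ w2 a2 b2 g2)
    (h3 : g3 ≤ 0 ∨ OCell OO TO Ba Bb Γ w3 a3 b3 g3)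
    (r12 : 0 < g → 0 < g2 → w2 ≤ p ∨ w ≤ a2) (r13 : 0 < g → 0 < g3 → w3 ≤ q ∨ w ≤ a3)
    (r23 : 0 < g2 → 0 < g3 → w3 ≤ b2 ∨ w2 ≤ b3) : g + g2 + g3 ≤ Γ := by
  rcases le_or_gt g 0 with c1 | c1 <;> rcases le_or_gt g2 0 with c2 | c2 <;>
    rcases le_or_gt g3 0 with c3 | c3
  · linarith
  · have k3 := h3.resolve_left (not_le.2 c3)
    linarith [k3.one F]
  · have k2 := h2.resolve_left (not_le.2 c2)
    linarith [k2.one F]
  · have k2 := h2.resolve_left (not_le.2 c2)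
    have k3 := h3.resolve_left (not_le.2 c3)
    linarith [two_OO F k2 k3 (r23 c2 c3)]
  · have k := h.resolve_left (not_le.2 c1)
    linarith [k.one F]
  · have k := h.resolve_left (not_le.2 c1)
    have k3 := h3.resolve_left (not_le.2 c3)
    linarith [two_TO' F k k3 (r13 c1 c3)]
  · have k := h.resolve_left (not_le.2 c1)
    have k2 := h2.resolve_left (not_le.2 c2)
    linarith [two_TO F k k2 (r12 c1 c2)]
  · have k := h.resolve_left (not_le.2 c1)
    have k2 := h2.resolve_left (not_le.2 c2)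
    have k3 := h3.resolve_left (not_le.2 c3)
    exact three_TOO F hB k k2 k3 (r12 c1 c2) (r13 c1 c3) (r23 c2 c3)

/-- a class with a main cell of gain `m`: the caps `cT`, `c2`, `c3` of the main cell -/
theorem class_main (F : Phi OO TO) {m cT c2 c3 : ℝ} (c1 : cT ≤ 1) (c21 : c2 ≤ 1) (c31 : c3 ≤ 1)
    (hm : m + TO (max cT 0) 0 + OO 0 (max c2 0) + OO 0 (max c3 0) ≤ Γ)
    {w p q g w2 a2 b2 g2 w3 a3 b3 g3 : ℝ} (h : g ≤ 0 ∨ TCell OO TO BT Γ w p q g)
    (h2 : g2 ≤ 0 ∨ OCell OO TO Ba Bb Γ w2 a2 b2 g2)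
    (h3 : g3 ≤ 0 ∨ OCell OO TO Ba Bb Γ w3 a3 b3 g3)
    (r1 : 0 < g → w ≤ cT) (r2 : 0 < g2 → w2 ≤ c2) (r3 : 0 < g3 → w3 ≤ c3) :
    m + g + g2 + g3 ≤ Γ := by
  have e1 : g ≤ TO (max cT 0) 0 := by
    rcases le_or_gt g 0 with hg | hg
    · have := F.monoT 0 0 (max cT 0) 0 le_rfl (le_max_right _ _) (max_mem c1).2 le_rfl le_rfl
        zero_le_one
      rw [← F.zero] at this
      linarith [F.nonneg]
    · have k := h.resolve_left (not_le.2 hg)
      have := F.monoT w 0 (max cT 0) 0 k.w0 ((r1 hg).trans (le_max_left _ _)) (max_mem c1).2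
        le_rfl le_rfl zero_le_one
      linarith [k.sat F]
  have e2 : ∀ {c w' a b g' : ℝ}, c ≤ 1 → (g' ≤ 0 ∨ OCell OO TO Ba Bb Γ w' a b g') →
      (0 < g' → w' ≤ c) → g' ≤ OO 0 (max c 0) := by
    intro c w' a b g' hc h' r
    rcases le_or_gt g' 0 with hg | hg
    · have := F.monoO 0 0 0 (max c 0) le_rfl le_rfl zero_le_one le_rfl (le_max_right _ _)
        (max_mem hc).2
      linarith [F.nonneg]
    · have k := h'.resolve_left (not_le.2 hg)
      have := F.monoO 0 w' 0 (max c 0) le_rfl le_rfl zero_le_one k.w0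
        ((r hg).trans (le_max_left _ _)) (max_mem hc).2
      linarith [k.sat F]
  linarith [e2 c21 h2 r2, e2 c31 h3 r3]

end

end Pool.Agent.Helper95.TS
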