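import Pool.Agent.Helper62.TW.Pot
import Pool.Agent.Helper95.TS.PiecesOf

/-!
# Two weak classes, `S` empty: the end
-/

set_option autoImplicit false

namespace Pool.Agent.Helper95.TS

open Pool.Agent.Helper84.TS Pool.Agent.Helper36.TS Pool.Agent.Helper44.TS Pool.Agent.Helper90.TS
  Pool.Agent.Helper51.TS Pool.Agent.Helper62.TW

theorem mainA : ∀ d a b c : ℝ, 3 / 5 ≤ d → d < 1 → a ≤ 1 → b ≤ 1 → c ≤ 1 → -(1 - d) ≤ a →
    -(1 - d) ≤ b → -(1 - d) ≤ c → a + b + c = 1 + d →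
    ff d a b c + TOA (max (d - a) 0) 0 + OOA 0 (max (d - b) 0) + OOA 0 (max (d - c) 0) ≤
      253 / 500 := by
  have e1 : (fun t => TOA t 0) = fun t : ℝ => (297 / 2000) * t + (-337 / 5000) * t ^ 2
      + (199 / 500) * t ^ 3 + (-121 / 10000) * t ^ 4 := by
    funext t
    unfold TOA
    ring
  have e2 : (fun t => OOA 0 t) = fun t : ℝ => (397 / 2500) * t + (1443 / 5000) * t ^ 2
      + (319 / 5000) * t ^ 3 + (-131 / 10000) * t ^ 4 := by
    funext t
    unfold OOA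
    ring
  exact main_ineq (V := 4981 / 10000) (εT := 13 / 5000) (εO := 13 / 5000)
    (by rw [e1]; exact chord_anyT) (by rw [e2]; exact chord_anyO) (by norm_num)

theorem mainG : ∀ d a b c : ℝ, 3 / 5 ≤ d → d < 1 → a ≤ 1 → b ≤ 1 → c ≤ 1 → -(1 - d) ≤ a →
    -(1 - d) ≤ b → -(1 - d) ≤ c → a + b + c = 1 + d →
    ff d a b c + TOG (max (d - a) 0) 0 + OOG 0 (max (d - b) 0) + OOG 0 (max (d - c) 0) ≤
      91 / 250 := by
  have e1 : (fun t => TOG t 0) = fun t : ℝ => (1297 / 10000) * t + (781 / 5000) * t ^ 2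
      + (297 / 2500) * t ^ 3 + (-111 / 2000) * t ^ 4 := by
    funext t
    unfold TOG
    ring
  have e2 : (fun t => OOG 0 t) = fun t : ℝ => (1833 / 10000) * t + (2867 / 10000) * t ^ 2
      + (-1131 / 10000) * t ^ 3 + (-97 / 10000) * t ^ 4 := by
    funext t
    unfold OOG
    ring
  exact main_ineq (V := 873 / 2500) (εT := 1 / 2500) (εO := 9 / 1250)
    (by rw [e1]; exact chord_goodT) (by rw [e2]; exact chord_goodO) (by norm_num)

/-- what is needed from the certificates for the class any -/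
structure CertA : Prop where
  phi : Phi OOA TOA
  cyc : ∀ x y z, 0 ≤ x → x ≤ 1 → 0 ≤ y → y ≤ 1 → 0 ≤ z → z ≤ 1 →
    BTA x y + BbA y z + BaA z x ≤ 253 / 500
  tc : ∀ w A B g, Cell w A B → GainT w A B g → 0 < g →
    TCell OOA TOA BTA (253 / 500) w (1 - A) (1 - B) g
  oc : ∀ w A B g, Cell w A B → GainC w A B g → 0 < g →
    OCell OOA TOA BaA BbA (253 / 500) w (1 - A) (1 - B) g

/-- what is needed from the certificates for the class good -/
structure CertG : Prop where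
  phi : Phi OOG TOG
  cyc : ∀ x y z, 0 ≤ x → x ≤ 1 → 0 ≤ y → y ≤ 1 → 0 ≤ z → z ≤ 1 →
    BTG x y + BbG y z + BaG z x ≤ 91 / 250
  tc : ∀ w A B g, Cell w A B → GainT w A B g → 0 < g →
    TCell OOG TOG BTG (91 / 250) w (1 - A) (1 - B) g
  oc : ∀ w A B g, Cell w A B → B ≤ 1 → GainC w A B g → 0 < g →
    OCell OOG TOG BaG BbG (91 / 250) w (1 - A) (1 - B) g

theorem FDom.cell {w A B : ℝ} (h : FDom w A B) : Cell w A B :=
  ⟨h.w0, h.w1, h.A0, h.B0, h.lo, h.hi⟩

/-- **`CaseTwoLow` from the certificates, the conflict column and the case `S` nonempty.** -/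
theorem caseTwoLow_end (hA : CertA) (hG : CertG) (hO2 : ColO2 GainC) (hne : TwoLowNE) :
    CaseTwoLow :=
  caseTwoLow_of (pieces_of (GC := GainC) (Γa := 253 / 500) (Γg := 91 / 250) (by norm_num)
    (fun _ _ _ _ h => Or.inl h)
    ⟨hA.phi, by norm_num, hA.cyc, mainA, fun w A B g h h1 h2 => hA.tc w A B g h.cell h1 h2,
      fun w A B g h h1 h2 => hA.oc w A B g h.cell h1 h2⟩
    ⟨hG.phi, by norm_num, hG.cyc, mainG, fun w A B g h h1 h2 => hG.tc w A B g h.cell h1 h2,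
      fun w A B g h h1 h2 => hG.oc w A B g h.cell h1.1 h1.2 h2⟩ hO2) hne

end Pool.Agent.Helper95.TS
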