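import Pool.Agent.Helper95.TS.SpGrp

/-!
# Certificates for the class side of `OL2Bsp` (H)
-/

set_option autoImplicit false
set_option maxRecDepth 1000000

namespace Pool.Agent.Helper95.TS

def tHp000 : Tr Lf :=
  (.nd 1 0 13
    (.lf ⟨0, 48, 0, [3, 3, 3, 4000, 4000, 4000, 4000, 4000, 4000, 4000, 4000]⟩)
    (.lf ⟨34, 14, 0, [0, 0, 621, 4000, 4000, 4000, 4000, 4000, 4000, 4000, 4000]⟩))

theorem cHp000 : okL true false false false false false true vEB vHN vHD bS bS bH tHp000 = true := by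
  decide +kernel

def tHp100 : Tr Lf :=
  (.nd 2 2 7
    (.lf ⟨41, 7, 0, [4000, 0, 0, 0, 0, 0, 0, 0, 0, 0, 4000]⟩)
    (.lf ⟨0, 48, 0, [4000, 887, 338, 338, 0, 0, 0, 0, 0, 0, 4000]⟩))

theorem cHp100 : okL true true false false true false false vEB vHN vHD bS bS bH tHp100 = true := by
  decide +kernel

def tHp010 : Tr Lf :=
  (.lf ⟨0, 48, 0, [6521, 0, 0, 4000, 4000, 4000, 4000, 4000, 4000, 4000, 4000]⟩)

theorem cHp010 : okL true false true false false true false vEB vHN vHD bS bS bH tHp010 = true := by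
  decide +kernel

def tHp110 : Tr Lf :=
  (.lf ⟨0, 48, 0, [5353, 0, 0, 4000, 4000, 4000, 4000, 4000, 4000, 4000, 4000]⟩)

theorem cHp110 : okL true true true false false false true vEB vHN vHD bS bS bH tHp110 = true := by
  decide +kernel

def tHp001 : Tr Lf :=
  (.nd 1 0 4
    (.nd 2 0 16
    (.lf ⟨0, 35, 13, [4000, 4139, 368, 368, 368, 368, 368, 368, 368, 368, 4000]⟩)
    (.lf ⟨0, 48, 0, [4000, 4000, 4597, 946, 946, 946, 946, 946, 946, 946, 4000]⟩))
    (.lf ⟨13, 35, 0, [4000, 4000, 4000, 3711, 893, 893, 893, 893, 893, 893, 4000]⟩))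

theorem cHp001 : okL true false false true false false true vEB vHN vHD bS bS bH tHp001 = true := by
  decide +kernel

def tHp101 : Tr Lf :=
  (.nd 1 0 4
    (.nd 0 0 4
    (.lf ⟨0, 48, 0, [4000, 122, 66, 66, 66, 66, 66, 66, 66, 66, 4000]⟩)
    (.lf ⟨0, 36, 12, [4000, 4000, 4000, 306, 172, 172, 172, 172, 172, 172, 4000]⟩))
    (.lf ⟨14, 34, 0, [4000, 3863, 677, 677, 677, 677, 677, 677, 7249, 4000, 4000]⟩))

theorem cHp101 : okL true true false true false true false vEB vHN vHD bS bS bH tHp101 = true := by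
  decide +kernel

def tHp011 : Tr Lf :=
  (.lf ⟨0, 45, 3, [4000, 2846, 868, 868, 0, 0, 0, 0, 0, 0, 4000]⟩)

theorem cHp011 : okL true false true true true false false vEB vHN vHD bS bS bH tHp011 = true := by
  decide +kernel

def tHp111 : Tr Lf :=
  (.nd 0 0 16
    (.lf ⟨0, 48, 0, [620, 620, 620, 620, 620, 620, 620, 620, 620, 620, 4000]⟩)
    (.nd 0 3 3
    (.lf ⟨0, 3, 45, [2199, 2183, 4000, 4000, 4000, 4000, 4000, 4000, 4000, 4000, 4000]⟩)
    (.lf ⟨0, 43, 5, [0, 0, 4000, 4000, 4000, 4000, 4000, 4000, 4000, 4000, 4000]⟩)))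

theorem cHp111 : okL true true true true false false true vEB vHN vHD bS bS bH tHp111 = true := by
  decide +kernel

def mHp : Tr Lm :=
  (.lf ⟨0, 48, 0, 62400, 3120, 16810560, 16814976, 16773376⟩)

theorem dHp : okM true vEB vHN vHD bS bS bH mHp = true := by
  decide +kernel

theorem certHp : CertP vEB vHN vHD bS bS bH := by
  refine ⟨fun o0 o1 o2 => ?_, ⟨_, dHp⟩⟩
  cases o0 <;> cases o1 <;> cases o2
  · exact ⟨_, _, _, _, cHp000⟩
  · exact ⟨_, _, _, _, cHp001⟩
  · exact ⟨_, _, _, _, cHp010⟩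
  · exact ⟨_, _, _, _, cHp011⟩
  · exact ⟨_, _, _, _, cHp100⟩
  · exact ⟨_, _, _, _, cHp101⟩
  · exact ⟨_, _, _, _, cHp110⟩
  · exact ⟨_, _, _, _, cHp111⟩

def tHa100 : Tr Lf :=
  (.lf ⟨48, 0, 0, []⟩)

theorem cHa100 : okL false true false false true false false vHN vHD vHD bS bS bH tHa100 = true := by
  decide +kernel

def tHa011 : Tr Lf :=
  (.nd 0 0 16
    (.nd 0 0 13
    (.lf ⟨48, 0, 0, []⟩)
    (.lf ⟨24, 24, 0, []⟩))
    (.nd 0 0 19
    (.lf ⟨11, 37, 0, []⟩)
    (.lf ⟨0, 48, 0, []⟩)))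

theorem cHa011 : okL false false true true true false false vHN vHD vHD bS bS bH tHa011 = true := by
  decide +kernel

def mHa : Tr Lm :=
  (.lf ⟨48, 0, 0, 57600, 2880, 16810560, 16814976, 16778176⟩)

theorem dHa : okM false vHN vHD vHD bS bS bH mHa = true := by
  decide +kernel

theorem certHa : SpCertA vHN vHD vHD bS bH := by
  refine ⟨fun o => ?_, ⟨_, dHa⟩⟩
  cases o
  · exact ⟨_, cHa100⟩
  · exact ⟨_, cHa011⟩

end Pool.Agent.Helper95.TS
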