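import Pool.Agent.Helper95.TS.SpGrp

/-!
# Certificates for the class side of `OL2Bsp` (N)
-/

set_option autoImplicit false
set_option maxRecDepth 1000000

namespace Pool.Agent.Helper95.TS

def tNp000 : Tr Lf :=
  (.nd 1 2 7
    (.lf ⟨0, 48, 0, [1909, 1909, 1837, 1693, 0, 0, 0, 0, 0, 0, 4000]⟩)
    (.lf ⟨23, 25, 0, [4000, 4000, 4000, 3141, 1931, 84, 84, 84, 84, 0, 4000]⟩))

theorem cNp000 : okL true false false false true false false vEB vND vHN bS bS bN tNp000 = true := by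
  decide +kernel

def tNp100 : Tr Lf :=
  (.nd 1 0 7
    (.lf ⟨0, 48, 0, [345, 345, 345, 345, 345, 345, 345, 345, 345, 345, 4000]⟩)
    (.lf ⟨30, 0, 18, [600, 600, 600, 600, 600, 600, 3195, 4000, 4000, 4000, 4000]⟩))

theorem cNp100 : okL true true false false true false false vEB vND vHN bS bS bN tNp100 = true := by
  decide +kernel

def tNp010 : Tr Lf :=
  (.nd 1 0 16
    (.lf ⟨0, 48, 0, [6, 6, 6, 6, 0, 0, 0, 0, 0, 0, 4000]⟩)
    (.lf ⟨34, 14, 0, [4000, 4000, 1217, 649, 649, 649, 649, 649, 649, 2807, 4000]⟩))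

theorem cNp010 : okL true false true false false true false vEB vND vHN bS bS bN tNp010 = true := by
  decide +kernel

def tNp110 : Tr Lf :=
  (.nd 1 0 7
    (.lf ⟨0, 48, 0, [407, 407, 407, 407, 407, 407, 407, 407, 407, 2389, 4000]⟩)
    (.lf ⟨35, 13, 0, [225, 225, 225, 225, 0, 0, 0, 0, 0, 0, 4000]⟩))

theorem cNp110 : okL true true true false false false true vEB vND vHN bS bS bN tNp110 = true := by
  decide +kernel

def tNp001 : Tr Lf :=
  (.nd 1 2 7
    (.lf ⟨0, 48, 0, [298, 298, 298, 298, 298, 298, 298, 298, 298, 298, 4000]⟩)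
    (.lf ⟨27, 21, 0, [409, 409, 409, 1067, 0, 0, 0, 0, 0, 0, 4000]⟩))

theorem cNp001 : okL true false false true false false true vEB vND vHN bS bS bN tNp001 = true := by
  decide +kernel

def tNp101 : Tr Lf :=
  (.nd 0 1 4
    (.lf ⟨28, 0, 20, [320, 320, 320, 320, 320, 320, 320, 320, 320, 0, 4000]⟩)
    (.lf ⟨0, 48, 0, [213, 213, 2469, 213, 0, 0, 0, 0, 0, 0, 4000]⟩))

theorem cNp101 : okL true true false true false true false vEB vND vHN bS bS bN tNp101 = true := by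
  decide +kernel

def tNp011 : Tr Lf :=
  (.nd 1 0 16
    (.lf ⟨0, 48, 0, [272, 272, 272, 272, 272, 272, 272, 272, 272, 272, 4000]⟩)
    (.lf ⟨34, 14, 0, [4000, 4000, 3962, 1073, 1073, 1073, 1073, 1073, 1073, 1073, 4000]⟩))

theorem cNp011 : okL true false true true true false false vEB vND vHN bS bS bN tNp011 = true := by
  decide +kernel

def tNp111 : Tr Lf :=
  (.nd 1 0 13
    (.lf ⟨0, 48, 0, [0, 0, 0, 2272, 2104, 1696, 1048, 0, 0, 0, 4000]⟩)
    (.nd 0 3 3
    (.lf ⟨10, 38, 0, [3632, 3170, 2988, 3710, 4000, 4000, 4000, 4000, 4000, 4000, 4000]⟩)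
    (.lf ⟨34, 14, 0, [151, 151, 151, 3242, 4000, 4000, 4000, 4000, 4000, 4000, 4000]⟩)))

theorem cNp111 : okL true true true true true false false vEB vND vHN bS bS bN tNp111 = true := by
  decide +kernel

def mNp : Tr Lm :=
  (.nd 1 0 10
    (.nd 0 0 4
    (.lf ⟨7, 0, 41, 33472, 1392, 16809734, 16821995, 16792125⟩)
    (.lf ⟨0, 48, 0, 43200, 2160, 16806720, 16824576, 16798416⟩))
    (.lf ⟨39, 9, 0, 54240, 2712, 16806741, 16821217, 16792020⟩))

theorem dNp : okM true vEB vND vHN bS bS bN mNp = true := by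
  decide +kernel

theorem certNp : CertP vEB vND vHN bS bS bN := by
  refine ⟨fun o0 o1 o2 => ?_, ⟨_, dNp⟩⟩
  cases o0 <;> cases o1 <;> cases o2
  · exact ⟨_, _, _, _, cNp000⟩
  · exact ⟨_, _, _, _, cNp001⟩
  · exact ⟨_, _, _, _, cNp010⟩
  · exact ⟨_, _, _, _, cNp011⟩
  · exact ⟨_, _, _, _, cNp100⟩
  · exact ⟨_, _, _, _, cNp101⟩
  · exact ⟨_, _, _, _, cNp110⟩
  · exact ⟨_, _, _, _, cNp111⟩

def tNa100 : Tr Lf :=
  (.lf ⟨48, 0, 0, []⟩)

theorem cNa100 : okL false true false false true false false vND vHN vHN bS bS bN tNa100 = true := by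
  decide +kernel

def tNa011 : Tr Lf :=
  (.lf ⟨48, 0, 0, []⟩)

theorem cNa011 : okL false false true true true false false vND vHN vHN bS bS bN tNa011 = true := by
  decide +kernel

def mNa : Tr Lm :=
  (.nd 0 0 4
    (.lf ⟨0, 48, 0, 31373, 1212, 16810560, 16814976, 16792384⟩)
    (.lf ⟨48, 0, 0, 43200, 2160, 16806720, 16824576, 16798416⟩))

theorem dNa : okM false vND vHN vHN bS bS bN mNa = true := by
  decide +kernel

theorem certNa : SpCertA vND vHN vHN bS bN := by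
  refine ⟨fun o => ?_, ⟨_, dNa⟩⟩
  cases o
  · exact ⟨_, cNa100⟩
  · exact ⟨_, cNa011⟩

end Pool.Agent.Helper95.TS
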