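import Pool.Agent.Helper95.TS.SpK
import Pool.Agent.Helper95.TS.SpN
import Pool.Agent.Helper95.TS.SpH

/-!
# The class statements of `OL2Bsp`
-/

set_option autoImplicit false

namespace Pool.Agent.Helper95.TS

open Pool.Agent.Helper84.TS

/-- **The class side of `OL2Bsp`.** -/
theorem spCl {A : Fin 4 → Fin 4 → Option (Fin 4 → ℝ)} {a p r s : Fin 4} {C D : Fin 4 → ℝ}
    (h : OF A) (hR : R2 A a) (hn : [a, p, r, s].Nodup) (hC : A a s = some C) (hD : A a p = some D)
    (dC : C a - 1 ≤ 11 / 20) (dD : D a - 1 ≤ 11 / 20) : SpCl A a p r s C D :=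
  spCl_of certK certNp certNa certHp certHa h hR hn hC hD dC dD

end Pool.Agent.Helper95.TS
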