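import Pool.Agent.Helper92.TS.SpGlue
import Pool.Agent.Helper95.TS.SpClass

/-!
# `OL2Bsp`
-/

set_option autoImplicit false

namespace Pool.Agent.Helper95.TS

open Pool.Agent.Helper92.TS Pool.Agent.Helper74.TS

/-- **`OL2Bsp`.** -/
theorem ol2Bsp : OL2Bsp :=
  ol2Bsp_of fun _ _ _ _ _ _ _ h hR hn hC hD dC dD => spCl h hR hn hC hD dC dD

end Pool.Agent.Helper95.TS
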