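import Pool.Agent.Helper95.TS.Class3

/-!
# The class lemma with a distinguished cell `X`, present

The gain of `X` may stay positive for width `0` (a bonus for its height), so no relation between
the potential of `X`, `Y` for `x = 0` and the one of `Y` alone is assumed.
-/

set_option autoImplicit false

namespace Pool.Agent.Helper95.TS

open Pool.Agent.Helper84.TS Pool.Agent.Helper36.TS Pool.Agent.Helper90.TS

/-- monotone on the square -/
def Mono2 (P : ℝ → ℝ → ℝ) : Prop :=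
  ∀ x y x' y', 0 ≤ x → x ≤ x' → x' ≤ 1 → 0 ≤ y → y ≤ y' → y' ≤ 1 → P x y ≤ P x' y'

/-- the potentials of a class with the cell `X` present -/
structure Phi3P (sX sY sZ : ℝ → ℝ) (XY XZ YZ : ℝ → ℝ → ℝ) : Prop where
  yz : Pot2 YZ sY sZ
  xy : Mono2 XY
  xz : Mono2 XZ
  xyl : ∀ x, XY x 0 = sX x
  xzl : ∀ x, XZ x 0 = sX x

/-- a cell with width `w`, caps `p`, `q` of the cells `u`, `v` and gain `g`; `s` bounds the gain of
the cell alone -/
structure C3S (s su sv : ℝ → ℝ) (Pu Pv Q bu bv : ℝ → ℝ → ℝ) (Γ w p q g : ℝ) : Prop where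
  w0 : 0 ≤ w
  w1 : w ≤ 1
  p1 : p ≤ 1
  q1 : q ≤ 1
  sat : g ≤ s w
  ku : ∀ t, 0 ≤ t → t ≤ p → g + su t ≤ Pu w t
  kv : ∀ t, 0 ≤ t → t ≤ q → g + sv t ≤ Pv w t
  src : g + Q (max p 0) (max q 0) ≤ Γ
  cu : ∀ t, 0 ≤ t → t ≤ p → g ≤ bu w t
  cv : ∀ t, 0 ≤ t → t ≤ q → g ≤ bv w t

section

variable {sX sY sZ : ℝ → ℝ} {XY XZ YZ bXY bYX bYZ bZY bZX bXZ : ℝ → ℝ → ℝ} {Γ : ℝ}

theorem C3S.source {s su sv : ℝ → ℝ} {Pu Pv Q bu bv : ℝ → ℝ → ℝ} {w p q g : ℝ}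
    (h : C3S s su sv Pu Pv Q bu bv Γ w p q g) (F : Mono2 Q) {x y : ℝ} (x0 : 0 ≤ x)
    (hx : x ≤ max p 0) (y0 : 0 ≤ y) (hy : y ≤ max q 0) : g + Q x y ≤ Γ := by
  have := F x y _ _ x0 hx (max_mem h.p1).2 y0 hy (max_mem h.q1).2
  linarith [h.src]

/-- the cell `X` -/
abbrev SX (sX sY sZ : ℝ → ℝ) (XY XZ YZ bXY bXZ : ℝ → ℝ → ℝ) (Γ w p q g : ℝ) : Prop :=
  C3S sX sY sZ XY XZ YZ bXY bXZ Γ w p q g

/-- the cell `Y`, caps of `X` and `Z` -/
abbrev SY (sX sY sZ : ℝ → ℝ) (XY XZ YZ bYX bYZ : ℝ → ℝ → ℝ) (Γ w p q g : ℝ) : Prop :=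
  C3S sY sX sZ (fun w t => XY t w) YZ XZ bYX bYZ Γ w p q g

/-- the cell `Z`, caps of `X` and `Y` -/
abbrev SZ (sX sY sZ : ℝ → ℝ) (XY XZ YZ bZX bZY : ℝ → ℝ → ℝ) (Γ w p q g : ℝ) : Prop :=
  C3S sZ sX sY (fun w t => XZ t w) (fun w t => YZ t w) XY bZX bZY Γ w p q g

/-- **The class lemma with `X` present.** A cell `Y`, `Z` of gain at most `0` counts as absent. -/
theorem class3P_lemma (F : Phi3P sX sY sZ XY XZ YZ)
    (hB : ∀ x y z, 0 ≤ x → x ≤ 1 → 0 ≤ y → y ≤ 1 → 0 ≤ z → z ≤ 1 →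
      bXY x y + bYZ y z + bZX z x ≤ Γ)
    (hB' : ∀ x y z, 0 ≤ x → x ≤ 1 → 0 ≤ y → y ≤ 1 → 0 ≤ z → z ≤ 1 →
      bXZ x z + bZY z y + bYX y x ≤ Γ)
    {w p q g w2 a2 b2 g2 w3 a3 b3 g3 : ℝ} (h : SX sX sY sZ XY XZ YZ bXY bXZ Γ w p q g)
    (h2 : g2 ≤ 0 ∨ SY sX sY sZ XY XZ YZ bYX bYZ Γ w2 a2 b2 g2)
    (h3 : g3 ≤ 0 ∨ SZ sX sY sZ XY XZ YZ bZX bZY Γ w3 a3 b3 g3)
    (r12 : 0 < g2 → w2 ≤ p ∨ w ≤ a2) (r13 : 0 < g3 → w3 ≤ q ∨ w ≤ a3)
    (r23 : 0 < g2 → 0 < g3 → w3 ≤ b2 ∨ w2 ≤ b3) : g + g2 + g3 ≤ Γ := by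
  rcases le_or_gt g2 0 with c2 | c2 <;> rcases le_or_gt g3 0 with c3 | c3
  · have := h.source F.yz.mono le_rfl (le_max_right _ _) le_rfl (le_max_right _ _)
    linarith [F.yz.nonneg]
  · -- `X`, `Z`
    have k3 := h3.resolve_left (not_le.2 c3)
    have : g + g3 ≤ Γ := by
      rcases r13 c3 with r | r
      · have h1 := h.source F.yz.mono le_rfl (le_max_right _ _) k3.w0 (r.trans (le_max_left _ _))
        rw [F.yz.r] at h1
        linarith [k3.sat]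
      · have h1 := k3.source F.xy h.w0 (r.trans (le_max_left _ _)) le_rfl (le_max_right _ _)
        rw [F.xyl] at h1
        linarith [h.sat]
    linarith
  · -- `X`, `Y`
    have k2 := h2.resolve_left (not_le.2 c2)
    have : g + g2 ≤ Γ := by
      rcases r12 c2 with r | r
      · have h1 := h.source F.yz.mono k2.w0 (r.trans (le_max_left _ _)) le_rfl (le_max_right _ _)
        rw [F.yz.l] at h1
        linarith [k2.sat]
      · have h1 := k2.source F.xz h.w0 (r.trans (le_max_left _ _)) le_rfl (le_max_right _ _)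
        rw [F.xzl] at h1
        linarith [h.sat]
    linarith
  · have h2 := h2.resolve_left (not_le.2 c2)
    have h3 := h3.resolve_left (not_le.2 c3)
    rcases r12 c2 with r12 | r12 <;> rcases r13 c3 with r13 | r13
    · -- `X` is the source
      have h1 := h.source F.yz.mono h2.w0 (r12.trans (le_max_left _ _)) h3.w0
        (r13.trans (le_max_left _ _))
      rcases r23 c2 c3 with r | r
      · have h4 := h2.kv w3 h3.w0 r
        linarith [h3.sat]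
      · have h4 := h3.kv w2 h2.w0 r
        linarith [h2.sat]
    · -- `X` over `Y`, `Z` over `X`
      rcases r23 c2 c3 with r | r
      · -- cycle
        have e1 := h.cu w2 h2.w0 r12
        have e2 := h2.cv w3 h3.w0 r
        have e3 := h3.cu w h.w0 r13
        linarith [hB w w2 w3 h.w0 h.w1 h2.w0 h2.w1 h3.w0 h3.w1]
      · -- `Z` is the source
        have h1 := h3.source F.xy h.w0 (r13.trans (le_max_left _ _)) h2.w0
          (r.trans (le_max_left _ _))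
        have h4 := h.ku w2 h2.w0 r12
        linarith [h2.sat]
    · -- `Y` over `X`, `X` over `Z`
      rcases r23 c2 c3 with r | r
      · -- `Y` is the source
        have h1 := h2.source F.xz h.w0 (r12.trans (le_max_left _ _)) h3.w0
          (r.trans (le_max_left _ _))
        have h4 := h.kv w3 h3.w0 r13
        linarith [h3.sat]
      · -- cycle
        have e1 := h.cv w3 h3.w0 r13
        have e2 := h3.cv w2 h2.w0 r
        have e3 := h2.cu w h.w0 r12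
        linarith [hB' w w2 w3 h.w0 h.w1 h2.w0 h2.w1 h3.w0 h3.w1]
    · -- both over `X`
      rcases r23 c2 c3 with r | r
      · have h1 := h2.source F.xz h.w0 (r12.trans (le_max_left _ _)) h3.w0
          (r.trans (le_max_left _ _))
        have h4 := h3.ku w h.w0 r13
        linarith [h.sat]
      · have h1 := h3.source F.xy h.w0 (r13.trans (le_max_left _ _)) h2.w0
          (r.trans (le_max_left _ _))
        have h4 := h2.ku w h.w0 r12
        linarith [h.sat]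

/-- a class with a main cell of gain `m` and the cell `X` -/
theorem class3P_main (F : Phi3P sX sY sZ XY XZ YZ) {m cX cY cZ : ℝ} (c1 : cX ≤ 1) (c2 : cY ≤ 1)
    (c3 : cZ ≤ 1) (hm : m + sX (max cX 0) + sY (max cY 0) + sZ (max cZ 0) ≤ Γ)
    {w p q g w2 a2 b2 g2 w3 a3 b3 g3 : ℝ} (h : SX sX sY sZ XY XZ YZ bXY bXZ Γ w p q g)
    (h2 : g2 ≤ 0 ∨ SY sX sY sZ XY XZ YZ bYX bYZ Γ w2 a2 b2 g2)
    (h3 : g3 ≤ 0 ∨ SZ sX sY sZ XY XZ YZ bZX bZY Γ w3 a3 b3 g3)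
    (r1 : w ≤ cX) (r2 : 0 < g2 → w2 ≤ cY) (r3 : 0 < g3 → w3 ≤ cZ) :
    m + g + g2 + g3 ≤ Γ := by
  have mY : ∀ x x', 0 ≤ x → x ≤ x' → x' ≤ 1 → sY x ≤ sY x' := fun x x' h1 h2 h3 => by
    have := F.yz.mono x 0 x' 0 h1 h2 h3 le_rfl le_rfl zero_le_one
    rwa [F.yz.l, F.yz.l] at this
  have mZ : ∀ x x', 0 ≤ x → x ≤ x' → x' ≤ 1 → sZ x ≤ sZ x' := fun x x' h1 h2 h3 => by
    have := F.yz.mono 0 x 0 x' le_rfl le_rfl zero_le_one h1 h2 h3
    rwa [F.yz.r, F.yz.r] at this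
  have sY0 : 0 ≤ sY 0 := by rw [← F.yz.l]; exact F.yz.nonneg
  have sZ0 : 0 ≤ sZ 0 := by rw [← F.yz.r]; exact F.yz.nonneg
  have e1 : g ≤ sX (max cX 0) := by
    have := F.xy w 0 (max cX 0) 0 h.w0 (r1.trans (le_max_left _ _)) (max_mem c1).2 le_rfl le_rfl
      zero_le_one
    rw [F.xyl, F.xyl] at this
    linarith [h.sat]
  have e2 : g2 ≤ sY (max cY 0) := sat_cap sY0 mY c2 fun hg =>
    have k := h2.resolve_left (not_le.2 hg)
    ⟨k.w0, k.sat, r2 hg⟩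
  have e3 : g3 ≤ sZ (max cZ 0) := sat_cap sZ0 mZ c3 fun hg =>
    have k := h3.resolve_left (not_le.2 hg)
    ⟨k.w0, k.sat, r3 hg⟩
  linarith

end

/-- The class lemma with the distinguished cell `(i;j)` (present), predicates `T`, `O1`, `O2` of the
cells `(i;j)`, `(i;x)`, `(i;y)` and the bound `Γ`. -/
def Cls3P (T O1 O2 : ℝ → ℝ → ℝ → ℝ → Prop) (Γ : ℝ) : Prop :=
  ∀ (A : Fin 4 → Fin 4 → Option (Fin 4 → ℝ)), OF A → ∀ i j x y : Fin 4, [i, j, x, y].Nodup →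
    Helper84.TS.R2 A i → ∀ (C : Fin 4 → ℝ) (gT g1 g2 : ℝ), A i j = some C →
      T (2 + C j) (Helper90.TS.cmp i x C) (Helper90.TS.cmp i y C) gT →
    (g1 = 0 ∨ ∃ F, A i x = some F ∧
      O1 (2 + F x) (Helper90.TS.cmp i j F) (Helper90.TS.cmp i y F) g1) →
    (g2 = 0 ∨ ∃ F, A i y = some F ∧
      O2 (2 + F y) (Helper90.TS.cmp i j F) (Helper90.TS.cmp i x F) g2) →
    fo i (A i i) + gT + g1 + g2 ≤ Γ

section

variable {sX sY sZ : ℝ → ℝ} {XY XZ YZ bXY bYX bYZ bZY bZX bXZ : ℝ → ℝ → ℝ} {Γ : ℝ}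
  {T O1 O2 : ℝ → ℝ → ℝ → ℝ → Prop}

/-- **`Cls3P` from the abstract class lemma.** `X` = the distinguished cell `(i;j)`, `Y` = `(i;x)`,
`Z` = `(i;y)`; `x`, `y`, `j` are arbitrary classes here. -/
theorem cls3P_of (F : Phi3P sX sY sZ XY XZ YZ)
    (hB : ∀ x y z, 0 ≤ x → x ≤ 1 → 0 ≤ y → y ≤ 1 → 0 ≤ z → z ≤ 1 →
      bXY x y + bYZ y z + bZX z x ≤ Γ)
    (hB' : ∀ x y z, 0 ≤ x → x ≤ 1 → 0 ≤ y → y ≤ 1 → 0 ≤ z → z ≤ 1 →
      bXZ x z + bZY z y + bYX y x ≤ Γ)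
    (hM : ∀ d a b c : ℝ, 3 / 5 ≤ d → d < 1 → a ≤ 1 → b ≤ 1 → c ≤ 1 → -(1 - d) ≤ a → -(1 - d) ≤ b →
      -(1 - d) ≤ c → a + b + c = 1 + d →
      ff d a b c + sX (max (d - a) 0) + sY (max (d - b) 0) + sZ (max (d - c) 0) ≤ Γ)
    (hT : ∀ w A B g, T w A B g → SX sX sY sZ XY XZ YZ bXY bXZ Γ w (1 - A) (1 - B) g)
    (hO1 : ∀ w A B g, O1 w A B g → g ≤ 0 ∨ SY sX sY sZ XY XZ YZ bYX bYZ Γ w (1 - A) (1 - B) g)
    (hO2 : ∀ w A B g, O2 w A B g → g ≤ 0 ∨ SZ sX sY sZ XY XZ YZ bZX bZY Γ w (1 - A) (1 - B) g) :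
    Cls3P T O1 O2 Γ := by
  intro A h i j x y hn hR C gT g1 g2 hC sT s1 s2
  have hji : j ≠ i := by clear * - hn; revert hn; revert i j x y; decide
  have hxi : x ≠ i := by clear * - hn; revert hn; revert i j x y; decide
  have hyi : y ≠ i := by clear * - hn; revert hn; revert i j x y; decide
  have hjx : j ≠ x := by clear * - hn; revert hn; revert i j x y; decide
  have hjy : j ≠ y := by clear * - hn; revert hn; revert i j x y; decide
  have hxy : x ≠ y := by clear * - hn; revert hn; revert i j x y; decide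
  -- the three cells
  have kT := hT _ _ _ _ sT
  obtain ⟨w1, a1, b1, k1, r1⟩ : ∃ w p q : ℝ,
      (g1 ≤ 0 ∨ SY sX sY sZ XY XZ YZ bYX bYZ Γ w p q g1) ∧
      (0 < g1 → ∃ H, A i x = some H ∧ w = 2 + H x ∧ p = 1 - Helper90.TS.cmp i j H ∧
        q = 1 - Helper90.TS.cmp i y H) := by
    rcases s1 with e | ⟨H, hH, e⟩
    · exact ⟨0, 0, 0, Or.inl e.le, fun hp => absurd hp (by rw [e]; exact lt_irrefl 0)⟩
    · exact ⟨_, _, _, hO1 _ _ _ _ e, fun _ => ⟨H, hH, rfl, rfl, rfl⟩⟩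
  obtain ⟨w2, a2, b2, k2, r2⟩ : ∃ w p q : ℝ,
      (g2 ≤ 0 ∨ SZ sX sY sZ XY XZ YZ bZX bZY Γ w p q g2) ∧
      (0 < g2 → ∃ H, A i y = some H ∧ w = 2 + H y ∧ p = 1 - Helper90.TS.cmp i j H ∧
        q = 1 - Helper90.TS.cmp i x H) := by
    rcases s2 with e | ⟨H, hH, e⟩
    · exact ⟨0, 0, 0, Or.inl e.le, fun hp => absurd hp (by rw [e]; exact lt_irrefl 0)⟩
    · exact ⟨_, _, _, hO2 _ _ _ _ e, fun _ => ⟨H, hH, rfl, rfl, rfl⟩⟩
  rcases hR with hR | ⟨M, hMM, hMd⟩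
  · have key := class3P_lemma F hB hB' kT k1 k2 (fun c2 => by
        obtain ⟨G, hG, rfl, rfl, rfl⟩ := r1 c2
        exact far_rel h hC hG hji hxi hjx) (fun c2 => by
        obtain ⟨G, hG, rfl, rfl, rfl⟩ := r2 c2
        exact far_rel h hC hG hji hyi hjy) (fun c1 c2 => by
        obtain ⟨H, hH, rfl, rfl, rfl⟩ := r1 c1
        obtain ⟨G, hG, rfl, rfl, rfl⟩ := r2 c2
        exact far_rel h hH hG hxi hyi hxy)
    rw [hR]
    simp only [fo]
    linarith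
  · have hcell := h.cell i i M hMM
    obtain ⟨l1, l2, l3, l4, l5, l6, -⟩ := cell_lin hcell hn
    have hm := h.main i M hMM
    have hd0 := hcell.one
    have e := fcl_eq hn M
    have key := hM (M i - 1) (-M j) (-M x) (-M y) hMd (by linarith) (hm j hji) (hm x hxi)
      (hm y hyi) (by linarith) (by linarith) (by linarith) (by linarith)
    rw [← e] at key
    have := class3P_main F (m := fcl i M) (cX := M i - 1 - -M j) (cY := M i - 1 - -M x)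
      (cZ := M i - 1 - -M y) (by linarith) (by linarith) (by linarith) key kT k1 k2 (by
        have := main_rel h hMM hC hji
        linarith) (fun c1 => by
        obtain ⟨H, hH, rfl, rfl, rfl⟩ := r1 c1
        have := main_rel h hMM hH hxi
        linarith) (fun c1 => by
        obtain ⟨H, hH, rfl, rfl, rfl⟩ := r2 c1
        have := main_rel h hMM hH hyi
        linarith)
    rw [hMM]
    simp only [fo]
    exact this

end

end Pool.Agent.Helper95.TS
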