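import Pool.Agent.Helper84.TS.Opt

/-!
# The class statements of `OL2Bsp`

`C = (a; s)`, `D = (a; p)`, `E = (a; r)`; `y` is the number `E p + (E a - 1)`, or `1` if `E` is absent.
-/

set_option autoImplicit false

namespace Pool.Agent.Helper95.TS

open Pool.Agent.Helper84.TS

section

variable (A : Fin 4 → Fin 4 → Option (Fin 4 → ℝ)) (a p r s : Fin 4) (C D : Fin 4 → ℝ)

/-- `EB` -/
def EBi (E : Fin 4 → ℝ) : Prop :=
  VV A a ≤ 13 / 25 + 1 / 5 * (2 - C a) + 19 / 100 * (C r + (C a - 1)) + 1 / 10 * (2 - D a)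
    - 3 / 25 * (E s + (E a - 1)) - 9 / 20 * (E p + (E a - 1))

/-- `ND` -/
def NDi (y : ℝ) : Prop :=
  VV A a ≤ 49 / 100 + 1 / 4 * (2 - C a) - 17 / 100 * (D r + (D a - 1)) + 1 / 4 * (2 - D a)
    - 4 / 25 * y

/-- `HN` -/
def HNi (y : ℝ) : Prop :=
  VV A a ≤ 73 / 200 + 39 / 100 * (2 - C a) - 1 / 20 * (D r + (D a - 1)) + 2 / 25 * (2 - D a)
    - 3 / 50 * y

/-- `HD` -/
def HDi (y : ℝ) : Prop :=
  VV A a ≤ 51 / 500 + 3 / 50 * (2 - C a) - 13 / 50 * (D r + (D a - 1)) + 63 / 100 * (2 - D a)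
    - 3 / 50 * y

/-- `KN` -/
def KNi : Prop :=
  VV A a ≤ 53 / 250 + 47 / 100 * (2 - C a) - 2 / 25 * (D r + (D a - 1)) + 17 / 100 * (2 - D a)

/-- `KD` -/
def KDi : Prop :=
  VV A a ≤ 13 / 250 + 1 / 20 * (2 - C a) - 27 / 100 * (D r + (D a - 1)) + 16 / 25 * (2 - D a)

/-- the class statements -/
structure SpCl : Prop where
  kk : ∀ E, A a r = some E → 11 / 20 ≤ E a - 1 → KNi A a r C D ∨ KDi A a r C D
  np : ∀ E, A a r = some E → E a - 1 ≤ 11 / 20 → 2 + C s ≤ 7 / 10 →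
    EBi A a p r s C D E ∨ NDi A a r C D (E p + (E a - 1)) ∨ HNi A a r C D (E p + (E a - 1))
  na : A a r = none → 2 + C s ≤ 7 / 10 → NDi A a r C D 1 ∨ HNi A a r C D 1
  hp : ∀ E, A a r = some E → E a - 1 ≤ 11 / 20 → 7 / 10 ≤ 2 + C s →
    EBi A a p r s C D E ∨ HNi A a r C D (E p + (E a - 1)) ∨ HDi A a r C D (E p + (E a - 1))
  ha : A a r = none → 7 / 10 ≤ 2 + C s → HNi A a r C D 1 ∨ HDi A a r C D 1

end

end Pool.Agent.Helper95.TS
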