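import Pool.Agent.Helper95.TS.ClsOf

/-!
# The class lemma with three different cells

As `ClassAbs`, but the three cells `X`, `Y`, `Z` of the class have different potentials.
-/

set_option autoImplicit false

namespace Pool.Agent.Helper95.TS

open Pool.Agent.Helper84.TS Pool.Agent.Helper36.TS Pool.Agent.Helper90.TS

/-- the potential of two cells, `s`, `t` the bounds of one cell -/
structure Pot2 (P : ℝ → ℝ → ℝ) (s t : ℝ → ℝ) : Prop where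
  l : ∀ x, P x 0 = s x
  r : ∀ y, P 0 y = t y
  nonneg : 0 ≤ P 0 0
  mono : ∀ x y x' y', 0 ≤ x → x ≤ x' → x' ≤ 1 → 0 ≤ y → y ≤ y' → y' ≤ 1 → P x y ≤ P x' y'

/-- a cell with width `w`, caps `p`, `q` of the cells `u`, `v` and gain `g` -/
structure C3 (su sv : ℝ → ℝ) (Pu Pv Q bu bv : ℝ → ℝ → ℝ) (Γ w p q g : ℝ) : Prop where
  w0 : 0 ≤ w
  w1 : w ≤ 1
  p1 : p ≤ 1
  q1 : q ≤ 1
  pq : 0 ≤ p ∨ 0 ≤ q
  ku : ∀ t, 0 ≤ t → t ≤ p → g + su t ≤ Pu w t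
  kv : ∀ t, 0 ≤ t → t ≤ q → g + sv t ≤ Pv w t
  src : g + Q (max p 0) (max q 0) ≤ Γ
  cu : ∀ t, 0 ≤ t → t ≤ p → g ≤ bu w t
  cv : ∀ t, 0 ≤ t → t ≤ q → g ≤ bv w t

section

variable {sX sY sZ : ℝ → ℝ} {XY XZ YZ bXY bYX bYZ bZY bZX bXZ : ℝ → ℝ → ℝ} {Γ : ℝ}

/-- the potentials of the class -/
structure Phi3 (sX sY sZ : ℝ → ℝ) (XY XZ YZ : ℝ → ℝ → ℝ) : Prop where
  xy : Pot2 XY sX sY
  xz : Pot2 XZ sX sZ
  yz : Pot2 YZ sY sZ

theorem Phi3.sX0 (F : Phi3 sX sY sZ XY XZ YZ) : 0 ≤ sX 0 := by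
  rw [← F.xy.l]; exact F.xy.nonneg

theorem Phi3.sY0 (F : Phi3 sX sY sZ XY XZ YZ) : 0 ≤ sY 0 := by
  rw [← F.yz.l]; exact F.yz.nonneg

theorem Phi3.sZ0 (F : Phi3 sX sY sZ XY XZ YZ) : 0 ≤ sZ 0 := by
  rw [← F.yz.r]; exact F.yz.nonneg

theorem C3.source {s t : ℝ → ℝ} {su sv : ℝ → ℝ} {Pu Pv Q bu bv : ℝ → ℝ → ℝ} {w p q g : ℝ}
    (h : C3 su sv Pu Pv Q bu bv Γ w p q g) (F : Pot2 Q s t) {x y : ℝ} (x0 : 0 ≤ x)
    (hx : x ≤ max p 0) (y0 : 0 ≤ y) (hy : y ≤ max q 0) : g + Q x y ≤ Γ := by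
  have := F.mono x y _ _ x0 hx (max_mem h.p1).2 y0 hy (max_mem h.q1).2
  linarith [h.src]

theorem C3.one {s t : ℝ → ℝ} {su sv : ℝ → ℝ} {Pu Pv Q bu bv : ℝ → ℝ → ℝ} {w p q g : ℝ}
    (h : C3 su sv Pu Pv Q bu bv Γ w p q g) (F : Pot2 Q s t) : g ≤ Γ := by
  have := h.source F le_rfl (le_max_right _ _) le_rfl (le_max_right _ _)
  linarith [F.nonneg]

/-- the cell `X` -/
abbrev CX (sY sZ : ℝ → ℝ) (XY XZ YZ bXY bXZ : ℝ → ℝ → ℝ) (Γ w p q g : ℝ) : Prop :=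
  C3 sY sZ XY XZ YZ bXY bXZ Γ w p q g

/-- the cell `Y`, caps of `X` and `Z` -/
abbrev CY (sX sZ : ℝ → ℝ) (XY XZ YZ bYX bYZ : ℝ → ℝ → ℝ) (Γ w p q g : ℝ) : Prop :=
  C3 sX sZ (fun w t => XY t w) YZ XZ bYX bYZ Γ w p q g

/-- the cell `Z`, caps of `X` and `Y` -/
abbrev CZ (sX sY : ℝ → ℝ) (XY XZ YZ bZX bZY : ℝ → ℝ → ℝ) (Γ w p q g : ℝ) : Prop :=
  C3 sX sY (fun w t => XZ t w) (fun w t => YZ t w) XY bZX bZY Γ w p q g

theorem satX (F : Phi3 sX sY sZ XY XZ YZ) {w p q g : ℝ}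
    (h : CX sY sZ XY XZ YZ bXY bXZ Γ w p q g) : g ≤ sX w := by
  rcases h.pq with h1 | h1
  · have := h.ku 0 le_rfl h1
    rw [F.xy.l] at this
    linarith [F.sY0]
  · have := h.kv 0 le_rfl h1
    rw [F.xz.l] at this
    linarith [F.sZ0]

theorem satY (F : Phi3 sX sY sZ XY XZ YZ) {w p q g : ℝ}
    (h : CY sX sZ XY XZ YZ bYX bYZ Γ w p q g) : g ≤ sY w := by
  rcases h.pq with h1 | h1
  · have := h.ku 0 le_rfl h1
    rw [F.xy.r] at this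
    linarith [F.sX0]
  · have := h.kv 0 le_rfl h1
    rw [F.yz.l] at this
    linarith [F.sZ0]

theorem satZ (F : Phi3 sX sY sZ XY XZ YZ) {w p q g : ℝ}
    (h : CZ sX sY XY XZ YZ bZX bZY Γ w p q g) : g ≤ sZ w := by
  rcases h.pq with h1 | h1
  · have := h.ku 0 le_rfl h1
    rw [F.xz.r] at this
    linarith [F.sX0]
  · have := h.kv 0 le_rfl h1
    rw [F.yz.r] at this
    linarith [F.sY0]

theorem two_XY (F : Phi3 sX sY sZ XY XZ YZ) {w p q g w2 a2 b2 g2 : ℝ}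
    (h : CX sY sZ XY XZ YZ bXY bXZ Γ w p q g) (h2 : CY sX sZ XY XZ YZ bYX bYZ Γ w2 a2 b2 g2)
    (r : w2 ≤ p ∨ w ≤ a2) : g + g2 ≤ Γ := by
  rcases r with r | r
  · have h1 := h.source F.yz h2.w0 (r.trans (le_max_left _ _)) le_rfl (le_max_right _ _)
    rw [F.yz.l] at h1
    linarith [satY F h2]
  · have h1 := h2.source F.xz h.w0 (r.trans (le_max_left _ _)) le_rfl (le_max_right _ _)
    rw [F.xz.l] at h1
    linarith [satX F h]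

theorem two_XZ (F : Phi3 sX sY sZ XY XZ YZ) {w p q g w3 a3 b3 g3 : ℝ}
    (h : CX sY sZ XY XZ YZ bXY bXZ Γ w p q g) (h3 : CZ sX sY XY XZ YZ bZX bZY Γ w3 a3 b3 g3)
    (r : w3 ≤ q ∨ w ≤ a3) : g + g3 ≤ Γ := by
  rcases r with r | r
  · have h1 := h.source F.yz le_rfl (le_max_right _ _) h3.w0 (r.trans (le_max_left _ _))
    rw [F.yz.r] at h1
    linarith [satZ F h3]
  · have h1 := h3.source F.xy h.w0 (r.trans (le_max_left _ _)) le_rfl (le_max_right _ _)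
    rw [F.xy.l] at h1
    linarith [satX F h]

theorem two_YZ (F : Phi3 sX sY sZ XY XZ YZ) {w2 a2 b2 g2 w3 a3 b3 g3 : ℝ}
    (h2 : CY sX sZ XY XZ YZ bYX bYZ Γ w2 a2 b2 g2) (h3 : CZ sX sY XY XZ YZ bZX bZY Γ w3 a3 b3 g3)
    (r : w3 ≤ b2 ∨ w2 ≤ b3) : g2 + g3 ≤ Γ := by
  rcases r with r | r
  · have h1 := h2.source F.xz le_rfl (le_max_right _ _) h3.w0 (r.trans (le_max_left _ _))
    rw [F.xz.r] at h1
    linarith [satZ F h3]
  · have h1 := h3.source F.xy le_rfl (le_max_right _ _) h2.w0 (r.trans (le_max_left _ _))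
    rw [F.xy.r] at h1
    linarith [satY F h2]

/-- three cells -/
theorem three_XYZ (F : Phi3 sX sY sZ XY XZ YZ)
    (hB : ∀ x y z, 0 ≤ x → x ≤ 1 → 0 ≤ y → y ≤ 1 → 0 ≤ z → z ≤ 1 →
      bXY x y + bYZ y z + bZX z x ≤ Γ)
    (hB' : ∀ x y z, 0 ≤ x → x ≤ 1 → 0 ≤ y → y ≤ 1 → 0 ≤ z → z ≤ 1 →
      bXZ x z + bZY z y + bYX y x ≤ Γ)
    {w p q g w2 a2 b2 g2 w3 a3 b3 g3 : ℝ} (h : CX sY sZ XY XZ YZ bXY bXZ Γ w p q g)
    (h2 : CY sX sZ XY XZ YZ bYX bYZ Γ w2 a2 b2 g2) (h3 : CZ sX sY XY XZ YZ bZX bZY Γ w3 a3 b3 g3)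
    (r12 : w2 ≤ p ∨ w ≤ a2) (r13 : w3 ≤ q ∨ w ≤ a3) (r23 : w3 ≤ b2 ∨ w2 ≤ b3) :
    g + g2 + g3 ≤ Γ := by
  rcases r12 with r12 | r12 <;> rcases r13 with r13 | r13
  · -- `X` is the source
    have h1 := h.source F.yz h2.w0 (r12.trans (le_max_left _ _)) h3.w0
      (r13.trans (le_max_left _ _))
    rcases r23 with r | r
    · have h4 := h2.kv w3 h3.w0 r
      linarith [satZ F h3]
    · have h4 := h3.kv w2 h2.w0 r
      linarith [satY F h2]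
  · -- `X` over `Y`, `Z` over `X`
    rcases r23 with r | r
    · -- cycle
      have e1 := h.cu w2 h2.w0 r12
      have e2 := h2.cv w3 h3.w0 r
      have e3 := h3.cu w h.w0 r13
      linarith [hB w w2 w3 h.w0 h.w1 h2.w0 h2.w1 h3.w0 h3.w1]
    · -- `Z` is the source
      have h1 := h3.source F.xy h.w0 (r13.trans (le_max_left _ _)) h2.w0
        (r.trans (le_max_left _ _))
      have h4 := h.ku w2 h2.w0 r12
      linarith [satY F h2]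
  · -- `Y` over `X`, `X` over `Z`
    rcases r23 with r | r
    · -- `Y` is the source
      have h1 := h2.source F.xz h.w0 (r12.trans (le_max_left _ _)) h3.w0
        (r.trans (le_max_left _ _))
      have h4 := h.kv w3 h3.w0 r13
      linarith [satZ F h3]
    · -- cycle
      have e1 := h.cv w3 h3.w0 r13
      have e2 := h3.cv w2 h2.w0 r
      have e3 := h2.cu w h.w0 r12
      linarith [hB' w w2 w3 h.w0 h.w1 h2.w0 h2.w1 h3.w0 h3.w1]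
  · -- both over `X`
    rcases r23 with r | r
    · have h1 := h2.source F.xz h.w0 (r12.trans (le_max_left _ _)) h3.w0
        (r.trans (le_max_left _ _))
      have h4 := h3.ku w h.w0 r13
      linarith [satX F h]
    · have h1 := h3.source F.xy h.w0 (r13.trans (le_max_left _ _)) h2.w0
        (r.trans (le_max_left _ _))
      have h4 := h2.ku w h.w0 r12
      linarith [satX F h]

/-- **The class lemma.** A cell of gain at most `0` counts as absent. -/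
theorem class3_lemma (F : Phi3 sX sY sZ XY XZ YZ) (h0 : 0 ≤ Γ)
    (hB : ∀ x y z, 0 ≤ x → x ≤ 1 → 0 ≤ y → y ≤ 1 → 0 ≤ z → z ≤ 1 →
      bXY x y + bYZ y z + bZX z x ≤ Γ)
    (hB' : ∀ x y z, 0 ≤ x → x ≤ 1 → 0 ≤ y → y ≤ 1 → 0 ≤ z → z ≤ 1 →
      bXZ x z + bZY z y + bYX y x ≤ Γ)
    {w p q g w2 a2 b2 g2 w3 a3 b3 g3 : ℝ} (h : g ≤ 0 ∨ CX sY sZ XY XZ YZ bXY bXZ Γ w p q g)
    (h2 : g2 ≤ 0 ∨ CY sX sZ XY XZ YZ bYX bYZ Γ w2 a2 b2 g2)
    (h3 : g3 ≤ 0 ∨ CZ sX sY XY XZ YZ bZX bZY Γ w3 a3 b3 g3)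
    (r12 : 0 < g → 0 < g2 → w2 ≤ p ∨ w ≤ a2) (r13 : 0 < g → 0 < g3 → w3 ≤ q ∨ w ≤ a3)
    (r23 : 0 < g2 → 0 < g3 → w3 ≤ b2 ∨ w2 ≤ b3) : g + g2 + g3 ≤ Γ := by
  rcases le_or_gt g 0 with c1 | c1 <;> rcases le_or_gt g2 0 with c2 | c2 <;>
    rcases le_or_gt g3 0 with c3 | c3
  · linarith
  · have k3 := h3.resolve_left (not_le.2 c3)
    linarith [k3.one F.xy]
  · have k2 := h2.resolve_left (not_le.2 c2)
    linarith [k2.one F.xz]
  · have k2 := h2.resolve_left (not_le.2 c2)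
    have k3 := h3.resolve_left (not_le.2 c3)
    linarith [two_YZ F k2 k3 (r23 c2 c3)]
  · have k := h.resolve_left (not_le.2 c1)
    linarith [k.one F.yz]
  · have k := h.resolve_left (not_le.2 c1)
    have k3 := h3.resolve_left (not_le.2 c3)
    linarith [two_XZ F k k3 (r13 c1 c3)]
  · have k := h.resolve_left (not_le.2 c1)
    have k2 := h2.resolve_left (not_le.2 c2)
    linarith [two_XY F k k2 (r12 c1 c2)]
  · have k := h.resolve_left (not_le.2 c1)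
    have k2 := h2.resolve_left (not_le.2 c2)
    have k3 := h3.resolve_left (not_le.2 c3)
    exact three_XYZ F hB hB' k k2 k3 (r12 c1 c2) (r13 c1 c3) (r23 c2 c3)

/-- one satellite of a main cell with the cap `c` -/
theorem sat_cap {s : ℝ → ℝ} (s0 : 0 ≤ s 0)
    (mono : ∀ x x', 0 ≤ x → x ≤ x' → x' ≤ 1 → s x ≤ s x') {c w g : ℝ} (hc : c ≤ 1)
    (h : 0 < g → 0 ≤ w ∧ g ≤ s w ∧ w ≤ c) : g ≤ s (max c 0) := by
  rcases le_or_gt g 0 with hg | hg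
  · have := mono 0 (max c 0) le_rfl (le_max_right _ _) (max_mem hc).2
    linarith
  · obtain ⟨h1, h2, h3⟩ := h hg
    have := mono w (max c 0) h1 (h3.trans (le_max_left _ _)) (max_mem hc).2
    linarith

/-- a class with a main cell of gain `m` -/
theorem class3_main (F : Phi3 sX sY sZ XY XZ YZ) {m cX cY cZ : ℝ} (c1 : cX ≤ 1) (c2 : cY ≤ 1)
    (c3 : cZ ≤ 1) (hm : m + sX (max cX 0) + sY (max cY 0) + sZ (max cZ 0) ≤ Γ)
    {w p q g w2 a2 b2 g2 w3 a3 b3 g3 : ℝ} (h : g ≤ 0 ∨ CX sY sZ XY XZ YZ bXY bXZ Γ w p q g)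
    (h2 : g2 ≤ 0 ∨ CY sX sZ XY XZ YZ bYX bYZ Γ w2 a2 b2 g2)
    (h3 : g3 ≤ 0 ∨ CZ sX sY XY XZ YZ bZX bZY Γ w3 a3 b3 g3)
    (r1 : 0 < g → w ≤ cX) (r2 : 0 < g2 → w2 ≤ cY) (r3 : 0 < g3 → w3 ≤ cZ) :
    m + g + g2 + g3 ≤ Γ := by
  have mX : ∀ x x', 0 ≤ x → x ≤ x' → x' ≤ 1 → sX x ≤ sX x' := fun x x' h1 h2 h3 => by
    have := F.xy.mono x 0 x' 0 h1 h2 h3 le_rfl le_rfl zero_le_one
    rwa [F.xy.l, F.xy.l] at this
  have mY : ∀ x x', 0 ≤ x → x ≤ x' → x' ≤ 1 → sY x ≤ sY x' := fun x x' h1 h2 h3 => by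
    have := F.yz.mono x 0 x' 0 h1 h2 h3 le_rfl le_rfl zero_le_one
    rwa [F.yz.l, F.yz.l] at this
  have mZ : ∀ x x', 0 ≤ x → x ≤ x' → x' ≤ 1 → sZ x ≤ sZ x' := fun x x' h1 h2 h3 => by
    have := F.yz.mono 0 x 0 x' le_rfl le_rfl zero_le_one h1 h2 h3
    rwa [F.yz.r, F.yz.r] at this
  have e1 : g ≤ sX (max cX 0) := sat_cap F.sX0 mX c1 fun hg =>
    have k := h.resolve_left (not_le.2 hg)
    ⟨k.w0, satX F k, r1 hg⟩
  have e2 : g2 ≤ sY (max cY 0) := sat_cap F.sY0 mY c2 fun hg =>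
    have k := h2.resolve_left (not_le.2 hg)
    ⟨k.w0, satY F k, r2 hg⟩
  have e3 : g3 ≤ sZ (max cZ 0) := sat_cap F.sZ0 mZ c3 fun hg =>
    have k := h3.resolve_left (not_le.2 hg)
    ⟨k.w0, satZ F k, r3 hg⟩
  linarith

end

/-- The class lemma with the predicates `T`, `O1`, `O2` of the cells `(i;j)`, `(i;x)`, `(i;y)` and
the bound `Γ`. -/
def Cls3 (T O1 O2 : ℝ → ℝ → ℝ → ℝ → Prop) (Γ : ℝ) : Prop :=
  ∀ (A : Fin 4 → Fin 4 → Option (Fin 4 → ℝ)), OF A → ∀ i j x y : Fin 4, [i, j, x, y].Nodup →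
    Helper84.TS.R2 A i → ∀ gT g1 g2 : ℝ,
    (gT = 0 ∨ ∃ F, A i j = some F ∧
      T (2 + F j) (Helper90.TS.cmp i x F) (Helper90.TS.cmp i y F) gT) →
    (g1 = 0 ∨ ∃ F, A i x = some F ∧
      O1 (2 + F x) (Helper90.TS.cmp i j F) (Helper90.TS.cmp i y F) g1) →
    (g2 = 0 ∨ ∃ F, A i y = some F ∧
      O2 (2 + F y) (Helper90.TS.cmp i j F) (Helper90.TS.cmp i x F) g2) →
    fo i (A i i) + gT + g1 + g2 ≤ Γ

section

variable {sX sY sZ : ℝ → ℝ} {XY XZ YZ bXY bYX bYZ bZY bZX bXZ : ℝ → ℝ → ℝ} {Γ : ℝ}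
  {T O1 O2 : ℝ → ℝ → ℝ → ℝ → Prop}

/-- **`Cls3` from the abstract class lemma.** -/
theorem cls3_of (F : Phi3 sX sY sZ XY XZ YZ) (h0 : 0 ≤ Γ)
    (hB : ∀ x y z, 0 ≤ x → x ≤ 1 → 0 ≤ y → y ≤ 1 → 0 ≤ z → z ≤ 1 →
      bXY x y + bYZ y z + bZX z x ≤ Γ)
    (hB' : ∀ x y z, 0 ≤ x → x ≤ 1 → 0 ≤ y → y ≤ 1 → 0 ≤ z → z ≤ 1 →
      bXZ x z + bZY z y + bYX y x ≤ Γ)
    (hM : ∀ d a b c : ℝ, 3 / 5 ≤ d → d < 1 → a ≤ 1 → b ≤ 1 → c ≤ 1 → -(1 - d) ≤ a → -(1 - d) ≤ b →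
      -(1 - d) ≤ c → a + b + c = 1 + d →
      ff d a b c + sX (max (d - a) 0) + sY (max (d - b) 0) + sZ (max (d - c) 0) ≤ Γ)
    (hT : ∀ w A B g, T w A B g → g ≤ 0 ∨ CX sY sZ XY XZ YZ bXY bXZ Γ w (1 - A) (1 - B) g)
    (hO1 : ∀ w A B g, O1 w A B g → g ≤ 0 ∨ CY sX sZ XY XZ YZ bYX bYZ Γ w (1 - A) (1 - B) g)
    (hO2 : ∀ w A B g, O2 w A B g → g ≤ 0 ∨ CZ sX sY XY XZ YZ bZX bZY Γ w (1 - A) (1 - B) g) :
    Cls3 T O1 O2 Γ := by
  intro A h i j x y hn hR gT g1 g2 sT s1 s2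
  have hji : j ≠ i := by clear * - hn; revert hn; revert i j x y; decide
  have hxi : x ≠ i := by clear * - hn; revert hn; revert i j x y; decide
  have hyi : y ≠ i := by clear * - hn; revert hn; revert i j x y; decide
  have hjx : j ≠ x := by clear * - hn; revert hn; revert i j x y; decide
  have hjy : j ≠ y := by clear * - hn; revert hn; revert i j x y; decide
  have hxy : x ≠ y := by clear * - hn; revert hn; revert i j x y; decide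
  -- the three cells
  obtain ⟨w, p, q, kT, rT⟩ : ∃ w p q : ℝ,
      (gT ≤ 0 ∨ CX sY sZ XY XZ YZ bXY bXZ Γ w p q gT) ∧
      (0 < gT → ∃ H, A i j = some H ∧ w = 2 + H j ∧ p = 1 - Helper90.TS.cmp i x H ∧
        q = 1 - Helper90.TS.cmp i y H) := by
    rcases sT with e | ⟨H, hH, e⟩
    · exact ⟨0, 0, 0, Or.inl e.le, fun hp => absurd hp (by rw [e]; exact lt_irrefl 0)⟩
    · exact ⟨_, _, _, hT _ _ _ _ e, fun _ => ⟨H, hH, rfl, rfl, rfl⟩⟩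
  obtain ⟨w1, a1, b1, k1, r1⟩ : ∃ w p q : ℝ,
      (g1 ≤ 0 ∨ CY sX sZ XY XZ YZ bYX bYZ Γ w p q g1) ∧
      (0 < g1 → ∃ H, A i x = some H ∧ w = 2 + H x ∧ p = 1 - Helper90.TS.cmp i j H ∧
        q = 1 - Helper90.TS.cmp i y H) := by
    rcases s1 with e | ⟨H, hH, e⟩
    · exact ⟨0, 0, 0, Or.inl e.le, fun hp => absurd hp (by rw [e]; exact lt_irrefl 0)⟩
    · exact ⟨_, _, _, hO1 _ _ _ _ e, fun _ => ⟨H, hH, rfl, rfl, rfl⟩⟩
  obtain ⟨w2, a2, b2, k2, r2⟩ : ∃ w p q : ℝ,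
      (g2 ≤ 0 ∨ CZ sX sY XY XZ YZ bZX bZY Γ w p q g2) ∧
      (0 < g2 → ∃ H, A i y = some H ∧ w = 2 + H y ∧ p = 1 - Helper90.TS.cmp i j H ∧
        q = 1 - Helper90.TS.cmp i x H) := by
    rcases s2 with e | ⟨H, hH, e⟩
    · exact ⟨0, 0, 0, Or.inl e.le, fun hp => absurd hp (by rw [e]; exact lt_irrefl 0)⟩
    · exact ⟨_, _, _, hO2 _ _ _ _ e, fun _ => ⟨H, hH, rfl, rfl, rfl⟩⟩
  rcases hR with hR | ⟨M, hMM, hMd⟩
  · have key := class3_lemma F h0 hB hB' kT k1 k2 (fun c1 c2 => by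
        obtain ⟨H, hH, rfl, rfl, rfl⟩ := rT c1
        obtain ⟨G, hG, rfl, rfl, rfl⟩ := r1 c2
        exact far_rel h hH hG hji hxi hjx) (fun c1 c2 => by
        obtain ⟨H, hH, rfl, rfl, rfl⟩ := rT c1
        obtain ⟨G, hG, rfl, rfl, rfl⟩ := r2 c2
        exact far_rel h hH hG hji hyi hjy) (fun c1 c2 => by
        obtain ⟨H, hH, rfl, rfl, rfl⟩ := r1 c1
        obtain ⟨G, hG, rfl, rfl, rfl⟩ := r2 c2
        exact far_rel h hH hG hxi hyi hxy)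
    rw [hR]
    simp only [fo]
    linarith
  · have hcell := h.cell i i M hMM
    obtain ⟨l1, l2, l3, l4, l5, l6, -⟩ := cell_lin hcell hn
    have hm := h.main i M hMM
    have hd0 := hcell.one
    have e := fcl_eq hn M
    have key := hM (M i - 1) (-M j) (-M x) (-M y) hMd (by linarith) (hm j hji) (hm x hxi)
      (hm y hyi) (by linarith) (by linarith) (by linarith) (by linarith)
    rw [← e] at key
    have := class3_main F (m := fcl i M) (cX := M i - 1 - -M j) (cY := M i - 1 - -M x)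
      (cZ := M i - 1 - -M y) (by linarith) (by linarith) (by linarith) key kT k1 k2 (fun c1 => by
        obtain ⟨H, hH, rfl, rfl, rfl⟩ := rT c1
        have := main_rel h hMM hH hji
        linarith) (fun c1 => by
        obtain ⟨H, hH, rfl, rfl, rfl⟩ := r1 c1
        have := main_rel h hMM hH hxi
        linarith) (fun c1 => by
        obtain ⟨H, hH, rfl, rfl, rfl⟩ := r2 c1
        have := main_rel h hMM hH hyi
        linarith)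
    rw [hMM]
    simp only [fo]
    exact this

end

end Pool.Agent.Helper95.TS
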