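import Pool.Agent.Helper95.TS.OlBlock

/-!
# The class block for fixed orientation bits

The relaxed pair is the one opposite to a cell whose two pairs have the same bit; the prices may depend on the
orientation.
-/

set_option autoImplicit false

namespace Pool.Agent.Helper95.TS

open Pool.Agent.Helper84.TS Pool.Agent.Helper23.TS Pool.Agent.Helper36.TS Pool.Agent.Helper44.TS
  Pool.Agent.Helper74.TS Pool.Agent.Helper59.TS Pool.Agent.Helper90.TS Pool.Agent.Helper56.NE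

/-- the slack of a pair -/
def e1 (e : Bool) : ℤ := bif e then 1 else 0

/-- one pair is relaxed, the two others have the same bit -/
def Slk (o0 o1 o2 e0 e1 e2 : Bool) : Bool :=
  bif e0 then Bool.and (Bool.and (!e1) (!e2)) (o1 == o2)
  else bif e1 then Bool.and (!e2) (o0 == o2)
  else Bool.and e2 (o0 == o1)

/-- **The class block for fixed bits.** -/
theorem class_bits {c : Fin 3 → RC} {f : Fin 3 → ℝ} (h : ∀ k, PrC (f k) (c k) ∨ AbC (f k) (c k))
    {o0 o1 o2 s0 s1 s2 : Bool} (hs : Slk o0 o1 o2 s0 s1 s2 = true)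
    (q0 : PairR o0 (c 0) (c 1)) (q1 : PairR o1 (c 1) (c 2)) (q2 : PairR o2 (c 2) (c 0))
    {F : Fin 3 → ℝ} {F' : Fin 3 → GC → ℝ} {K : Fin 3 → ℝ} (hF : ∀ k, Aff (c k) (F k) (F' k) (K k))
    {M : ℝ} (hM : ∀ g : Fin 3 → GC, (∀ k, NearC (c k) (g k)) → (∀ k, (g k).Sum) →
      PairOK o0 (e1 s0) (g 0) (g 1) → PairOK o1 (e1 s1) (g 1) (g 2) →
      PairOK o2 (e1 s2) (g 2) (g 0) → ∑ k, (((g k).vol : ℝ) + F' k (g k)) ≤ M) :
    ∑ k, (24000 * f k + F k) ≤ M + (66 + ∑ k, K k) := by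
  have key : ∀ (b p : Fin 3 → Bool),
      (∀ t : ℝ, 0 ≤ t → t < 1 →
        PairOK o0 (e1 s0) (rC (b 0) (p 0) t (c 0)) (rC (b 1) (p 1) t (c 1)) ∧
        PairOK o1 (e1 s1) (rC (b 1) (p 1) t (c 1)) (rC (b 2) (p 2) t (c 2)) ∧
        PairOK o2 (e1 s2) (rC (b 2) (p 2) t (c 2)) (rC (b 0) (p 0) t (c 0))) →
      ∑ k, (24000 * f k + F k) ≤ M + (66 + ∑ k, K k) := by
    intro b p hT
    obtain ⟨t, t0, t1, ht⟩ := class_round h hF b p
    refine ht.trans ?_
    obtain ⟨k0, k1, k2⟩ := hT t t0 t1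
    have := hM (fun k => rC (b k) (p k) t (c k)) (fun k => near_rC t0 t1 _ _ (h k))
      (fun k => sum_rC _ _ _ _) k0 k1 k2
    linarith
  unfold Slk at hs
  cases s0
  · cases s1
    · cases s2
      · simp at hs
      · -- relaxed pair `(2, 0)`, common cell `1`
        have e : o0 = o1 := by simpa using hs
        subst e
        refine key ![true, false, true] (fun _ => o0) fun t t0 t1 => ?_
        exact ⟨pair_exact t0 t1 rfl (h 0) (h 1) q0, pair_exact t0 t1 rfl (h 1) (h 2) q1,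
          pair_relaxed (near_rC t0 t1 _ _ (h 2)) (near_rC t0 t1 _ _ (h 0)) q2⟩
    · cases s2
      · -- relaxed pair `(1, 2)`, common cell `0`
        have e : o0 = o2 := by simpa using hs
        subst e
        refine key ![false, true, true] (fun _ => o0) fun t t0 t1 => ?_
        exact ⟨pair_exact t0 t1 rfl (h 0) (h 1) q0,
          pair_relaxed (near_rC t0 t1 _ _ (h 1)) (near_rC t0 t1 _ _ (h 2)) q1,
          pair_exact t0 t1 rfl (h 2) (h 0) q2⟩
      · simp at hs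
  · cases s1
    · cases s2
      · -- relaxed pair `(0, 1)`, common cell `2`
        have e : o1 = o2 := by simpa using hs
        subst e
        refine key ![true, true, false] (fun _ => o1) fun t t0 t1 => ?_
        exact ⟨pair_relaxed (near_rC t0 t1 _ _ (h 0)) (near_rC t0 t1 _ _ (h 1)) q0,
          pair_exact t0 t1 rfl (h 1) (h 2) q1, pair_exact t0 t1 rfl (h 2) (h 0) q2⟩
      · simp at hs
    · simp at hs

/-- scale `96000` -/
theorem class_bits96 {c : Fin 3 → RC} {f : Fin 3 → ℝ} (h : ∀ k, PrC (f k) (c k) ∨ AbC (f k) (c k))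
    {o0 o1 o2 s0 s1 s2 : Bool} (hs : Slk o0 o1 o2 s0 s1 s2 = true)
    (q0 : PairR o0 (c 0) (c 1)) (q1 : PairR o1 (c 1) (c 2)) (q2 : PairR o2 (c 2) (c 0))
    (T : Fin 3 → Tab) {M : ℝ} (hM : ∀ g : Fin 3 → GC, (∀ k, NearC (c k) (g k)) → (∀ k, (g k).Sum) →
      PairOK o0 (e1 s0) (g 0) (g 1) → PairOK o1 (e1 s1) (g 1) (g 2) →
      PairOK o2 (e1 s2) (g 2) (g 0) → ∑ k, (4 * ((g k).vol : ℝ) + (T k).grid (g k)) ≤ M) :
    ∑ k, (96000 * f k + (T k).real (c k)) ≤ M + 264 := by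
  have k := class_bits h hs q0 q1 q2 (fun k => (T k).aff4 (c k)) (M := M / 4)
    (fun g h1 h2 h3 h4 h5 => by
      have := hM g h1 h2 h3 h4 h5
      rw [Fin.sum_univ_three] at this ⊢
      linarith)
  rw [Fin.sum_univ_three, Fin.sum_univ_three] at k
  rw [Fin.sum_univ_three]
  linarith

section

variable {A : Fin 4 → Fin 4 → Option (Fin 4 → ℝ)} {a m0 m1 m2 : Fin 4}

/-- **The class block for fixed bits, no main cell.** -/
theorem ol_bits (h : OF A) (h0 : A a a = none) (hn : [a, m0, m1, m2].Nodup)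
    {o0 o1 o2 s0 s1 s2 : Bool} (hs : Slk o0 o1 o2 s0 s1 s2 = true)
    (q0 : PairR o0 (rc A a m0 m2 m1) (rc A a m1 m0 m2))
    (q1 : PairR o1 (rc A a m1 m0 m2) (rc A a m2 m1 m0))
    (q2 : PairR o2 (rc A a m2 m1 m0) (rc A a m0 m2 m1)) (T0 T1 T2 : Tab)
    {M : ℝ} (hM : ∀ g0 g1 g2 : GC, NearC (rc A a m0 m2 m1) g0 →
      NearC (rc A a m1 m0 m2) g1 → NearC (rc A a m2 m1 m0) g2 → g0.Sum → g1.Sum → g2.Sum →
      PairOK o0 (e1 s0) g0 g1 → PairOK o1 (e1 s1) g1 g2 → PairOK o2 (e1 s2) g2 g0 →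
      (4 * (g0.vol : ℝ) + T0.grid g0) + (4 * (g1.vol : ℝ) + T1.grid g1)
        + (4 * (g2.vol : ℝ) + T2.grid g2) ≤ M) :
    96000 * VV A a + T0.real (rc A a m0 m2 m1) + T1.real (rc A a m1 m0 m2)
      + T2.real (rc A a m2 m1 m0) ≤ M + 264 := by
  have k := class_bits96 (c := rcT A a m0 m1 m2) (rcT_ok h hn) hs q0 q1 q2 ![T0, T1, T2] (M := M)
    (fun g h1 h2 h3 h4 h5 => by
      have := hM (g 0) (g 1) (g 2) (h1 0) (h1 1) (h1 2) (h2 0) (h2 1) (h2 2) h3 h4 h5
      rw [Fin.sum_univ_three]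
      exact this)
  rw [Fin.sum_univ_three] at k
  have k' : (96000 * fo a (A a m0) + T0.real (rc A a m0 m2 m1)) +
    (96000 * fo a (A a m1) + T1.real (rc A a m1 m0 m2)) +
    (96000 * fo a (A a m2) + T2.real (rc A a m2 m1 m0)) ≤ M + 264 := k
  rw [Pool.Agent.Helper44.TS.VV_eq hn, h0]
  simp only [fo] at k' ⊢
  linarith

end

end Pool.Agent.Helper95.TS
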