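import Pool.Agent.Helper51.NE.ClassS

/-!
# The class check for fixed orientation bits and slacks
-/

set_option autoImplicit false
set_option maxHeartbeats 400000

namespace Pool.Agent.Helper95.TS

open Pool.Agent.Helper56.NE Pool.Agent.Helper51.NE

/-- the plane of a cell: `X` bounded if `a` (slack `ex`), `Y` bounded if `b` (slack `ey`) -/
def pln (G : Geo) (a b ex ey : Bool) (c : CellD) : ℕ :=
  Bool.rec (motive := fun _ => ℕ)
    (Bool.rec (motive := fun _ => ℕ) (c.H G)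
      (Bool.rec (motive := fun _ => ℕ) (c.GY G) (up1 G.sy (c.GY G)) ey) b)
    (Bool.rec (motive := fun _ => ℕ)
      (Bool.rec (motive := fun _ => ℕ) (c.GX G) (up1 G.sx (c.GX G)) ex)
      (Bool.rec (motive := fun _ => ℕ)
        (Bool.rec (motive := fun _ => ℕ) (c.F G) (up1 G.sy (c.F G)) ey)
        (up1 G.sx (c.F G)) ex) b) a

/-- the slack -/
def sk (e : Bool) : ℕ := bif e then 1 else 0

attribute [local irreducible] rid01 rid12 rid02 rid3 prod3 mxs pfull mup TT


section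

variable {G : Geo} {c : CellD}

theorem pln0 (ex ey : Bool) : pln G false false ex ey c = c.H G := rfl
theorem pln1 (ex : Bool) : pln G false true ex false c = c.GY G := rfl
theorem pln2 (ex : Bool) : pln G false true ex true c = up1 G.sy (c.GY G) := rfl
theorem pln3 (ey : Bool) : pln G true false false ey c = c.GX G := rfl
theorem pln4 (ey : Bool) : pln G true false true ey c = up1 G.sx (c.GX G) := rfl
theorem pln5 : pln G true true false false c = c.F G := rfl
theorem pln6 : pln G true true false true c = up1 G.sy (c.F G) := rfl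
theorem pln7 : pln G true true true false c = up1 G.sx (c.F G) := rfl

end

/-- the relation of `pln` -/
def PR (a b ex ey : Bool) (ix iy p q : ℕ) : Prop :=
  (a = true → ix ≤ p + sk ex) ∧ (b = true → iy ≤ q + sk ey)

theorem pln_bd {G : Geo} (hG : G.Ok) {c : CellD} (hc : c.ok = true) (a b ex ey : Bool)
    (he : Bool.and ex ey = false) :
    Bd G c (pln G a b ex ey c) 22 (PR a b ex ey) := by
  cases a
  · cases b
    · rw [pln0]
      exact Bd.imp (bdH hG hc) (le_refl 22) fun _ _ _ _ _ _ _ => trivial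
    · cases ey
      · rw [pln1]
        exact Bd.imp (bdGY hG hc) (le_refl 22) fun _ _ _ _ _ _ h => h.2 rfl
      · rw [pln2]
        exact Bd.imp (bdGYy hG hc) (le_refl 22) fun _ _ _ _ _ _ h => h.2 rfl
  · cases b
    · cases ex
      · rw [pln3]
        exact Bd.imp (bdGX hG hc) (le_refl 22) fun _ _ _ _ _ _ h => h.1 rfl
      · rw [pln4]
        exact Bd.imp (bdGXx hG hc) (le_refl 22) fun _ _ _ _ _ _ h => h.1 rfl
    · cases ex
      · cases ey
        · rw [pln5]
          exact Bd.imp (bdF hG hc) (by norm_num) fun _ _ _ _ _ _ h => ⟨h.1 rfl, h.2 rfl⟩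
        · rw [pln6]
          exact Bd.imp (bdFy hG hc) (le_refl 22) fun _ _ _ _ _ _ h => ⟨h.1 rfl, h.2 rfl⟩
      · cases ey
        · rw [pln7]
          exact Bd.imp (bdFx hG hc) (le_refl 22) fun _ _ _ _ _ _ h => ⟨h.1 rfl, h.2 rfl⟩
        · simp at he

theorem andE {a b : Bool} (h : Bool.and a b = true) : a = true ∧ b = true := by
  cases a
  · exact absurd h (by simp)
  · exact ⟨rfl, h⟩

/-- **The oriented class check.** -/
def ckO (o0 o1 o2 s0 s1 s2 : Bool) (Mo : ℕ) (c0 c1 c2 : CellD) : Bool :=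
  Bool.and (Bool.and (Bool.and c0.ok c1.ok) (Bool.and c2.ok (Nat.ble Mo 201326591)))
    (Bool.and (Bool.and (!(Bool.and s0 s1)) (Bool.and (!(Bool.and s1 s2)) (!(Bool.and s2 s0))))
      (cmp3 (cst 13824 Mo) (pln geo0 o0 (!o2) s0 s2 c0) (pln geo1 o1 (!o0) s1 s0 c1)
        (pln geo2 o2 (!o1) s2 s1 c2)))

theorem pair_t {e : Bool} {g h : GC} {w a b w' a' b' : ℕ} (hg : Idx g w a b) (hh : Idx h w' a' b')
    {o : Bool} (k : PairOK o (bif e then 1 else 0) g h) :
    (o = true → a ≤ w' + sk e) ∧ ((!o) = true → b' ≤ w + sk e) := by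
  cases o
  · refine ⟨fun h => by simp at h, fun _ => ?_⟩
    cases e
    · exact (pairF hg hh k).1 rfl
    · exact (pairF hg hh k).2 rfl
  · refine ⟨fun _ => ?_, fun h => by simp at h⟩
    cases e
    · exact (pairT hg hh k).1 rfl
    · exact (pairT hg hh k).2 rfl

/-- **Soundness of the oriented class check.** -/
theorem ckO_sound {o0 o1 o2 s0 s1 s2 : Bool} {Mo : ℕ} {c0 c1 c2 : CellD}
    (h : ckO o0 o1 o2 s0 s1 s2 Mo c0 c1 c2 = true) {g0 g1 g2 : GC} {x0 x1 x2 : ℤ}
    (v0 : c0.Val g0 x0) (v1 : c1.Val g1 x1) (v2 : c2.Val g2 x2)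
    (q0 : PairOK o0 (bif s0 then 1 else 0) g0 g1) (q1 : PairOK o1 (bif s1 then 1 else 0) g1 g2)
    (q2 : PairOK o2 (bif s2 then 1 else 0) g2 g0) : x0 + x1 + x2 ≤ (Mo : ℤ) - 3 * 16809216 := by
  have h : Bool.and (Bool.and (Bool.and c0.ok c1.ok) (Bool.and c2.ok (Nat.ble Mo 201326591)))
    (Bool.and (Bool.and (!(Bool.and s0 s1)) (Bool.and (!(Bool.and s1 s2)) (!(Bool.and s2 s0))))
      (cmp3 (cst 13824 Mo) (pln geo0 o0 (!o2) s0 s2 c0) (pln geo1 o1 (!o0) s1 s0 c1)
        (pln geo2 o2 (!o1) s2 s1 c2))) = true := h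
  obtain ⟨h1, h2⟩ := andE h
  obtain ⟨h3, h4⟩ := andE h1
  obtain ⟨k0, k1⟩ := andE h3
  obtain ⟨k2, kM⟩ := andE h4
  obtain ⟨h5, kt⟩ := andE h2
  obtain ⟨z0, h6⟩ := andE h5
  obtain ⟨z1, z2⟩ := andE h6
  have kM := Nat.le_of_ble_eq_true kM
  have y0 : Bool.and s0 s1 = false := by
    clear * - z0; revert z0; cases s0 <;> cases s1 <;> decide
  have y1 : Bool.and s1 s2 = false := by
    clear * - z1; revert z1; cases s1 <;> cases s2 <;> decide
  have y2 : Bool.and s2 s0 = false := by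
    clear * - z2; revert z2; cases s2 <;> cases s0 <;> decide
  have hMo : Mo < 201326592 := by omega
  obtain ⟨w0, a0, b0, i0⟩ := Val.idx v0
  obtain ⟨w1, a1, b1, i1⟩ := Val.idx v1
  obtain ⟨w2, a2, b2, i2⟩ := Val.idx v2
  have f0 := pair_t i0 i1 q0
  have f1 := pair_t i1 i2 q1
  have f2 := pair_t i2 i0 q2
  exact cmp3_sound hMo
    (pln_bd geo0_ok k0 o0 (!o2) s0 s2 (by rw [show Bool.and s0 s2 = Bool.and s2 s0 from Bool.and_comm _ _]; exact y2))
    (pln_bd geo1_ok k1 o1 (!o0) s1 s0 (by rw [show Bool.and s1 s0 = Bool.and s0 s1 from Bool.and_comm _ _]; exact y0))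
    (pln_bd geo2_ok k2 o2 (!o1) s2 s1 (by rw [show Bool.and s2 s1 = Bool.and s1 s2 from Bool.and_comm _ _]; exact y1))
    kt v0 v1 v2 i0 i1 i2 ⟨f0.1, f2.2⟩ ⟨f1.1, f0.2⟩ ⟨f2.1, f1.2⟩

end Pool.Agent.Helper95.TS
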