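import Pool.Agent.Helper90.TS.N2Asm
import Pool.Agent.Helper95.TS.ClassAbs

/-!
# The class lemma of the assembly from the abstract one
-/

set_option autoImplicit false

namespace Pool.Agent.Helper95.TS

open Pool.Agent.Helper84.TS Pool.Agent.Helper36.TS Pool.Agent.Helper90.TS

section

variable {OO TO BT Ba Bb : ℝ → ℝ → ℝ} {Γ : ℝ} {T O : ℝ → ℝ → ℝ → ℝ → Prop}

/-- the relation of two far cells of one class -/
theorem far_rel {A : Fin 4 → Fin 4 → Option (Fin 4 → ℝ)} (h : OF A) {i m n : Fin 4}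
    {F G : Fin 4 → ℝ} (hF : A i m = some F) (hG : A i n = some G) (hm : m ≠ i) (hn : n ≠ i)
    (hmn : m ≠ n) : 2 + G n ≤ 1 - cmp i n F ∨ 2 + F m ≤ 1 - cmp i m G := by
  have d1 := (h.cell i m F hF).one
  have d2 := (h.cell i n G hG).one
  unfold Pool.Agent.Helper90.TS.cmp
  rcases own_far h hF hG hm hn hmn with e | e
  · right
    have : max ((G i - 1) - (F i - 1)) 0 ≤ G i - 1 := max_le (by linarith) (by linarith)
    linarith
  · left
    have : max ((F i - 1) - (G i - 1)) 0 ≤ F i - 1 := max_le (by linarith) (by linarith)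
    linarith

/-- the relation of the main cell and a far cell of one class -/
theorem main_rel {A : Fin 4 → Fin 4 → Option (Fin 4 → ℝ)} (h : OF A) {i n : Fin 4}
    {M G : Fin 4 → ℝ} (hM : A i i = some M) (hG : A i n = some G) (hn : n ≠ i) :
    2 + G n ≤ M n + (M i - 1) := by
  have d1 := (h.cell i i M hM).one
  have d2 := (h.cell i n G hG).one
  have e := own_main h hM hG hn
  have : max ((M i - 1) - (G i - 1)) 0 ≤ M i - 1 := max_le (by linarith) (by linarith)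
  linarith

/-- **`Cls` from the abstract class lemma.** -/
theorem cls_of (F : Phi OO TO) (h0 : 0 ≤ Γ)
    (hB : ∀ x y z, 0 ≤ x → x ≤ 1 → 0 ≤ y → y ≤ 1 → 0 ≤ z → z ≤ 1 →
      BT x y + Bb y z + Ba z x ≤ Γ)
    (hM : ∀ d a b c : ℝ, 3 / 5 ≤ d → d < 1 → a ≤ 1 → b ≤ 1 → c ≤ 1 → -(1 - d) ≤ a → -(1 - d) ≤ b →
      -(1 - d) ≤ c → a + b + c = 1 + d →
      ff d a b c + TO (max (d - a) 0) 0 + OO 0 (max (d - b) 0) + OO 0 (max (d - c) 0) ≤ Γ)
    (hT : ∀ w A B g, T w A B g → g ≤ 0 ∨ TCell OO TO BT Γ w (1 - A) (1 - B) g)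
    (hO : ∀ w A B g, O w A B g → g ≤ 0 ∨ OCell OO TO Ba Bb Γ w (1 - A) (1 - B) g) :
    Cls T O Γ := by
  intro A h i j x y hn hR gT g1 g2 sT s1 s2
  have hji : j ≠ i := by clear * - hn; revert hn; revert i j x y; decide
  have hxi : x ≠ i := by clear * - hn; revert hn; revert i j x y; decide
  have hyi : y ≠ i := by clear * - hn; revert hn; revert i j x y; decide
  have hjx : j ≠ x := by clear * - hn; revert hn; revert i j x y; decide
  have hjy : j ≠ y := by clear * - hn; revert hn; revert i j x y; decide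
  have hxy : x ≠ y := by clear * - hn; revert hn; revert i j x y; decide
  -- the three cells
  obtain ⟨w, p, q, kT, rT⟩ : ∃ w p q : ℝ, (gT ≤ 0 ∨ TCell OO TO BT Γ w p q gT) ∧
      (0 < gT → ∃ H, A i j = some H ∧ w = 2 + H j ∧ p = 1 - cmp i x H ∧ q = 1 - cmp i y H) := by
    rcases sT with e | ⟨H, hH, e⟩
    · exact ⟨0, 0, 0, Or.inl e.le, fun hp => absurd hp (by rw [e]; exact lt_irrefl 0)⟩
    · exact ⟨_, _, _, hT _ _ _ _ e, fun _ => ⟨H, hH, rfl, rfl, rfl⟩⟩
  obtain ⟨w1, a1, b1, k1, r1⟩ : ∃ w p q : ℝ, (g1 ≤ 0 ∨ OCell OO TO Ba Bb Γ w p q g1) ∧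
      (0 < g1 → ∃ H, A i x = some H ∧ w = 2 + H x ∧ p = 1 - cmp i j H ∧ q = 1 - cmp i y H) := by
    rcases s1 with e | ⟨H, hH, e⟩
    · exact ⟨0, 0, 0, Or.inl e.le, fun hp => absurd hp (by rw [e]; exact lt_irrefl 0)⟩
    · exact ⟨_, _, _, hO _ _ _ _ e, fun _ => ⟨H, hH, rfl, rfl, rfl⟩⟩
  obtain ⟨w2, a2, b2, k2, r2⟩ : ∃ w p q : ℝ, (g2 ≤ 0 ∨ OCell OO TO Ba Bb Γ w p q g2) ∧
      (0 < g2 → ∃ H, A i y = some H ∧ w = 2 + H y ∧ p = 1 - cmp i j H ∧ q = 1 - cmp i x H) := by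
    rcases s2 with e | ⟨H, hH, e⟩
    · exact ⟨0, 0, 0, Or.inl e.le, fun hp => absurd hp (by rw [e]; exact lt_irrefl 0)⟩
    · exact ⟨_, _, _, hO _ _ _ _ e, fun _ => ⟨H, hH, rfl, rfl, rfl⟩⟩
  rcases hR with hR | ⟨M, hMM, hMd⟩
  · have key := class_lemma F h0 hB kT k1 k2 (fun c1 c2 => by
        obtain ⟨H, hH, rfl, rfl, rfl⟩ := rT c1
        obtain ⟨G, hG, rfl, rfl, rfl⟩ := r1 c2
        exact far_rel h hH hG hji hxi hjx) (fun c1 c2 => by
        obtain ⟨H, hH, rfl, rfl, rfl⟩ := rT c1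
        obtain ⟨G, hG, rfl, rfl, rfl⟩ := r2 c2
        exact far_rel h hH hG hji hyi hjy) (fun c1 c2 => by
        obtain ⟨H, hH, rfl, rfl, rfl⟩ := r1 c1
        obtain ⟨G, hG, rfl, rfl, rfl⟩ := r2 c2
        exact far_rel h hH hG hxi hyi hxy)
    rw [hR]
    simp only [fo]
    linarith
  · have hcell := h.cell i i M hMM
    obtain ⟨l1, l2, l3, l4, l5, l6, -⟩ := cell_lin hcell hn
    have hm := h.main i M hMM
    have hd0 := hcell.one
    have e := fcl_eq hn M
    have key := hM (M i - 1) (-M j) (-M x) (-M y) hMd (by linarith) (hm j hji) (hm x hxi)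
      (hm y hyi) (by linarith) (by linarith) (by linarith) (by linarith)
    rw [← e] at key
    have := class_main F (m := fcl i M) (cT := M i - 1 - -M j) (c2 := M i - 1 - -M x)
      (c3 := M i - 1 - -M y) (by linarith) (by linarith) (by linarith) key kT k1 k2 (fun c1 => by
        obtain ⟨H, hH, rfl, rfl, rfl⟩ := rT c1
        have := main_rel h hMM hH hji
        linarith) (fun c1 => by
        obtain ⟨H, hH, rfl, rfl, rfl⟩ := r1 c1
        have := main_rel h hMM hH hxi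
        linarith) (fun c1 => by
        obtain ⟨H, hH, rfl, rfl, rfl⟩ := r2 c1
        have := main_rel h hMM hH hyi
        linarith)
    rw [hMM]
    simp only [fo]
    exact this

end

end Pool.Agent.Helper95.TS
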