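import Pool.Agent.Helper95.TS.MainLow
import Pool.Agent.Helper90.TS.NEU

/-!
# The high main cell of a weak class in a configuration `Cu`
-/

set_option autoImplicit false

namespace Pool.Agent.Helper95.TS

open Pool.Agent.Helper84.TS Pool.Agent.Helper90.TS

theorem t_le {w δ p : ℝ} (h : w = -20 ∨ w ≤ 20 * (δ - p)) : max w 0 / 20 ≤ max (δ - p) 0 := by
  rcases h with rfl | h
  · rw [max_eq_right (by norm_num)]
    simp
  · have h0 : 0 ≤ max (δ - p) 0 := le_max_right _ _
    have h1 : δ - p ≤ max (δ - p) 0 := le_max_left _ _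
    have : max w 0 ≤ 20 * max (δ - p) 0 := max_le (by linarith) (by linarith)
    linarith

/-- **The main cell of a low class**: absent, or bounded by every admissible pair. -/
theorem main_low_cu {c : Cu} (h : c.Ok) {i j k l : Fin 4} (hi : i = 0 ∨ i = 1)
    (hn : [i, j, k, l].Nodup) :
    c.mf i = 0 ∨ (max (c.w i j) 0 + max (c.w i k) 0 + max (c.w i l) 0 ≤ 20 ∧
      ∀ α β : ℝ, MajPair α β →
        c.mf i ≤ α - β / 20 * (max (c.w i j) 0 + max (c.w i k) 0 + max (c.w i l) 0)) := by
  rcases h.main i j k l hi hn with h0 | ⟨δ, p, q, s, d0, d1, hp, hq, hs, hsum, hf, wj, wk, wl⟩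
  · exact Or.inl h0
  · right
    have key : ∀ α β : ℝ, MajPair α β → ff δ p q s ≤ α - β * (max (c.w i j) 0 / 20 +
        max (c.w i k) 0 / 20 + max (c.w i l) 0 / 20) ∧ max (c.w i j) 0 / 20 +
        max (c.w i k) 0 / 20 + max (c.w i l) 0 / 20 ≤ 1 := fun α β hab =>
      main_low hab d0 d1.le hp.1 hp.2 hq.1 hq.2 hs.1 hs.2 hsum (t_le wj) (t_le wk) (t_le wl)
    refine ⟨?_, fun α β hab => ?_⟩
    · have := (key _ _ majPair_zero).2
      linarith
    · have := (key α β hab).1
      rw [hf]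
      linarith

end Pool.Agent.Helper95.TS
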