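import Pool.Agent.Helper56.NE.ClassCu
import Pool.Agent.Helper90.TS.NERel
import Pool.Agent.Helper95.TS.MainLow

/-!
# The class block of a low class of a family `OF A`, scale `96000`

`rc A a z x y`: the far cell `(a; z)` in units `1 / 20`, `X` the component capping `x`, `Y` the component
capping `y`; an absent cell is `(-20, 0, 0, 40)`.
-/

set_option autoImplicit false

namespace Pool.Agent.Helper95.TS

open Pool.Agent.Helper84.TS Pool.Agent.Helper23.TS Pool.Agent.Helper36.TS Pool.Agent.Helper44.TS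
  Pool.Agent.Helper74.TS Pool.Agent.Helper59.TS Pool.Agent.Helper90.TS Pool.Agent.Helper56.NE

/-- the far cell `(a; z)` -/
noncomputable def rc (A : Fin 4 → Fin 4 → Option (Fin 4 → ℝ)) (a z x y : Fin 4) : RC :=
  match A a z with
  | none => ⟨-20, 0, 0, 40⟩
  | some F => ⟨20 * (2 + F z), 20 * (1 - (F y + (F a - 1))), 20 * (1 - (F x + (F a - 1))),
      20 * (F a - 1)⟩

section

variable {A : Fin 4 → Fin 4 → Option (Fin 4 → ℝ)} {a z x y : Fin 4}

theorem rc_none (h : A a z = none) : rc A a z x y = ⟨-20, 0, 0, 40⟩ := by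
  unfold rc
  rw [h]

theorem rc_some {F : Fin 4 → ℝ} (h : A a z = some F) :
    rc A a z x y = ⟨20 * (2 + F z), 20 * (1 - (F y + (F a - 1))), 20 * (1 - (F x + (F a - 1))),
      20 * (F a - 1)⟩ := by
  unfold rc
  rw [h]

theorem max20 (u v : ℝ) : max (20 * u - 20 * v) 0 = 20 * max (u - v) 0 := by
  rcases le_total (u - v) 0 with h | h
  · rw [max_eq_right h, max_eq_right (by linarith)]
    ring
  · rw [max_eq_left h, max_eq_left (by linarith)]
    ring

theorem rc_pr (h : OF A) (hn : [a, z, x, y].Nodup) {F : Fin 4 → ℝ} (hF : A a z = some F) :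
    PrC (fo a (A a z)) (rc A a z x y) := by
  have k := fdd h hn hF
  have e : cmp a y F = 1 - (F y + (F a - 1)) := rfl
  have e' : cmp a x F = 1 - (F x + (F a - 1)) := rfl
  rw [e, e'] at k
  rw [rc_some hF, hF]
  have k1 := k.w0
  have k2 := k.w1
  have k3 := k.a0
  have k4 := k.b0
  have k5 := k.sum
  refine ⟨by simp only; linarith, by simp only; linarith, by simp only; linarith,
    by simp only; linarith, by simp only; linarith, ?_⟩
  have k6 := k.vol
  simp only [fo]
  rw [k6, max20, max20, vl]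
  ring

theorem rc_ok (h : OF A) (hn : [a, z, x, y].Nodup) :
    PrC (fo a (A a z)) (rc A a z x y) ∨ AbC (fo a (A a z)) (rc A a z x y) := by
  rcases hF : A a z with _ | F
  · right
    rw [rc_none hF]
    exact ⟨rfl, rfl, rfl, rfl, rfl⟩
  · left
    rw [← hF]
    exact rc_pr h hn hF

/-- the pair relation of the cells `(a; m)`, `(a; n)`, `r` the third column -/
theorem rc_pair (h : OF A) {m n r : Fin 4} (hn : [a, m, n, r].Nodup) :
    PairR true (rc A a m r n) (rc A a n m r) ∨ PairR false (rc A a m r n) (rc A a n m r) := by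
  have n1 := nodup_ne hn
  have hmn : m ≠ n := by
    clear * - hn; revert hn; revert a m n r; decide
  rcases hF : A a m with _ | F
  · left
    have w1 : (rc A a n m r).w ≤ 20 := by
      rcases hG : A a n with _ | G
      · rw [rc_none hG]; norm_num
      · have hn2 : [a, n, m, r].Nodup := by
          clear * - hn; revert hn; revert a m n r; decide
        exact (rc_pr h hn2 hG).w1
    show (rc A a m r n).X + (rc A a n m r).w ≤ 20
    rw [rc_none hF]
    simp only
    linarith
  rcases hG : A a n with _ | G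
  · left
    have hn2 : [a, m, r, n].Nodup := by
      clear * - hn; revert hn; revert a m n r; decide
    have k := rc_pr h hn2 hF
    show (rc A a m r n).X + (rc A a n m r).w ≤ 20
    rw [rc_none hG]
    simp only
    -- `X ≤ 40`
    have k1 := k.sum
    have k2 := k.w1
    have k3 := k.Y0
    have k4 : 0 ≤ (rc A a m r n).D := by
      rw [rc_some hF]
      have := (h.cell a m F hF).one
      simp only
      linarith
    linarith
  · rcases Pool.Agent.Helper5.TS.support h hF hG n1.1 n1.2.1 hmn with e | e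
    · left
      show (rc A a m r n).X + (rc A a n m r).w ≤ 20
      rw [rc_some hF, rc_some hG]
      simp only
      linarith
    · right
      show (rc A a n m r).Y + (rc A a m r n).w ≤ 20
      rw [rc_some hF, rc_some hG]
      simp only
      linarith

/-- the cells of the class block, in the convention of `cuT` -/
noncomputable def rcT (A : Fin 4 → Fin 4 → Option (Fin 4 → ℝ)) (a m0 m1 m2 : Fin 4) : Fin 3 → RC :=
  ![rc A a m0 m2 m1, rc A a m1 m0 m2, rc A a m2 m1 m0]

variable {m0 m1 m2 : Fin 4}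

theorem rcT_ok (h : OF A) (hn : [a, m0, m1, m2].Nodup) (k : Fin 3) :
    PrC ((![fo a (A a m0), fo a (A a m1), fo a (A a m2)] : Fin 3 → ℝ) k) (rcT A a m0 m1 m2 k) ∨
      AbC ((![fo a (A a m0), fo a (A a m1), fo a (A a m2)] : Fin 3 → ℝ) k)
        (rcT A a m0 m1 m2 k) := by
  fin_cases k
  · exact rc_ok h (by clear * - hn; revert hn; revert a m0 m1 m2; decide)
  · exact rc_ok h (by clear * - hn; revert hn; revert a m0 m1 m2; decide)
  · exact rc_ok h (by clear * - hn; revert hn; revert a m0 m1 m2; decide)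

/-- **The class block**: no main cell. -/
theorem ol_class (h : OF A) (h0 : A a a = none) (hn : [a, m0, m1, m2].Nodup) (T0 T1 T2 : Tab)
    {M : ℝ} (hM : ∀ (o0 o1 o2 : Bool) (g0 g1 g2 : GC), NearC (rc A a m0 m2 m1) g0 →
      NearC (rc A a m1 m0 m2) g1 → NearC (rc A a m2 m1 m0) g2 → g0.Sum → g1.Sum → g2.Sum →
      Tri o0 o1 o2 g0 g1 g2 →
      (4 * (g0.vol : ℝ) + T0.grid g0) + (4 * (g1.vol : ℝ) + T1.grid g1)
        + (4 * (g2.vol : ℝ) + T2.grid g2) ≤ M) :
    96000 * VV A a + T0.real (rc A a m0 m2 m1) + T1.real (rc A a m1 m0 m2)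
      + T2.real (rc A a m2 m1 m0) ≤ M + 264 := by
  have k := class96 (c := rcT A a m0 m1 m2) (rcT_ok h hn)
    (rc_pair h hn)
    (rc_pair h (by clear * - hn; revert hn; revert a m0 m1 m2; decide))
    (rc_pair h (by clear * - hn; revert hn; revert a m0 m1 m2; decide)) ![T0, T1, T2] (M := M)
    (fun o0 o1 o2 g h1 h2 h3 => by
      have := hM o0 o1 o2 (g 0) (g 1) (g 2) (h1 0) (h1 1) (h1 2) (h2 0) (h2 1) (h2 2) h3
      rw [Fin.sum_univ_three]
      exact this)
  rw [Fin.sum_univ_three] at k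
  have k' : (96000 * fo a (A a m0) + T0.real (rc A a m0 m2 m1)) +
    (96000 * fo a (A a m1) + T1.real (rc A a m1 m0 m2)) +
    (96000 * fo a (A a m2) + T2.real (rc A a m2 m1 m0)) ≤ M + 264 := k
  rw [Pool.Agent.Helper44.TS.VV_eq hn, h0]
  simp only [fo] at k' ⊢
  linarith

/-- **The class block**: a high main cell. -/
theorem ol_main (h : OF A) {N : Fin 4 → ℝ} (hN : A a a = some N) (hd : 3 / 5 ≤ N a - 1)
    (hn : [a, m0, m1, m2].Nodup) (T0 T1 T2 : Tab) {α β M0 M1 M2 : ℝ} (hp : MajPair α β)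
    (hM0 : ∀ g, NearC (rc A a m0 m2 m1) g → g.Sum →
      4 * (g.vol : ℝ) + T0.grid g - 4800 * β * (max g.w 0 : ℤ) ≤ M0)
    (hM1 : ∀ g, NearC (rc A a m1 m0 m2) g → g.Sum →
      4 * (g.vol : ℝ) + T1.grid g - 4800 * β * (max g.w 0 : ℤ) ≤ M1)
    (hM2 : ∀ g, NearC (rc A a m2 m1 m0) g → g.Sum →
      4 * (g.vol : ℝ) + T2.grid g - 4800 * β * (max g.w 0 : ℤ) ≤ M2) :
    96000 * VV A a + T0.real (rc A a m0 m2 m1) + T1.real (rc A a m1 m0 m2)
      + T2.real (rc A a m2 m1 m0) ≤ 96000 * α + M0 + M1 + M2 + 264 := by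
  have k := class96_free (c := rcT A a m0 m1 m2) (rcT_ok h hn)
    ![T0, T1, T2] (4800 * β) (M := ![M0, M1, M2]) (fun k g => by
      fin_cases k
      · exact hM0 g
      · exact hM1 g
      · exact hM2 g)
  rw [Fin.sum_univ_three, Fin.sum_univ_three] at k
  have k' : (96000 * fo a (A a m0) + T0.real (rc A a m0 m2 m1)
      - 4800 * β * max (rc A a m0 m2 m1).w 0) +
    (96000 * fo a (A a m1) + T1.real (rc A a m1 m0 m2) - 4800 * β * max (rc A a m1 m0 m2).w 0) +
    (96000 * fo a (A a m2) + T2.real (rc A a m2 m1 m0) - 4800 * β * max (rc A a m2 m1 m0).w 0) ≤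
    M0 + M1 + M2 + 264 := k
  have hc := h.cell a a N hN
  obtain ⟨c1, c2, c3, c4, c5⟩ := Pool.Agent.Helper36.TS.cell_lin hc hn
  have n := nodup_ne hn
  have tt : ∀ {m u v : Fin 4}, [a, m, u, v].Nodup →
      max (rc A a m u v).w 0 / 20 ≤ max ((N a - 1) - -N m) 0 := by
    intro m u v hm
    have h0 := le_max_right ((N a - 1) - -N m) 0
    have h1 := le_max_left ((N a - 1) - -N m) 0
    rcases hF : A a m with _ | F
    · rw [rc_none hF]
      simp only
      rw [max_eq_right (by norm_num : (-20 : ℝ) ≤ 0)]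
      linarith
    · have s := supp_main h (nodup_ne hm).1 hN hF
      have d0 : 0 ≤ F a - 1 := by
        have := (h.cell a m F hF).one
        linarith
      have s2 : max ((N a - 1) - (F a - 1)) 0 ≤ N a - 1 := max_le (by linarith) (by linarith)
      rw [rc_some hF]
      simp only
      have : max (20 * (2 + F m)) 0 ≤ 20 * max ((N a - 1) - -N m) 0 :=
        max_le (by linarith) (by linarith)
      linarith
  have p1 : -(1 - (N a - 1)) ≤ -N m0 := by linarith
  have p2 : -(1 - (N a - 1)) ≤ -N m1 := by linarith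
  have p3 : -(1 - (N a - 1)) ≤ -N m2 := by linarith
  have q1 : -N m0 ≤ 1 := h.main a N hN m0 n.1
  have q2 : -N m1 ≤ 1 := h.main a N hN m1 n.2.1
  have q3 : -N m2 ≤ 1 := h.main a N hN m2 n.2.2
  have hd1 : N a - 1 ≤ 1 := by linarith
  have m := (main_low hp hd hd1 p1 q1 p2 q2 p3 q3 (by linarith)
    (tt (m := m0) (u := m2) (v := m1) (by clear * - hn; revert hn; revert a m0 m1 m2; decide))
    (tt (m := m1) (u := m0) (v := m2) (by clear * - hn; revert hn; revert a m0 m1 m2; decide))
    (tt (m := m2) (u := m1) (v := m0) (by clear * - hn; revert hn; revert a m0 m1 m2; decide))).1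
  rw [Pool.Agent.Helper44.TS.VV_eq hn, hN]
  simp only [fo] at k' ⊢
  rw [fcl_eq hn N]
  have m' := mul_le_mul_of_nonneg_left m (show (0 : ℝ) ≤ 96000 by norm_num)
  linarith

end

end Pool.Agent.Helper95.TS
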