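import Pool.Agent.Helper19.TS.Slot

/-!
# Slots of a row with low height (`d ≤ 113/500`), with or without an own far cell in the column

Multipliers `43/50` (upper slot) and `8/25` (lower slot).
-/

set_option autoImplicit false

namespace Pool.Agent.Helper95.TS

open Pool.Agent.Helper36.TS Pool.Agent.Helper19.TS

section

variable {c d u f w δ : ℝ}

/-- the free slot, in general -/
theorem slot_free {β : ℝ} (hc : 0 ≤ c) (d0 : 0 ≤ d) (d1 : d ≤ 113 / 500) (lo : -(1 - d) ≤ u)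
    (hi : u ≤ 1) (hβ : c ^ 2 ≤ 387 / 250 * β) : sx c d u ≤ c ^ 2 / 2 + β * d := by
  have h1 := sx_le_max hc (by linarith : d ≤ 1) lo hi
  have h2 : 0 ≤ (1 - d) / 2 * (max u 0 - c / (1 - d)) ^ 2 :=
    mul_nonneg (by linarith) (sq_nonneg _)
  have h3 : (1 - d) / 2 * (max u 0 - c / (1 - d)) ^ 2 =
      (1 - d) * (max u 0) ^ 2 / 2 - c * max u 0 + c ^ 2 / (2 * (1 - d)) := by
    have : (1 - d) ≠ 0 := by linarith
    field_simp
    ring
  have h4 : c ^ 2 / (2 * (1 - d)) ≤ c ^ 2 / 2 + β * d := by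
    have hpos : 0 < 2 * (1 - d) := by linarith
    rw [div_le_iff₀ hpos]
    have hb : 0 ≤ β := by nlinarith [sq_nonneg c]
    nlinarith [mul_nonneg d0 (by linarith : 0 ≤ 387 / 250 * β - c ^ 2),
      mul_nonneg (mul_nonneg d0 hb) (by linarith : 0 ≤ 113 / 500 - d)]
  linarith

theorem slot_high (d0 : 0 ≤ d) (d1 : d ≤ 113 / 500) (lo : -(1 - d) ≤ u) (hi : u ≤ 1) :
    sx (43 / 50) d u ≤ (43 / 50) ^ 2 / 2 + 11 / 20 * d :=
  slot_free (by norm_num) d0 d1 lo hi (by norm_num)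

theorem slot_low (d0 : 0 ≤ d) (d1 : d ≤ 113 / 500) (lo : -(1 - d) ≤ u) (hi : u ≤ 1) :
    sx (8 / 25) d u ≤ (8 / 25) ^ 2 / 2 + 11 / 20 * d :=
  slot_free (by norm_num) d0 d1 lo hi (by norm_num)

/-- the own condition gives a cap of the entry -/
theorem own_cap (hδ : 0 ≤ δ) (d0 : 0 ≤ d) (hown : w ≤ -u + max (d - δ) 0) : u ≤ d - w := by
  have h1 : max (d - δ) 0 ≤ d := max_le (by linarith) d0
  linarith

/-- the lower slot with an own far cell -/
theorem own_low (w0 : 0 < w) (w1 : w ≤ 13 / 20) (hf : f ≤ w * (1 + w) ^ 2 / 4 - w ^ 3 / 3)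
    (hδ : 0 ≤ δ) (d0 : 0 ≤ d) (d1 : d ≤ 113 / 500) (lo : -(1 - d) ≤ u)
    (hown : w ≤ -u + max (d - δ) 0) :
    sx (8 / 25) d u + f ≤ (8 / 25) ^ 2 / 2 + 11 / 20 * d := by
  have hu := own_cap hδ d0 hown
  rcases le_total d w with h | h
  · have h1 := sx_mono_neg (c := 8 / 25) (by norm_num) lo hu (by linarith)
    obtain ⟨e, he⟩ : ∃ e, e = w - d := ⟨_, rfl⟩
    have hw : w = d + e := by linarith
    have e0 : 0 ≤ e := by linarith
    have e1 : e ≤ 13 / 20 - d := by linarith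
    have e2 : d - w = -e := by linarith
    rw [e2, neg_neg] at h1
    rw [hw] at hf
    have key : 0 ≤ 64 / 1250 + 3 / 10 * d + 7 / 100 * e - d * e ^ 2 / 2 - e ^ 3 / 3 - d ^ 2 / 2
        - d * e + (d + e) ^ 3 / 12 := by
      have k1 : 0 ≤ d * (e * (13 / 20 - d - e)) := mul_nonneg d0 (mul_nonneg e0 (by linarith))
      have k2 : e ^ 3 ≤ (13 / 20 - d) ^ 2 * e := by
        have : e ^ 2 ≤ (13 / 20 - d) ^ 2 := pow_le_pow_left₀ e0 e1 2
        calc e ^ 3 = e ^ 2 * e := by ring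
          _ ≤ (13 / 20 - d) ^ 2 * e := mul_le_mul_of_nonneg_right this e0
      have k3 : 0 ≤ (13 / 20 - d - e) * (57 / 1600 + 67 / 80 * d - d ^ 2 / 4) := by
        apply mul_nonneg (by linarith)
        nlinarith
      have k4 : 0 ≤ 4487 / 160000 - 167 / 800 * d + d ^ 2 / 2 - d ^ 3 / 6 := by
        nlinarith [mul_nonneg (mul_nonneg d0 d0) (by linarith : 0 ≤ 113 / 500 - d),
          sq_nonneg (d - 113 / 500), mul_nonneg d0 (by linarith : 0 ≤ 113 / 500 - d)]
      nlinarith [k1, k2, k3, k4]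
    nlinarith
  · have hU1 : d - w ≤ 1 := by linarith
    have h1 := sx_mono_pos (c := 8 / 25) (by linarith) lo hu (by linarith) hU1 (by
      nlinarith [mul_nonneg d0 (by linarith : 0 ≤ d - w)])
    nlinarith [mul_nonneg d0 w0.le, mul_nonneg w0.le w0.le,
      mul_nonneg (mul_nonneg w0.le w0.le) w0.le, sq_nonneg (d - w)]

/-- the upper slot with an own far cell -/
theorem own_high (w0 : 0 < w) (w1 : w ≤ 13 / 20) (hf : f ≤ w * (1 + w) ^ 2 / 4 - w ^ 3 / 3)
    (hδ : 0 ≤ δ) (d0 : 0 ≤ d) (d1 : d ≤ 113 / 500) (lo : -(1 - d) ≤ u)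
    (hown : w ≤ -u + max (d - δ) 0) :
    sx (43 / 50) d u + f ≤ (43 / 50) ^ 2 / 2 := by
  have hu := own_cap hδ d0 hown
  rcases le_total d w with h | h
  · have h1 := sx_mono_neg (c := 43 / 50) (by norm_num) lo hu (by linarith)
    obtain ⟨e, he⟩ : ∃ e, e = w - d := ⟨_, rfl⟩
    have hw : w = d + e := by linarith
    have e0 : 0 ≤ e := by linarith
    have e1 : e ≤ 13 / 20 - d := by linarith
    have e2 : d - w = -e := by linarith
    rw [e2, neg_neg] at h1
    rw [hw] at hf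
    have k1 : e ^ 2 ≤ 13 / 20 * e := by nlinarith
    have k2 : e ^ 3 ≤ 13 / 20 * (13 / 20 * e) := by
      have := mul_le_mul_of_nonneg_left k1 e0
      nlinarith
    have k3 : d * e ≤ 113 / 500 * e := mul_le_mul_of_nonneg_right d1 e0
    have k4 : d * e ^ 2 ≤ 113 / 500 * e ^ 2 := mul_le_mul_of_nonneg_right d1 (sq_nonneg e)
    have k5 : 0 ≤ (d + e) ^ 3 := pow_nonneg (by linarith) 3
    have k6 : d ^ 2 ≤ 113 / 500 * d := by nlinarith
    nlinarith
  · have hU1 : d - w ≤ 1 := by linarith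
    have h1 := sx_mono_pos (c := 43 / 50) (by linarith) lo hu (by linarith) hU1 (by
      nlinarith [mul_nonneg d0 (by linarith : 0 ≤ d - w)])
    nlinarith [mul_nonneg d0 w0.le, mul_nonneg w0.le w0.le,
      mul_nonneg (mul_nonneg w0.le w0.le) w0.le, sq_nonneg (d - w)]

end

end Pool.Agent.Helper95.TS
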