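import Pool.Agent.Helper95.TS.SpTree
import Pool.Agent.Helper95.TS.SpDefs

/-!
# The groups of the class side of `OL2Bsp`
-/

set_option autoImplicit false

namespace Pool.Agent.Helper95.TS

open Pool.Agent.Helper84.TS Pool.Agent.Helper23.TS Pool.Agent.Helper36.TS Pool.Agent.Helper44.TS
  Pool.Agent.Helper74.TS Pool.Agent.Helper59.TS Pool.Agent.Helper90.TS Pool.Agent.Helper56.NE
  Pool.Agent.Helper51.NE

def vEB : Vc := ⟨1040, 20, 19, 0, 10, -12, -45⟩
def vND : Vc := ⟨980, 25, 0, -17, 25, 0, -16⟩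
def vHN : Vc := ⟨730, 39, 0, -5, 8, 0, -6⟩
def vHD : Vc := ⟨204, 6, 0, -26, 63, 0, -6⟩
def vKN : Vc := ⟨424, 47, 0, -8, 17, 0, 0⟩
def vKD : Vc := ⟨104, 5, 0, -27, 64, 0, 0⟩

def bS : Bx := ⟨0, 20, 0, 40, 0, 40, 0, 11⟩
def bT : Bx := ⟨0, 20, 0, 40, 0, 40, 11, 20⟩
def bN : Bx := ⟨0, 14, 0, 40, 0, 40, 0, 11⟩
def bH : Bx := ⟨14, 20, 0, 40, 0, 40, 0, 11⟩

/-- the check of a tree without main cell -/
def okL (pr o0 o1 o2 s0 s1 s2 : Bool) (u0 u1 u2 : Vc) (B0 B1 B2 : Bx) (T : Tr Lf) : Bool :=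
  Bool.and (Slk o0 o1 o2 s0 s1 s2) (T.chk (lfOK pr o0 o1 o2 s0 s1 s2 u0 u1 u2) B0 B1 B2)

/-- the check of a tree with a high main cell -/
def okM (pr : Bool) (u0 u1 u2 : Vc) (B0 B1 B2 : Bx) (T : Tr Lm) : Bool :=
  T.chk (lmOK pr u0 u1 u2) B0 B1 B2

section

variable {A : Fin 4 → Fin 4 → Option (Fin 4 → ℝ)} {a m0 m1 m2 : Fin 4} {u0 u1 u2 : Vc}
  {B0 B1 B2 : Bx} {pr : Bool}

theorem okL_sound (h : OF A) (h0 : A a a = none) (hn : [a, m0, m1, m2].Nodup)
    {o0 o1 o2 s0 s1 s2 : Bool}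
    (q0 : PairR o0 (rc A a m0 m2 m1) (rc A a m1 m0 m2))
    (q1 : PairR o1 (rc A a m1 m0 m2) (rc A a m2 m1 m0))
    (q2 : PairR o2 (rc A a m2 m1 m0) (rc A a m0 m2 m1)) {T : Tr Lf}
    (k : okL pr o0 o1 o2 s0 s1 s2 u0 u1 u2 B0 B1 B2 T = true)
    (p0 : Pos true B0 (fo a (A a m0)) (rc A a m0 m2 m1))
    (p1 : Pos pr B1 (fo a (A a m1)) (rc A a m1 m0 m2))
    (p2 : Pos true B2 (fo a (A a m2)) (rc A a m2 m1 m0)) :
    Alt (96000 * VV A a) u0 u1 u2 (rc A a m0 m2 m1) (rc A a m1 m0 m2) (rc A a m2 m1 m0) := by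
  obtain ⟨k1, k2⟩ := andE k
  exact Tr.sound (lfOK_sound h h0 hn k1 q0 q1 q2) T B0 B1 B2 k2 p0 p1 p2

theorem okM_sound (h : OF A) {N : Fin 4 → ℝ} (hN : A a a = some N) (hd : 3 / 5 ≤ N a - 1)
    (hn : [a, m0, m1, m2].Nodup) {T : Tr Lm} (k : okM pr u0 u1 u2 B0 B1 B2 T = true)
    (p0 : Pos true B0 (fo a (A a m0)) (rc A a m0 m2 m1))
    (p1 : Pos pr B1 (fo a (A a m1)) (rc A a m1 m0 m2))
    (p2 : Pos true B2 (fo a (A a m2)) (rc A a m2 m1 m0)) :
    Alt (96000 * VV A a) u0 u1 u2 (rc A a m0 m2 m1) (rc A a m1 m0 m2) (rc A a m2 m1 m0) :=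
  Tr.sound (lmOK_sound h hN hd hn) T B0 B1 B2 k p0 p1 p2

/-- the certificates of a group, third cell present -/
def CertP (u0 u1 u2 : Vc) (B0 B1 B2 : Bx) : Prop :=
  (∀ o0 o1 o2 : Bool, ∃ (s0 s1 s2 : Bool) (T : Tr Lf),
    okL true o0 o1 o2 s0 s1 s2 u0 u1 u2 B0 B1 B2 T = true) ∧
  ∃ T : Tr Lm, okM true u0 u1 u2 B0 B1 B2 T = true

/-- the certificates of a group, third cell absent -/
def SpCertA (u0 u1 u2 : Vc) (B0 B2 : Bx) : Prop :=
  (∀ o : Bool, ∃ T : Tr Lf, okL false (!o) o o true false false u0 u1 u2 B0 bS B2 T = true) ∧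
  ∃ T : Tr Lm, okM false u0 u1 u2 B0 bS B2 T = true

theorem certP_sound (h : OF A) (hR : Pool.Agent.Helper84.TS.R2 A a) (hn : [a, m0, m1, m2].Nodup)
    (k : CertP u0 u1 u2 B0 B1 B2)
    (p0 : Pos true B0 (fo a (A a m0)) (rc A a m0 m2 m1))
    (p1 : Pos true B1 (fo a (A a m1)) (rc A a m1 m0 m2))
    (p2 : Pos true B2 (fo a (A a m2)) (rc A a m2 m1 m0)) :
    Alt (96000 * VV A a) u0 u1 u2 (rc A a m0 m2 m1) (rc A a m1 m0 m2) (rc A a m2 m1 m0) := by
  rcases hR with h0 | ⟨N, hN, hd⟩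
  · have ex : ∀ {c d : RC}, PairR true c d ∨ PairR false c d → ∃ o, PairR o c d := by
      rintro c d (g | g)
      · exact ⟨_, g⟩
      · exact ⟨_, g⟩
    obtain ⟨o0, q0⟩ := ex (rc_pair h hn)
    obtain ⟨o1, q1⟩ := ex (rc_pair (A := A) (a := a) (m := m1) (n := m2) (r := m0) h
      (by clear * - hn; revert hn; revert a m0 m1 m2; decide))
    obtain ⟨o2, q2⟩ := ex (rc_pair (A := A) (a := a) (m := m2) (n := m0) (r := m1) h
      (by clear * - hn; revert hn; revert a m0 m1 m2; decide))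
    obtain ⟨s0, s1, s2, T, hT⟩ := k.1 o0 o1 o2
    exact okL_sound h h0 hn q0 q1 q2 hT p0 p1 p2
  · obtain ⟨T, hT⟩ := k.2
    exact okM_sound h hN hd hn hT p0 p1 p2

theorem certA_sound (h : OF A) (hR : Pool.Agent.Helper84.TS.R2 A a) (hn : [a, m0, m1, m2].Nodup)
    (k : SpCertA u0 u1 u2 B0 B2)
    (p0 : Pos true B0 (fo a (A a m0)) (rc A a m0 m2 m1))
    (p1 : Pos false bS (fo a (A a m1)) (rc A a m1 m0 m2))
    (p2 : Pos true B2 (fo a (A a m2)) (rc A a m2 m1 m0)) :
    Alt (96000 * VV A a) u0 u1 u2 (rc A a m0 m2 m1) (rc A a m1 m0 m2) (rc A a m2 m1 m0) := by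
  rcases hR with h0 | ⟨N, hN, hd⟩
  · have ex : ∀ {c d : RC}, PairR true c d ∨ PairR false c d → ∃ o, PairR o c d := by
      rintro c d (g | g)
      · exact ⟨_, g⟩
      · exact ⟨_, g⟩
    obtain ⟨o, q2⟩ := ex (rc_pair (A := A) (a := a) (m := m2) (n := m0) (r := m1) h
      (by clear * - hn; revert hn; revert a m0 m1 m2; decide))
    have k0 : PrC (fo a (A a m0)) (rc A a m0 m2 m1) := p0.1
    have k2 : PrC (fo a (A a m2)) (rc A a m2 m1 m0) := p2.1
    have k1 : AbC (fo a (A a m1)) (rc A a m1 m0 m2) := p1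
    have d0 : 0 ≤ (rc A a m0 m2 m1).D := le_trans (Nat.cast_nonneg _) p0.2.2.D.1
    have d2 : 0 ≤ (rc A a m2 m1 m0).D := le_trans (Nat.cast_nonneg _) p2.2.2.D.1
    have s0 := k0.sum
    have s2 := k2.sum
    have w0 := k0.w1
    have w2 := k2.w1
    have y0 := k0.Y0
    have x2 := k2.X0
    have q0 : ∀ b, PairR b (rc A a m0 m2 m1) (rc A a m1 m0 m2) := by
      intro b
      cases b
      · show (rc A a m1 m0 m2).Y + (rc A a m0 m2 m1).w ≤ 20
        rw [k1.Y]
        linarith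
      · show (rc A a m0 m2 m1).X + (rc A a m1 m0 m2).w ≤ 20
        rw [k1.w]
        linarith
    have q1 : ∀ b, PairR b (rc A a m1 m0 m2) (rc A a m2 m1 m0) := by
      intro b
      cases b
      · show (rc A a m2 m1 m0).Y + (rc A a m1 m0 m2).w ≤ 20
        rw [k1.w]
        linarith
      · show (rc A a m1 m0 m2).X + (rc A a m2 m1 m0).w ≤ 20
        rw [k1.X]
        linarith
    obtain ⟨T, hT⟩ := k.1 o
    exact okL_sound h h0 hn (q0 _) (q1 _) q2 hT p0 p1 p2
  · obtain ⟨T, hT⟩ := k.2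
    exact okM_sound h hN hd hn hT p0 p1 p2

/-- the position of a present cell -/
theorem pos_some (h : OF A) {z x y : Fin 4} (hn : [a, z, x, y].Nodup) {F : Fin 4 → ℝ}
    (hF : A a z = some F) {w0 w1 d0 d1 : ℕ} (hw0 : (w0 : ℝ) ≤ 20 * (2 + F z))
    (hw1 : 20 * (2 + F z) ≤ w1) (hd0 : (d0 : ℝ) ≤ 20 * (F a - 1)) (hd1 : 20 * (F a - 1) ≤ d1) :
    Pos true ⟨w0, w1, 0, 40, 0, 40, d0, d1⟩ (fo a (A a z)) (rc A a z x y) := by
  have k := rc_pr h hn hF
  have f := fdd h hn hF
  have fd0 := f.d0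
  have fd1 := f.d1
  have k1 := k.w1
  have k2 := k.X0
  have k3 := k.Y0
  have k4 := k.sum
  have eD : (rc A a z x y).D = 20 * (F a - 1) := by rw [rc_some hF]
  have ew : (rc A a z x y).w = 20 * (2 + F z) := by rw [rc_some hF]
  refine ⟨k, by rw [eD]; linarith, ⟨?_, ?_⟩, ⟨?_, ?_⟩, ⟨?_, ?_⟩, ⟨?_, ?_⟩⟩
  · rw [ew]; exact hw0
  · rw [ew]; exact hw1
  · push_cast; linarith
  · push_cast; linarith
  · push_cast; linarith
  · push_cast; linarith
  · rw [eD]; exact hd0
  · rw [eD]; exact hd1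

/-- **The class statements from the certificates.** -/
theorem spCl_of {p r s : Fin 4} (K : CertP vKN vKD vKD bS bT bS) (NP : CertP vEB vND vHN bS bS bN)
    (NA : SpCertA vND vHN vHN bS bN) (HP : CertP vEB vHN vHD bS bS bH) (HA : SpCertA vHN vHD vHD bS bH)
    (h : OF A) (hR : Pool.Agent.Helper84.TS.R2 A a) (hn : [a, p, r, s].Nodup) {C D : Fin 4 → ℝ} (hC : A a s = some C)
    (hD : A a p = some D) (dC : C a - 1 ≤ 11 / 20) (dD : D a - 1 ≤ 11 / 20) :
    SpCl A a p r s C D := by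
  have n0 : [a, p, s, r].Nodup := by
    clear * - hn; revert hn; revert a p r s; decide
  have n1 : [a, r, p, s].Nodup := by
    clear * - hn; revert hn; revert a p r s; decide
  have n2 : [a, s, r, p].Nodup := by
    clear * - hn; revert hn; revert a p r s; decide
  have fC := fdd h n2 hC
  have fD := fdd h n0 hD
  have c0 := fC.d0
  have c1 := fC.w0
  have c2 := fC.w1
  have e0 := fD.d0
  have e1 := fD.w0
  have e2 := fD.w1
  have pD : Pos true bS (fo a (A a p)) (rc A a p s r) :=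
    pos_some h n0 hD (by push_cast; linarith) (by push_cast; linarith) (by push_cast; linarith)
      (by push_cast; linarith)
  have pC : Pos true bS (fo a (A a s)) (rc A a s r p) :=
    pos_some h n2 hC (by push_cast; linarith) (by push_cast; linarith) (by push_cast; linarith)
      (by push_cast; linarith)
  have pN : 2 + C s ≤ 7 / 10 → Pos true bN (fo a (A a s)) (rc A a s r p) := fun g =>
    pos_some h n2 hC (by push_cast; linarith) (by push_cast; linarith) (by push_cast; linarith)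
      (by push_cast; linarith)
  have pH : 7 / 10 ≤ 2 + C s → Pos true bH (fo a (A a s)) (rc A a s r p) := fun g =>
    pos_some h n2 hC (by push_cast; linarith) (by push_cast; linarith) (by push_cast; linarith)
      (by push_cast; linarith)
  have rC : rc A a s r p = ⟨20 * (2 + C s), 20 * (1 - (C p + (C a - 1))),
    20 * (1 - (C r + (C a - 1))), 20 * (C a - 1)⟩ := rc_some hC
  have rD : rc A a p s r = ⟨20 * (2 + D p), 20 * (1 - (D r + (D a - 1))),
    20 * (1 - (D s + (D a - 1))), 20 * (D a - 1)⟩ := rc_some hD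
  have toE : ∀ {E : Fin 4 → ℝ}, A a r = some E →
      96000 * VV A a ≤ 48 * bnd vEB (rc A a p s r) (rc A a r p s) (rc A a s r p) →
      EBi A a p r s C D E := by
    intro E hE g
    rw [rC, rD, rc_some hE] at g
    unfold bnd vEB at g
    unfold EBi
    push_cast at g
    linarith
  have toE0 : ∀ {y : ℝ}, (20 - (rc A a r p s).Y = 20 * y) →
      (96000 * VV A a ≤ 48 * bnd vND (rc A a p s r) (rc A a r p s) (rc A a s r p) →
        NDi A a r C D y) ∧
      (96000 * VV A a ≤ 48 * bnd vHN (rc A a p s r) (rc A a r p s) (rc A a s r p) →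
        HNi A a r C D y) ∧
      (96000 * VV A a ≤ 48 * bnd vHD (rc A a p s r) (rc A a r p s) (rc A a s r p) →
        HDi A a r C D y) := by
    intro y hy
    rw [rC, rD]
    refine ⟨fun g => ?_, fun g => ?_, fun g => ?_⟩
    · unfold bnd vND at g
      unfold NDi
      rw [hy] at g
      push_cast at g
      linarith
    · unfold bnd vHN at g
      unfold HNi
      rw [hy] at g
      push_cast at g
      linarith
    · unfold bnd vHD at g
      unfold HDi
      rw [hy] at g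
      push_cast at g
      linarith
  have toK : (96000 * VV A a ≤ 48 * bnd vKN (rc A a p s r) (rc A a r p s) (rc A a s r p) →
        KNi A a r C D) ∧
      (96000 * VV A a ≤ 48 * bnd vKD (rc A a p s r) (rc A a r p s) (rc A a s r p) →
        KDi A a r C D) := by
    rw [rC, rD]
    refine ⟨fun g => ?_, fun g => ?_⟩
    · unfold bnd vKN at g
      unfold KNi
      push_cast at g
      linarith
    · unfold bnd vKD at g
      unfold KDi
      push_cast at g
      linarith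
  have yS : ∀ {E : Fin 4 → ℝ}, A a r = some E →
      20 - (rc A a r p s).Y = 20 * (E p + (E a - 1)) := by
    intro E hE
    rw [rc_some hE]
    show 20 - 20 * (1 - (E p + (E a - 1))) = _
    ring
  have y0 : A a r = none → 20 - (rc A a r p s).Y = 20 * 1 := by
    intro hE
    rw [rc_none hE]
    norm_num
  have pA : A a r = none → Pos false bS (fo a (A a r)) (rc A a r p s) := by
    intro hE
    show AbC _ _
    rw [rc_none hE, hE]
    exact ⟨rfl, rfl, rfl, rfl, rfl⟩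
  have pE : ∀ {E : Fin 4 → ℝ}, A a r = some E → E a - 1 ≤ 11 / 20 →
      Pos true bS (fo a (A a r)) (rc A a r p s) := by
    intro E hE g
    have fE := fdd h n1 hE
    have f0 := fE.d0
    have f1 := fE.w0
    have f2 := fE.w1
    exact pos_some h n1 hE (by push_cast; linarith) (by push_cast; linarith)
      (by push_cast; linarith) (by push_cast; linarith)
  have pT : ∀ {E : Fin 4 → ℝ}, A a r = some E → 11 / 20 ≤ E a - 1 →
      Pos true bT (fo a (A a r)) (rc A a r p s) := by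
    intro E hE g
    have fE := fdd h n1 hE
    have f0 := fE.d1
    have f1 := fE.w0
    have f2 := fE.w1
    exact pos_some h n1 hE (by push_cast; linarith) (by push_cast; linarith)
      (by push_cast; linarith) (by push_cast; linarith)
  refine ⟨fun E hE g => ?_, fun E hE g gw => ?_, fun hE gw => ?_, fun E hE g gw => ?_,
    fun hE gw => ?_⟩
  · rcases certP_sound h hR hn K pD (pT hE g) pC with k | k | k
    · exact Or.inl (toK.1 k)
    · exact Or.inr (toK.2 k)
    · exact Or.inr (toK.2 k)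
  · rcases certP_sound h hR hn NP pD (pE hE g) (pN gw) with k | k | k
    · exact Or.inl (toE hE k)
    · exact Or.inr (Or.inl ((toE0 (yS hE)).1 k))
    · exact Or.inr (Or.inr ((toE0 (yS hE)).2.1 k))
  · rcases certA_sound h hR hn NA pD (pA hE) (pN gw) with k | k | k
    · exact Or.inl ((toE0 (y0 hE)).1 k)
    · exact Or.inr ((toE0 (y0 hE)).2.1 k)
    · exact Or.inr ((toE0 (y0 hE)).2.1 k)
  · rcases certP_sound h hR hn HP pD (pE hE g) (pH gw) with k | k | k
    · exact Or.inl (toE hE k)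
    · exact Or.inr (Or.inl ((toE0 (yS hE)).2.1 k))
    · exact Or.inr (Or.inr ((toE0 (yS hE)).2.2 k))
  · rcases certA_sound h hR hn HA pD (pA hE) (pH gw) with k | k | k
    · exact Or.inl ((toE0 (y0 hE)).2.1 k)
    · exact Or.inr ((toE0 (y0 hE)).2.2 k)
    · exact Or.inr ((toE0 (y0 hE)).2.2 k)

end

end Pool.Agent.Helper95.TS
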