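import Pool.Agent.Helper95.TS.SpGrp

/-!
# Certificates for the class side of `OL2Bsp` (K)
-/

set_option autoImplicit false
set_option maxRecDepth 1000000

namespace Pool.Agent.Helper95.TS

def tK000 : Tr Lf :=
  (.nd 0 3 3
    (.lf ⟨16, 32, 0, [1877, 1179, 1179, 1179, 1179, 1179, 1179, 1179, 1179, 1179, 4000]⟩)
    (.lf ⟨48, 0, 0, [69, 69, 69, 69, 69, 69, 69, 69, 69, 69, 4000]⟩))

theorem cK000 : okL true false false false false false true vKN vKD vKD bS bT bS tK000 = true := by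
  decide +kernel

def tK100 : Tr Lf :=
  (.nd 0 3 3
    (.lf ⟨16, 32, 0, [287, 287, 287, 287, 287, 287, 287, 287, 0, 0, 4000]⟩)
    (.lf ⟨48, 0, 0, [34, 34, 34, 34, 0, 0, 0, 0, 0, 0, 4000]⟩))

theorem cK100 : okL true true false false true false false vKN vKD vKD bS bT bS tK100 = true := by
  decide +kernel

def tK010 : Tr Lf :=
  (.nd 0 3 3
    (.nd 0 0 10
    (.lf ⟨48, 0, 0, [6289, 0, 0, 0, 0, 0, 0, 0, 0, 0, 4000]⟩)
    (.lf ⟨0, 48, 0, [0, 0, 0, 0, 0, 0, 0, 0, 0, 0, 4000]⟩))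
    (.lf ⟨48, 0, 0, [115, 0, 0, 0, 0, 0, 0, 0, 0, 0, 4000]⟩))

theorem cK010 : okL true false true false false true false vKN vKD vKD bS bT bS tK010 = true := by
  decide +kernel

def tK110 : Tr Lf :=
  (.nd 0 3 3
    (.lf ⟨16, 32, 0, [1082, 814, 814, 814, 814, 814, 814, 814, 814, 814, 4000]⟩)
    (.lf ⟨48, 0, 0, [426, 426, 426, 426, 426, 426, 426, 426, 426, 426, 4000]⟩))

theorem cK110 : okL true true true false false false true vKN vKD vKD bS bT bS tK110 = true := by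
  decide +kernel

def tK001 : Tr Lf :=
  (.nd 2 1 4
    (.lf ⟨8, 40, 0, [1753, 73, 0, 0, 0, 0, 0, 0, 0, 0, 4000]⟩)
    (.lf ⟨48, 0, 0, [4000, 4000, 313, 313, 313, 313, 313, 313, 313, 313, 4000]⟩))

theorem cK001 : okL true false false true false false true vKN vKD vKD bS bT bS tK001 = true := by
  decide +kernel

def tK101 : Tr Lf :=
  (.nd 0 0 16
    (.lf ⟨48, 0, 0, [508, 508, 283, 207, 207, 207, 207, 207, 207, 1331, 4000]⟩)
    (.nd 0 3 3
    (.lf ⟨0, 48, 0, [4000, 4000, 3248, 1651, 0, 0, 0, 0, 1, 1, 4000]⟩)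
    (.lf ⟨44, 4, 0, [4000, 4000, 0, 0, 0, 0, 0, 0, 0, 0, 4000]⟩)))

theorem cK101 : okL true true false true false true false vKN vKD vKD bS bT bS tK101 = true := by
  decide +kernel

def tK011 : Tr Lf :=
  (.nd 0 0 16
    (.lf ⟨48, 0, 0, [0, 0, 0, 0, 0, 0, 0, 0, 0, 0, 4000]⟩)
    (.lf ⟨12, 36, 0, [1181, 0, 4000, 4000, 4000, 4000, 4000, 4000, 4000, 4000, 4000]⟩))

theorem cK011 : okL true false true true true false false vKN vKD vKD bS bT bS tK011 = true := by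
  decide +kernel

def tK111 : Tr Lf :=
  (.nd 0 0 16
    (.lf ⟨48, 0, 0, [48, 48, 1676, 48, 48, 48, 48, 48, 48, 48, 4000]⟩)
    (.nd 0 3 3
    (.lf ⟨5, 43, 0, [2809, 1875, 4000, 4000, 4000, 4000, 4000, 4000, 4000, 4000, 4000]⟩)
    (.lf ⟨48, 0, 0, [0, 0, 4000, 4000, 4000, 4000, 4000, 4000, 4000, 4000, 4000]⟩)))

theorem cK111 : okL true true true true false false true vKN vKD vKD bS bT bS tK111 = true := by
  decide +kernel

def mK : Tr Lm :=
  (.nd 0 0 16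
    (.nd 2 0 4
    (.lf ⟨48, 0, 0, 39376, 1884, 16809552, 16809216, 16788912⟩)
    (.lf ⟨48, 0, 0, 43200, 2160, 16809552, 16809216, 16784896⟩))
    (.lf ⟨10, 38, 0, 57600, 2880, 16764860, 16809216, 16803276⟩))

theorem dK : okM true vKN vKD vKD bS bT bS mK = true := by
  decide +kernel

theorem certK : CertP vKN vKD vKD bS bT bS := by
  refine ⟨fun o0 o1 o2 => ?_, ⟨_, dK⟩⟩
  cases o0 <;> cases o1 <;> cases o2
  · exact ⟨_, _, _, _, cK000⟩
  · exact ⟨_, _, _, _, cK001⟩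
  · exact ⟨_, _, _, _, cK010⟩
  · exact ⟨_, _, _, _, cK011⟩
  · exact ⟨_, _, _, _, cK100⟩
  · exact ⟨_, _, _, _, cK101⟩
  · exact ⟨_, _, _, _, cK110⟩
  · exact ⟨_, _, _, _, cK111⟩

end Pool.Agent.Helper95.TS
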