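import Pool.Agent.Helper95.TS.ClassBits
import Pool.Agent.Helper51.NE.ClassS
import Pool.Agent.Helper59.NE.Sum

/-!
# Tables, boxes and states for the class side of `OL2Bsp`
-/

set_option autoImplicit false

namespace Pool.Agent.Helper95.TS

open Pool.Agent.Helper84.TS Pool.Agent.Helper56.NE Pool.Agent.Helper51.NE

/-! ### Tables -/

/-- entry of a table -/
def ent (z : ℤ) : ℕ := (4194304 + z).toNat

theorem le_ent (z : ℤ) : z ≤ (ent z : ℤ) - 4194304 := by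
  unfold ent
  omega

/-- the list of the entries of a function -/
def lst (φ : ℤ → ℤ) : List ℕ :=
  [ent (φ (-20)), ent (φ (-19)), ent (φ (-18)), ent (φ (-17)), ent (φ (-16)), ent (φ (-15)),
   ent (φ (-14)), ent (φ (-13)), ent (φ (-12)), ent (φ (-11)), ent (φ (-10)), ent (φ (-9)),
   ent (φ (-8)), ent (φ (-7)), ent (φ (-6)), ent (φ (-5)), ent (φ (-4)), ent (φ (-3)),
   ent (φ (-2)), ent (φ (-1)), ent (φ 0), ent (φ 1), ent (φ 2), ent (φ 3), ent (φ 4), ent (φ 5),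
   ent (φ 6), ent (φ 7), ent (φ 8), ent (φ 9), ent (φ 10), ent (φ 11), ent (φ 12), ent (φ 13),
   ent (φ 14), ent (φ 15), ent (φ 16), ent (φ 17), ent (φ 18), ent (φ 19), ent (φ 20),
   ent (φ 21), ent (φ 22), ent (φ 23), ent (φ 24), ent (φ 25), ent (φ 26), ent (φ 27),
   ent (φ 28), ent (φ 29), ent (φ 30), ent (φ 31), ent (φ 32), ent (φ 33), ent (φ 34),
   ent (φ 35), ent (φ 36), ent (φ 37), ent (φ 38), ent (φ 39), ent (φ 40)]

theorem vof_lst (φ : ℤ → ℤ) {n : ℤ} (h1 : -20 ≤ n) (h2 : n ≤ 40) : φ n ≤ vof (lst φ) n := by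
  have h : ∀ k : ℤ, φ k ≤ (ent (φ k) : ℤ) - 4194304 := fun k => le_ent _
  interval_cases n <;> exact h _

/-- the repair function: weights of the ramps `[2 j, 2 j + 2]` -/
def rmp (r : List ℕ) (n : ℤ) : ℤ → ℕ :=
  List.rec (motive := fun _ => ℤ → ℕ) (fun _ => 0)
    (fun a _ ih k => Nat.add (Nat.mul a (Nat.min 2 (n - k).toNat)) (ih (k + 2))) r

theorem rmp_cons (a : ℕ) (r : List ℕ) (n k : ℤ) :
    rmp (a :: r) n k = a * Nat.min 2 (n - k).toNat + rmp r n (k + 2) := rfl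

theorem rmp_mono (r : List ℕ) {m n : ℤ} (h : m ≤ n) (k : ℤ) : rmp r m k ≤ rmp r n k := by
  induction r generalizing k with
  | nil => exact le_rfl
  | cons a r ih =>
    rw [rmp_cons, rmp_cons]
    refine Nat.add_le_add (Nat.mul_le_mul le_rfl ?_) (ih _)
    have : (m - k).toNat ≤ (n - k).toNat := by omega
    exact min_le_min le_rfl this

/-- the repair function as a real table -/
def rH (r : List ℕ) (n : ℤ) : ℤ := (rmp r n 0 : ℤ)

theorem rH_mono (r : List ℕ) : Monotone (fun n : ℤ => ((rH r n : ℤ) : ℝ)) := by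
  intro m n h
  have := rmp_mono r h 0
  show ((rH r m : ℤ) : ℝ) ≤ ((rH r n : ℤ) : ℝ)
  unfold rH
  exact_mod_cast this

/-- the four tables of a cell -/
structure TI where
  w : ℤ → ℤ
  X : ℤ → ℤ
  Y : ℤ → ℤ
  D : ℤ → ℤ

/-- the real tables -/
def TI.tab (t : TI) : Tab :=
  ⟨fun n => (t.w n : ℝ), fun n => (t.X n : ℝ), fun n => (t.Y n : ℝ), fun n => (t.D n : ℝ)⟩

/-- linear tables with repair -/
def tI (cw cx cy : Bool) (r : List ℕ) (ax ay ad : ℤ) : TI :=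
  ⟨fun n => bif cw then rH r (20 - n) else 0, fun n => ax * (n - 20) - (bif cx then rH r n else 0),
    fun n => ay * (n - 20) - (bif cy then rH r n else 0), fun n => ad * (n - 20)⟩

/-- the repair function, interpolated -/
noncomputable def rR (r : List ℕ) (x : ℝ) : ℝ := interp (fun n => ((rH r n : ℤ) : ℝ)) x

theorem rR_mono (r : List ℕ) {x y : ℝ} (h : x ≤ y) : rR r x ≤ rR r y :=
  Pool.Agent.Helper59.NE.interp_mono59 (rH_mono r) h

theorem interp_bif (b : Bool) (φ : ℤ → ℤ) (x : ℝ) :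
    interp (fun n => (((bif b then φ n else 0 : ℤ)) : ℝ)) x =
      bif b then interp (fun n => (φ n : ℝ)) x else 0 := by
  cases b
  · simp [interp]
  · rfl

theorem tI_real (cw cx cy : Bool) (r : List ℕ) (ax ay ad : ℤ) (c : RC) :
    (tI cw cx cy r ax ay ad).tab.real c =
      (bif cw then rR r (20 - c.w) else 0) + (ax * (c.X - 20) - (bif cx then rR r c.X else 0))
        + (ay * (c.Y - 20) - (bif cy then rR r c.Y else 0)) + ad * (c.D - 20) := by
  have lin : ∀ (b : ℤ) (x : ℝ), interp (fun n => ((b * (n - 20) : ℤ) : ℝ)) x = b * (x - 20) := by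
    intro b x
    unfold interp
    push_cast
    ring
  have e0 : interp (fun n => ((bif cw then rH r (20 - n) else 0 : ℤ) : ℝ)) c.w =
      bif cw then rR r (20 - c.w) else 0 := by
    rw [interp_bif cw (fun n => rH r (20 - n))]
    cases cw
    · rfl
    · show interp (fun n => ((rH r (20 - n) : ℤ) : ℝ)) c.w = rR r (20 - c.w)
      have := interp_rev (fun n => ((rH r n : ℤ) : ℝ)) 20 c.w
      unfold rR
      push_cast at this
      rw [this]
  have e1 : ∀ (b : ℤ) (q : Bool) (x : ℝ),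
      interp (fun n => ((b * (n - 20) - (bif q then rH r n else 0) : ℤ) : ℝ)) x =
        b * (x - 20) - (bif q then rR r x else 0) := by
    intro b q x
    have : interp (fun n => ((b * (n - 20) - (bif q then rH r n else 0) : ℤ) : ℝ)) x =
        interp (fun n => ((b * (n - 20) : ℤ) : ℝ)) x -
          interp (fun n => ((bif q then rH r n else 0 : ℤ) : ℝ)) x := by
      unfold interp
      push_cast
      ring
    rw [this, lin, interp_bif]
    cases q <;> rfl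
  unfold Tab.real
  show interp (fun n => ((bif cw then rH r (20 - n) else 0 : ℤ) : ℝ)) c.w +
      interp (fun n => ((ax * (n - 20) - (bif cx then rH r n else 0) : ℤ) : ℝ)) c.X +
      interp (fun n => ((ay * (n - 20) - (bif cy then rH r n else 0) : ℤ) : ℝ)) c.Y +
      interp (fun n => ((ad * (n - 20) : ℤ) : ℝ)) c.D = _
  rw [e0, e1, e1, lin]

/-! ### Boxes -/

/-- a box of a cell -/
structure Bx where
  w0 : ℕ
  w1 : ℕ
  x0 : ℕ
  x1 : ℕ
  y0 : ℕ
  y1 : ℕ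
  d0 : ℕ
  d1 : ℕ

/-- the real cell lies in the box -/
structure InB (b : Bx) (c : RC) : Prop where
  w : (b.w0 : ℝ) ≤ c.w ∧ c.w ≤ b.w1
  X : (b.x0 : ℝ) ≤ c.X ∧ c.X ≤ b.x1
  Y : (b.y0 : ℝ) ≤ c.Y ∧ c.Y ≤ b.y1
  D : (b.d0 : ℝ) ≤ c.D ∧ c.D ≤ b.d1

/-- a coordinate -/
noncomputable def cget (c : RC) (i : ℕ) : ℝ :=
  bif Nat.beq i 0 then c.w else bif Nat.beq i 1 then c.X else bif Nat.beq i 2 then c.Y else c.D

def Bx.hi (b : Bx) (i t : ℕ) : Bx :=
  bif Nat.beq i 0 then ⟨b.w0, t, b.x0, b.x1, b.y0, b.y1, b.d0, b.d1⟩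
  else bif Nat.beq i 1 then ⟨b.w0, b.w1, b.x0, t, b.y0, b.y1, b.d0, b.d1⟩
  else bif Nat.beq i 2 then ⟨b.w0, b.w1, b.x0, b.x1, b.y0, t, b.d0, b.d1⟩
  else ⟨b.w0, b.w1, b.x0, b.x1, b.y0, b.y1, b.d0, t⟩

def Bx.lo (b : Bx) (i t : ℕ) : Bx :=
  bif Nat.beq i 0 then ⟨t, b.w1, b.x0, b.x1, b.y0, b.y1, b.d0, b.d1⟩
  else bif Nat.beq i 1 then ⟨b.w0, b.w1, t, b.x1, b.y0, b.y1, b.d0, b.d1⟩
  else bif Nat.beq i 2 then ⟨b.w0, b.w1, b.x0, b.x1, t, b.y1, b.d0, b.d1⟩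
  else ⟨b.w0, b.w1, b.x0, b.x1, b.y0, b.y1, t, b.d1⟩

theorem InB.hi {b : Bx} {c : RC} (h : InB b c) {i t : ℕ} (ht : cget c i ≤ t) : InB (b.hi i t) c := by
  unfold cget at ht
  unfold Bx.hi
  cases e0 : Nat.beq i 0
  · rw [e0] at ht
    cases e1 : Nat.beq i 1
    · rw [e1] at ht
      cases e2 : Nat.beq i 2
      · rw [e2] at ht
        exact ⟨h.w, h.X, h.Y, h.D.1, ht⟩
      · rw [e2] at ht
        exact ⟨h.w, h.X, ⟨h.Y.1, ht⟩, h.D⟩
    · rw [e1] at ht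
      exact ⟨h.w, ⟨h.X.1, ht⟩, h.Y, h.D⟩
  · rw [e0] at ht
    exact ⟨⟨h.w.1, ht⟩, h.X, h.Y, h.D⟩

theorem InB.lo {b : Bx} {c : RC} (h : InB b c) {i t : ℕ} (ht : (t : ℝ) ≤ cget c i) :
    InB (b.lo i t) c := by
  unfold cget at ht
  unfold Bx.lo
  cases e0 : Nat.beq i 0
  · rw [e0] at ht
    cases e1 : Nat.beq i 1
    · rw [e1] at ht
      cases e2 : Nat.beq i 2
      · rw [e2] at ht
        exact ⟨h.w, h.X, h.Y, ht, h.D.2⟩
      · rw [e2] at ht
        exact ⟨h.w, h.X, ⟨ht, h.Y.2⟩, h.D⟩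
    · rw [e1] at ht
      exact ⟨h.w, ⟨ht, h.X.2⟩, h.Y, h.D⟩
  · rw [e0] at ht
    exact ⟨⟨ht, h.w.2⟩, h.X, h.Y, h.D⟩

/-! ### States -/

/-- the cell of the check: present in the box, or absent -/
def cD (pr : Bool) (b : Bx) (t : TI) : CellD :=
  bif pr then ⟨none, [⟨b.w0, b.w1, b.x0, b.x1, b.y0, b.y1, b.d0, b.d1, lst t.w, lst t.X, lst t.Y,
    lst t.D⟩]⟩
  else ⟨some (lst t.w, lst t.X, lst t.Y, lst t.D), []⟩

/-- the real cell is present in the box, or absent -/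
def Pos (pr : Bool) (b : Bx) (f : ℝ) (c : RC) : Prop :=
  bif pr then PrC f c ∧ c.D ≤ 20 ∧ InB b c else AbC f c

theorem Pos.or {pr : Bool} {b : Bx} {f : ℝ} {c : RC} (h : Pos pr b f c) : PrC f c ∨ AbC f c := by
  cases pr
  · exact Or.inr h
  · exact Or.inl h.1

/-- **The value of the neighbour.** -/
theorem Pos.val {pr : Bool} {b : Bx} {f : ℝ} {c : RC} (h : Pos pr b f c) (t : TI) {g : GC}
    (hg : NearC c g) (hs : g.Sum) : ∃ x : ℤ, (cD pr b t).Val g x ∧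
      4 * (g.vol : ℝ) + t.tab.grid g ≤ x := by
  cases pr
  · have h : AbC f c := h
    have e := h.near hg
    refine ⟨vof (lst t.w) (-20) + vof (lst t.X) 0 + vof (lst t.Y) 0 + vof (lst t.D) 40,
      Or.inl ⟨_, rfl, e, rfl⟩, ?_⟩
    have k1 := vof_lst t.w (n := -20) (by norm_num) (by norm_num)
    have k2 := vof_lst t.X (n := 0) (by norm_num) (by norm_num)
    have k3 := vof_lst t.Y (n := 0) (by norm_num) (by norm_num)
    have k4 := vof_lst t.D (n := 40) (by norm_num) (by norm_num)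
    have k1' : ((t.w (-20) : ℤ) : ℝ) ≤ (vof (lst t.w) (-20) : ℤ) := by exact_mod_cast k1
    have k2' : ((t.X 0 : ℤ) : ℝ) ≤ (vof (lst t.X) 0 : ℤ) := by exact_mod_cast k2
    have k3' : ((t.Y 0 : ℤ) : ℝ) ≤ (vof (lst t.Y) 0 : ℤ) := by exact_mod_cast k3
    have k4' : ((t.D 40 : ℤ) : ℝ) ≤ (vof (lst t.D) 40 : ℤ) := by exact_mod_cast k4
    have ev : g.vol = 0 := by
      rw [e]
      rfl
    rw [ev]
    unfold Tab.grid
    rw [e]
    show 4 * ((0 : ℤ) : ℝ) + (((t.w (-20) : ℤ) : ℝ) + ((t.X 0 : ℤ) : ℝ) + ((t.Y 0 : ℤ) : ℝ)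
      + ((t.D 40 : ℤ) : ℝ)) ≤ _
    push_cast
    linarith
  · obtain ⟨hp, hd, hb⟩ : PrC f c ∧ c.D ≤ 20 ∧ InB b c := h
    obtain ⟨w0, w1, X0, Y0, hsum⟩ := hp.near hg hs
    have D1 : g.D ≤ 20 := hg.D.le_of_le (c := 20) (by push_cast; exact hd)
    have D0 : 0 ≤ g.D := hg.D.ge_of_ge (c := 0) (by
      push_cast
      have := hb.D.1
      have : (0 : ℝ) ≤ b.d0 := Nat.cast_nonneg _
      linarith)
    have bw := box_near (lo := b.w0) (hi := b.w1) hg.w (by exact_mod_cast hb.w.1)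
      (by exact_mod_cast hb.w.2)
    have bX := box_near (lo := b.x0) (hi := b.x1) hg.X (by exact_mod_cast hb.X.1)
      (by exact_mod_cast hb.X.2)
    have bY := box_near (lo := b.y0) (hi := b.y1) hg.Y (by exact_mod_cast hb.Y.1)
      (by exact_mod_cast hb.Y.2)
    have bD := box_near (lo := b.d0) (hi := b.d1) hg.D (by exact_mod_cast hb.D.1)
      (by exact_mod_cast hb.D.2)
    refine ⟨4 * g.vol + vof (lst t.w) g.w + vof (lst t.X) g.X + vof (lst t.Y) g.Y +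
      vof (lst t.D) g.D, Or.inr ⟨_, List.mem_singleton.2 rfl,
        ⟨w0, w1, X0, Y0, D0, D1, hsum, bw, bX, bY, bD, rfl⟩⟩, ?_⟩
    have k1 := vof_lst t.w (n := g.w) (by omega) (by omega)
    have k2 := vof_lst t.X (n := g.X) (by omega) (by omega)
    have k3 := vof_lst t.Y (n := g.Y) (by omega) (by omega)
    have k4 := vof_lst t.D (n := g.D) (by omega) (by omega)
    have k1' : ((t.w g.w : ℤ) : ℝ) ≤ (vof (lst t.w) g.w : ℤ) := by exact_mod_cast k1
    have k2' : ((t.X g.X : ℤ) : ℝ) ≤ (vof (lst t.X) g.X : ℤ) := by exact_mod_cast k2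
    have k3' : ((t.Y g.Y : ℤ) : ℝ) ≤ (vof (lst t.Y) g.Y : ℤ) := by exact_mod_cast k3
    have k4' : ((t.D g.D : ℤ) : ℝ) ≤ (vof (lst t.D) g.D : ℤ) := by exact_mod_cast k4
    show 4 * (g.vol : ℝ) + (((t.w g.w : ℤ) : ℝ) + ((t.X g.X : ℤ) : ℝ) + ((t.Y g.Y : ℤ) : ℝ)
      + ((t.D g.D : ℤ) : ℝ)) ≤ _
    push_cast
    linarith

end Pool.Agent.Helper95.TS
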