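import Pool.Agent.Helper95.TS.SpTab
import Pool.Agent.Helper95.TS.ClassO

/-!
# The tree checker for the class side of `OL2Bsp`
-/

set_option autoImplicit false
set_option linter.unusedSimpArgs false

namespace Pool.Agent.Helper95.TS

open Pool.Agent.Helper84.TS Pool.Agent.Helper23.TS Pool.Agent.Helper36.TS Pool.Agent.Helper44.TS
  Pool.Agent.Helper74.TS Pool.Agent.Helper59.TS Pool.Agent.Helper90.TS Pool.Agent.Helper56.NE
  Pool.Agent.Helper51.NE

/-! ### Bounds -/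

/-- a linear bound; units `1 / 2000` per unit of `20 - x` -/
structure Vc where
  c : ℤ
  x1 : ℤ
  x2 : ℤ
  y1 : ℤ
  y2 : ℤ
  es : ℤ
  ep : ℤ

/-- the bound at three cells `D = (a; p)`, `E = (a; r)`, `C = (a; s)` -/
def bnd (v : Vc) (c0 c1 c2 : RC) : ℝ :=
  v.c + v.x1 * (20 - c2.D) + v.x2 * (20 - c2.Y) + v.y1 * (20 - c0.X) + v.y2 * (20 - c0.D)
    + v.es * (20 - c1.X) + v.ep * (20 - c1.Y)

/-- combination of three bounds -/
def comb (t0 t1 t2 : ℕ) (u0 u1 u2 : Vc) : Vc :=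
  ⟨t0 * u0.c + t1 * u1.c + t2 * u2.c, t0 * u0.x1 + t1 * u1.x1 + t2 * u2.x1,
    t0 * u0.x2 + t1 * u1.x2 + t2 * u2.x2, t0 * u0.y1 + t1 * u1.y1 + t2 * u2.y1,
    t0 * u0.y2 + t1 * u1.y2 + t2 * u2.y2, t0 * u0.es + t1 * u1.es + t2 * u2.es,
    t0 * u0.ep + t1 * u1.ep + t2 * u2.ep⟩

theorem bnd_comb (t0 t1 t2 : ℕ) (u0 u1 u2 : Vc) (c0 c1 c2 : RC) :
    bnd (comb t0 t1 t2 u0 u1 u2) c0 c1 c2 =
      t0 * bnd u0 c0 c1 c2 + t1 * bnd u1 c0 c1 c2 + t2 * bnd u2 c0 c1 c2 := by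
  unfold bnd comb
  push_cast
  ring

/-- one of the three bounds holds -/
def Alt (V : ℝ) (u0 u1 u2 : Vc) (c0 c1 c2 : RC) : Prop :=
  V ≤ 48 * bnd u0 c0 c1 c2 ∨ V ≤ 48 * bnd u1 c0 c1 c2 ∨ V ≤ 48 * bnd u2 c0 c1 c2

theorem alt_of {V : ℝ} {t0 t1 t2 : ℕ} (ht : t0 + t1 + t2 = 48) {u0 u1 u2 : Vc} {c0 c1 c2 : RC}
    (h : V ≤ bnd (comb t0 t1 t2 u0 u1 u2) c0 c1 c2) : Alt V u0 u1 u2 c0 c1 c2 := by
  rw [bnd_comb] at h
  by_contra hc
  unfold Alt at hc
  push Not at hc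
  obtain ⟨h0, h1, h2⟩ := hc
  have e : (t0 : ℝ) + t1 + t2 = 48 := by exact_mod_cast ht
  have a0 : (0 : ℝ) ≤ t0 := Nat.cast_nonneg _
  have a1 : (0 : ℝ) ≤ t1 := Nat.cast_nonneg _
  have a2 : (0 : ℝ) ≤ t2 := Nat.cast_nonneg _
  have b0 := mul_nonneg a0 (sub_nonneg.2 h0.le)
  have b1 := mul_nonneg a1 (sub_nonneg.2 h1.le)
  have b2 := mul_nonneg a2 (sub_nonneg.2 h2.le)
  have key : (t0 + t1 + t2 : ℝ) * V - 48 * (t0 * bnd u0 c0 c1 c2 + t1 * bnd u1 c0 c1 c2 +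
      t2 * bnd u2 c0 c1 c2) = 0 + (t0 * (V - 48 * bnd u0 c0 c1 c2) + t1 * (V - 48 * bnd u1 c0 c1 c2)
      + t2 * (V - 48 * bnd u2 c0 c1 c2)) := by ring
  rw [e] at key
  have z0 : t0 * (V - 48 * bnd u0 c0 c1 c2) = 0 := by nlinarith
  have z1 : t1 * (V - 48 * bnd u1 c0 c1 c2) = 0 := by nlinarith
  have z2 : t2 * (V - 48 * bnd u2 c0 c1 c2) = 0 := by nlinarith
  have n0 : (t0 : ℝ) = 0 := by
    rcases mul_eq_zero.1 z0 with h | h
    · exact h
    · linarith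
  have n1 : (t1 : ℝ) = 0 := by
    rcases mul_eq_zero.1 z1 with h | h
    · exact h
    · linarith
  have n2 : (t2 : ℝ) = 0 := by
    rcases mul_eq_zero.1 z2 with h | h
    · exact h
    · linarith
  rw [n0, n1, n2] at e
  norm_num at e

/-! ### Leaves without main cell -/

/-- a leaf without main cell -/
structure Lf where
  t0 : ℕ
  t1 : ℕ
  t2 : ℕ
  r : List ℕ

section

variable (pr o0 o1 o2 s0 s1 s2 : Bool)

/-- the tables of the three cells -/
def tb0 (v : Vc) (r : List ℕ) : TI :=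
  tI (Bool.or (Bool.and s2 o2) (Bool.and s0 (!o0))) (Bool.and s0 o0) (Bool.and s2 (!o2)) r
    v.y1 0 v.y2

def tb1 (v : Vc) (r : List ℕ) : TI :=
  tI (Bool.or (Bool.and s0 o0) (Bool.and s1 (!o1))) (Bool.and s1 o1) (Bool.and s0 (!o0)) r
    v.es v.ep 0

def tb2 (v : Vc) (r : List ℕ) : TI :=
  tI (Bool.or (Bool.and s1 o1) (Bool.and s2 (!o2))) (Bool.and s2 o2) (Bool.and s1 (!o1)) r
    0 v.x2 v.x1

/-- the bound of the check -/
def mo (v : Vc) : ℕ := (50427384 + v.c).toNat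

def lfv (v : Vc) (r : List ℕ) (b0 b1 b2 : Bx) : Bool :=
  Bool.and (Nat.ble 1 (mo v)) (ckO o0 o1 o2 s0 s1 s2 (mo v) (cD true b0 (tb0 o0 o2 s0 s2 v r))
    (cD pr b1 (tb1 o0 o1 s0 s1 v r)) (cD true b2 (tb2 o1 o2 s1 s2 v r)))

/-- **The check of a leaf.** -/
def lfOK (u0 u1 u2 : Vc) (q : Lf) (b0 b1 b2 : Bx) : Bool :=
  Bool.and (Nat.beq (Nat.add (Nat.add q.t0 q.t1) q.t2) 48)
    (lfv pr o0 o1 o2 s0 s1 s2 (comb q.t0 q.t1 q.t2 u0 u1 u2) q.r b0 b1 b2)

end

section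

variable {A : Fin 4 → Fin 4 → Option (Fin 4 → ℝ)} {a m0 m1 m2 : Fin 4}
  {pr o0 o1 o2 s0 s1 s2 : Bool}

theorem rep_nonneg {c0 c1 c2 : RC} (hs : Slk o0 o1 o2 s0 s1 s2 = true) (q0 : PairR o0 c0 c1)
    (q1 : PairR o1 c1 c2) (q2 : PairR o2 c2 c0) (v : Vc) (r : List ℕ) :
    -(bnd v c0 c1 c2 - v.c) ≤ (tb0 o0 o2 s0 s2 v r).tab.real c0 + (tb1 o0 o1 s0 s1 v r).tab.real c1
      + (tb2 o1 o2 s1 s2 v r).tab.real c2 := by
  unfold tb0 tb1 tb2
  rw [tI_real, tI_real, tI_real]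
  unfold bnd
  have pT : ∀ {c d : RC}, PairR true c d → rR r c.X ≤ rR r (20 - d.w) := by
    intro c d h
    have h : c.X + d.w ≤ 20 := h
    exact rR_mono r (by linarith)
  have pF : ∀ {c d : RC}, PairR false c d → rR r d.Y ≤ rR r (20 - c.w) := by
    intro c d h
    have h : d.Y + c.w ≤ 20 := h
    exact rR_mono r (by linarith)
  unfold Slk at hs
  cases s0
  · cases s1
    · cases s2
      · simp at hs
      · cases o2
        · have := pF q2
          simp only [Bool.false_and, Bool.true_and, Bool.not_false, Bool.and_false, Bool.and_true,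
            Bool.false_or, Bool.or_false, cond_true, cond_false, Bool.or_true, Bool.true_or]
          push_cast
          linarith
        · have := pT q2
          simp only [Bool.false_and, Bool.true_and, Bool.not_true, Bool.and_false, Bool.and_true,
            Bool.false_or, Bool.or_false, cond_true, cond_false, Bool.or_true, Bool.true_or]
          push_cast
          linarith
    · cases s2
      · cases o1
        · have := pF q1
          simp only [Bool.false_and, Bool.true_and, Bool.not_false, Bool.and_false, Bool.and_true,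
            Bool.false_or, Bool.or_false, cond_true, cond_false, Bool.or_true, Bool.true_or]
          push_cast
          linarith
        · have := pT q1
          simp only [Bool.false_and, Bool.true_and, Bool.not_true, Bool.and_false, Bool.and_true,
            Bool.false_or, Bool.or_false, cond_true, cond_false, Bool.or_true, Bool.true_or]
          push_cast
          linarith
      · simp at hs
  · cases s1
    · cases s2
      · cases o0
        · have := pF q0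
          simp only [Bool.false_and, Bool.true_and, Bool.not_false, Bool.and_false, Bool.and_true,
            Bool.false_or, Bool.or_false, cond_true, cond_false, Bool.or_true, Bool.true_or]
          push_cast
          linarith
        · have := pT q0
          simp only [Bool.false_and, Bool.true_and, Bool.not_true, Bool.and_false, Bool.and_true,
            Bool.false_or, Bool.or_false, cond_true, cond_false, Bool.or_true, Bool.true_or]
          push_cast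
          linarith
      · simp at hs
    · simp at hs

theorem e1_eq (e : Bool) : e1 e = (bif e then (1 : ℤ) else 0) := rfl

theorem lfv_sound (h : OF A) (h0 : A a a = none) (hn : [a, m0, m1, m2].Nodup)
    (hs : Slk o0 o1 o2 s0 s1 s2 = true)
    (q0 : PairR o0 (rc A a m0 m2 m1) (rc A a m1 m0 m2))
    (q1 : PairR o1 (rc A a m1 m0 m2) (rc A a m2 m1 m0))
    (q2 : PairR o2 (rc A a m2 m1 m0) (rc A a m0 m2 m1)) {v : Vc} {r : List ℕ} {b0 b1 b2 : Bx}
    (k : lfv pr o0 o1 o2 s0 s1 s2 v r b0 b1 b2 = true)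
    (p0 : Pos true b0 (fo a (A a m0)) (rc A a m0 m2 m1))
    (p1 : Pos pr b1 (fo a (A a m1)) (rc A a m1 m0 m2))
    (p2 : Pos true b2 (fo a (A a m2)) (rc A a m2 m1 m0)) :
    96000 * VV A a ≤ bnd v (rc A a m0 m2 m1) (rc A a m1 m0 m2) (rc A a m2 m1 m0) := by
  unfold lfv at k
  rw [Bool.and_eq_true, Nat.ble_eq] at k
  obtain ⟨k0, k1⟩ := k
  have hm := ol_bits h h0 hn hs q0 q1 q2 (tb0 o0 o2 s0 s2 v r).tab (tb1 o0 o1 s0 s1 v r).tab
    (tb2 o1 o2 s1 s2 v r).tab (M := (v.c : ℝ) - 264) (fun g0 g1 g2 n0 n1 n2 z0 z1 z2 r0 r1 r2 => by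
      obtain ⟨x0, w0, l0⟩ := p0.val (tb0 o0 o2 s0 s2 v r) n0 z0
      obtain ⟨x1, w1, l1⟩ := p1.val (tb1 o0 o1 s0 s1 v r) n1 z1
      obtain ⟨x2, w2, l2⟩ := p2.val (tb2 o1 o2 s1 s2 v r) n2 z2
      have hx := ckO_sound k1 w0 w1 w2 r0 r1 r2
      have e : (mo v : ℤ) = 50427384 + v.c := by
        unfold mo at k0 ⊢
        omega
      rw [e] at hx
      have hx' : (x0 : ℝ) + x1 + x2 ≤ v.c - 264 := by
        have : x0 + x1 + x2 ≤ v.c - 264 := by omega
        exact_mod_cast this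
      linarith)
  have hr := rep_nonneg hs q0 q1 q2 v r
  linarith

theorem lfOK_sound (h : OF A) (h0 : A a a = none) (hn : [a, m0, m1, m2].Nodup)
    (hs : Slk o0 o1 o2 s0 s1 s2 = true)
    (q0 : PairR o0 (rc A a m0 m2 m1) (rc A a m1 m0 m2))
    (q1 : PairR o1 (rc A a m1 m0 m2) (rc A a m2 m1 m0))
    (q2 : PairR o2 (rc A a m2 m1 m0) (rc A a m0 m2 m1)) {u0 u1 u2 : Vc} (q : Lf) (b0 b1 b2 : Bx)
    (k : lfOK pr o0 o1 o2 s0 s1 s2 u0 u1 u2 q b0 b1 b2 = true)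
    (p0 : Pos true b0 (fo a (A a m0)) (rc A a m0 m2 m1))
    (p1 : Pos pr b1 (fo a (A a m1)) (rc A a m1 m0 m2))
    (p2 : Pos true b2 (fo a (A a m2)) (rc A a m2 m1 m0)) :
    Alt (96000 * VV A a) u0 u1 u2 (rc A a m0 m2 m1) (rc A a m1 m0 m2) (rc A a m2 m1 m0) := by
  unfold lfOK at k
  rw [Bool.and_eq_true, Nat.beq_eq] at k
  exact alt_of k.1 (lfv_sound h h0 hn hs q0 q1 q2 k.2 p0 p1 p2)

/-! ### Leaves with a high main cell -/

/-- a leaf with a high main cell -/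
structure Lm where
  t0 : ℕ
  t1 : ℕ
  t2 : ℕ
  al : ℕ
  bw : ℕ
  n0 : ℕ
  n1 : ℕ
  n2 : ℕ

/-- `MajPair (al / 96000) (bw / 4800)` -/
def mjOK (al bw : ℕ) : Bool :=
  Bool.and (Bool.and (Nat.ble (Nat.add 23040 (Nat.mul 4 bw)) al)
    (Bool.or (Nat.ble 1345 bw)
      (Nat.ble (Nat.add 6488064 (Nat.mul (Nat.add 384 bw) (Nat.add 384 bw))) (Nat.mul 288 al))))
    (Bool.and (Nat.ble (Nat.add 16768 (Nat.mul 12 bw)) al) (Nat.ble (Nat.mul 20 bw) al))

theorem mjOK_sound {al bw : ℕ} (h : mjOK al bw = true) :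
    MajPair ((al : ℝ) / 96000) ((bw : ℝ) / 4800) := by
  unfold mjOK at h
  simp only [Bool.and_eq_true, Bool.or_eq_true, Nat.ble_eq] at h
  obtain ⟨⟨h1, h2⟩, h3, h4⟩ := h
  have h1' : (23040 + 4 * bw : ℝ) ≤ al := by exact_mod_cast h1
  have h3' : (16768 + 12 * bw : ℝ) ≤ al := by exact_mod_cast h3
  have h4' : (20 * bw : ℝ) ≤ al := by exact_mod_cast h4
  refine ⟨by positivity, by linarith, fun hb => ?_, by linarith, by linarith⟩
  have h2 : Nat.add 6488064 (Nat.mul (Nat.add 384 bw) (Nat.add 384 bw)) ≤ Nat.mul 288 al := by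
    rcases h2 with h2 | h2
    · have : (1345 : ℝ) ≤ bw := by exact_mod_cast h2
      rw [div_le_div_iff₀ (by norm_num) (by norm_num)] at hb
      linarith
    · exact h2
  have h2' : (6488064 + (384 + bw) * (384 + bw) : ℝ) ≤ 288 * al := by exact_mod_cast h2
  rw [show (88 : ℝ) / 375 + 5 / 6 * (2 / 25 + (bw : ℝ) / 4800) ^ 2 =
    (6488064 + (384 + bw) * (384 + bw)) / 27648000 by ring]
  rw [div_le_div_iff₀ (by norm_num) (by norm_num)]
  linarith

/-- the check of a main leaf -/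
def lmv (pr : Bool) (v : Vc) (q : Lm) (b0 b1 b2 : Bx) : Bool :=
  Bool.and (Bool.and (mjOK q.al q.bw)
      (Nat.ble (Nat.add (Nat.add q.al q.n0) (Nat.add q.n1 q.n2)) (mo v)))
    (Bool.and (mainOK1 geo0 q.n0 q.bw (cD true b0 (tI false false false [] v.y1 0 v.y2)))
      (Bool.and (mainOK1 geo0 q.n1 q.bw (cD pr b1 (tI false false false [] v.es v.ep 0)))
        (mainOK1 geo0 q.n2 q.bw (cD true b2 (tI false false false [] 0 v.x2 v.x1)))))

def lmOK (pr : Bool) (u0 u1 u2 : Vc) (q : Lm) (b0 b1 b2 : Bx) : Bool :=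
  Bool.and (Nat.beq (Nat.add (Nat.add q.t0 q.t1) q.t2) 48)
    (Bool.and (Nat.ble 1 (mo (comb q.t0 q.t1 q.t2 u0 u1 u2)))
      (lmv pr (comb q.t0 q.t1 q.t2 u0 u1 u2) q b0 b1 b2))

theorem lmv_sound (h : OF A) {N : Fin 4 → ℝ} (hN : A a a = some N) (hd : 3 / 5 ≤ N a - 1)
    (hn : [a, m0, m1, m2].Nodup) {v : Vc} {q : Lm} {b0 b1 b2 : Bx} (k0 : 1 ≤ mo v)
    (k : lmv pr v q b0 b1 b2 = true)
    (p0 : Pos true b0 (fo a (A a m0)) (rc A a m0 m2 m1))
    (p1 : Pos pr b1 (fo a (A a m1)) (rc A a m1 m0 m2))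
    (p2 : Pos true b2 (fo a (A a m2)) (rc A a m2 m1 m0)) :
    96000 * VV A a ≤ bnd v (rc A a m0 m2 m1) (rc A a m1 m0 m2) (rc A a m2 m1 m0) := by
  unfold lmv at k
  simp only [Bool.and_eq_true, Nat.ble_eq] at k
  obtain ⟨⟨k1, k2⟩, k3, k4, k5⟩ := k
  have e : (mo v : ℤ) = 50427384 + v.c := by
    unfold mo at k0 ⊢
    omega
  have main : ∀ {pr : Bool} {b : Bx} {f : ℝ} {c : RC} {t : TI} {n : ℕ},
      mainOK1 geo0 n q.bw (cD pr b t) = true → Pos pr b f c →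
      ∀ g, NearC c g → g.Sum → 4 * (g.vol : ℝ) + t.tab.grid g - 4800 * ((q.bw : ℝ) / 4800) *
        (max g.w 0 : ℤ) ≤ (n : ℝ) - 16809216 := by
    intro pr b f c t n hk hp g hg hs
    obtain ⟨x, hx, hl⟩ := hp.val t hg hs
    have := main1_sound geo0_ok hk hx
    have : (x : ℝ) - q.bw * (max g.w 0 : ℤ) ≤ (n : ℝ) - 16809216 := by exact_mod_cast this
    rw [show 4800 * ((q.bw : ℝ) / 4800) = q.bw by ring]
    linarith
  have hm := ol_main h hN hd hn (tI false false false [] v.y1 0 v.y2).tab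
    (tI false false false [] v.es v.ep 0).tab (tI false false false [] 0 v.x2 v.x1).tab
    (mjOK_sound k1) (main k3 p0) (main k4 p1) (main k5 p2)
  rw [tI_real, tI_real, tI_real] at hm
  have e2 : ((q.al : ℝ) + q.n0) + (q.n1 + q.n2) ≤ 50427384 + v.c := by
    have : ((q.al + q.n0 + (q.n1 + q.n2) : ℕ) : ℤ) ≤ 50427384 + v.c := by
      rw [← e]
      exact_mod_cast k2
    exact_mod_cast this
  unfold bnd
  simp only [cond_false] at hm
  push_cast at hm
  linarith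

theorem lmOK_sound (h : OF A) {N : Fin 4 → ℝ} (hN : A a a = some N) (hd : 3 / 5 ≤ N a - 1)
    (hn : [a, m0, m1, m2].Nodup) {u0 u1 u2 : Vc} (q : Lm) (b0 b1 b2 : Bx)
    (k : lmOK pr u0 u1 u2 q b0 b1 b2 = true)
    (p0 : Pos true b0 (fo a (A a m0)) (rc A a m0 m2 m1))
    (p1 : Pos pr b1 (fo a (A a m1)) (rc A a m1 m0 m2))
    (p2 : Pos true b2 (fo a (A a m2)) (rc A a m2 m1 m0)) :
    Alt (96000 * VV A a) u0 u1 u2 (rc A a m0 m2 m1) (rc A a m1 m0 m2) (rc A a m2 m1 m0) := by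
  unfold lmOK at k
  rw [Bool.and_eq_true, Bool.and_eq_true, Nat.beq_eq, Nat.ble_eq] at k
  exact alt_of k.1 (lmv_sound h hN hd hn k.2.1 k.2.2 p0 p1 p2)

end

/-! ### Trees -/

/-- a tree of thresholds: cell `k`, coordinate `i` (`0, 1, 2, 3` for `w, X, Y, D`) at `t` -/
inductive Tr (L : Type) where
  | lf : L → Tr L
  | nd : ℕ → ℕ → ℕ → Tr L → Tr L → Tr L

/-- the check of a tree -/
def Tr.chk {L : Type} (f : L → Bx → Bx → Bx → Bool) : Tr L → Bx → Bx → Bx → Bool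
  | .lf x, b0, b1, b2 => f x b0 b1 b2
  | .nd k i t l r, b0, b1, b2 =>
    bif Nat.beq k 0 then Bool.and (l.chk f (b0.hi i t) b1 b2) (r.chk f (b0.lo i t) b1 b2)
    else bif Nat.beq k 1 then Bool.and (l.chk f b0 (b1.hi i t) b2) (r.chk f b0 (b1.lo i t) b2)
    else Bool.and (l.chk f b0 b1 (b2.hi i t)) (r.chk f b0 b1 (b2.lo i t))

theorem Pos.hi {pr : Bool} {b : Bx} {f : ℝ} {c : RC} (h : Pos pr b f c) {i t : ℕ}
    (ht : cget c i ≤ t) : Pos pr (b.hi i t) f c := by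
  cases pr
  · exact h
  · exact ⟨h.1, h.2.1, h.2.2.hi ht⟩

theorem Pos.lo {pr : Bool} {b : Bx} {f : ℝ} {c : RC} (h : Pos pr b f c) {i t : ℕ}
    (ht : (t : ℝ) ≤ cget c i) : Pos pr (b.lo i t) f c := by
  cases pr
  · exact h
  · exact ⟨h.1, h.2.1, h.2.2.lo ht⟩

/-- **Soundness of a tree.** -/
theorem Tr.sound {L : Type} {f : L → Bx → Bx → Bx → Bool} {G : Prop} {pr : Bool}
    {f0 f1 f2 : ℝ} {c0 c1 c2 : RC}
    (hl : ∀ x b0 b1 b2, f x b0 b1 b2 = true → Pos true b0 f0 c0 → Pos pr b1 f1 c1 →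
      Pos true b2 f2 c2 → G) :
    ∀ (T : Tr L) (b0 b1 b2 : Bx), T.chk f b0 b1 b2 = true → Pos true b0 f0 c0 → Pos pr b1 f1 c1 →
      Pos true b2 f2 c2 → G := by
  intro T
  induction T with
  | lf x => exact fun b0 b1 b2 h p0 p1 p2 => hl x b0 b1 b2 h p0 p1 p2
  | nd k i t l r ihl ihr =>
    intro b0 b1 b2 h p0 p1 p2
    have h : (bif Nat.beq k 0 then Bool.and (l.chk f (b0.hi i t) b1 b2) (r.chk f (b0.lo i t) b1 b2)
      else bif Nat.beq k 1 then Bool.and (l.chk f b0 (b1.hi i t) b2) (r.chk f b0 (b1.lo i t) b2)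
      else Bool.and (l.chk f b0 b1 (b2.hi i t)) (r.chk f b0 b1 (b2.lo i t))) = true := h
    cases k0 : Nat.beq k 0
    · rw [k0] at h
      cases k1 : Nat.beq k 1
      · rw [k1] at h
        have h : Bool.and (l.chk f b0 b1 (b2.hi i t)) (r.chk f b0 b1 (b2.lo i t)) = true := h
        rw [Bool.and_eq_true] at h
        rcases le_total (cget c2 i) (t : ℝ) with g | g
        · exact ihl _ _ _ h.1 p0 p1 (p2.hi g)
        · exact ihr _ _ _ h.2 p0 p1 (p2.lo g)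
      · rw [k1] at h
        have h : Bool.and (l.chk f b0 (b1.hi i t) b2) (r.chk f b0 (b1.lo i t) b2) = true := h
        rw [Bool.and_eq_true] at h
        rcases le_total (cget c1 i) (t : ℝ) with g | g
        · exact ihl _ _ _ h.1 p0 (p1.hi g) p2
        · exact ihr _ _ _ h.2 p0 (p1.lo g) p2
    · rw [k0] at h
      have h : Bool.and (l.chk f (b0.hi i t) b1 b2) (r.chk f (b0.lo i t) b1 b2) = true := h
      rw [Bool.and_eq_true] at h
      rcases le_total (cget c0 i) (t : ℝ) with g | g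
      · exact ihl _ _ _ h.1 (p0.hi g) p1 p2
      · exact ihr _ _ _ h.2 (p0.lo g) p1 p2

end Pool.Agent.Helper95.TS
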