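import Mathlib

/-!
# Rounding with a common threshold: a good threshold exists
-/

set_option autoImplicit false

namespace Pool.Agent.Helper95.TS

open MeasureTheory

theorem floor_add_eq (z t : ℝ) : (⌊z + t⌋ : ℝ) = z + t - Int.fract (z + t) := by
  have := Int.self_sub_fract (z + t)
  linarith

theorem fract_int : ∫ t in (0 : ℝ)..1, Int.fract t = 1 / 2 := by
  have h : ∫ t in (0 : ℝ)..1, Int.fract t = ∫ t in (0 : ℝ)..1, t := by
    refine intervalIntegral.integral_congr_ae ?_
    have : ∀ᵐ t : ℝ, t ≠ 1 := by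
      simp [ae_iff, measure_singleton]
    filter_upwards [this] with t ht hm
    rw [Set.uIoc_of_le zero_le_one] at hm
    rw [Int.fract_eq_self.2 ⟨hm.1.le, lt_of_le_of_ne hm.2 ht⟩]
  rw [h, integral_id]
  norm_num

theorem fract_intble (a b : ℝ) : IntervalIntegrable (fun t : ℝ => Int.fract t) volume a b := by
  refine intervalIntegrable_iff.2 ?_
  refine Measure.integrableOn_of_bounded (M := 1) ?_ ?_ ?_
  · simp [Set.uIoc]
  · exact (measurable_fract : Measurable (Int.fract : ℝ → ℝ)).aestronglyMeasurable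
  · refine Filter.Eventually.of_forall fun t => ?_
    rw [Real.norm_eq_abs, abs_of_nonneg (Int.fract_nonneg t)]
    exact (Int.fract_lt_one t).le

theorem fract_shift (z : ℝ) : ∫ t in (0 : ℝ)..1, Int.fract (z + t) = 1 / 2 := by
  have hp : Function.Periodic (fun t : ℝ => Int.fract t) 1 := fun t => Int.fract_add_one t
  have h := hp.intervalIntegral_add_eq z 0
  rw [zero_add, fract_int] at h
  rw [intervalIntegral.integral_comp_add_left (fun t : ℝ => Int.fract t) z, add_zero, h]

theorem floor_intble (z : ℝ) : IntervalIntegrable (fun t : ℝ => (⌊z + t⌋ : ℝ)) volume 0 1 := by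
  simp only [floor_add_eq]
  refine ((intervalIntegrable_const).add intervalIntegral.intervalIntegrable_id).sub ?_
  have := (fract_intble (z + 0) (z + 1)).comp_add_left z
  simpa using this

theorem floor_int (z : ℝ) : ∫ t in (0 : ℝ)..1, ((⌊z + t⌋ : ℝ) - z) = 0 := by
  have e : ∀ t : ℝ, (⌊z + t⌋ : ℝ) - z = t - Int.fract (z + t) := fun t => by
    rw [floor_add_eq]; ring
  simp only [e]
  rw [intervalIntegral.integral_sub intervalIntegral.intervalIntegrable_id, integral_id,
    fract_shift]
  · norm_num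
  · have := (fract_intble (z + 0) (z + 1)).comp_add_left z
    simpa using this

/-- **A good threshold exists.** -/
theorem exists_theta {ι : Type*} (s : Finset ι) (c z : ι → ℝ) :
    ∃ t : ℝ, 0 ≤ t ∧ t < 1 ∧ 0 ≤ ∑ k ∈ s, c k * ((⌊z k + t⌋ : ℝ) - z k) := by
  have hI : IntervalIntegrable (fun t : ℝ => ∑ k ∈ s, c k * ((⌊z k + t⌋ : ℝ) - z k)) volume 0 1 := by
    have h1 : ∀ k ∈ s, IntervalIntegrable (fun t : ℝ => c k * ((⌊z k + t⌋ : ℝ) - z k))
        volume 0 1 := fun k _ =>
      ((floor_intble (z k)).sub intervalIntegrable_const).const_mul (c k)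
    have h2 := IntervalIntegrable.sum s h1
    have e : (∑ k ∈ s, fun t : ℝ => c k * ((⌊z k + t⌋ : ℝ) - z k)) =
        fun t : ℝ => ∑ k ∈ s, c k * ((⌊z k + t⌋ : ℝ) - z k) := by
      funext t
      simp
    rwa [e] at h2
  have h0 : ∫ t in (0 : ℝ)..1, ∑ k ∈ s, c k * ((⌊z k + t⌋ : ℝ) - z k) = 0 := by
    rw [intervalIntegral.integral_finsetSum]
    · refine Finset.sum_eq_zero fun k _ => ?_
      rw [intervalIntegral.integral_const_mul, floor_int, mul_zero]
    · intro k _
      exact ((floor_intble (z k)).sub intervalIntegrable_const).const_mul _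
  rw [intervalIntegral.integral_of_le zero_le_one, ← integral_Ico_eq_integral_Ioc] at h0
  have hI' : IntegrableOn (fun t : ℝ => ∑ k ∈ s, c k * ((⌊z k + t⌋ : ℝ) - z k))
      (Set.Ico 0 1) volume := by
    have := (intervalIntegrable_iff_integrableOn_Ioc_of_le zero_le_one).1 hI
    rwa [integrableOn_Ico_iff_integrableOn_Ioo, ← integrableOn_Ioc_iff_integrableOn_Ioo]
  obtain ⟨t, ht, h⟩ := exists_setAverage_le (μ := volume) (s := Set.Ico (0 : ℝ) 1) (by simp)
    (by simp) hI'
  refine ⟨t, ht.1, ht.2, ?_⟩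
  rw [setAverage_eq, h0, smul_zero] at h
  exact h

end Pool.Agent.Helper95.TS
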